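import Pool.Agent.DNP18.Sys

/-!
# [DNP-ARRA] the prime factors of `M`

`M ∣ C(2N,N)`, `gcd(M, N!) = 1`. A prime `r ∣ M` divides `(2N)! = C(2N,N) (N!)²`, so `r ≤ 2N`, and `r ∤ N!`, so `N < r`.
For such `r`: `r² ∤ (2N)!` as `2r > 2N` (`Nat.Prime.multiplicity_factorial`, or `factorization_choose_le_one`-type
lemmas: `Nat.factorization_choose_le_one : 2N < r² → ...`; for `r > N`, `r² > 2N` if `r ≥ 2`,
`(N+1)² > 2N`). Hence `M` is squarefree. Conversely a product of different primes in `(N, 2N]` divides `C(2N,N)`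
(each divides it: `r ∣ (2N)!`, `r ∤ N!`; pairwise coprime) and is coprime to `N!`.
-/

namespace Pool.Agent.DNP18

open Finset

private theorem arrA_fact (N : ℕ) :
    (2 * N).choose N * N.factorial * N.factorial = (2 * N).factorial := by
  have h := Nat.choose_mul_factorial_mul_factorial (n := 2 * N) (k := N) (by omega)
  rwa [show 2 * N - N = N by omega] at h

theorem prime_range {N M r : ℕ} (hM : M ∣ (2 * N).choose N) (hco : Nat.Coprime M N.factorial)
    (hr : r ∈ M.primeFactors) : r.Prime ∧ N < r ∧ r ≤ 2 * N := by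
  have hp := Nat.prime_of_mem_primeFactors hr
  have hd := Nat.dvd_of_mem_primeFactors hr
  refine ⟨hp, ?_, ?_⟩
  · by_contra h
    rw [not_lt] at h
    have h1 : r ∣ N.factorial := (Nat.Prime.dvd_factorial hp).mpr h
    have h2 : r ∣ 1 := by
      rw [← hco.gcd_eq_one]
      exact Nat.dvd_gcd hd h1
    exact hp.one_lt.ne' (Nat.dvd_one.mp h2)
  · refine (Nat.Prime.dvd_factorial hp).mp ?_
    rw [← arrA_fact N, mul_assoc]
    exact Dvd.dvd.mul_right (hd.trans hM) _

theorem squarefree_M {N M : ℕ} (hM : M ∣ (2 * N).choose N) (hco : Nat.Coprime M N.factorial) :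
    Squarefree M := by
  have hpos : 0 < (2 * N).choose N := Nat.choose_pos (by omega)
  have hM0 : M ≠ 0 := fun h => by
    rw [h] at hM
    exact hpos.ne' (Nat.eq_zero_of_zero_dvd hM)
  rw [Nat.squarefree_iff_prime_squarefree]
  intro x hx hxx
  have hmem : x ∈ M.primeFactors := Nat.mem_primeFactors.mpr ⟨hx, (Dvd.intro _ rfl).trans hxx, hM0⟩
  obtain ⟨-, h1, -⟩ := prime_range hM hco hmem
  have h2 : 2 * N < x ^ 2 := by
    have := hx.two_le
    nlinarith
  have h3 := Nat.factorization_choose_le_one (p := x) (n := 2 * N) (k := N) h2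
  have h4 : x ^ 2 ∣ (2 * N).choose N := by
    rw [sq]
    exact hxx.trans hM
  have h5 := (Nat.Prime.pow_dvd_iff_le_factorization hx hpos.ne').mp h4
  omega

theorem prod_primeFactors {N M : ℕ} (hM : M ∣ (2 * N).choose N) (hco : Nat.Coprime M N.factorial) :
    ∏ r ∈ M.primeFactors, r = M :=
  Nat.prod_primeFactors_of_squarefree (squarefree_M hM hco)

theorem card_primeFactors_le {N M : ℕ} (hM : M ∣ (2 * N).choose N)
    (hco : Nat.Coprime M N.factorial) : M.primeFactors.card ≤ N := by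
  have h1 : M.primeFactors ⊆ Finset.Ioc N (2 * N) := by
    intro r hr
    obtain ⟨-, h2, h3⟩ := prime_range hM hco hr
    exact Finset.mem_Ioc.mpr ⟨h2, h3⟩
  have h2 := Finset.card_le_card h1
  rw [Nat.card_Ioc] at h2
  omega

private theorem arrA_pow {N M : ℕ} (hM : M ∣ (2 * N).choose N) (hco : Nat.Coprime M N.factorial)
    (e : ℕ) : M ^ e = ∏ r ∈ M.primeFactors, r ^ e := by
  rw [Finset.prod_pow, prod_primeFactors hM hco]

private theorem arrA_cop {M : ℕ} (e : ℕ) :
    Set.Pairwise (M.primeFactors : Set ℕ) (Function.onFun Nat.Coprime (fun r => r ^ e)) := by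
  intro r hr r' hr' hne
  exact Nat.Coprime.pow _ _ ((Nat.coprime_primes (Nat.prime_of_mem_primeFactors hr)
    (Nat.prime_of_mem_primeFactors hr')).mpr hne)

/-- an integer is divisible by `M ^ e` iff it is divisible by all `r ^ e` -/
theorem pow_M_dvd_iff {N M : ℕ} (hM : M ∣ (2 * N).choose N) (hco : Nat.Coprime M N.factorial)
    (e : ℕ) (x : ℤ) : ((M ^ e : ℕ) : ℤ) ∣ x ↔ ∀ r ∈ M.primeFactors, ((r ^ e : ℕ) : ℤ) ∣ x := by
  constructor
  · intro h r hr
    exact (Int.natCast_dvd_natCast.mpr (pow_dvd_pow_of_dvd (Nat.dvd_of_mem_primeFactors hr) e)).trans h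
  · intro h
    rw [arrA_pow hM hco e, Nat.cast_prod]
    refine Finset.prod_dvd_of_coprime ?_ h
    intro r hr r' hr' hne
    exact Nat.isCoprime_iff_coprime.mpr (arrA_cop e hr hr' hne)

/-- Chinese remainder theorem -/
theorem crt_M {N M : ℕ} (hM : M ∣ (2 * N).choose N) (hco : Nat.Coprime M N.factorial)
    (e : ℕ) (a : ℕ → ℕ) (ha : ∀ r ∈ M.primeFactors, a r < r ^ e) :
    ∃ A < M ^ e, ∀ r ∈ M.primeFactors, A % r ^ e = a r := by
  have hs : ∀ r ∈ M.primeFactors, (fun r => r ^ e) r ≠ 0 := fun r hr =>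
    (pow_pos (Nat.prime_of_mem_primeFactors hr).pos e).ne'
  refine ⟨Nat.chineseRemainderOfFinset a (fun r => r ^ e) M.primeFactors hs (arrA_cop e), ?_, ?_⟩
  · rw [arrA_pow hM hco e]
    exact Nat.chineseRemainderOfFinset_lt_prod a (fun r => r ^ e) hs (arrA_cop e)
  · intro r hr
    have h1 := (Nat.chineseRemainderOfFinset a (fun r => r ^ e) M.primeFactors hs (arrA_cop e)).2 r hr
    have h2 : (Nat.chineseRemainderOfFinset a (fun r => r ^ e) M.primeFactors hs
      (arrA_cop e) : ℕ) % r ^ e = a r % r ^ e := h1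
    rw [h2, Nat.mod_eq_of_lt (ha r hr)]

/-- a product of primes in `(N, 2N]` -/
theorem M_of_primes {N : ℕ} (s : Finset ℕ) (hs : ∀ r ∈ s, r.Prime ∧ N < r ∧ r ≤ 2 * N) :
    (∏ r ∈ s, r) ∣ (2 * N).choose N ∧ Nat.Coprime (∏ r ∈ s, r) N.factorial ∧
      (∏ r ∈ s, r).primeFactors = s := by
  have hnd : ∀ r ∈ s, ¬ r ∣ N.factorial := by
    intro r hr h
    obtain ⟨hp, h1, -⟩ := hs r hr
    have := (Nat.Prime.dvd_factorial hp).mp h
    omega
  refine ⟨?_, ?_, Nat.primeFactors_prod (fun r hr => (hs r hr).1)⟩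
  · refine Finset.prod_primes_dvd _ (fun r hr => (hs r hr).1.prime) ?_
    intro r hr
    obtain ⟨hp, -, h2⟩ := hs r hr
    have h3 : r ∣ (2 * N).choose N * N.factorial * N.factorial := by
      rw [arrA_fact N]
      exact (Nat.Prime.dvd_factorial hp).mpr h2
    rcases (Nat.Prime.dvd_mul hp).mp h3 with h4 | h4
    · rcases (Nat.Prime.dvd_mul hp).mp h4 with h5 | h5
      · exact h5
      · exact absurd h5 (hnd r hr)
    · exact absurd h4 (hnd r hr)
  · refine Nat.Coprime.prod_left ?_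
    intro r hr
    exact ((hs r hr).1.coprime_iff_not_dvd).mpr (hnd r hr)

end Pool.Agent.DNP18
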