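import Pool.Agent.DNP18.ArrA

/-!
# [DNP-ARRB] the index array and the sum functional modulo the prime powers

`Sys.c_mod`: `N! C(c-N-1, N) = ∏_{N<j≤2N} (c - j)` (descending factorial; `c > 2N`), divisible by `r^(e+1)`; as `r ∣ c`
(because `r ∣ M ∣ c`) a factor `c - j`, `N < j ≤ 2N`, is divisible by `r` only for `j = r`
(`r ∣ j`, `j ≤ 2N < 2r`). So `r^(e+1) ∣ c - r` (all other factors and `N!` are coprime to `r`).
`Sys.H_mod`: let `u = c / M`, `e = e1 k`, `M = r M'`, so `c = r M' u` and `r^(e+1) ∣ r (M' u - 1)`, so `r^e ∣ M' u - 1`.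
`N^k H u^e ≡ (c^e1 - (c-N)^e1)^k ≡ (r^e1 - (r-N)^e1)^k = N^k lam` modulo `r^e`, where
`lam = ((r^e1 - (r-N)^e1)/N)^k` (the difference is divisible by `N`); `N` is invertible modulo `r`
(`N < r`), so `H u^e ≡ lam`, and multiplying by `M'^e`: `H ≡ lam M'^e`.
-/

namespace Pool.Agent.DNP18

open Finset

/-- the weights: `((r^e1 - (r-N)^e1)/N)^k` -/
def lam (N e1 k r : ℕ) : ℕ := ((r ^ e1 - (r - N) ^ e1) / N) ^ k

theorem lam_mul {N e1 k r : ℕ} (hN : 1 ≤ N) (hr : N < r) :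
    N ^ k * lam N e1 k r = (r ^ e1 - (r - N) ^ e1) ^ k := by
  have h1 : N ∣ r ^ e1 - (r - N) ^ e1 := by
    have h2 := Nat.sub_dvd_pow_sub_pow r (r - N) e1
    rwa [show r - (r - N) = N by omega] at h2
  unfold lam
  rw [← mul_pow, Nat.mul_div_cancel' h1]

theorem Sys.c_mod {N M e1 k c H : ℕ} (h : Sys N M e1 k c H) {r : ℕ} (hr : r ∈ M.primeFactors) :
    ((r ^ (e1 * k + 1) : ℕ) : ℤ) ∣ (c : ℤ) - r := by
  obtain ⟨hp, h1, h2⟩ := prime_range h.hM h.hco hr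
  have hrM : r ∣ M := Nat.dvd_of_mem_primeFactors hr
  have hrc : r ∣ c := hrM.trans h.hc
  have hc := h.hc'
  have h3 : r ^ (e1 * k + 1) ∣ ∏ i ∈ range N, (c - N - 1 - i) := by
    rw [← Nat.descFactorial_eq_prod_range, Nat.descFactorial_eq_factorial_mul_choose]
    exact Dvd.dvd.mul_left ((pow_dvd_pow_of_dvd hrM _).trans h.hC) _
  have hi0 : r - N - 1 ∈ range N := Finset.mem_range.mpr (by omega)
  rw [← Finset.mul_prod_erase _ _ hi0] at h3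
  have h4 : Nat.Coprime (r ^ (e1 * k + 1)) (∏ i ∈ (range N).erase (r - N - 1), (c - N - 1 - i)) := by
    refine Nat.Coprime.prod_right ?_
    intro i hi
    obtain ⟨hi1, hi2⟩ := Finset.mem_erase.mp hi
    rw [Finset.mem_range] at hi2
    refine Nat.Coprime.pow_left _ ?_
    rw [hp.coprime_iff_not_dvd]
    intro hd
    have h5 : c - N - 1 - i = c - (N + 1 + i) := by omega
    rw [h5] at hd
    have h6 : r ∣ N + 1 + i := by
      have h7 : r ∣ c - (c - (N + 1 + i)) := Nat.dvd_sub hrc hd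
      rwa [show c - (c - (N + 1 + i)) = N + 1 + i by omega] at h7
    obtain ⟨q, hq⟩ := h6
    have hq1 : 0 < q := by
      rcases Nat.eq_zero_or_pos q with h8 | h8
      · subst h8
        omega
      · exact h8
    have hq2 : q < 2 := by
      by_contra h8
      rw [not_lt] at h8
      have h9 : r * 2 ≤ r * q := Nat.mul_le_mul_left r h8
      omega
    have hq3 : q = 1 := by omega
    subst hq3
    omega
  have h5 : r ^ (e1 * k + 1) ∣ c - N - 1 - (r - N - 1) := h4.dvd_of_dvd_mul_right h3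
  rw [show c - N - 1 - (r - N - 1) = c - r by omega] at h5
  have h6 : ((r ^ (e1 * k + 1) : ℕ) : ℤ) ∣ ((c - r : ℕ) : ℤ) := Int.natCast_dvd_natCast.mpr h5
  rwa [Nat.cast_sub (by omega)] at h6

theorem Sys.H_mod {N M e1 k c H : ℕ} (h : Sys N M e1 k c H) {r : ℕ} (hr : r ∈ M.primeFactors) :
    ((r ^ (e1 * k) : ℕ) : ℤ) ∣ (H : ℤ) - lam N e1 k r * ((M / r : ℕ) : ℤ) ^ (e1 * k) := by
  obtain ⟨hp, h1, h2⟩ := prime_range h.hM h.hco hr
  have hrM : r ∣ M := Nat.dvd_of_mem_primeFactors hr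
  have hcm := h.c_mod hr
  have hcM : c = M * (c / M) := (Nat.mul_div_cancel' h.hc).symm
  have hMr : M = r * (M / r) := (Nat.mul_div_cancel' hrM).symm
  have hr0 : (r : ℤ) ≠ 0 := by exact_mod_cast hp.pos.ne'
  set u := c / M with hu
  set m := M / r with hm
  have hcz : (c : ℤ) = r * (m * u) := by
    have h3 : c = r * (m * u) := by
      rw [← mul_assoc, ← hMr]
      exact hcM
    exact_mod_cast h3
  -- `M' u ≡ 1`
  have e1' : (m : ℤ) * u ≡ 1 [ZMOD ((r ^ (e1 * k) : ℕ) : ℤ)] := by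
    have h3 : ((r ^ (e1 * k) : ℕ) : ℤ) ∣ (m : ℤ) * u - 1 := by
      have h4 : (r : ℤ) * ((r ^ (e1 * k) : ℕ) : ℤ) ∣ r * ((m : ℤ) * u - 1) := by
        have h5 : (r : ℤ) * ((r ^ (e1 * k) : ℕ) : ℤ) = ((r ^ (e1 * k + 1) : ℕ) : ℤ) := by
          push_cast
          ring
        rw [h5, mul_sub, mul_one, ← hcz]
        exact hcm
      exact (mul_dvd_mul_iff_left hr0).mp h4
    exact (Int.modEq_iff_dvd.mpr h3).symm
  -- `c ≡ r`
  have e2 : (c : ℤ) ≡ r [ZMOD ((r ^ (e1 * k) : ℕ) : ℤ)] := by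
    have h3 : ((r ^ (e1 * k) : ℕ) : ℤ) ∣ (c : ℤ) - r := by
      refine Dvd.dvd.trans ?_ hcm
      exact Int.natCast_dvd_natCast.mpr (pow_dvd_pow r (Nat.le_succ _))
    exact (Int.modEq_iff_dvd.mpr h3).symm
  have e3 : (N : ℤ) ^ k * H * (u : ℤ) ^ (e1 * k) ≡ ((c : ℤ) ^ e1 - ((c : ℤ) - N) ^ e1) ^ k
      [ZMOD ((r ^ (e1 * k) : ℕ) : ℤ)] := by
    have h3 : ((r ^ (e1 * k) : ℕ) : ℤ) ∣ (N : ℤ) ^ k * H * (u : ℤ) ^ (e1 * k) -
        ((c : ℤ) ^ e1 - ((c : ℤ) - N) ^ e1) ^ k := by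
      refine Dvd.dvd.trans ?_ h.hH'
      exact Int.natCast_dvd_natCast.mpr (pow_dvd_pow_of_dvd hrM _)
    exact (Int.modEq_iff_dvd.mpr h3).symm
  have e4 : ((c : ℤ) ^ e1 - ((c : ℤ) - N) ^ e1) ^ k ≡ ((r : ℤ) ^ e1 - ((r : ℤ) - N) ^ e1) ^ k
      [ZMOD ((r ^ (e1 * k) : ℕ) : ℤ)] :=
    ((e2.pow e1).sub ((e2.sub (Int.ModEq.refl (N : ℤ))).pow e1)).pow k
  have e5 : ((r : ℤ) ^ e1 - ((r : ℤ) - N) ^ e1) ^ k = (N : ℤ) ^ k * lam N e1 k r := by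
    have h3 := lam_mul (N := N) (e1 := e1) (k := k) (r := r) h.hN h1
    have h4 : (r - N) ^ e1 ≤ r ^ e1 := Nat.pow_le_pow_left (by omega) _
    have h5 : ((r - N : ℕ) : ℤ) = (r : ℤ) - N := Nat.cast_sub (by omega)
    have h6 : (((r ^ e1 - (r - N) ^ e1 : ℕ)) : ℤ) = (r : ℤ) ^ e1 - ((r : ℤ) - N) ^ e1 := by
      rw [Nat.cast_sub h4, Nat.cast_pow, Nat.cast_pow, h5]
    rw [← h6, ← Nat.cast_pow, ← h3, Nat.cast_mul, Nat.cast_pow]
  have e6 : (N : ℤ) ^ k * ((H : ℤ) * (u : ℤ) ^ (e1 * k)) ≡ (N : ℤ) ^ k * lam N e1 k r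
      [ZMOD ((r ^ (e1 * k) : ℕ) : ℤ)] := by
    rw [← mul_assoc, ← e5]
    exact e3.trans e4
  have hcop : IsCoprime (((r ^ (e1 * k) : ℕ) : ℤ)) ((N : ℤ) ^ k) := by
    rw [← Nat.cast_pow, Nat.isCoprime_iff_coprime]
    refine Nat.Coprime.pow _ _ ?_
    rw [hp.coprime_iff_not_dvd]
    intro hd
    have := Nat.le_of_dvd h.hN hd
    omega
  have e7 : (H : ℤ) * (u : ℤ) ^ (e1 * k) ≡ lam N e1 k r [ZMOD ((r ^ (e1 * k) : ℕ) : ℤ)] := by
    refine (Int.modEq_iff_dvd.mpr ?_).symm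
    have h3 := (Int.modEq_iff_dvd.mp e6.symm)
    rw [← mul_sub] at h3
    exact hcop.dvd_of_dvd_mul_left h3
  have e8 : (H : ℤ) ≡ lam N e1 k r * (m : ℤ) ^ (e1 * k) [ZMOD ((r ^ (e1 * k) : ℕ) : ℤ)] := by
    have h3 : (H : ℤ) * ((m : ℤ) * u) ^ (e1 * k) ≡ (H : ℤ) * 1 ^ (e1 * k)
        [ZMOD ((r ^ (e1 * k) : ℕ) : ℤ)] := (e1'.pow _).mul_left _
    rw [one_pow, mul_one] at h3
    refine h3.symm.trans ?_
    have h4 : (H : ℤ) * ((m : ℤ) * u) ^ (e1 * k)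
        = (H : ℤ) * (u : ℤ) ^ (e1 * k) * (m : ℤ) ^ (e1 * k) := by
      rw [mul_pow]
      ring
    rw [h4]
    exact e7.mul_right _
  exact Int.modEq_iff_dvd.mp e8.symm

end Pool.Agent.DNP18
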