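import Pool.Agent.DNP18.ArrB

/-!
# [DNP-ARRC] the sum functional

`e = e1 k`. Let `A ≡ a r` modulo `r^e` for all `r ∈ P = M.primeFactors`, `S = ∑ a r`. By `Sys.H_mod` and CRT
(`pow_M_dvd_iff`): `A H ≡ V := ∑_r a_r lam_r (M/r)^e` modulo `M^e` (modulo `r^e` all terms except that of `r` vanish as
`r ∣ M/r'` for `r' ≠ r`). We have `N^k lam_r (M/r)^e r^e = M^e (r^e1 - (r-N)^e1)^k`, so
`N^k lam_r (M/r)^e ≤ M^e` and `N^k lam_r (M/r)^e ≥ M^e (1 - k 2^(-e1))`, because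
`(1 - ((r-N)/r)^e1)^k ≥ 1 - k ((r-N)/r)^e1 ≥ 1 - k 2^(-e1)` (`2 (r - N) ≤ r`).
Hence `N^k V ≤ S M^e` and `N^k V ≥ S M^e - S k 2^(-e1) M^e > S M^e - M^e`. Since `S < N^k` also `V < M^e`
(`N^k V ≤ S M^e < N^k M^e`), so `V = A H % M^e`.
-/

namespace Pool.Agent.DNP18

open Finset

private theorem arrC_pow {N M e1 k c H r : ℕ} (_h : Sys N M e1 k c H) (hr : r ∈ M.primeFactors) :
    M ^ (e1 * k) = (r ^ e1) ^ k * (M / r) ^ (e1 * k) := by
  have hrM : r ∣ M := Nat.dvd_of_mem_primeFactors hr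
  have hMr : r * (M / r) = M := Nat.mul_div_cancel' hrM
  rw [← pow_mul, ← mul_pow, hMr]

private theorem arrC_lam {N M e1 k c H r : ℕ} (h : Sys N M e1 k c H) (hr : r ∈ M.primeFactors) :
    N ^ k * (lam N e1 k r * (M / r) ^ (e1 * k)) =
      (r ^ e1 - (r - N) ^ e1) ^ k * (M / r) ^ (e1 * k) := by
  obtain ⟨hp, h1, h2⟩ := prime_range h.hM h.hco hr
  rw [← mul_assoc, lam_mul h.hN h1]

private theorem arrC_bern (E x z : ℕ) (hz : z ≤ x) (h : E * x ≤ E * z + x) (k : ℕ) :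
    E * x ^ k ≤ E * z ^ k + k * x ^ k := by
  induction k with
  | zero => simp
  | succ k ih =>
    have h1 : E * x ^ (k + 1) ≤ (E * z ^ k + k * x ^ k) * x := by
      calc E * x ^ (k + 1) = E * x ^ k * x := by ring
        _ ≤ _ := Nat.mul_le_mul_right x ih
    have h2 : z ^ k * (E * x) ≤ z ^ k * (E * z + x) := Nat.mul_le_mul_left _ h
    have h3 : z ^ k * x ≤ x ^ k * x := Nat.mul_le_mul_right x (Nat.pow_le_pow_left hz k)
    calc E * x ^ (k + 1) ≤ (E * z ^ k + k * x ^ k) * x := h1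
      _ = z ^ k * (E * x) + k * x ^ (k + 1) := by ring
      _ ≤ z ^ k * (E * z + x) + k * x ^ (k + 1) := by omega
      _ = E * z ^ (k + 1) + z ^ k * x + k * x ^ (k + 1) := by ring
      _ ≤ E * z ^ (k + 1) + x ^ k * x + k * x ^ (k + 1) := by omega
      _ = E * z ^ (k + 1) + (k + 1) * x ^ (k + 1) := by ring

theorem lam_upper {N M e1 k c H r : ℕ} (h : Sys N M e1 k c H) (hr : r ∈ M.primeFactors) :
    N ^ k * (lam N e1 k r * (M / r) ^ (e1 * k)) ≤ M ^ (e1 * k) := by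
  rw [arrC_lam h hr, arrC_pow h hr]
  exact Nat.mul_le_mul_right _ (Nat.pow_le_pow_left (Nat.sub_le _ _) _)

theorem lam_lower {N M e1 k c H r : ℕ} (h : Sys N M e1 k c H) (hr : r ∈ M.primeFactors) :
    2 ^ e1 * M ^ (e1 * k) ≤
      2 ^ e1 * (N ^ k * (lam N e1 k r * (M / r) ^ (e1 * k))) + k * M ^ (e1 * k) := by
  obtain ⟨hp, h1, h2⟩ := prime_range h.hM h.hco hr
  rw [arrC_lam h hr, arrC_pow h hr]
  have h3 : (r - N) ^ e1 ≤ r ^ e1 := Nat.pow_le_pow_left (by omega) _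
  have h4 : 2 ^ e1 * (r - N) ^ e1 ≤ r ^ e1 := by
    rw [← mul_pow]
    exact Nat.pow_le_pow_left (by omega) _
  have h5 : 2 ^ e1 * r ^ e1 ≤ 2 ^ e1 * (r ^ e1 - (r - N) ^ e1) + r ^ e1 := by
    rw [Nat.mul_sub]
    omega
  have h6 := arrC_bern (2 ^ e1) (r ^ e1) (r ^ e1 - (r - N) ^ e1) (Nat.sub_le _ _) h5 k
  have h7 := Nat.mul_le_mul_right ((M / r) ^ (e1 * k)) h6
  calc 2 ^ e1 * ((r ^ e1) ^ k * (M / r) ^ (e1 * k))
      = 2 ^ e1 * (r ^ e1) ^ k * (M / r) ^ (e1 * k) := by ring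
    _ ≤ _ := h7
    _ = _ := by ring

private theorem arrC_pos {N M e1 k c H : ℕ} (h : Sys N M e1 k c H) : 0 < M ^ (e1 * k) := by
  have hpos : 0 < (2 * N).choose N := Nat.choose_pos (by omega)
  have hM0 : 0 < M := Nat.pos_of_dvd_of_pos h.hM hpos
  exact pow_pos hM0 _

private theorem arrC_dvd {N M e1 k c H : ℕ} (h : Sys N M e1 k c H) (A : ℕ) (a : ℕ → ℕ)
    (hA : ∀ r ∈ M.primeFactors, A ≡ a r [MOD r ^ (e1 * k)]) :
    ((M ^ (e1 * k) : ℕ) : ℤ) ∣ (A : ℤ) * H -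
      ((∑ r ∈ M.primeFactors, a r * (lam N e1 k r * (M / r) ^ (e1 * k)) : ℕ) : ℤ) := by
  rw [pow_M_dvd_iff h.hM h.hco]
  intro r hr
  have h1 := h.H_mod hr
  have h2 : ((r ^ (e1 * k) : ℕ) : ℤ) ∣ (A : ℤ) - a r := by
    have h3 := (Nat.modEq_iff_dvd.mp (hA r hr).symm)
    exact h3
  rw [← Finset.add_sum_erase _ _ hr]
  have h4 : ((r ^ (e1 * k) : ℕ) : ℤ) ∣
      ((∑ x ∈ M.primeFactors.erase r, a x * (lam N e1 k x * (M / x) ^ (e1 * k)) : ℕ) : ℤ) := by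
    refine Int.natCast_dvd_natCast.mpr (Finset.dvd_sum ?_)
    intro x hx
    obtain ⟨hx1, hx2⟩ := Finset.mem_erase.mp hx
    refine Dvd.dvd.mul_left (Dvd.dvd.mul_left (pow_dvd_pow_of_dvd ?_ _) _) _
    have hpr := Nat.prime_of_mem_primeFactors hr
    have hpx := Nat.prime_of_mem_primeFactors hx2
    have hrM := Nat.dvd_of_mem_primeFactors hr
    have hxM := Nat.dvd_of_mem_primeFactors hx2
    have h5 : r ∣ x * (M / x) := by
      rw [Nat.mul_div_cancel' hxM]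
      exact hrM
    rcases (Nat.Prime.dvd_mul hpr).mp h5 with h6 | h6
    · exact absurd ((Nat.prime_dvd_prime_iff_eq hpr hpx).mp h6).symm hx1
    · exact h6
  have h5 : (A : ℤ) * H - (((a r * (lam N e1 k r * (M / r) ^ (e1 * k)) +
      ∑ x ∈ M.primeFactors.erase r, a x * (lam N e1 k x * (M / x) ^ (e1 * k)) : ℕ)) : ℤ) =
      ((A : ℤ) - a r) * H + a r * ((H : ℤ) - lam N e1 k r * ((M / r : ℕ) : ℤ) ^ (e1 * k)) -
      ((∑ x ∈ M.primeFactors.erase r, a x * (lam N e1 k x * (M / x) ^ (e1 * k)) : ℕ) : ℤ) := by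
    rw [Nat.cast_add, Nat.cast_mul, Nat.cast_mul (lam N e1 k r), Nat.cast_pow (M / r)]
    ring
  rw [h5]
  exact dvd_sub (dvd_add (Dvd.dvd.mul_right h2 _) (Dvd.dvd.mul_left h1 _)) h4

/-- The sum of the entries is computed by `H`. -/
theorem Sys.sumIs {N M e1 k c H : ℕ} (h : Sys N M e1 k c H) (A : ℕ) (a : ℕ → ℕ)
    (hA : ∀ r ∈ M.primeFactors, A ≡ a r [MOD r ^ (e1 * k)])
    (h1 : ∑ r ∈ M.primeFactors, a r < N ^ k) (h2 : k * ∑ r ∈ M.primeFactors, a r < 2 ^ e1) :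
    SumIs N M e1 k H A (∑ r ∈ M.primeFactors, a r) := by
  have hpos := arrC_pos h
  set V := ∑ r ∈ M.primeFactors, a r * (lam N e1 k r * (M / r) ^ (e1 * k)) with hV
  set S := ∑ r ∈ M.primeFactors, a r with hS
  have hd := arrC_dvd h A a hA
  rw [← hV] at hd
  have hup : N ^ k * V ≤ S * M ^ (e1 * k) := by
    rw [hV, hS, Finset.mul_sum, Finset.sum_mul]
    refine Finset.sum_le_sum fun r hr => ?_
    calc N ^ k * (a r * (lam N e1 k r * (M / r) ^ (e1 * k)))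
        = a r * (N ^ k * (lam N e1 k r * (M / r) ^ (e1 * k))) := by ring
      _ ≤ a r * M ^ (e1 * k) := Nat.mul_le_mul_left _ (lam_upper h hr)
  have hlow : 2 ^ e1 * (S * M ^ (e1 * k)) ≤
      2 ^ e1 * (N ^ k * V) + k * S * M ^ (e1 * k) := by
    have h3 : 2 ^ e1 * (S * M ^ (e1 * k)) = ∑ r ∈ M.primeFactors, a r * (2 ^ e1 * M ^ (e1 * k)) := by
      rw [← Finset.sum_mul, ← hS]
      ring
    have h4 : 2 ^ e1 * (N ^ k * V) + k * S * M ^ (e1 * k) =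
        ∑ r ∈ M.primeFactors, a r * (2 ^ e1 * (N ^ k * (lam N e1 k r * (M / r) ^ (e1 * k)))
          + k * M ^ (e1 * k)) := by
      have h5 : k * S * M ^ (e1 * k) = ∑ r ∈ M.primeFactors, a r * (k * M ^ (e1 * k)) := by
        rw [← Finset.sum_mul, ← hS]
        ring
      rw [h5, hV, Finset.mul_sum, Finset.mul_sum, ← Finset.sum_add_distrib]
      refine Finset.sum_congr rfl fun r _ => ?_
      ring
    rw [h3, h4]
    exact Finset.sum_le_sum fun r hr => Nat.mul_le_mul_left _ (lam_lower h hr)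
  have hVlt : V < M ^ (e1 * k) := by
    have h3 : N ^ k * V < N ^ k * M ^ (e1 * k) :=
      lt_of_le_of_lt hup (Nat.mul_lt_mul_of_pos_right h1 hpos)
    exact Nat.lt_of_mul_lt_mul_left h3
  have hmod : A * H % M ^ (e1 * k) = V := by
    have h3 : V ≡ A * H [MOD M ^ (e1 * k)] := by
      rw [Nat.modEq_iff_dvd]
      rw [Nat.cast_mul]
      exact hd
    have h4 : V % M ^ (e1 * k) = A * H % M ^ (e1 * k) := h3
    rw [← h4, Nat.mod_eq_of_lt hVlt]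
  unfold SumIs
  rw [hmod]
  refine ⟨hup, ?_⟩
  have h3 : k * S * M ^ (e1 * k) < 2 ^ e1 * M ^ (e1 * k) := Nat.mul_lt_mul_of_pos_right h2 hpos
  have h4 : 2 ^ e1 * (S * M ^ (e1 * k)) < 2 ^ e1 * (N ^ k * V + M ^ (e1 * k)) := by
    rw [Nat.mul_add]
    omega
  exact Nat.lt_of_mul_lt_mul_left h4

/-- uniqueness of the sum -/
theorem SumIs.unique {N M e1 k H A S S' : ℕ} (hM : 0 < M) (h : SumIs N M e1 k H A S)
    (h' : SumIs N M e1 k H A S') : S = S' := by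
  obtain ⟨h1, h2⟩ := h
  obtain ⟨h3, h4⟩ := h'
  have key : ∀ T T' : ℕ, T * M ^ (e1 * k) < T' * M ^ (e1 * k) + M ^ (e1 * k) → T ≤ T' := by
    intro T T' h5
    have h6 : T * M ^ (e1 * k) < (T' + 1) * M ^ (e1 * k) := by
      rw [Nat.add_mul, one_mul]
      exact h5
    have h7 := Nat.lt_of_mul_lt_mul_right h6
    omega
  have h5 := key S S' (by omega)
  have h6 := key S' S (by omega)
  omega

end Pool.Agent.DNP18
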