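import Pool.Agent.DNP18.ArrB

/-!
# [DNP-ARRD] existence of the index array and of the sum functional

`c`: by `crt_M` (exponent `e+1`, `a r = r < r^(e+1)`, `e ≥ 1`) there is `c0 < M^(e+1)` with `c0 % r^(e+1) = r`;
`c = c0 + M^(e+1)`. `M ∣ c`: each `r ∣ c`. `c > 2N`: `M ≥ r > N` for some `r` (`M ≠ 1`), `M^(e+1) ≥ M² ≥ (N+1)² > 2N`.
`M^(e+1) ∣ C(c-N-1,N)`: for each `r`, `r^(e+1) ∣ c - r`, one of the factors of `∏_{N<j≤2N} (c-j) = N! C(c-N-1,N)`, and
`gcd(r, N!) = 1`.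
`H`: `N` and `u = c/M` are coprime to `M` (`u M' ≡ 1` modulo `r^e`, `M = r M'`), so the congruence
`N^k u^e H ≡ (c^e1 - (c-N)^e1)^k` modulo `M^e` has a solution `0 ≤ H < M^e`.
-/

namespace Pool.Agent.DNP18

open Finset

private theorem arrd_desc {c N r m : ℕ} (hNr : N < r) (hr2 : r ≤ 2 * N) (hc : 2 * N < c)
    (hdvd : m ∣ c - r) : m ∣ N.factorial * (c - N - 1).choose N := by
  rw [← Nat.descFactorial_eq_factorial_mul_choose, Nat.descFactorial_eq_prod_range]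
  have h1 : c - N - 1 - (r - N - 1) = c - r := by omega
  have h2 : r - N - 1 ∈ range N := by rw [mem_range]; omega
  have h3 := dvd_prod_of_mem (fun i => c - N - 1 - i) h2
  simp only [h1] at h3
  exact hdvd.trans h3

private theorem arrd_solve {a m : ℕ} (hm : 0 < m) (h : Nat.Coprime a m) (R : ℤ) :
    ∃ H : ℕ, H < m ∧ (m : ℤ) ∣ (a : ℤ) * H - R := by
  obtain ⟨x, y, hxy⟩ := Nat.isCoprime_iff_coprime.2 h
  have hm' : (0 : ℤ) < m := by exact_mod_cast hm
  have h0 := Int.emod_nonneg (x * R) hm'.ne'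
  have h1 := Int.emod_lt_of_pos (x * R) hm'
  refine ⟨((x * R) % m).toNat, ?_, ?_⟩
  · zify
    rw [Int.toNat_of_nonneg h0]
    exact h1
  · rw [Int.toNat_of_nonneg h0]
    have h2 := Int.emod_add_mul_ediv (x * R) m
    refine ⟨- y * R - a * (x * R / m), ?_⟩
    have h3 : (x * R) % m = x * R - m * (x * R / m) := by linarith
    rw [h3]
    have h4 : x * (a : ℤ) = 1 - y * m := by linarith
    calc (a : ℤ) * (x * R - m * (x * R / m)) - R = (x * (a : ℤ)) * R - a * (m * (x * R / m)) - R := by ring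
      _ = (1 - y * m) * R - a * (m * (x * R / m)) - R := by rw [h4]
      _ = m * (- y * R - a * (x * R / m)) := by ring

theorem exists_sys {N M e1 k : ℕ} (hN : 1 ≤ N) (he1 : 1 ≤ e1) (hk : 1 ≤ k)
    (hM : M ∣ (2 * N).choose N) (hco : Nat.Coprime M N.factorial) (hM1 : M ≠ 1) :
    ∃ c H, c ≤ 2 * M ^ (e1 * k + 1) ∧ Sys N M e1 k c H := by
  have hM0 : M ≠ 0 := by
    rintro rfl
    exact (Nat.choose_pos (by omega)).ne' (Nat.eq_zero_of_zero_dvd hM)
  have hMpos : 0 < M := Nat.pos_of_ne_zero hM0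
  have he : 1 ≤ e1 * k := Nat.mul_pos he1 hk
  generalize hE : e1 * k = e at he
  have hP : ∀ r ∈ M.primeFactors, r.Prime ∧ N < r ∧ r ≤ 2 * N := fun r hr => prime_range hM hco hr
  have hlt : ∀ r ∈ M.primeFactors, r < r ^ (e + 1) := by
    intro r hr
    have h1 := (hP r hr).1.one_lt
    calc r = r ^ 1 := (pow_one r).symm
      _ < r ^ (e + 1) := Nat.pow_lt_pow_right h1 (by omega)
  obtain ⟨c0, hc0, hc0r⟩ := crt_M hM hco (e + 1) (fun r => r) hlt
  have hrM : ∀ r ∈ M.primeFactors, r ^ (e + 1) ∣ M ^ (e + 1) := fun r hr =>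
    pow_dvd_pow_of_dvd (Nat.dvd_of_mem_primeFactors hr) _
  -- the number `c`
  have hcr : ∀ r ∈ M.primeFactors, ∃ q, c0 + M ^ (e + 1) = r + r ^ (e + 1) * q := by
    intro r hr
    obtain ⟨q, hq⟩ := hrM r hr
    have h1 := Nat.mod_add_div c0 (r ^ (e + 1))
    rw [hc0r r hr] at h1
    exact ⟨c0 / r ^ (e + 1) + q, by rw [hq, ← h1, Nat.add_mul_div_left _ _ (pow_pos (hP r hr).1.pos _),
      Nat.div_eq_of_lt (hlt r hr), zero_add]; ring⟩
  have hle : M ^ (e + 1) ≤ c0 + M ^ (e + 1) := Nat.le_add_left _ _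
  have hcle : c0 + M ^ (e + 1) ≤ 2 * M ^ (e + 1) := by omega
  generalize c0 + M ^ (e + 1) = c at hcr hle hcle
  have hMc : M ∣ c := by
    have h1 : ((M ^ 1 : ℕ) : ℤ) ∣ (c : ℤ) := by
      rw [pow_M_dvd_iff hM hco]
      intro r hr
      rw [pow_one]
      obtain ⟨q, hq⟩ := hcr r hr
      rw [hq]
      exact_mod_cast Dvd.dvd.add dvd_rfl (Dvd.dvd.mul_right (dvd_pow_self r (by omega)) q)
    rw [pow_one] at h1
    exact_mod_cast h1
  have hc2 : 2 * N < c := by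
    obtain ⟨r, hr⟩ : M.primeFactors.Nonempty := by
      rw [Nat.nonempty_primeFactors]
      omega
    have h1 := (hP r hr).2.1
    have h2 : r ≤ M := Nat.le_of_dvd hMpos (Nat.dvd_of_mem_primeFactors hr)
    have h3 : M ^ 2 ≤ M ^ (e + 1) := Nat.pow_le_pow_right hMpos (by omega)
    nlinarith
  have hC : M ^ (e + 1) ∣ (c - N - 1).choose N := by
    have h1 : ((M ^ (e + 1) : ℕ) : ℤ) ∣ (((c - N - 1).choose N : ℕ) : ℤ) := by
      rw [pow_M_dvd_iff hM hco]
      intro r hr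
      obtain ⟨hrp, hr1, hr2⟩ := hP r hr
      obtain ⟨q, hq⟩ := hcr r hr
      have h2 : r ^ (e + 1) ∣ c - r := ⟨q, by omega⟩
      have h3 := arrd_desc hr1 hr2 hc2 h2
      have h4 : Nat.Coprime (r ^ (e + 1)) N.factorial :=
        Nat.Coprime.pow_left _ ((Nat.Coprime.coprime_dvd_left (Nat.dvd_of_mem_primeFactors hr) hco))
      exact_mod_cast h4.dvd_of_dvd_mul_left h3
    exact_mod_cast h1
  have hcoN : Nat.Coprime N M :=
    (Nat.Coprime.coprime_dvd_right (Nat.dvd_factorial hN le_rfl) hco).symm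
  have hcou : Nat.Coprime (c / M) M := by
    refine Nat.coprime_of_dvd fun r hrp hru hrM' => ?_
    have hr : r ∈ M.primeFactors := Nat.mem_primeFactors.2 ⟨hrp, hrM', hM0⟩
    obtain ⟨q, hq⟩ := hcr r hr
    have h1 : r * r ∣ c := by
      rw [← Nat.div_mul_cancel hMc]
      exact Nat.mul_dvd_mul hru hrM'
    have h2 : r * r ∣ r ^ (e + 1) * q := by
      refine Dvd.dvd.mul_right ?_ q
      rw [← pow_two]
      exact pow_dvd_pow r (by omega)
    rw [hq] at h1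
    have h3 : r * r ∣ r := (Nat.dvd_add_left h2).1 h1
    have h4 := Nat.le_of_dvd hrp.pos h3
    have h5 := hrp.two_le
    nlinarith
  have hcoa : Nat.Coprime (N ^ k * (c / M) ^ e) (M ^ e) :=
    Nat.Coprime.pow_right _ (Nat.Coprime.mul_left (hcoN.pow_left _) (hcou.pow_left _))
  obtain ⟨H, hH, hH'⟩ := arrd_solve (pow_pos hMpos e) hcoa (((c : ℤ) ^ e1 - ((c : ℤ) - N) ^ e1) ^ k)
  refine ⟨c, H, hcle, ⟨hN, he1, hk, hM, hco, hMc, hc2, ?_, ?_, ?_⟩⟩
  · rw [hE]; exact hC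
  · rw [hE]; exact hH
  · rw [hE]
    have h1 : (N : ℤ) ^ k * H * ((c / M : ℕ) : ℤ) ^ e = ((N ^ k * (c / M) ^ e : ℕ) : ℤ) * H := by
      push_cast
      ring
    rw [h1]
    exact hH'

end Pool.Agent.DNP18
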