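import Pool.Agent.DNP18.ArrA

/-!
# [DNP-ARRE] small entries, labels, powers

`e ≥ 1`. `rg_iff`: `Rg b A = ∏_{j<b} (A - j)`; for a prime `r > b` at most one factor is divisible by `r`, so
`r^e ∣ ∏` iff `r^e ∣ A - j` for some `j < b` iff `A % r^e < b` (`b ≤ N < r ≤ r^e`). Then `pow_M_dvd_iff`.
`choose_iff`: `n! C(l,n) = ∏_{j<n} (l - j)` as integers (`Nat.descFactorial_eq_factorial_mul_choose`;
if `l < n` both sides are `0`), and `gcd(r, n!) = 1` as `n ≤ N < r`.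
`expY_mod`: for `j ≤ n ≤ N < r`: `j! C(l,j) = ∏_{i<j} (l - i) ≡ ∏_{i<j} (l' - i) = j! C(l',j)` modulo `r^e`, `l' = l % r^e`, so
`C(l,j) ≡ C(l',j)`, and `∑_{j≤n} C(l',j) (B-1)^j = B^l'` if `l' ≤ n` (binomial theorem).
-/

namespace Pool.Agent.DNP18

open Finset

private theorem pow_dvd_prod {r e b : ℕ} (hr : r.Prime) (he : 1 ≤ e) (hb : b ≤ r) (A : ℤ) :
    ((r ^ e : ℕ) : ℤ) ∣ ∏ j ∈ range b, (A - (j : ℤ)) ↔ ∃ j < b, ((r ^ e : ℕ) : ℤ) ∣ A - (j : ℤ) := by
  constructor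
  · intro h
    have hrp : Prime ((r : ℕ) : ℤ) := Nat.prime_iff_prime_int.1 hr
    have h1 : ((r : ℕ) : ℤ) ∣ ∏ j ∈ range b, (A - (j : ℤ)) := by
      refine dvd_trans ?_ h
      push_cast
      exact dvd_pow_self _ (by omega)
    rw [hrp.dvd_finset_prod_iff] at h1
    obtain ⟨j₀, hj₀, h2⟩ := h1
    rw [mem_range] at hj₀
    refine ⟨j₀, hj₀, ?_⟩
    rw [← Finset.mul_prod_erase (range b) _ (mem_range.2 hj₀)] at h
    have hcop : IsCoprime ((r ^ e : ℕ) : ℤ) (∏ j ∈ (range b).erase j₀, (A - (j : ℤ))) := by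
      push_cast
      apply IsCoprime.pow_left
      apply IsCoprime.prod_right
      intro j hj
      rw [mem_erase, mem_range] at hj
      rw [Prime.coprime_iff_not_dvd hrp]
      intro h3
      have h4 : ((r : ℕ) : ℤ) ∣ ((j : ℤ) - (j₀ : ℤ)) := by
        have := dvd_sub h2 h3
        have h5 : A - (j₀ : ℤ) - (A - (j : ℤ)) = (j : ℤ) - (j₀ : ℤ) := by ring
        rwa [h5] at this
      have h6 : (j : ℤ) - (j₀ : ℤ) = 0 := by
        apply Int.eq_zero_of_abs_lt_dvd h4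
        rw [abs_lt]
        constructor <;> omega
      exact hj.1 (by omega)
    exact hcop.dvd_of_dvd_mul_right h
  · rintro ⟨j, hj, h⟩
    exact h.trans (Finset.dvd_prod_of_mem _ (mem_range.2 hj))

private theorem dvd_sub_iff_mod {q b A : ℕ} (hb : b ≤ q) :
    (∃ j < b, ((q : ℕ) : ℤ) ∣ (A : ℤ) - (j : ℤ)) ↔ A % q < b := by
  constructor
  · rintro ⟨j, hj, h⟩
    have h3 : (j : ℤ) ≡ (A : ℤ) [ZMOD (q : ℕ)] := Int.modEq_iff_dvd.2 h
    have h4 : j ≡ A [MOD q] := Int.natCast_modEq_iff.1 h3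
    have h5 : j % q = A % q := h4
    rw [← h5, Nat.mod_eq_of_lt (lt_of_lt_of_le hj hb)]
    exact hj
  · intro h
    refine ⟨A % q, h, ?_⟩
    have h3 := Nat.div_add_mod A q
    refine ⟨((A / q : ℕ) : ℤ), ?_⟩
    have h4 : ((A : ℕ) : ℤ) = (q : ℤ) * ((A / q : ℕ) : ℤ) + ((A % q : ℕ) : ℤ) := by
      exact_mod_cast h3.symm
    linarith

private theorem key_iff {r e b : ℕ} (hr : r.Prime) (he : 1 ≤ e) (hb : b ≤ r) (A : ℕ) :
    ((r ^ e : ℕ) : ℤ) ∣ ∏ j ∈ range b, ((A : ℤ) - (j : ℤ)) ↔ A % r ^ e < b := by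
  rw [pow_dvd_prod hr he hb]
  apply dvd_sub_iff_mod
  exact hb.trans (Nat.le_self_pow (by omega) r)

private theorem fact_choose (l n : ℕ) :
    ((n.factorial * l.choose n : ℕ) : ℤ) = ∏ j ∈ range n, ((l : ℤ) - (j : ℤ)) := by
  rw [← Nat.descFactorial_eq_factorial_mul_choose, ← descPochhammer_eval_eq_descFactorial,
    descPochhammer_eval_eq_prod_range]

private theorem cop_fact {r e j : ℕ} (hr : r.Prime) (hj : j < r) : Nat.Coprime (r ^ e) j.factorial := by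
  apply Nat.Coprime.pow_left
  rw [Nat.Prime.coprime_iff_not_dvd hr, hr.dvd_factorial]
  omega

private theorem choose_modEq {r e j l : ℕ} (hr : r.Prime) (hj : j < r) :
    l.choose j ≡ (l % r ^ e).choose j [MOD r ^ e] := by
  have h1 : ((l.descFactorial j : ℕ) : ZMod (r ^ e)) = (((l % r ^ e).descFactorial j : ℕ) : ZMod (r ^ e)) := by
    rw [← descPochhammer_eval_eq_descFactorial, ← descPochhammer_eval_eq_descFactorial, ZMod.natCast_mod]
  rw [ZMod.natCast_eq_natCast_iff, Nat.descFactorial_eq_factorial_mul_choose,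
    Nat.descFactorial_eq_factorial_mul_choose] at h1
  exact Nat.ModEq.cancel_left_of_coprime (cop_fact hr hj) h1

section

variable {N M e : ℕ} (hM : M ∣ (2 * N).choose N) (hco : Nat.Coprime M N.factorial) (he : 1 ≤ e)

include hM hco he

theorem rg_iff {b : ℕ} (hb : b ≤ N) (A : ℕ) :
    ((M ^ e : ℕ) : ℤ) ∣ Pool.Agent.DPoly.Rg b (A : ℤ) ↔ ∀ r ∈ M.primeFactors, A % r ^ e < b := by
  rw [pow_M_dvd_iff hM hco e]
  apply forall₂_congr
  intro r hr
  obtain ⟨hrp, hNr, _⟩ := prime_range hM hco hr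
  have h1 : Pool.Agent.DPoly.Rg b (A : ℤ) = ∏ j ∈ range b, ((A : ℤ) - (j : ℤ)) := by
    unfold Pool.Agent.DPoly.Rg
    exact Fin.prod_univ_eq_prod_range (fun j : ℕ => (A : ℤ) - (j : ℤ)) b
  rw [h1]
  exact key_iff hrp he (by omega) A

theorem choose_iff {n : ℕ} (hn : n ≤ N) (l : ℕ) :
    M ^ e ∣ l.choose n ↔ ∀ r ∈ M.primeFactors, l % r ^ e < n := by
  have h0 : M ^ e ∣ l.choose n ↔ ((M ^ e : ℕ) : ℤ) ∣ ((l.choose n : ℕ) : ℤ) := Int.natCast_dvd_natCast.symm
  rw [h0, pow_M_dvd_iff hM hco e]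
  apply forall₂_congr
  intro r hr
  obtain ⟨hrp, hNr, _⟩ := prime_range hM hco hr
  rw [← key_iff hrp he (show n ≤ r by omega) l, ← fact_choose, Int.natCast_dvd_natCast,
    Int.natCast_dvd_natCast]
  exact (Nat.Coprime.dvd_mul_left (cop_fact hrp (by omega))).symm

theorem expY_mod {n B r l : ℕ} (hn : n ≤ N) (hB : 1 ≤ B) (hr : r ∈ M.primeFactors)
    (hl : l % r ^ e < n) : expY l (B - 1) n ≡ B ^ (l % r ^ e) [MOD r ^ e] := by
  obtain ⟨hrp, hNr, _⟩ := prime_range hM hco hr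
  have h1 : expY l (B - 1) n ≡ ∑ j ∈ range (n + 1), (l % r ^ e).choose j * (B - 1) ^ j [MOD r ^ e] := by
    unfold expY
    rw [← ZMod.natCast_eq_natCast_iff]
    push_cast
    apply Finset.sum_congr rfl
    intro j hj
    rw [mem_range] at hj
    congr 1
    rw [ZMod.natCast_eq_natCast_iff]
    exact choose_modEq hrp (by omega)
  have h2 : ∑ j ∈ range (n + 1), (l % r ^ e).choose j * (B - 1) ^ j = B ^ (l % r ^ e) := by
    have h3 : B = (B - 1) + 1 := by omega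
    conv_rhs => rw [h3, add_pow]
    have hsub : range (l % r ^ e + 1) ⊆ range (n + 1) := by
      intro j hj
      rw [mem_range] at hj ⊢
      omega
    rw [← Finset.sum_subset hsub]
    · apply Finset.sum_congr rfl
      intro j _
      simp [mul_comm]
    · intro j _ hj
      rw [mem_range, not_lt] at hj
      rw [Nat.choose_eq_zero_of_lt (by omega), zero_mul]
  rw [h2] at h1
  exact h1

end

end Pool.Agent.DNP18
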