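import Mathlib

/-!
# [DNP-ARRF] labels

If `∑_{r ∈ s} B^(l r) = ∑_{i<n} B^i`, `l r < n`, `|s| < B`, then every `i < n` is the label of exactly one `r ∈ s`: the
left side is `∑_{i<n} (#{r ∈ s : l r = i}) B^i` with digits `< B`, so by uniqueness of digits
(`Pool.Agent.DPoly.digits_unique` in `DPoly/Crt.lean`, or `Nat.ofDigits_inj_of_len_eq`) all digits are `1`.
-/

namespace Pool.Agent.DNP18

open Finset

private theorem arrf_digits (B : ℕ) : ∀ (n : ℕ) (c d : ℕ → ℕ), (∀ i < n, c i < B) →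
    (∀ i < n, d i < B) → ∑ i ∈ range n, c i * B ^ i = ∑ i ∈ range n, d i * B ^ i →
    ∀ i < n, c i = d i := by
  intro n
  induction n with
  | zero => intro c d _ _ _ i hi; omega
  | succ n ih =>
    intro c d hc hd h
    have key : ∀ e : ℕ → ℕ, ∑ i ∈ range (n + 1), e i * B ^ i
        = B * (∑ i ∈ range n, e (i + 1) * B ^ i) + e 0 := by
      intro e
      rw [sum_range_succ', mul_sum, pow_zero, mul_one]
      congr 1
      refine sum_congr rfl (fun i _ => ?_)
      rw [pow_succ]; ring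
    rw [key c, key d] at h
    have hc0 := hc 0 (by omega)
    have hd0 := hd 0 (by omega)
    have h0 : c 0 = d 0 := by
      have := congrArg (fun x => x % B) h
      simpa [Nat.mul_add_mod, Nat.mod_eq_of_lt hc0, Nat.mod_eq_of_lt hd0] using this
    have hB : 0 < B := by omega
    have h1 : ∑ i ∈ range n, c (i + 1) * B ^ i = ∑ i ∈ range n, d (i + 1) * B ^ i := by
      rw [h0] at h
      exact Nat.eq_of_mul_eq_mul_left hB (Nat.add_right_cancel h)
    have h2 := ih (fun i => c (i + 1)) (fun i => d (i + 1)) (fun i hi => hc _ (by omega))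
      (fun i hi => hd _ (by omega)) h1
    intro i hi
    rcases i with _ | i
    · exact h0
    · exact h2 i (by omega)

theorem labels_bij {s : Finset ℕ} {l : ℕ → ℕ} {n B : ℕ} (hl : ∀ r ∈ s, l r < n)
    (hs : s.card < B) (h : ∑ r ∈ s, B ^ l r = ∑ i ∈ range n, B ^ i) :
    ∃ p : ℕ → ℕ, (∀ i < n, p i ∈ s ∧ l (p i) = i) ∧ ∀ r ∈ s, p (l r) = r := by
  classical
  rcases Nat.eq_zero_or_pos n with hn | hn
  · subst hn
    refine ⟨fun _ => 0, fun i hi => by omega, fun r hr => ?_⟩
    exact absurd (hl r hr) (by omega)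
  have hsne : s.Nonempty := by
    rw [nonempty_iff_ne_empty]
    rintro rfl
    rw [sum_empty] at h
    have : 0 < ∑ i ∈ range n, B ^ i := by
      refine sum_pos' (fun i _ => Nat.zero_le _) ⟨0, mem_range.2 hn, ?_⟩
      simp
    omega
  have hB : 1 < B := by
    have := card_pos.2 hsne
    omega
  have hfib : ∑ r ∈ s, B ^ l r = ∑ i ∈ range n, (s.filter (fun r => l r = i)).card * B ^ i := by
    rw [← sum_fiberwise_of_maps_to (s := s) (t := range n) (g := l)
      (fun r hr => mem_range.2 (hl r hr))]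
    refine sum_congr rfl (fun i _ => ?_)
    rw [sum_congr rfl (fun r hr => by rw [(mem_filter.1 hr).2] :
      ∀ r ∈ s.filter (fun r => l r = i), B ^ l r = B ^ i), sum_const, smul_eq_mul]
  have h1 : ∑ i ∈ range n, B ^ i = ∑ i ∈ range n, (fun _ => 1) i * B ^ i :=
    sum_congr rfl (fun i _ => by simp)
  rw [hfib, h1] at h
  have hcard := arrf_digits B n _ _
    (fun i _ => lt_of_le_of_lt (card_le_card (filter_subset _ _)) hs) (fun i _ => hB) h
  have hex : ∀ i, i < n → ∃ a, s.filter (fun r => l r = i) = {a} := by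
    intro i hi
    exact card_eq_one.1 (hcard i hi)
  choose! p hp using hex
  refine ⟨p, fun i hi => ?_, fun r hr => ?_⟩
  · have : p i ∈ s.filter (fun r => l r = i) := by rw [hp i hi]; exact mem_singleton_self _
    exact mem_filter.1 this
  · have : r ∈ s.filter (fun x => l x = l r) := mem_filter.2 ⟨hr, rfl⟩
    rw [hp _ (hl r hr)] at this
    exact (mem_singleton.1 this).symm

theorem sum_labels {s : Finset ℕ} {l : ℕ → ℕ} {n B : ℕ} (hl : ∀ r ∈ s, l r < n) {p : ℕ → ℕ}
    (hp : ∀ i < n, p i ∈ s ∧ l (p i) = i) (hp' : ∀ r ∈ s, p (l r) = r) (f : ℕ → ℕ) :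
    ∑ r ∈ s, f r * B ^ l r = ∑ i ∈ range n, f (p i) * B ^ i := by
  refine sum_bij' (fun r _ => l r) (fun i _ => p i) (fun r hr => mem_range.2 (hl r hr))
    (fun i hi => (hp i (mem_range.1 hi)).1) (fun r hr => hp' r hr)
    (fun i hi => (hp i (mem_range.1 hi)).2) (fun r hr => ?_)
  rw [hp' r hr]

end Pool.Agent.DNP18
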