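import Pool.Agent.DNP18.BaseA0

/-!
# [DNP-BASEA] growth: `Big` and `Small`

Elementary consequences of `BaseA0`; choose `K` and `S0` generously (maximum, plus one, `S0 ≥ 2`).
-/

namespace Pool.Agent.DNP18

open Pool.Agent.DPoly

section

variable {σ : Type} {o : σ} {C : (σ → ℕ) → Prop} {F G : (σ → ℕ) → ℕ}

theorem Big.mono (hG : Big o C G) (h : ∀ v, C v → F v ≤ G v) : Big o C F := by
  obtain ⟨K, S0, h1⟩ := hG
  exact ⟨K, S0, fun v hs hc => (h v hc).trans (h1 v hs hc)⟩

theorem Big.mono' (hG : Big o C G) (S0 : ℕ) (h : ∀ v, S0 ≤ v o → C v → F v ≤ G v) : Big o C F := by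
  obtain ⟨K, S1, h1⟩ := hG
  exact ⟨K, max S0 S1, fun v hs hc => (h v ((le_max_left _ _).trans hs) hc).trans
    (h1 v ((le_max_right _ _).trans hs) hc)⟩

theorem Big.const (c : ℕ) : Big o C (fun _ => c) := by
  exact ⟨1, c, fun v hs _ => hs.trans (lt_bd_one (v o)).le⟩

theorem Big.add (hF : Big o C F) (hG : Big o C G) : Big o C (fun v => F v + G v) := by
  obtain ⟨K, S0, h0⟩ := hF
  obtain ⟨K', S1, h1⟩ := hG
  refine ⟨max K K' + 1, max (max S0 S1) 2, fun v hs hc => ?_⟩
  have a0 : S0 ≤ v o := (le_max_left _ _).trans ((le_max_left _ _).trans hs)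
  have a1 : S1 ≤ v o := (le_max_right _ _).trans ((le_max_left _ _).trans hs)
  exact (Nat.add_le_add (h0 v a0 hc) (h1 v a1 hc)).trans (bd_add ((le_max_right _ _).trans hs))

theorem Big.mul (hF : Big o C F) (hG : Big o C G) : Big o C (fun v => F v * G v) := by
  obtain ⟨K, S0, h0⟩ := hF
  obtain ⟨K', S1, h1⟩ := hG
  refine ⟨max K K' + 1, max (max S0 S1) 2, fun v hs hc => ?_⟩
  have a0 : S0 ≤ v o := (le_max_left _ _).trans ((le_max_left _ _).trans hs)
  have a1 : S1 ≤ v o := (le_max_right _ _).trans ((le_max_left _ _).trans hs)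
  exact (Nat.mul_le_mul (h0 v a0 hc) (h1 v a1 hc)).trans (bd_mul ((le_max_right _ _).trans hs))

theorem Big.pow (hF : Big o C F) (hG : Small o C G) : Big o C (fun v => F v ^ G v) := by
  obtain ⟨K, S0, h0⟩ := hF
  obtain ⟨K', S1, h1⟩ := hG
  refine ⟨K + K', max S0 S1, fun v hs hc => ?_⟩
  exact (Nat.pow_le_pow_left (h0 v ((le_max_left _ _).trans hs) hc) (G v)).trans
    (bd_pow (h1 v ((le_max_right _ _).trans hs) hc))

theorem Big.coord {P : (σ → ℕ) → Prop} (K : ℕ) (i : σ) :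
    Big o (fun v => Bnd o K v ∧ P v) (fun v => v i) := by
  exact ⟨K, 0, fun v _ hc => hc.1 i⟩

theorem Big.ite (p : (σ → ℕ) → Prop) [DecidablePred p] (hF : Big o C F) (hG : Big o C G) :
    Big o C (fun v => if p v then F v else G v) := by
  obtain ⟨K, S0, h0⟩ := hF
  obtain ⟨K', S1, h1⟩ := hG
  refine ⟨max K K', max S0 S1, fun v hs hc => ?_⟩
  by_cases h : p v
  · simp only [if_pos h]
    exact (h0 v ((le_max_left _ _).trans hs) hc).trans (bd_mono (le_max_left _ _))
  · simp only [if_neg h]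
    exact (h1 v ((le_max_right _ _).trans hs) hc).trans (bd_mono (le_max_right _ _))

theorem Big.npoly [Fintype σ] {P : (σ → ℕ) → Prop} (K : ℕ) (hF : NPoly F) :
    Big o (fun v => Bnd o K v ∧ P v) F := by
  obtain ⟨e, he⟩ := hF.bound
  obtain ⟨K', S0, h⟩ := exists_bd_poly (Fintype.card σ + 2) K e
  refine ⟨K', S0, fun v hs hc => ((he v).trans ?_).trans (h (v o) hs)⟩
  refine Nat.pow_le_pow_left ?_ e
  have h1 : ∑ i, v i ≤ Fintype.card σ * bd K (v o) := by
    calc ∑ i, v i ≤ ∑ _i : σ, bd K (v o) := Finset.sum_le_sum fun i _ => hc.1 i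
      _ = Fintype.card σ * bd K (v o) := by
        rw [Finset.sum_const, Finset.card_univ, smul_eq_mul]
  calc 2 + ∑ i, v i ≤ 2 + Fintype.card σ * bd K (v o) := Nat.add_le_add_left h1 2
    _ ≤ (Fintype.card σ + 2) * bd K (v o) + (Fintype.card σ + 2) := by
      rw [Nat.add_mul]
      omega

theorem Small.big (hF : Small o C F) : Big o C F := by
  obtain ⟨K, S0, h⟩ := hF
  exact ⟨K, S0, fun v hs hc => (h v hs hc).trans Nat.lt_two_pow_self.le⟩

theorem Small.mono (hG : Small o C G) (h : ∀ v, C v → F v ≤ G v) : Small o C F := by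
  obtain ⟨K, S0, h1⟩ := hG
  exact ⟨K, S0, fun v hs hc => (h v hc).trans (h1 v hs hc)⟩

theorem Small.mono' (hG : Small o C G) (S0 : ℕ) (h : ∀ v, S0 ≤ v o → C v → F v ≤ G v) :
    Small o C F := by
  obtain ⟨K, S1, h1⟩ := hG
  exact ⟨K, max S0 S1, fun v hs hc => (h v ((le_max_left _ _).trans hs) hc).trans
    (h1 v ((le_max_right _ _).trans hs) hc)⟩

/-- numbers from `2` on have at least two digits -/
theorem two_le_len {s : ℕ} (h : 2 ≤ s) : 2 ≤ DPoly.len s := by
  have h1 : 1 ≤ Nat.log 2 s := Nat.log_pos one_lt_two h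
  unfold DPoly.len
  omega

theorem Small.const (c : ℕ) : Small o C (fun _ => c) := by
  refine ⟨c, 2, fun v hs _ => ?_⟩
  exact (Nat.lt_two_pow_self (n := c)).le.trans (Nat.pow_le_pow_left (two_le_len hs) c)

theorem Small.add (hF : Small o C F) (hG : Small o C G) : Small o C (fun v => F v + G v) := by
  obtain ⟨K, S0, h0⟩ := hF
  obtain ⟨K', S1, h1⟩ := hG
  refine ⟨max K K' + 1, max (max S0 S1) 2, fun v hs hc => ?_⟩
  have a0 : S0 ≤ v o := (le_max_left _ _).trans ((le_max_left _ _).trans hs)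
  have a1 : S1 ≤ v o := (le_max_right _ _).trans ((le_max_left _ _).trans hs)
  have a2 : 2 ≤ DPoly.len (v o) := two_le_len ((le_max_right _ _).trans hs)
  have b0 : DPoly.len (v o) ^ K ≤ DPoly.len (v o) ^ max K K' :=
    Nat.pow_le_pow_right (by omega) (le_max_left _ _)
  have b1 : DPoly.len (v o) ^ K' ≤ DPoly.len (v o) ^ max K K' :=
    Nat.pow_le_pow_right (by omega) (le_max_right _ _)
  have c0 := h0 v a0 hc
  have c1 := h1 v a1 hc
  calc F v + G v ≤ DPoly.len (v o) ^ max K K' * 2 := by omega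
    _ ≤ DPoly.len (v o) ^ max K K' * DPoly.len (v o) := Nat.mul_le_mul_left _ a2
    _ = DPoly.len (v o) ^ (max K K' + 1) := (pow_succ _ _).symm

theorem Small.mul (hF : Small o C F) (hG : Small o C G) : Small o C (fun v => F v * G v) := by
  obtain ⟨K, S0, h0⟩ := hF
  obtain ⟨K', S1, h1⟩ := hG
  refine ⟨K + K', max S0 S1, fun v hs hc => ?_⟩
  rw [pow_add]
  exact Nat.mul_le_mul (h0 v ((le_max_left _ _).trans hs) hc)
    (h1 v ((le_max_right _ _).trans hs) hc)

theorem Small.pow (hF : Small o C F) (c : ℕ) : Small o C (fun v => F v ^ c) := by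
  obtain ⟨K, S0, h⟩ := hF
  refine ⟨K * c, S0, fun v hs hc => ?_⟩
  rw [pow_mul]
  exact Nat.pow_le_pow_left (h v hs hc) c

theorem Small.of_two_pow (h : Big o C (fun v => 2 ^ F v)) : Small o C F := by
  obtain ⟨K, S0, h⟩ := h
  refine ⟨K, S0, fun v hs hc => ?_⟩
  exact (Nat.pow_le_pow_iff_right one_lt_two).1 (h v hs hc)

/-- the length of a big number is small -/
theorem Big.len (h : Big o C F) : Small o C (fun v => DPoly.len (F v)) := by
  obtain ⟨K, S0, h⟩ := h
  refine ⟨K + 1, max S0 2, fun v hs hc => ?_⟩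
  have a2 : 2 ≤ DPoly.len (v o) := two_le_len ((le_max_right _ _).trans hs)
  have h1 : F v < 2 ^ (DPoly.len (v o) ^ K + 1) := by
    refine lt_of_le_of_lt (h v ((le_max_left _ _).trans hs) hc) ?_
    exact Nat.pow_lt_pow_right one_lt_two (Nat.lt_succ_self _)
  have h2 : 1 ≤ DPoly.len (v o) ^ K := Nat.one_le_pow _ _ (by omega)
  refine (len_le_of_lt h1 (Nat.succ_le_succ (Nat.zero_le _))).trans ?_
  calc DPoly.len (v o) ^ K + 1 ≤ DPoly.len (v o) ^ K * 2 := by omega
    _ ≤ DPoly.len (v o) ^ K * DPoly.len (v o) := Nat.mul_le_mul_left _ a2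
    _ = DPoly.len (v o) ^ (K + 1) := (pow_succ _ _).symm

/-- a small number is eventually less than the size parameter -/
theorem Small.lt_size (h : Small o C F) : ∃ S0, ∀ v, S0 ≤ v o → C v → F v < v o := by
  obtain ⟨K, S0, h⟩ := h
  obtain ⟨S1, h1⟩ := eventually_len K 1
  refine ⟨max S0 S1, fun v hs hc => ?_⟩
  have h2 := h v ((le_max_left _ _).trans hs) hc
  have h3 := h1 (v o) ((le_max_right _ _).trans hs)
  omega

end

end Pool.Agent.DNP18
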