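import Pool.Agent.DNP18.BaseDef

/-!
# [DNP-BASEA0] growth: facts about `bd` and `len`

`len s = Nat.log 2 s + 1`, `s < 2^(len s)`, `len s ≥ 2` for `s ≥ 2`. All elementary; choose `K` and `S0`
generously (e.g. `c ≤ 2^(len s)^1 = bd 1 s` as soon as `s ≥ c`, and `bd K s + bd K' s ≤ bd (max K K' + 1) s`,
`bd K s * bd K' s ≤ bd (max K K' + 1) s`, for `s ≥ 2`). `eventually_len`: `len s ^ K + c ≤ s` for large `s`
(`len s ≤ t + 1` if `s < 2^(t+1)`, and `(t+1)^K + c ≤ 2^t` for large `t`).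
-/

namespace Pool.Agent.DNP18

open Pool.Agent.DPoly

private theorem ba0_len_two {s : ℕ} (hs : 2 ≤ s) : 2 ≤ len s := by
  have : 1 ≤ Nat.log 2 s := Nat.log_pos one_lt_two hs
  unfold len
  omega

theorem lt_bd_one (s : ℕ) : s < bd 1 s := by
  unfold bd len
  rw [pow_one]
  exact Nat.lt_pow_succ_log_self one_lt_two s

theorem bd_mono {K K' s : ℕ} (h : K ≤ K') : bd K s ≤ bd K' s :=
  Nat.pow_le_pow_right (by norm_num) (Nat.pow_le_pow_right (len_pos s) h)

theorem bd_mono_right {K s s' : ℕ} (h : s ≤ s') : bd K s ≤ bd K s' :=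
  Nat.pow_le_pow_right (by norm_num)
    (Nat.pow_le_pow_left (Nat.succ_le_succ (Nat.log_mono_right h)) K)

theorem one_le_bd (K s : ℕ) : 1 ≤ bd K s := Nat.one_le_two_pow

theorem bd_mul {K K' s : ℕ} (hs : 2 ≤ s) : bd K s * bd K' s ≤ bd (max K K' + 1) s := by
  have h2 := ba0_len_two hs
  have h1 := len_pos s
  unfold bd
  rw [← pow_add]
  refine Nat.pow_le_pow_right (by norm_num) ?_
  have e1 : len s ^ K ≤ len s ^ max K K' := Nat.pow_le_pow_right h1 (le_max_left _ _)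
  have e2 : len s ^ K' ≤ len s ^ max K K' := Nat.pow_le_pow_right h1 (le_max_right _ _)
  rw [pow_succ]
  have e3 : len s ^ max K K' * 2 ≤ len s ^ max K K' * len s := Nat.mul_le_mul_left _ h2
  omega

theorem bd_add {K K' s : ℕ} (hs : 2 ≤ s) : bd K s + bd K' s ≤ bd (max K K' + 1) s := by
  have h2 := ba0_len_two hs
  have h1 := len_pos s
  have e1 : bd K s ≤ bd (max K K') s := bd_mono (le_max_left _ _)
  have e2 : bd K' s ≤ bd (max K K') s := bd_mono (le_max_right _ _)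
  have e3 : 2 * bd (max K K') s ≤ bd (max K K' + 1) s := by
    unfold bd
    rw [← pow_succ']
    refine Nat.pow_le_pow_right (by norm_num) ?_
    rw [pow_succ]
    have e4 : len s ^ max K K' * 2 ≤ len s ^ max K K' * len s := Nat.mul_le_mul_left _ h2
    have e5 : 1 ≤ len s ^ max K K' := Nat.one_le_pow _ _ h1
    omega
  omega

theorem bd_pow {K K' s n : ℕ} (hn : n ≤ len s ^ K') : bd K s ^ n ≤ bd (K + K') s := by
  unfold bd
  rw [← pow_mul, pow_add]
  exact Nat.pow_le_pow_right (by norm_num) (Nat.mul_le_mul_left _ hn)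

private theorem ba0_pow (K c : ℕ) : ∃ T, ∀ t, T ≤ t → (t + 1) ^ K + c ≤ 2 ^ t := by
  have h := tendsto_pow_const_div_const_pow_of_one_lt K (r := (2 : ℝ)) one_lt_two
  have hc : (0 : ℝ) < 1 / (2 * (1 + c)) := by positivity
  have h2 := (h.eventually (gt_mem_nhds hc)).exists_forall_of_atTop
  obtain ⟨T, hT⟩ := h2
  refine ⟨T, fun t ht => ?_⟩
  have h3 := hT (t + 1) (by omega)
  rw [div_lt_div_iff₀ (by positivity) (by positivity), one_mul] at h3
  have h4 : ((t : ℝ) + 1) ^ K * (1 + c) < 2 ^ t := by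
    push_cast at h3
    rw [pow_succ (2 : ℝ) t] at h3
    nlinarith
  have h5 : (t + 1) ^ K * (1 + c) < 2 ^ t := by exact_mod_cast h4
  have h6 : 1 ≤ (t + 1) ^ K := Nat.one_le_pow _ _ (by omega)
  have h7 : 1 * c ≤ (t + 1) ^ K * c := Nat.mul_le_mul_right _ h6
  rw [mul_add, mul_one] at h5
  omega

theorem eventually_len (K c : ℕ) : ∃ S0, ∀ s, S0 ≤ s → len s ^ K + c ≤ s := by
  obtain ⟨T, hT⟩ := ba0_pow K c
  refine ⟨2 ^ T, fun s hs => ?_⟩
  have hs0 : s ≠ 0 := by
    have : 1 ≤ 2 ^ T := Nat.one_le_two_pow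
    omega
  have h1 : T ≤ Nat.log 2 s := Nat.le_log_of_pow_le one_lt_two hs
  exact (hT _ h1).trans (Nat.pow_log_le_self 2 hs0)

/-- a polynomial in big numbers is big -/
theorem exists_bd_poly (c K d : ℕ) : ∃ K' S0, ∀ s, S0 ≤ s → (c * bd K s + c) ^ d ≤ bd K' s := by
  refine ⟨max 1 K + 1 + 1, 2 * c + 2 + 2 ^ d, fun s hs => ?_⟩
  have h0 : 2 * c + 2 ≤ s := le_trans (Nat.le_add_right _ _) hs
  have h0' : 2 ^ d ≤ s := le_trans (Nat.le_add_left _ _) hs
  have h1 : 1 ≤ bd K s := one_le_bd K s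
  have h2 : 2 * c < bd 1 s := lt_of_le_of_lt (by omega) (lt_bd_one s)
  have h3 : c * bd K s + c ≤ bd 1 s * bd K s := by
    calc c * bd K s + c ≤ c * bd K s + c * bd K s := by
          have := Nat.mul_le_mul_left c h1
          omega
      _ = 2 * c * bd K s := by ring
      _ ≤ bd 1 s * bd K s := Nat.mul_le_mul_right _ h2.le
  have h4 : c * bd K s + c ≤ bd (max 1 K + 1) s := h3.trans (bd_mul (by omega))
  refine (Nat.pow_le_pow_left h4 d).trans (bd_pow ?_)
  have h5 : d ≤ Nat.log 2 s := Nat.le_log_of_pow_le one_lt_two h0'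
  rw [pow_one]
  unfold len
  omega

end Pool.Agent.DNP18
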