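import Pool.Agent.DNP18.BaseA

/-!
# [DNP-BASEB] closure properties of `DD`, part 1

All by unfolding. `DD.of_dio`: witnesses of `Dio` are `≤ (2 + ∑ v)^d ≤ bd K0 s` if all `v i ≤ bd K1 s`
(`exists_bd_poly`), soundness is unconditional. `DD.and`, `DD.or`: as `Dio.and`, `Dio.or` (sum of squares,
product; the unused witnesses are `0`), `K0 = max`, `S0 = max`. `DD.congr_ev`: enlarge `S0` (the
completeness part uses the equivalence at level `K1`, the soundness part at level `K`).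
-/

namespace Pool.Agent.DNP18

open Pool.Agent.DPoly

section

variable {σ : Type} [Fintype σ] {o : σ} {P Q : (σ → ℕ) → Prop}

theorem DD.congr_ev (hQ : DD o Q)
    (h : ∀ K, ∃ S0, ∀ v, S0 ≤ v o → Bnd o K v → (Q v ↔ P v)) : DD o P := by
  intro K1
  obtain ⟨K0, h0⟩ := hQ K1
  obtain ⟨S1, e1⟩ := h K1
  refine ⟨K0, fun K => ?_⟩
  obtain ⟨S0, τ, iτ, g, hg, hc, hs⟩ := h0 K
  obtain ⟨S2, e2⟩ := h K
  refine ⟨max S0 (max S1 S2), τ, iτ, g, hg, fun v hv hb hp => ?_, fun v y hv hb hy hz => ?_⟩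
  · exact hc v ((le_max_left _ _).trans hv) hb
      ((e1 v (((le_max_left _ _).trans (le_max_right _ _)).trans hv) hb).2 hp)
  · exact (e2 v (((le_max_right _ _).trans (le_max_right _ _)).trans hv) hb).1
      (hs v y ((le_max_left _ _).trans hv) hb hy hz)

theorem DD.congr (hQ : DD o Q) (h : ∀ v, Q v ↔ P v) : DD o P :=
  hQ.congr_ev fun _ => ⟨0, fun v _ _ => h v⟩

theorem DD.of_dio (o : σ) (hP : Dio P) : DD o P := by
  obtain ⟨τ, iτ, d, g, hg, hc, hs⟩ := hP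
  intro K1
  obtain ⟨K0, S0, h0⟩ := exists_bd_poly (Fintype.card σ + 2) K1 d
  refine ⟨K0, fun K => ⟨S0, τ, iτ, g, hg, fun v hv hb hp => ?_, fun v y _ _ _ hz => hs v y hz⟩⟩
  obtain ⟨y, hy, hz⟩ := hc v hp
  refine ⟨y, fun j => ((hy j).trans ?_).trans (h0 (v o) hv), hz⟩
  refine Nat.pow_le_pow_left ?_ d
  have h1 : ∑ i, v i ≤ Fintype.card σ * bd K1 (v o) := by
    calc ∑ i, v i ≤ ∑ _i : σ, bd K1 (v o) := Finset.sum_le_sum fun i _ => hb i
      _ = Fintype.card σ * bd K1 (v o) := by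
        rw [Finset.sum_const, Finset.card_univ, smul_eq_mul]
  calc 2 + ∑ i, v i ≤ 2 + Fintype.card σ * bd K1 (v o) := Nat.add_le_add_left h1 2
    _ ≤ (Fintype.card σ + 2) * bd K1 (v o) + (Fintype.card σ + 2) := by
      rw [Nat.add_mul]
      omega

theorem DD.and (hP : DD o P) (hQ : DD o Q) : DD o (fun v => P v ∧ Q v) := by
  intro K1
  obtain ⟨KP, hP⟩ := hP K1
  obtain ⟨KQ, hQ⟩ := hQ K1
  refine ⟨max KP KQ, fun K => ?_⟩
  obtain ⟨S1, τ1, _, g1, hg1, h1, h1'⟩ := hP K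
  obtain ⟨S2, τ2, _, g2, hg2, h2, h2'⟩ := hQ K
  let e1 : σ ⊕ τ1 → σ ⊕ (τ1 ⊕ τ2) := Sum.elim Sum.inl (fun j => Sum.inr (Sum.inl j))
  let e2 : σ ⊕ τ2 → σ ⊕ (τ1 ⊕ τ2) := Sum.elim Sum.inl (fun j => Sum.inr (Sum.inr j))
  have k1 : ∀ (v : σ → ℕ) (y : τ1 ⊕ τ2 → ℕ), (fun i => Sum.elim v y (e1 i)) =
      Sum.elim v (fun j => y (Sum.inl j)) := by
    intro v y
    funext i
    rcases i with i | i <;> rfl
  have k2 : ∀ (v : σ → ℕ) (y : τ1 ⊕ τ2 → ℕ), (fun i => Sum.elim v y (e2 i)) =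
      Sum.elim v (fun j => y (Sum.inr j)) := by
    intro v y
    funext i
    rcases i with i | i <;> rfl
  refine ⟨max S1 S2, τ1 ⊕ τ2, inferInstance,
    fun v => g1 (fun i => v (e1 i)) ^ 2 + g2 (fun i => v (e2 i)) ^ 2,
    ((hg1.comp e1).pow 2).add ((hg2.comp e2).pow 2), ?_, ?_⟩
  · rintro v hv hb ⟨hp, hq⟩
    obtain ⟨y1, b1, z1⟩ := h1 v ((le_max_left _ _).trans hv) hb hp
    obtain ⟨y2, b2, z2⟩ := h2 v ((le_max_right _ _).trans hv) hb hq
    refine ⟨Sum.elim y1 y2, ?_, ?_⟩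
    · rintro (j | j)
      · exact (b1 j).trans (bd_mono (le_max_left _ _))
      · exact (b2 j).trans (bd_mono (le_max_right _ _))
    · simp only [k1, k2, Sum.elim_inl, Sum.elim_inr]
      rw [show (fun j => y1 j) = y1 from rfl, show (fun j => y2 j) = y2 from rfl, z1, z2]
      norm_num
  · intro v y hv hb hyb hy
    simp only [k1, k2] at hy
    have a1 := sq_nonneg (g1 (Sum.elim v fun j => y (Sum.inl j)))
    have a2 := sq_nonneg (g2 (Sum.elim v fun j => y (Sum.inr j)))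
    have b1 : g1 (Sum.elim v fun j => y (Sum.inl j)) ^ 2 = 0 := by linarith
    have b2 : g2 (Sum.elim v fun j => y (Sum.inr j)) ^ 2 = 0 := by linarith
    exact ⟨h1' v _ ((le_max_left _ _).trans hv) hb (fun j => hyb (Sum.inl j))
        (pow_eq_zero_iff (by norm_num) |>.1 b1),
      h2' v _ ((le_max_right _ _).trans hv) hb (fun j => hyb (Sum.inr j))
        (pow_eq_zero_iff (by norm_num) |>.1 b2)⟩

theorem DD.or (hP : DD o P) (hQ : DD o Q) : DD o (fun v => P v ∨ Q v) := by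
  intro K1
  obtain ⟨KP, hP⟩ := hP K1
  obtain ⟨KQ, hQ⟩ := hQ K1
  refine ⟨max KP KQ, fun K => ?_⟩
  obtain ⟨S1, τ1, _, g1, hg1, h1, h1'⟩ := hP K
  obtain ⟨S2, τ2, _, g2, hg2, h2, h2'⟩ := hQ K
  let e1 : σ ⊕ τ1 → σ ⊕ (τ1 ⊕ τ2) := Sum.elim Sum.inl (fun j => Sum.inr (Sum.inl j))
  let e2 : σ ⊕ τ2 → σ ⊕ (τ1 ⊕ τ2) := Sum.elim Sum.inl (fun j => Sum.inr (Sum.inr j))
  have k1 : ∀ (v : σ → ℕ) (y : τ1 ⊕ τ2 → ℕ), (fun i => Sum.elim v y (e1 i)) =
      Sum.elim v (fun j => y (Sum.inl j)) := by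
    intro v y
    funext i
    rcases i with i | i <;> rfl
  have k2 : ∀ (v : σ → ℕ) (y : τ1 ⊕ τ2 → ℕ), (fun i => Sum.elim v y (e2 i)) =
      Sum.elim v (fun j => y (Sum.inr j)) := by
    intro v y
    funext i
    rcases i with i | i <;> rfl
  refine ⟨max S1 S2, τ1 ⊕ τ2, inferInstance,
    fun v => g1 (fun i => v (e1 i)) * g2 (fun i => v (e2 i)),
    (hg1.comp e1).mul (hg2.comp e2), ?_, ?_⟩
  · rintro v hv hb (hp | hq)
    · obtain ⟨y1, b1, z1⟩ := h1 v ((le_max_left _ _).trans hv) hb hp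
      refine ⟨Sum.elim y1 (fun _ => 0), ?_, ?_⟩
      · rintro (j | j)
        · exact (b1 j).trans (bd_mono (le_max_left _ _))
        · exact Nat.zero_le _
      · simp only [k1, k2, Sum.elim_inl, Sum.elim_inr]
        rw [show (fun j => y1 j) = y1 from rfl, z1]
        norm_num
    · obtain ⟨y2, b2, z2⟩ := h2 v ((le_max_right _ _).trans hv) hb hq
      refine ⟨Sum.elim (fun _ => 0) y2, ?_, ?_⟩
      · rintro (j | j)
        · exact Nat.zero_le _
        · exact (b2 j).trans (bd_mono (le_max_right _ _))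
      · simp only [k1, k2, Sum.elim_inl, Sum.elim_inr]
        rw [show (fun j => y2 j) = y2 from rfl, z2]
        norm_num
  · intro v y hv hb hyb hy
    simp only [k1, k2] at hy
    rcases mul_eq_zero.1 hy with h | h
    · exact Or.inl (h1' v _ ((le_max_left _ _).trans hv) hb (fun j => hyb (Sum.inl j)) h)
    · exact Or.inr (h2' v _ ((le_max_right _ _).trans hv) hb (fun j => hyb (Sum.inr j)) h)

theorem DD.all {κ : Type} [Fintype κ] {P : κ → (σ → ℕ) → Prop} (h : ∀ k, DD o (P k)) :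
    DD o (fun v => ∀ k, P k v) := by
  classical
  have key : ∀ s : Finset κ, DD o (fun v => ∀ k ∈ s, P k v) := by
    intro s
    induction s using Finset.induction_on with
    | empty =>
      refine (DD.of_dio o (Dio.eq0 (PolyFun.const (σ := σ) 0))).congr fun v => ?_
      simp
    | insert a s _ ih =>
      refine ((h a).and ih).congr fun v => ?_
      simp
  exact (key Finset.univ).congr fun v => by simp

end

end Pool.Agent.DNP18
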