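import Pool.Agent.DNP18.BaseA

/-!
# [DNP-BASEC] closure properties of `DD`, part 2

`DD.exs`: existential quantification. Given `K1`: `W` and the bounds `w j ≤ bd K2 s` for `s ≥ S1` from `h1`
(maximum over the finitely many `j`); apply `hQ` with `max K1 K2`, get `K0'`; `K0 := max K0' K2`. Given `K`: `g` from
`hQ` at level `K`, composed with the obvious map `σ ⊕ (τ ⊕ ρ) → (σ ⊕ τ) ⊕ ρ` (as in `Dio.exs`), `S0` the maximum
of all thresholds. Note `(Sum.elim v w) (Sum.inl o) = v o`.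
`DD.subst`: substitution of polynomials `f i`; for `v` with `Bnd o' K v` we have `Bnd o K' (fun i => f i v)` for
large `s` (`NPoly.bound`, `exists_bd_poly`), where `K' = K'(K)`; apply `hP` with `K1' = K'(K1)`, and for soundness
at level `K` use the polynomial of level `max K (K'(K))`. `g' (v, y) = g (f(v), y)` is a polynomial function:
substitute into the `MvPolynomial` (`MvPolynomial.aeval`/`bind₁`; a general lemma
`PolyFun g → (∀ i, PolyFun (F i)) → PolyFun (g ∘ F)` for natural valued `F`).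
-/

namespace Pool.Agent.DNP18

open Pool.Agent.DPoly

open MvPolynomial in
/-- composition of polynomial functions -/
theorem polyFun_comp {α β : Type} {g : (α → ℕ) → ℤ} (hg : PolyFun g) (F : α → (β → ℕ) → ℕ)
    (hF : ∀ i, NPoly (F i)) : PolyFun (fun v => g (fun i => F i v)) := by
  obtain ⟨p, hp⟩ := hg
  choose q hq using hF
  refine ⟨bind₁ q p, fun v => ?_⟩
  change g (fun i => F i v) = _
  rw [hp]
  have h := eval₂Hom_bind₁ (RingHom.id ℤ) (fun j => ((v j : ℕ) : ℤ)) q p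
  have e : ∀ (γ : Type) (x : γ → ℤ) (r : MvPolynomial γ ℤ), eval x r = eval₂Hom (RingHom.id ℤ) x r :=
    fun _ _ _ => rfl
  rw [e, e, h]
  congr 2
  funext i
  exact hq i v

section

variable {σ τ : Type} [Fintype σ] [Fintype τ] {o : σ}

omit [Fintype σ] [Fintype τ] in
/-- uniform bounds for finitely many functions -/
theorem exists_uniform {C : (σ → ℕ) → Prop} {ι : Type} [Fintype ι] (F : ι → (σ → ℕ) → ℕ)
    (h : ∀ j, Big o C (F j)) :
    ∃ K S, ∀ v, S ≤ v o → C v → ∀ j, F j v ≤ bd K (v o) := by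
  choose K S h using h
  refine ⟨∑ j, K j, ∑ j, S j, fun v hv hC j => ?_⟩
  have h1 : S j ≤ ∑ j, S j := Finset.single_le_sum (fun _ _ => Nat.zero_le _) (Finset.mem_univ j)
  have h2 : K j ≤ ∑ j, K j := Finset.single_le_sum (fun _ _ => Nat.zero_le _) (Finset.mem_univ j)
  exact (h j v (h1.trans hv) hC).trans (bd_mono h2)

theorem DD.exs {P : (σ → ℕ) → Prop} {Q : (σ ⊕ τ → ℕ) → Prop} (hQ : DD (Sum.inl o) Q)
    (h1 : ∀ K1, ∃ W : (σ → ℕ) → τ → ℕ,
      (∀ j, Big o (fun v => Bnd o K1 v ∧ P v) (fun v => W v j)) ∧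
      ∃ S0, ∀ v, S0 ≤ v o → Bnd o K1 v → P v → Q (Sum.elim v (W v)))
    (h2 : ∀ K, ∃ S0, ∀ (v : σ → ℕ) (w : τ → ℕ), S0 ≤ v o → Bnd o K v → (∀ j, w j ≤ bd K (v o)) →
      Q (Sum.elim v w) → P v) : DD o P := by
  intro K1
  obtain ⟨W, hW, S1, hQ1⟩ := h1 K1
  obtain ⟨K2, S2, hW2⟩ := exists_uniform (fun j v => W v j) hW
  obtain ⟨K0, hK0⟩ := hQ (max K1 K2)
  refine ⟨max K0 K2, fun K => ?_⟩
  obtain ⟨S3, ρ, _, g, hg, hc, hs⟩ := hK0 K
  obtain ⟨S4, h2'⟩ := h2 K
  let E : (σ ⊕ τ) ⊕ ρ → σ ⊕ (τ ⊕ ρ) :=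
    Sum.elim (Sum.elim Sum.inl (fun j => Sum.inr (Sum.inl j))) (fun j => Sum.inr (Sum.inr j))
  have k : ∀ (v : σ → ℕ) (y : τ ⊕ ρ → ℕ), (fun i => Sum.elim v y (E i)) =
      Sum.elim (Sum.elim v (fun j => y (Sum.inl j))) (fun j => y (Sum.inr j)) := by
    intro v y
    funext i
    rcases i with (i | i) | i <;> rfl
  refine ⟨max (max S1 S2) (max S3 S4), τ ⊕ ρ, inferInstance, fun v => g (fun i => v (E i)),
    hg.comp E, ?_, ?_⟩
  · intro v hv hb hp
    have hq := hQ1 v (by omega) hb hp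
    have hwb := hW2 v (by omega) ⟨hb, hp⟩
    obtain ⟨y, hy, hz⟩ := hc (Sum.elim v (W v)) (by change S3 ≤ v o; omega) (by
      rintro (i | j)
      · exact (hb i).trans (bd_mono (le_max_left _ _))
      · exact (hwb j).trans (bd_mono (le_max_right _ _))) hq
    refine ⟨Sum.elim (W v) y, ?_, ?_⟩
    · rintro (j | j)
      · exact (hwb j).trans (bd_mono (le_max_right _ _))
      · exact (hy j).trans (bd_mono (le_max_left _ _))
    · simp only [k, Sum.elim_inl, Sum.elim_inr]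
      exact hz
  · intro v y hv hb hy hz
    simp only [k] at hz
    have hq := hs (Sum.elim v (fun j => y (Sum.inl j))) (fun j => y (Sum.inr j))
      (by change S3 ≤ v o; omega) (by
        rintro (i | j)
        · exact hb i
        · exact hy (Sum.inl j)) (fun j => hy (Sum.inr j)) hz
    exact h2' v _ (by omega) hb (fun j => hy (Sum.inl j)) hq

/-- simple form: the witness function does not depend on `K1`, and no thresholds are needed -/
theorem DD.exs' {P : (σ → ℕ) → Prop} {Q : (σ ⊕ τ → ℕ) → Prop} (hQ : DD (Sum.inl o) Q)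
    (W : (σ → ℕ) → τ → ℕ)
    (hW : ∀ K1 j, Big o (fun v => Bnd o K1 v ∧ P v) (fun v => W v j))
    (h1 : ∀ v, P v → Q (Sum.elim v (W v)))
    (h2 : ∀ (v : σ → ℕ) (w : τ → ℕ), Q (Sum.elim v w) → P v) : DD o P :=
  hQ.exs (fun K1 => ⟨W, hW K1, 0, fun v _ _ hv => h1 v hv⟩)
    (fun _ => ⟨0, fun v w _ _ _ hq => h2 v w hq⟩)

theorem DD.subst {σ' : Type} [Fintype σ'] {o' : σ'} {P : (σ → ℕ) → Prop} (hP : DD o P)
    (f : σ → (σ' → ℕ) → ℕ) (hf : ∀ i, NPoly (f i)) (ho : ∀ v, f o v = v o') :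
    DD o' (fun v => P (fun i => f i v)) := by
  have hb : ∀ K, ∃ K' S, ∀ v, S ≤ v o' → (Bnd o' K v ∧ True) → ∀ i, f i v ≤ bd K' (v o') :=
    fun K => exists_uniform f fun i => Big.npoly K (hf i)
  intro K1
  obtain ⟨K1', S1, h1⟩ := hb K1
  obtain ⟨K0, hK0⟩ := hP K1'
  refine ⟨K0, fun K => ?_⟩
  obtain ⟨K', S2, h2⟩ := hb K
  obtain ⟨S3, τ, _, g, hg, hc, hs⟩ := hK0 (max K K')
  refine ⟨max (max S1 S2) S3, τ, inferInstance,
    fun v => g (fun i => (Sum.elim (fun i v => f i (fun j => v (Sum.inl j)))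
      (fun j v => v (Sum.inr j)) : σ ⊕ τ → (σ' ⊕ τ → ℕ) → ℕ) i v), polyFun_comp hg _ ?_, ?_, ?_⟩
  · rintro (i | j)
    · exact PolyFun.comp (hf i) Sum.inl
    · exact NPoly.coord _
  · intro v hv hbv hp
    obtain ⟨y, hy, hz⟩ := hc (fun i => f i v) (by change S3 ≤ f o v; rw [ho]; omega) (by
      intro i
      change f i v ≤ bd K1' (f o v)
      rw [ho]
      exact h1 v (by omega) ⟨hbv, trivial⟩ i) hp
    refine ⟨y, fun j => (hy j).trans (le_of_eq (congrArg (bd K0) (ho v))), ?_⟩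
    rw [← hz]
    apply congrArg g
    funext i
    rcases i with i | j <;> rfl
  · intro v y hv hbv hy hz
    refine hs (fun i => f i v) y (by change S3 ≤ f o v; rw [ho]; omega) ?_ ?_ ?_
    · intro i
      change f i v ≤ bd _ (f o v)
      rw [ho]
      exact (h2 v (by omega) ⟨hbv, trivial⟩ i).trans (bd_mono (le_max_right _ _))
    · intro j
      change y j ≤ bd _ (f o v)
      rw [ho]
      exact (hy j).trans (bd_mono (le_max_left _ _))
    · rw [← hz]
      apply congrArg g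
      funext i
      rcases i with i | j <;> rfl

end

end Pool.Agent.DNP18
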