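import Pool.Agent.DNP18.BaseB
import Pool.Agent.DNP18.BaseC

/-!
# [DNP-BASED] from `DD` to the class `D`

Let `K0` be the completeness level for `K1 = 1` and take `K = k = K0 + 1`: a polynomial `g` with
`S0`, `m = card τ`. For `s = ∑ a ≥ S1` we have `m * bd K0 s ≤ bd (K0+1) s = 2^(|s|^k)`, so for these `a` the
equation `g = 0` with `∑ x ≤ 2^(|s|^k)` works in both directions (`a i ≤ s ≤ bd 1 s`).
Finitely many exceptions: let `E` be the finite set of `a` with `∑ a < max S0 S1 2`, `E⁺ = E ∩ R`,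
`e(a) = ∏_{b ∈ E} ∑ i (a i - b i)^2`, `e⁺` the same product over `E⁺`. Polynomial:
`((e(a) - 1 - t)^2 + g(a,x)^2) * (e⁺(a) + ∑ x^2 + t^2)` with one more variable `t`.
For `a ∉ E`: `e(a) ≥ 1`, `t = e(a) - 1` is bounded by a polynomial in `s` (enlarge `k`, using a larger `K`), and the
second factor is positive. For `a ∈ E⁺`: `x = 0, t = 0`. For `a ∈ E \ E⁺` both factors are positive.
(The level: the exponent `k` of the bound must equal the soundness level `K`; so choose first `K0`, then
`d` = the degree bound of `e(a)`, which depends on `S0`, hence on `K`. To avoid circularity note that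
`e(a) ≤ (2+s)^d ≤ bd (K0+1) s` for `s ≥ S2(d)`, and put the `a` with `∑ a < S2` also in `E`: to avoid the
second circularity use for `t` the bound directly: replace `e(a) - 1 - t` by the condition
`S ≤ s` i.e. `(s - S - t)` with `s = ∑ a`, `S` the final threshold, instead of `e(a) - 1 - t`; then `t ≤ s`.)
So: polynomial `((s - S - t)^2 + g(a,x)^2) * (e⁺(a) + ∑ x^2 + t^2)`, `e⁺` the product over the finite set
`{a ∈ R : ∑ a < S}`.
-/

namespace Pool.Agent.DNP18

open Pool.Agent.DPoly

/-- A relation which is definable with size parameter `s = ∑ a` has an exponentially bounded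
Diophantine representation. -/
theorem exists_rep_of_DD {n : ℕ} {R : Set (Fin n → ℕ)}
    (h : DD (none : Option (Fin n))
      (fun v => v none = ∑ i, v (some i) ∧ (fun i => v (some i)) ∈ R)) :
    ∃ (m k : ℕ) (p : MvPolynomial (Fin n ⊕ Fin m) ℤ), ∀ a : Fin n → ℕ, a ∈ R ↔
      ∃ x : Fin m → ℕ, MvPolynomial.eval (fun i => ((Sum.elim a x i : ℕ) : ℤ)) p = 0 ∧
        ∑ j, x j ≤ 2 ^ len (∑ i, a i) ^ k := by
  classical
  obtain ⟨K0, hK0⟩ := h 1
  obtain ⟨S0, τ, hτ, g, hg, hcomp, hsound⟩ := hK0 (max 1 K0 + 2)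
  set K : ℕ := max 1 K0 + 2 with hKdef
  -- the final threshold
  set S : ℕ := max S0 (Fintype.card τ + 2) with hSdef
  have hS0 : S0 ≤ S := le_max_left _ _
  have hS1 : Fintype.card τ + 2 ≤ S := le_max_right _ _
  -- the finitely many exceptions
  set E : Finset (Fin n → ℕ) := (Fintype.piFinset (fun _ : Fin n => Finset.range S)).filter
    (fun b => b ∈ R ∧ ∑ i, b i < S) with hE
  have hEmem : ∀ a : Fin n → ℕ, a ∈ E ↔ (a ∈ R ∧ ∑ i, a i < S) := by
    intro a
    rw [hE, Finset.mem_filter]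
    constructor
    · exact fun h1 => h1.2
    · intro h1
      refine ⟨?_, h1⟩
      rw [Fintype.mem_piFinset]
      intro i
      rw [Finset.mem_range]
      have h2 : a i ≤ ∑ i, a i := Finset.single_le_sum (f := a) (fun _ _ => Nat.zero_le _) (Finset.mem_univ i)
      exact lt_of_le_of_lt h2 h1.2
  -- the variables
  let m : ℕ := Fintype.card (Option τ)
  let e : Option τ ≃ Fin m := Fintype.equivFin (Option τ)
  let T : Fin n ⊕ Fin m := Sum.inr (e none)
  let F : Option (Fin n) ⊕ τ → (Fin n ⊕ Fin m → ℕ) → ℕ := fun i w =>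
    match i with
    | Sum.inl none => ∑ i, w (Sum.inl i)
    | Sum.inl (some i) => w (Sum.inl i)
    | Sum.inr j => w (Sum.inr (e (some j)))
  have hF : ∀ i, NPoly (F i) := by
    intro i
    match i with
    | Sum.inl none => exact NPoly.sum _ fun i _ => NPoly.coord (Sum.inl i)
    | Sum.inl (some i) => exact NPoly.coord (Sum.inl i)
    | Sum.inr j => exact NPoly.coord (Sum.inr (e (some j)))
  let G : (Fin n ⊕ Fin m → ℕ) → ℤ := fun w =>
    (((∑ i : Fin n, (w (Sum.inl i) : ℤ)) - (S : ℤ) - (w T : ℤ)) ^ 2 + (g (fun i => F i w)) ^ 2)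
      * ((∏ b ∈ E, ∑ i : Fin n, ((w (Sum.inl i) : ℤ) - (b i : ℤ)) ^ 2)
        + (∑ j : τ, (w (Sum.inr (e (some j))) : ℤ) ^ 2) + (w T : ℤ) ^ 2)
  have hG : PolyFun G := by
    have h1 : PolyFun (fun w : Fin n ⊕ Fin m → ℕ => g (fun i => F i w)) := polyFun_comp hg F hF
    refine PolyFun.mul (PolyFun.add (PolyFun.pow (PolyFun.sub (PolyFun.sub (PolyFun.sum _ fun i _ =>
      PolyFun.coord (Sum.inl i)) (PolyFun.const _)) (PolyFun.coord T)) 2) (PolyFun.pow h1 2)) ?_
    refine PolyFun.add (PolyFun.add (PolyFun.prod _ fun b _ => PolyFun.sum _ fun i _ =>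
      PolyFun.pow (PolyFun.sub (PolyFun.coord (Sum.inl i)) (PolyFun.const _)) 2)
      (PolyFun.sum _ fun j _ => PolyFun.pow (PolyFun.coord _) 2)) (PolyFun.pow (PolyFun.coord T) 2)
  obtain ⟨p, hp⟩ := hG
  refine ⟨m, K, p, fun a => ?_⟩
  -- the values of the substituted variables
  have hFv : ∀ x : Fin m → ℕ, (fun i => F i (Sum.elim a x))
      = Sum.elim (fun o : Option (Fin n) => o.elim (∑ i, a i) a) (fun j => x (e (some j))) := by
    intro x
    funext i
    match i with
    | Sum.inl none => rfl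
    | Sum.inl (some i) => rfl
    | Sum.inr j => rfl
  have hGv : ∀ x : Fin m → ℕ, MvPolynomial.eval (fun i => ((Sum.elim a x i : ℕ) : ℤ)) p
      = ((((∑ i : Fin n, a i : ℕ) : ℤ) - (S : ℤ) - (x (e none) : ℤ)) ^ 2
          + (g (Sum.elim (fun o : Option (Fin n) => o.elim (∑ i, a i) a) (fun j => x (e (some j))))) ^ 2)
        * ((∏ b ∈ E, ∑ i : Fin n, ((a i : ℤ) - (b i : ℤ)) ^ 2)
          + (∑ j : τ, (x (e (some j)) : ℤ) ^ 2) + (x (e none) : ℤ) ^ 2) := by
    intro x
    rw [← hp (Sum.elim a x)]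
    have h1 := hFv x
    simp only [G, T, Sum.elim_inl, Sum.elim_inr, h1]
    push_cast
    rfl
  have hcoord : ∀ i, a i ≤ ∑ i, a i := fun i =>
    Finset.single_le_sum (f := a) (fun _ _ => Nat.zero_le _) (Finset.mem_univ i)
  have hsumx : ∀ x : Fin m → ℕ, ∑ j, x j = x (e none) + ∑ j : τ, x (e (some j)) := by
    intro x
    rw [← Equiv.sum_comp e x, Fintype.sum_option]
  constructor
  · intro ha
    by_cases hs : ∑ i, a i < S
    · refine ⟨fun _ => 0, ?_, by simp⟩
      rw [hGv]
      have haE : a ∈ E := (hEmem a).2 ⟨ha, hs⟩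
      have h1 : (∏ b ∈ E, ∑ i : Fin n, ((a i : ℤ) - (b i : ℤ)) ^ 2) = 0 :=
        Finset.prod_eq_zero haE (by simp)
      rw [h1]
      simp
    · have hs' : S ≤ ∑ i, a i := not_lt.1 hs
      obtain ⟨y, hy, hgy⟩ := hcomp (fun o : Option (Fin n) => o.elim (∑ i, a i) a)
        (le_trans hS0 hs') (by
          intro o
          match o with
          | none => exact (lt_bd_one _).le
          | some i => exact le_trans (hcoord i) (lt_bd_one _).le) ⟨rfl, ha⟩
      refine ⟨fun j => (e.symm j).elim (∑ i, a i - S) y, ?_, ?_⟩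
      · rw [hGv]
        have h1 : ((∑ i : Fin n, a i : ℕ) : ℤ) - (S : ℤ) - (((∑ i, a i - S : ℕ) : ℕ) : ℤ) = 0 := by
          rw [Nat.cast_sub hs']
          ring
        simp only [Equiv.symm_apply_apply, Option.elim_none, Option.elim_some]
        rw [h1, hgy]
        simp
      · rw [hsumx]
        simp only [Equiv.symm_apply_apply, Option.elim_none, Option.elim_some]
        change _ ≤ bd K (∑ i, a i)
        set s := ∑ i, a i with hsdef
        have hs2 : 2 ≤ s := by omega
        have h1 : ∑ j : τ, y j ≤ Fintype.card τ * bd K0 s := by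
          calc ∑ j : τ, y j ≤ ∑ _j : τ, bd K0 s := Finset.sum_le_sum fun j _ => hy j
            _ = Fintype.card τ * bd K0 s := by simp
        have h2 : Fintype.card τ ≤ bd 1 s := le_trans (by omega) (lt_bd_one s).le
        have h3 : Fintype.card τ * bd K0 s ≤ bd (max 1 K0 + 1) s :=
          le_trans (Nat.mul_le_mul_right _ h2) (bd_mul hs2)
        have h4 : s - S ≤ bd 1 s := le_trans (Nat.sub_le _ _) (lt_bd_one s).le
        have h5 : bd 1 s + bd (max 1 K0 + 1) s ≤ bd (max 1 (max 1 K0 + 1) + 1) s := bd_add hs2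
        have h6 : max 1 (max 1 K0 + 1) + 1 = K := by omega
        rw [h6] at h5
        omega
  · rintro ⟨x, hx, hb⟩
    rw [hGv] at hx
    change _ ≤ bd K (∑ i, a i) at hb
    rcases mul_eq_zero.1 hx with h0 | h0
    · have h1 : (((∑ i : Fin n, a i : ℕ) : ℤ) - (S : ℤ) - (x (e none) : ℤ)) ^ 2 = 0 := by
        nlinarith [sq_nonneg (((∑ i : Fin n, a i : ℕ) : ℤ) - (S : ℤ) - (x (e none) : ℤ)),
          sq_nonneg (g (Sum.elim (fun o : Option (Fin n) => o.elim (∑ i, a i) a) (fun j => x (e (some j)))))]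
      have h2 : (g (Sum.elim (fun o : Option (Fin n) => o.elim (∑ i, a i) a) (fun j => x (e (some j))))) ^ 2
          = 0 := by
        rw [h1, zero_add] at h0
        exact h0
      have h3 := pow_eq_zero_iff (two_ne_zero) |>.1 h1
      have h4 := pow_eq_zero_iff (two_ne_zero) |>.1 h2
      have hs' : S ≤ ∑ i, a i := by
        have : (S : ℤ) ≤ ((∑ i : Fin n, a i : ℕ) : ℤ) := by
          have h5 : (0 : ℤ) ≤ (x (e none) : ℤ) := Int.natCast_nonneg _
          linarith
        exact_mod_cast this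
      have h5 := hsound (fun o : Option (Fin n) => o.elim (∑ i, a i) a) (fun j => x (e (some j)))
        (le_trans hS0 hs') (by
          intro o
          have hbd : bd 1 (∑ i, a i) ≤ bd K (∑ i, a i) := bd_mono (by omega)
          match o with
          | none => exact le_trans (lt_bd_one _).le hbd
          | some i => exact le_trans (hcoord i) (le_trans (lt_bd_one _).le hbd)) (by
          intro j
          have h6 : x (e (some j)) ≤ ∑ j, x j :=
            Finset.single_le_sum (f := x) (fun _ _ => Nat.zero_le _) (Finset.mem_univ (e (some j)))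
          exact le_trans h6 hb) h4
      exact h5.2
    · have h1 : (0 : ℤ) ≤ ∏ b ∈ E, ∑ i : Fin n, ((a i : ℤ) - (b i : ℤ)) ^ 2 :=
        Finset.prod_nonneg fun b _ => Finset.sum_nonneg fun i _ => sq_nonneg _
      have h2 : (0 : ℤ) ≤ ∑ j : τ, (x (e (some j)) : ℤ) ^ 2 :=
        Finset.sum_nonneg fun j _ => sq_nonneg _
      have h3 : (0 : ℤ) ≤ (x (e none) : ℤ) ^ 2 := sq_nonneg _
      have h4 : ∏ b ∈ E, ∑ i : Fin n, ((a i : ℤ) - (b i : ℤ)) ^ 2 = 0 := by linarith
      obtain ⟨b, hb1, hb2⟩ := Finset.prod_eq_zero_iff.1 h4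
      have h5 : ∀ i ∈ Finset.univ, ((a i : ℤ) - (b i : ℤ)) ^ 2 = 0 :=
        (Finset.sum_eq_zero_iff_of_nonneg fun i _ => sq_nonneg _).1 hb2
      have h6 : a = b := by
        funext i
        have h7 := pow_eq_zero_iff (two_ne_zero) |>.1 (h5 i (Finset.mem_univ i))
        have h8 : (a i : ℤ) = (b i : ℤ) := by linarith
        exact_mod_cast h8
      rw [h6]
      exact ((hEmem b).1 hb1).1

end Pool.Agent.DNP18
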