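import Pool.Agent.DPoly.Mod
import Pool.Agent.DPoly.Word

/-!
# Definability with a size parameter

`o` is the coordinate of the size parameter `s`; BIG means `≤ bd K s = 2^(|s|^K)`, SMALL means
`≤ |s|^K`.
-/

namespace Pool.Agent.DNP18

open Pool.Agent.DPoly

/-- the bound `2 ^ (|s|^K)` -/
def bd (K s : ℕ) : ℕ := 2 ^ len s ^ K

section

variable {σ τ : Type}

/-- all coordinates are at most `bd K s` -/
def Bnd (o : σ) (K : ℕ) (v : σ → ℕ) : Prop := ∀ i, v i ≤ bd K (v o)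

/-- `F` is big on `C` (for large `s`) -/
def Big (o : σ) (C : (σ → ℕ) → Prop) (F : (σ → ℕ) → ℕ) : Prop :=
  ∃ K S0 : ℕ, ∀ v, S0 ≤ v o → C v → F v ≤ bd K (v o)

/-- `F` is small on `C` (for large `s`) -/
def Small (o : σ) (C : (σ → ℕ) → Prop) (F : (σ → ℕ) → ℕ) : Prop :=
  ∃ K S0 : ℕ, ∀ v, S0 ≤ v o → C v → F v ≤ len (v o) ^ K

/-- The main notion: `P` has exponentially bounded Diophantine representations relative to the
size parameter `v o`. The witnesses are bounded by `bd K0`, and the representation is sound for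
witnesses (and arguments) up to `bd K` for arbitrarily large `K`. -/
def DD [Fintype σ] (o : σ) (P : (σ → ℕ) → Prop) : Prop :=
  ∀ K1 : ℕ, ∃ K0 : ℕ, ∀ K : ℕ, ∃ (S0 : ℕ) (τ : Type) (_ : Fintype τ) (g : (σ ⊕ τ → ℕ) → ℤ),
    PolyFun g ∧
    (∀ v, S0 ≤ v o → Bnd o K1 v → P v →
      ∃ y : τ → ℕ, (∀ j, y j ≤ bd K0 (v o)) ∧ g (Sum.elim v y) = 0) ∧
    (∀ (v : σ → ℕ) (y : τ → ℕ), S0 ≤ v o → Bnd o K v → (∀ j, y j ≤ bd K (v o)) →
      g (Sum.elim v y) = 0 → P v)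

end

end Pool.Agent.DNP18
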