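import Pool.Agent.DNP18.BaseB
import Pool.Agent.DNP18.BaseC

/-!
# Basic predicates in `DD`

The wrappers of the `Dio` lemmas; [DNP-BASEE] two more: quotients and coprimality.
`Dio.natDiv`: `F / G = q ↔ q G ≤ F < (q+1) G`. `Dio.coprime`: `∃ x y, F x = G y + 1 ∨ G x = F y + 1` with
`x, y ≤ F + G` (Bezout; `Dio.exs` with `τ = Fin 2`).
-/

namespace Pool.Agent.DNP18

open Pool.Agent.DPoly

section

variable {σ : Type} [Fintype σ]

theorem Dio.natDiv {F G q : (σ → ℕ) → ℕ} (hF : NPoly F) (hG : NPoly G) (hq : NPoly q) :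
    Dio (fun v => 0 < G v ∧ F v / G v = q v) := by
  refine ((Dio.natLt (NPoly.const 0) hG).and ((Dio.natLe (hq.mul hG) hF).and
    (Dio.natLt hF ((hq.add (NPoly.const 1)).mul hG)))).congr fun v => ?_
  constructor
  · rintro ⟨h0, h1, h2⟩
    exact ⟨h0, Nat.div_eq_of_lt_le h1 h2⟩
  · rintro ⟨h0, h1⟩
    refine ⟨h0, ?_, ?_⟩
    · rw [← h1]
      exact Nat.div_mul_le_self _ _
    · have := Nat.lt_div_mul_add (a := F v) h0
      rw [h1] at this
      rw [Nat.add_mul, Nat.one_mul]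
      exact this

private theorem baseE_cop {a b : ℕ} (h : Nat.Coprime a b) :
    ∃ x y : ℕ, x ≤ a + b ∧ y ≤ a + b ∧ (a * x = b * y + 1 ∨ b * x = a * y + 1) := by
  rcases Nat.lt_or_ge b 2 with hb | hb
  · have hb' : b = 0 ∨ b = 1 := by omega
    rcases hb' with rfl | rfl
    · have ha : a = 1 := by simpa using h
      subst ha
      exact ⟨1, 0, by omega, by omega, Or.inl (by norm_num)⟩
    · rcases Nat.eq_zero_or_pos a with ha | ha
      · subst ha
        exact ⟨1, 0, by omega, by omega, Or.inr (by norm_num)⟩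
      · exact ⟨1, a - 1, by omega, by omega, Or.inl (by omega)⟩
  · obtain ⟨m, hm⟩ : ∃ m, a * m % b = 1 := by
      obtain ⟨m, hm⟩ := Nat.exists_mul_mod_eq_one_of_coprime h (by omega : 1 < b)
      exact ⟨m, by tauto⟩
    have hm' : a * (m % b) % b = 1 := by
      rw [Nat.mul_mod, Nat.mod_mod, ← Nat.mul_mod]
      exact hm
    have hlt : m % b < b := Nat.mod_lt _ (by omega)
    refine ⟨m % b, a * (m % b) / b, by omega, ?_, Or.inl ?_⟩
    · have : a * (m % b) / b ≤ a := by
        apply Nat.div_le_of_le_mul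
        rw [Nat.mul_comm b a]
        exact Nat.mul_le_mul_left _ hlt.le
      omega
    · have := Nat.div_add_mod (a * (m % b)) b
      omega

private theorem baseE_cop' {a b x y : ℕ} (h : a * x = b * y + 1) : Nat.Coprime a b := by
  have h1 : Nat.gcd a b ∣ b * y := (Nat.gcd_dvd_right a b).mul_right y
  have h2 : Nat.gcd a b ∣ b * y + 1 := h ▸ (Nat.gcd_dvd_left a b).mul_right x
  have h3 : Nat.gcd a b ∣ 1 := (Nat.dvd_add_right h1).1 h2
  exact Nat.dvd_one.1 h3

theorem Dio.coprime {F G : (σ → ℕ) → ℕ} (hF : NPoly F) (hG : NPoly G) :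
    Dio (fun v => Nat.Coprime (F v) (G v)) := by
  have hF' : NPoly (fun u : σ ⊕ Fin 2 → ℕ => F (fun i => u (.inl i))) := PolyFun.comp hF Sum.inl
  have hG' : NPoly (fun u : σ ⊕ Fin 2 → ℕ => G (fun i => u (.inl i))) := PolyFun.comp hG Sum.inl
  have hx : NPoly (fun u : σ ⊕ Fin 2 → ℕ => u (.inr 0)) := NPoly.coord _
  have hy : NPoly (fun u : σ ⊕ Fin 2 → ℕ => u (.inr 1)) := NPoly.coord _
  have hQ := (Dio.natEq (hF'.mul hx) ((hG'.mul hy).add (NPoly.const 1))).or
    (Dio.natEq (hG'.mul hx) ((hF'.mul hy).add (NPoly.const 1)))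
  obtain ⟨e, he⟩ := NPoly.bound (hF.add hG)
  refine (Dio.exs hQ e ?_).congr ?_
  · rintro v ⟨w, hw⟩
    simp only [Sum.elim_inl, Sum.elim_inr] at hw
    have hc : Nat.Coprime (F v) (G v) := by
      rcases hw with hw | hw
      · exact baseE_cop' hw
      · exact (baseE_cop' hw).symm
    obtain ⟨x, y, hx, hy, hxy⟩ := baseE_cop hc
    refine ⟨![x, y], ?_, ?_⟩
    · intro j
      fin_cases j
      · exact hx.trans (he v)
      · exact hy.trans (he v)
    · simpa using hxy
  · intro v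
    constructor
    · rintro ⟨w, hw⟩
      simp only [Sum.elim_inl, Sum.elim_inr] at hw
      rcases hw with hw | hw
      · exact baseE_cop' hw
      · exact (baseE_cop' hw).symm
    · intro hc
      obtain ⟨x, y, hx, hy, hxy⟩ := baseE_cop hc
      exact ⟨![x, y], by simpa using hxy⟩

variable {o : σ} {F G m q : (σ → ℕ) → ℕ}

theorem DD.natEq (hF : NPoly F) (hG : NPoly G) : DD o (fun v => F v = G v) :=
  DD.of_dio o (Dio.natEq hF hG)

theorem DD.natLe (hF : NPoly F) (hG : NPoly G) : DD o (fun v => F v ≤ G v) :=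
  DD.of_dio o (Dio.natLe hF hG)

theorem DD.natLt (hF : NPoly F) (hG : NPoly G) : DD o (fun v => F v < G v) :=
  DD.of_dio o (Dio.natLt hF hG)

theorem DD.natDvd (hF : NPoly F) (hG : NPoly G) : DD o (fun v => F v ∣ G v) :=
  DD.of_dio o (Dio.natDvd hF hG)

theorem DD.intEq {f g : (σ → ℕ) → ℤ} (hf : PolyFun f) (hg : PolyFun g) :
    DD o (fun v => f v = g v) :=
  DD.of_dio o (Dio.eq hf hg)

theorem DD.intLe {f g : (σ → ℕ) → ℤ} (hf : PolyFun f) (hg : PolyFun g) :
    DD o (fun v => f v ≤ g v) :=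
  DD.of_dio o (Dio.le hf hg)

theorem DD.intDvd {f g : (σ → ℕ) → ℤ} (hf : PolyFun f) (hg : PolyFun g) :
    DD o (fun v => f v ∣ g v) :=
  DD.of_dio o (Dio.dvd hf hg)

theorem DD.natMod (hF : NPoly F) (hm : NPoly m) (hq : NPoly q) :
    DD o (fun v => 0 < m v ∧ F v % m v = q v) :=
  DD.of_dio o (Dio.mod hF hm hq)

theorem DD.natDiv (hF : NPoly F) (hG : NPoly G) (hq : NPoly q) :
    DD o (fun v => 0 < G v ∧ F v / G v = q v) :=
  DD.of_dio o (Dio.natDiv hF hG hq)

theorem DD.coprime (hF : NPoly F) (hG : NPoly G) : DD o (fun v => Nat.Coprime (F v) (G v)) :=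
  DD.of_dio o (Dio.coprime hF hG)

/-- polynomial in natural valued functions, for lifting to more variables -/
theorem NPoly.lift {τ : Type} (hF : NPoly F) : NPoly (fun v : σ ⊕ τ → ℕ => F (fun i => v (.inl i))) :=
  PolyFun.comp hF Sum.inl

theorem NPoly.pow (hF : NPoly F) (k : ℕ) : NPoly (fun v => F v ^ k) := by
  have h := PolyFun.pow hF k
  unfold NPoly
  push_cast
  exact h

end

end Pool.Agent.DNP18
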