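import Pool.Agent.DNP18.LegDef

/-!
# [DNP-INTA] the remainder integral

`rem a b m = ∫_0^1 (t(1-t))^m / (b + (a-b) t)^(m+1) dt` for reals `0 < b < a`.
Recurrence: `(m+2) d² I_{m+2} - (2m+3)(a+b) I_{m+1} + (m+1) I_m = 0`, since the integrand is the derivative of
`q(t) (t(1-t))^(m+1) / (b + d t)^(m+2)`, `q(t) = b - 2 b t - d t²`, `d = a - b` (to be checked by
`field_simp; ring` after `HasDerivAt`), which vanishes at `0` and `1`.
For the start: `I_0 = log(a/b)/d`, and `d² I_1 = (a+b) I_0 - 2`: the same function `q(t)/(b+dt)` has the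
derivative `d² t(1-t)/(b+dt)² - (a+b)/(b+dt)` and the values `1`, `-1` at `0`, `1`.
-/

namespace Pool.Agent.DNP18

open intervalIntegral

/-- The remainder integral -/
noncomputable def rem (a b : ℝ) (m : ℕ) : ℝ :=
  ∫ t in (0 : ℝ)..1, (t * (1 - t)) ^ m / (b + (a - b) * t) ^ (m + 1)

private theorem intA_pos {a b : ℝ} (hb : 0 < b) (hab : b < a) {t : ℝ} (ht : t ∈ Set.uIcc (0 : ℝ) 1) :
    0 < b + (a - b) * t := by
  rw [Set.uIcc_of_le zero_le_one] at ht
  have h1 : 0 ≤ (a - b) * t := mul_nonneg (by linarith) ht.1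
  linarith

private theorem intA_cont {a b : ℝ} (hb : 0 < b) (hab : b < a) (m n : ℕ) :
    ContinuousOn (fun t : ℝ => (t * (1 - t)) ^ m / (b + (a - b) * t) ^ n) (Set.uIcc (0 : ℝ) 1) := by
  refine ContinuousOn.div (by fun_prop) (by fun_prop) fun t ht => ?_
  exact (pow_pos (intA_pos hb hab ht) n).ne'

private theorem intA_int {a b : ℝ} (hb : 0 < b) (hab : b < a) (m n : ℕ) :
    IntervalIntegrable (fun t : ℝ => (t * (1 - t)) ^ m / (b + (a - b) * t) ^ n) MeasureTheory.volume 0 1 :=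
  (intA_cont hb hab m n).intervalIntegrable

theorem rem_zero {a b : ℝ} (hb : 0 < b) (hab : b < a) : (a - b) * rem a b 0 = Real.log (a / b) := by
  have h1 : ∫ t in (0 : ℝ)..1, (a - b) * ((t * (1 - t)) ^ 0 / (b + (a - b) * t) ^ (0 + 1)) =
      Real.log (b + (a - b) * 1) - Real.log (b + (a - b) * 0) := by
    refine integral_eq_sub_of_hasDerivAt (f := fun t : ℝ => Real.log (b + (a - b) * t)) (fun t ht => ?_)
      ((intA_int hb hab 0 (0 + 1)).const_mul _)
    have hp := intA_pos hb hab ht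
    have h2 : HasDerivAt (fun t : ℝ => b + (a - b) * t) (a - b) t := by
      simpa using ((hasDerivAt_id t).const_mul (a - b)).const_add b
    have h3 := h2.log hp.ne'
    refine h3.congr_deriv ?_
    rw [pow_zero, zero_add, pow_one, mul_one_div]
  rw [intervalIntegral.integral_const_mul] at h1
  unfold rem
  rw [h1, Real.log_div (by linarith) hb.ne']
  congr 2 <;> ring

private theorem intA_q {a b : ℝ} (t : ℝ) :
    HasDerivAt (fun t : ℝ => b - 2 * b * t - (a - b) * t ^ 2) (-2 * (b + (a - b) * t)) t := by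
  have h1 : HasDerivAt (fun t : ℝ => b - 2 * b * t - (a - b) * t ^ 2)
      (0 - 2 * b * 1 - (a - b) * (((2 : ℕ) : ℝ) * t ^ (2 - 1) * 1)) t :=
    (((hasDerivAt_const t b).sub ((hasDerivAt_id t).const_mul (2 * b))).sub
      (((hasDerivAt_id t).pow 2).const_mul (a - b)))
  convert h1 using 1
  push_cast
  ring

private theorem intA_D {a b : ℝ} (t : ℝ) : HasDerivAt (fun t : ℝ => b + (a - b) * t) (a - b) t := by
  simpa using ((hasDerivAt_id t).const_mul (a - b)).const_add b

private theorem intA_u (t : ℝ) : HasDerivAt (fun t : ℝ => t * (1 - t)) (1 - 2 * t) t := by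
  have h1 := (hasDerivAt_id' t).mul ((hasDerivAt_id' t).const_sub 1)
  refine h1.congr_deriv ?_
  ring

theorem rem_one {a b : ℝ} (hb : 0 < b) (hab : b < a) :
    (a - b) ^ 2 * rem a b 1 = (a + b) * rem a b 0 - 2 := by
  have h1 : ∫ t in (0 : ℝ)..1, ((a - b) ^ 2 * ((t * (1 - t)) ^ 1 / (b + (a - b) * t) ^ (1 + 1)) -
      (a + b) * ((t * (1 - t)) ^ 0 / (b + (a - b) * t) ^ (0 + 1))) =
      (b - 2 * b * 1 - (a - b) * 1 ^ 2) / (b + (a - b) * 1) - (b - 2 * b * 0 - (a - b) * 0 ^ 2) / (b + (a - b) * 0) := by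
    refine integral_eq_sub_of_hasDerivAt
      (f := fun t : ℝ => (b - 2 * b * t - (a - b) * t ^ 2) / (b + (a - b) * t)) (fun t ht => ?_)
      (((intA_int hb hab 1 (1 + 1)).const_mul _).sub ((intA_int hb hab 0 (0 + 1)).const_mul _))
    have hp := intA_pos hb hab ht
    have h3 := (intA_q (a := a) (b := b) t).div (intA_D t) hp.ne'
    refine h3.congr_deriv ?_
    have hp' := hp.ne'
    rw [pow_zero, zero_add, pow_one, pow_one]
    field_simp
    ring
  rw [intervalIntegral.integral_sub ((intA_int hb hab 1 (1 + 1)).const_mul _)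
    ((intA_int hb hab 0 (0 + 1)).const_mul _), intervalIntegral.integral_const_mul,
    intervalIntegral.integral_const_mul] at h1
  have h2 : (b - 2 * b * 1 - (a - b) * 1 ^ 2) / (b + (a - b) * 1) -
      (b - 2 * b * 0 - (a - b) * 0 ^ 2) / (b + (a - b) * 0) = -2 := by
    have ha : a ≠ 0 := by linarith
    have e1 : b + (a - b) * 1 = a := by ring
    have e2 : b + (a - b) * 0 = b := by ring
    rw [e1, e2]
    field_simp
    ring
  rw [h2] at h1
  unfold rem
  linarith

theorem rem_rec {a b : ℝ} (hb : 0 < b) (hab : b < a) (m : ℕ) :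
    (m + 2) * (a - b) ^ 2 * rem a b (m + 2) =
      (2 * m + 3) * (a + b) * rem a b (m + 1) - (m + 1) * rem a b m := by
  have i2 := (intA_int hb hab (m + 2) (m + 2 + 1)).const_mul ((m + 2) * (a - b) ^ 2)
  have i1 := (intA_int hb hab (m + 1) (m + 1 + 1)).const_mul ((2 * m + 3) * (a + b))
  have i0 := (intA_int hb hab m (m + 1)).const_mul ((m : ℝ) + 1)
  have h1 : ∫ t in (0 : ℝ)..1, ((m + 2) * (a - b) ^ 2 * ((t * (1 - t)) ^ (m + 2) / (b + (a - b) * t) ^ (m + 2 + 1)) -
      (2 * m + 3) * (a + b) * ((t * (1 - t)) ^ (m + 1) / (b + (a - b) * t) ^ (m + 1 + 1)) +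
      ((m : ℝ) + 1) * ((t * (1 - t)) ^ m / (b + (a - b) * t) ^ (m + 1))) =
      (b - 2 * b * 1 - (a - b) * 1 ^ 2) * (1 * (1 - 1)) ^ (m + 1) / (b + (a - b) * 1) ^ (m + 2) -
        (b - 2 * b * 0 - (a - b) * 0 ^ 2) * (0 * (1 - 0)) ^ (m + 1) / (b + (a - b) * 0) ^ (m + 2) := by
    refine integral_eq_sub_of_hasDerivAt
      (f := fun t : ℝ => (b - 2 * b * t - (a - b) * t ^ 2) * (t * (1 - t)) ^ (m + 1) / (b + (a - b) * t) ^ (m + 2))
      (fun t ht => ?_) ((i2.sub i1).add i0)
    have hp := intA_pos hb hab ht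
    have h3 := ((intA_q (a := a) (b := b) t).mul ((intA_u t).pow (m + 1))).div ((intA_D t).pow (m + 2))
      (pow_pos hp (m + 2)).ne'
    refine h3.congr_deriv ?_
    simp only [Nat.add_sub_cancel, Nat.cast_add, Nat.cast_one, Nat.cast_ofNat, Pi.pow_apply, Pi.mul_apply]
    have e1 : m + 2 - 1 = m + 1 := rfl
    rw [e1]
    set D := b + (a - b) * t with hD
    have hD0 : D ≠ 0 := hp.ne'
    have ht2 : D ^ (m + 2) ≠ 0 := pow_ne_zero _ hD0
    rw [div_eq_iff (pow_ne_zero _ ht2)]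
    have e2 : D ^ (m + 2 + 1) = D ^ m * D ^ 3 := by ring
    have e3 : D ^ (m + 1 + 1) = D ^ m * D ^ 2 := by ring
    have e4 : D ^ (m + 1) = D ^ m * D := by ring
    rw [e2, e3, e4]
    have hm : D ^ m ≠ 0 := pow_ne_zero _ hD0
    field_simp
    rw [hD]
    ring
  rw [intervalIntegral.integral_add (i2.sub i1) i0, intervalIntegral.integral_sub i2 i1,
    intervalIntegral.integral_const_mul, intervalIntegral.integral_const_mul,
    intervalIntegral.integral_const_mul] at h1
  have h2 : (b - 2 * b * 1 - (a - b) * 1 ^ 2) * (1 * (1 - 1)) ^ (m + 1) / (b + (a - b) * 1) ^ (m + 2) -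
        (b - 2 * b * 0 - (a - b) * 0 ^ 2) * (0 * (1 - 0)) ^ (m + 1) / (b + (a - b) * 0) ^ (m + 2) = 0 := by
    simp
  rw [h2] at h1
  unfold rem
  linarith

theorem rem_nonneg {a b : ℝ} (hb : 0 < b) (hab : b < a) (m : ℕ) : 0 ≤ rem a b m := by
  unfold rem
  refine intervalIntegral.integral_nonneg zero_le_one fun t ht => ?_
  have hp := intA_pos hb hab (t := t) (by rw [Set.uIcc_of_le zero_le_one]; exact ht)
  have h1 : 0 ≤ t * (1 - t) := mul_nonneg ht.1 (by linarith [ht.2])
  positivity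

theorem rem_le {a b : ℝ} (hb : 0 < b) (hab : b < a) (m : ℕ) : rem a b m ≤ 1 / b ^ (m + 1) := by
  have h1 : rem a b m ≤ ∫ _t in (0 : ℝ)..1, 1 / b ^ (m + 1) := by
    unfold rem
    refine intervalIntegral.integral_mono_on zero_le_one (intA_int hb hab m (m + 1)) (by simp) fun t ht => ?_
    have hp := intA_pos hb hab (t := t) (by rw [Set.uIcc_of_le zero_le_one]; exact ht)
    have h1 : 0 ≤ t * (1 - t) := mul_nonneg ht.1 (by linarith [ht.2])
    have h2 : t * (1 - t) ≤ 1 := by nlinarith [ht.1, ht.2]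
    have h3 : 0 ≤ (a - b) * t := mul_nonneg (by linarith) ht.1
    exact div_le_div₀ zero_le_one (pow_le_one₀ h1 h2) (by positivity)
      (pow_le_pow_left₀ hb.le (by linarith) _)
  refine h1.trans ?_
  rw [intervalIntegral.integral_const]
  simp

end Pool.Agent.DNP18
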