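import Pool.Agent.DNP18.LegD
import Pool.Agent.DNP18.IntA

/-!
# [DNP-INTB] approximation of logarithms

`log_formula`: two step induction on `m` with `leg_rec`, `alp_succ_succ`, `rem_rec` and the starts
`rem_zero`, `rem_one` (`leg 0 = 1, leg 1 = a+b, alp 0 = 0, alp 1 = 1`); with `d = a - b`:
`m! leg m log(a/b) - 2 d alp m = m! d^(2m+1) rem m`.
(check of the step, divide by `m! d^...`: `(m+2)! leg (m+2) = (m+1)! (2m+3)(a+b) leg (m+1) - (m+1)! (m+1) d² leg m`,
`alp (m+2) = (2m+3)(a+b) alp (m+1) - (m+1)² d² alp m`, `(m+2)! d^(2m+5) rem (m+2) =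
(m+1)! d^(2m+3) ((2m+3)(a+b) rem (m+1) - (m+1) rem m)`.)
`log_lower`, `log_upper`: divide by `m! leg m`, `leg m ≥ (a+b)^m ≥ b^m`, `rem m ≤ 1/b^(m+1)`.
`alp_le`: `2 d alp m ≤ m! leg m log(a/b) ≤ m! leg m d/b`.
-/

namespace Pool.Agent.DNP18

open Nat

theorem log_formula {a b : ℕ} (hb : 0 < b) (hab : b < a) (m : ℕ) :
    (m ! : ℝ) * leg m a b * Real.log ((a : ℝ) / b) - 2 * ((a : ℝ) - b) * (alp a b m : ℝ) =
      (m ! : ℝ) * ((a : ℝ) - b) ^ (2 * m + 1) * rem a b m := by
  have hb' : (0 : ℝ) < b := by exact_mod_cast hb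
  have hab' : (b : ℝ) < a := by exact_mod_cast hab
  induction m using Nat.twoStepInduction with
  | zero =>
    have h0 := rem_zero hb' hab'
    simp only [Nat.factorial_zero, leg_zero, alp_zero]
    push_cast
    rw [← h0]
    ring
  | one =>
    have h0 := rem_zero hb' hab'
    have h1 := rem_one hb' hab'
    simp only [Nat.factorial_one, leg_one, alp_one]
    push_cast
    rw [← h0]
    linear_combination -((a : ℝ) - b) * h1
  | more m ih0 ih1 =>
    have hL : ((m : ℝ) + 2) * leg (m + 2) a b + (m + 1) * ((a : ℝ) - b) ^ 2 * leg m a b =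
      (2 * m + 3) * (a + b) * leg (m + 1) a b := by
      exact_mod_cast leg_rec m a b
    have hA : (alp a b (m + 2) : ℝ) =
        (2 * m + 3) * (a + b) * alp a b (m + 1) - (m + 1) ^ 2 * ((a : ℝ) - b) ^ 2 * alp a b m := by
      have := alp_succ_succ a b m
      exact_mod_cast this
    have hR := rem_rec hb' hab' m
    have hf1 : (((m + 1)! : ℕ) : ℝ) = (m + 1) * (m ! : ℝ) := by
      rw [Nat.factorial_succ]; push_cast; ring
    have hf2 : (((m + 2)! : ℕ) : ℝ) = (m + 2) * ((m + 1) * (m ! : ℝ)) := by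
      rw [Nat.factorial_succ, Nat.factorial_succ]; push_cast; ring
    rw [hf1] at ih1
    rw [hf2]
    have e1 : 2 * (m + 2) + 1 = 2 * m + 1 + 4 := by ring
    have e2 : 2 * (m + 1) + 1 = 2 * m + 1 + 2 := by ring
    rw [e1, pow_add]
    rw [e2, pow_add] at ih1
    generalize Real.log ((a : ℝ) / b) = L at *
    generalize ((a : ℝ) - b) ^ (2 * m + 1) = D at *
    generalize rem a b m = r0 at *
    generalize rem a b (m + 1) = r1 at *
    generalize rem a b (m + 2) = r2 at *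
    rw [hA]
    linear_combination ((2 * (m : ℝ) + 3) * (a + b)) * ih1 - ((m : ℝ) + 1) ^ 2 * ((a : ℝ) - b) ^ 2 * ih0
      + ((m : ℝ) + 1) * (m ! : ℝ) * L * hL - ((m : ℝ) + 1) * (m ! : ℝ) * D * ((a : ℝ) - b) ^ 2 * hR

theorem log_lower {a b : ℕ} (hb : 0 < b) (hab : b < a) (m : ℕ) :
    2 * ((a : ℝ) - b) * (alp a b m : ℝ) / (m ! * leg m a b) ≤ Real.log ((a : ℝ) / b) := by
  have hb' : (0 : ℝ) < b := by exact_mod_cast hb
  have hab' : (b : ℝ) < a := by exact_mod_cast hab
  have hl : (0 : ℝ) < leg m a b := by exact_mod_cast leg_pos m (by omega : 0 < a + b)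
  have hf : (0 : ℝ) < (m ! : ℝ) := by exact_mod_cast Nat.factorial_pos m
  rw [div_le_iff₀ (by positivity)]
  have h := log_formula hb hab m
  have hr := rem_nonneg hb' hab' m
  have hd : (0 : ℝ) ≤ (a : ℝ) - b := by linarith
  have h2 : 0 ≤ (m ! : ℝ) * ((a : ℝ) - b) ^ (2 * m + 1) * rem a b m := by positivity
  linarith

theorem log_upper {a b : ℕ} (hb : 0 < b) (hab : b < a) (m : ℕ) :
    Real.log ((a : ℝ) / b) - 2 * ((a : ℝ) - b) * (alp a b m : ℝ) / (m ! * leg m a b) ≤
      (((a : ℝ) - b) / b) ^ (2 * m + 1) := by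
  have hb' : (0 : ℝ) < b := by exact_mod_cast hb
  have hab' : (b : ℝ) < a := by exact_mod_cast hab
  have hl : (0 : ℝ) < leg m a b := by exact_mod_cast leg_pos m (by omega : 0 < a + b)
  have hf : (0 : ℝ) < (m ! : ℝ) := by exact_mod_cast Nat.factorial_pos m
  have h := log_formula hb hab m
  have hd : (0 : ℝ) ≤ (a : ℝ) - b := by linarith
  have hr := rem_le hb' hab' m
  have hr0 := rem_nonneg hb' hab' m
  have hlb : (b : ℝ) ^ m ≤ leg m a b := by
    have h1 : b ^ m ≤ (a + b) ^ m := Nat.pow_le_pow_left (by omega) m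
    exact_mod_cast h1.trans (leg_ge m a b)
  have key : Real.log ((a : ℝ) / b) - 2 * ((a : ℝ) - b) * (alp a b m : ℝ) / (m ! * leg m a b) =
      ((a : ℝ) - b) ^ (2 * m + 1) * rem a b m / leg m a b := by
    field_simp
    linarith
  rw [key, div_pow, div_le_div_iff₀ hl (by positivity)]
  have hbb : (b : ℝ) ^ (2 * m + 1) = b ^ (m + 1) * b ^ m := by ring
  have h3 : rem a b m * (b : ℝ) ^ (m + 1) ≤ 1 := by
    rw [le_div_iff₀ (by positivity)] at hr
    exact hr
  calc ((a : ℝ) - b) ^ (2 * m + 1) * rem a b m * (b : ℝ) ^ (2 * m + 1)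
      = ((a : ℝ) - b) ^ (2 * m + 1) * ((rem a b m * (b : ℝ) ^ (m + 1)) * b ^ m) := by
        rw [hbb]; ring
    _ ≤ ((a : ℝ) - b) ^ (2 * m + 1) * (1 * leg m a b) := by
        apply mul_le_mul_of_nonneg_left _ (by positivity)
        exact mul_le_mul h3 hlb (by positivity) (by norm_num)
    _ = ((a : ℝ) - b) ^ (2 * m + 1) * leg m a b := by ring

theorem alp_le {a b : ℕ} (hb : 0 < b) (hab : b < a) (m : ℕ) :
    2 * alp a b m * b ≤ m ! * leg m a b := by
  have hb' : (0 : ℝ) < b := by exact_mod_cast hb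
  have hab' : (b : ℝ) < a := by exact_mod_cast hab
  have hl : (0 : ℝ) < leg m a b := by exact_mod_cast leg_pos m (by omega : 0 < a + b)
  have hf : (0 : ℝ) < (m ! : ℝ) := by exact_mod_cast Nat.factorial_pos m
  have hd : (0 : ℝ) < (a : ℝ) - b := by linarith
  have h := log_lower hb hab m
  have h2 : Real.log ((a : ℝ) / b) ≤ (a : ℝ) / b - 1 := Real.log_le_sub_one_of_pos (div_pos (by linarith) hb')
  have h3 := h.trans h2
  have h4 : (a : ℝ) / b - 1 = ((a : ℝ) - b) / b := by field_simp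
  rw [h4, div_le_div_iff₀ (by positivity) hb'] at h3
  have h5 : ((a : ℝ) - b) * (2 * (alp a b m : ℝ) * b) ≤ ((a : ℝ) - b) * (m ! * leg m a b) := by
    linarith
  have h6 := le_of_mul_le_mul_left h5 hd
  exact_mod_cast h6

end Pool.Agent.DNP18
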