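import Pool.Agent.DNP18.Gcd
import Pool.Agent.DNP18.IntB

/-!
# [DNP-UNIQ] uniqueness of the second solution

`Good m a b L A A'`: the conditions of the Diophantine definition (index `m+1`).
`good_sound`: With `p = leg (m+1)`, `p' = leg m`, `g = gcd p p'`, `d = a - b`, the true solution
`α = alp (m+1)`, `α' = (m+1) alp m` satisfies `(m+1)(α p' - α' p) = (m+1)! d^(2m)` (casorati times `m+1`).
Multiply the given identity by `(m+1)!`, this one by `L` and subtract:
`((m+1)! A - L α) p' = ((m+1)! A' - L α') p`, so `p/g` divides `(m+1)! A - L α`. Now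
`0 ≤ (m+1)! A ≤ (m+1)! L p / b`, `0 ≤ L α ≤ L (m+1)! p / b` (`alp_le`), so the absolute value of the difference is
`≤ (m+1)! L p / b < p/g`, as `(m+1)! L g ≤ 2^((m+1)²) 2^((m+1)²) 2^(5(m+1)²) < 2^(8(m+1)²) ≤ b`. So it is `0`.
(Careful with integers: multiply through by `b` and `g`.)
`good_exists`: `A = alp (m+1)`, `A' = (m+1) alp m`, `L = (m+1)!` (`alp_nonneg`, `fact_le`, `alp_le`, `casorati`).
-/

namespace Pool.Agent.DNP18

open Nat

/-- The conditions which pin down the second solution. -/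
def Good (m a b L A A' : ℕ) : Prop :=
  1 ≤ L ∧ L ≤ 2 ^ (m + 1) ^ 2 ∧ A * b ≤ L * leg (m + 1) a b ∧
    ((m : ℤ) + 1) * ((A : ℤ) * leg m a b - (A' : ℤ) * leg (m + 1) a b) = L * ((a : ℤ) - b) ^ (2 * m)

private theorem uniq_casorati (a b m : ℕ) :
    ((m : ℤ) + 1) * (alp a b (m + 1) * leg m a b - (((m : ℤ) + 1) * alp a b m) * leg (m + 1) a b) =
      (((m + 1)! : ℕ) : ℤ) * ((a : ℤ) - b) ^ (2 * m) := by
  have hf : (((m + 1)! : ℕ) : ℤ) = ((m : ℤ) + 1) * (m ! : ℤ) := by
    rw [Nat.factorial_succ]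
    push_cast
    ring
  rw [hf, casorati a b m]
  ring

theorem good_sound {m a b L A A' : ℕ} (hab : b < a) (hco : Nat.Coprime a b)
    (hb : 2 ^ (8 * (m + 1) ^ 2) ≤ b) (h : Good m a b L A A') :
    (((m + 1)! : ℕ) : ℤ) * A = L * alp a b (m + 1) := by
  obtain ⟨hL1, hL2, hA, hid⟩ := h
  have hbpos : 0 < b := lt_of_lt_of_le (by positivity) hb
  have hppos : 0 < leg (m + 1) a b := leg_pos _ (by omega)
  have hα := alp_le hbpos hab (m + 1)
  have hα0 := alp_nonneg (a := a) (b := b) (by omega) (m + 1)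
  have hcas := uniq_casorati a b m
  have hg := gcd_leg_le hco m
  have hF := fact_le (m + 1)
  generalize (((m : ℤ) + 1) * alp a b m) = α' at hcas
  generalize alp a b (m + 1) = α at hcas hα hα0 ⊢
  generalize leg (m + 1) a b = p at *
  generalize leg m a b = p' at *
  generalize (m + 1)! = F at *
  obtain ⟨g, p1, p1', hgp, hcop, rfl, rfl⟩ := Nat.exists_coprime' (m := p) (n := p')
    (Nat.gcd_pos_of_pos_left _ hppos)
  have hgcd : Nat.gcd (p1 * g) (p1' * g) = g := by
    rw [Nat.gcd_mul_right, hcop.gcd_eq_one, one_mul]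
  rw [hgcd] at hg
  have hp1 : 0 < p1 := Nat.pos_of_mul_pos_right hppos
  set X : ℤ := (F : ℤ) * A - L * α with hX
  -- the key identity
  have key : X * p1' = ((F : ℤ) * A' - L * α') * p1 := by
    have hm : ((m : ℤ) + 1) * g ≠ 0 := by positivity
    apply mul_left_cancel₀ hm
    push_cast at hid hcas
    rw [hX]
    linear_combination (F : ℤ) * hid - (L : ℤ) * hcas
  have hdvd : (p1 : ℤ) ∣ X := by
    have h1 : (p1 : ℤ) ∣ X * p1' := ⟨(F : ℤ) * A' - L * α', by rw [key]; ring⟩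
    exact (Nat.isCoprime_iff_coprime.2 hcop).dvd_of_dvd_mul_right h1
  -- the bound
  have hFLg : F * L * g < b := by
    calc F * L * g ≤ 2 ^ (m + 1) ^ 2 * 2 ^ (m + 1) ^ 2 * 2 ^ (5 * (m + 1) ^ 2) :=
          Nat.mul_le_mul (Nat.mul_le_mul hF hL2) hg
      _ = 2 ^ (7 * (m + 1) ^ 2) := by rw [← pow_add, ← pow_add]; congr 1; ring
      _ < 2 ^ (8 * (m + 1) ^ 2) := Nat.pow_lt_pow_right (by norm_num) (by
          have : 0 < (m + 1) ^ 2 := by positivity
          omega)
      _ ≤ b := hb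
  have hFLg' : (F : ℤ) * L * g < b := by exact_mod_cast hFLg
  have hA' : (A : ℤ) * b ≤ L * (p1 * g) := by exact_mod_cast hA
  have hα' : 2 * α * b ≤ F * (p1 * g) := by exact_mod_cast hα
  have hb0 : (0 : ℤ) < b := by exact_mod_cast hbpos
  have hp10 : (0 : ℤ) < p1 := by exact_mod_cast hp1
  have hF0 : (0 : ℤ) ≤ F := by positivity
  have hL0 : (0 : ℤ) ≤ L := by positivity
  have h1 : (F : ℤ) * A * b ≤ F * L * g * p1 := by
    have := mul_le_mul_of_nonneg_left hA' hF0
    linarith [this]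
  have h2 : (L : ℤ) * α * b ≤ F * L * g * p1 := by
    have h3 : α * b ≤ F * (p1 * g) := by
      have h4 : 0 ≤ α * b := mul_nonneg hα0 hb0.le
      linarith
    have := mul_le_mul_of_nonneg_left h3 hL0
    linarith [this]
  have h3 : (F : ℤ) * L * g * p1 < b * p1 := mul_lt_mul_of_pos_right hFLg' hp10
  have h4 : (0 : ℤ) ≤ (F : ℤ) * A * b := by positivity
  have h5 : (0 : ℤ) ≤ (L : ℤ) * α * b := mul_nonneg (mul_nonneg hL0 hα0) hb0.le
  have hup : X < p1 := by
    have h6 : b * X < b * p1 := by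
      rw [hX]
      linarith
    exact lt_of_mul_lt_mul_left h6 hb0.le
  have hlo : -X < p1 := by
    have h6 : b * (-X) < b * p1 := by
      rw [hX]
      linarith
    exact lt_of_mul_lt_mul_left h6 hb0.le
  have hX0 : X = 0 := by
    apply Int.eq_zero_of_abs_lt_dvd hdvd
    rw [abs_lt]
    exact ⟨by linarith, hup⟩
  rw [hX] at hX0
  linarith

theorem good_exists {m a b : ℕ} (hb : 0 < b) (hab : b < a) :
    Good m a b ((m + 1)!) (alp a b (m + 1)).toNat ((m + 1) * alp a b m).toNat := by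
  have h1 := alp_nonneg (a := a) (b := b) (by omega) (m + 1)
  have h0 := alp_nonneg (a := a) (b := b) (by omega) m
  have hα := alp_le hb hab (m + 1)
  refine ⟨Nat.factorial_pos _, fact_le (m + 1), ?_, ?_⟩
  · have h2 : ((alp a b (m + 1)).toNat : ℤ) = alp a b (m + 1) := Int.toNat_of_nonneg h1
    have h3 : (((alp a b (m + 1)).toNat * b : ℕ) : ℤ) ≤ (((m + 1)! * leg (m + 1) a b : ℕ) : ℤ) := by
      push_cast
      rw [h2]
      have h4 : 0 ≤ alp a b (m + 1) * b := mul_nonneg h1 (by positivity)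
      linarith
    exact_mod_cast h3
  · rw [Int.toNat_of_nonneg h1, Int.toNat_of_nonneg (by positivity)]
    exact uniq_casorati a b m

/-- The approximation of the logarithm. -/
theorem good_log {m a b L A A' : ℕ} (hab : b < a) (hco : Nat.Coprime a b)
    (hb : 2 ^ (8 * (m + 1) ^ 2) ≤ b) (h : Good m a b L A A') :
    2 * ((a : ℝ) - b) * A / (L * leg (m + 1) a b) ≤ Real.log ((a : ℝ) / b) ∧
    Real.log ((a : ℝ) / b) - 2 * ((a : ℝ) - b) * A / (L * leg (m + 1) a b) ≤
      (((a : ℝ) - b) / b) ^ (2 * m + 3) := by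
  have hbpos : 0 < b := lt_of_lt_of_le (by positivity) hb
  have hs := good_sound hab hco hb h
  have hsR : (((m + 1)! : ℕ) : ℝ) * A = L * (alp a b (m + 1) : ℝ) := by exact_mod_cast hs
  have hl : (0 : ℝ) < leg (m + 1) a b := by exact_mod_cast leg_pos (m + 1) (by omega : 0 < a + b)
  have hf : (0 : ℝ) < ((m + 1)! : ℕ) := by exact_mod_cast Nat.factorial_pos (m + 1)
  have hL : (0 : ℝ) < L := by exact_mod_cast h.1
  have e : 2 * ((a : ℝ) - b) * A / (L * leg (m + 1) a b) =
      2 * ((a : ℝ) - b) * (alp a b (m + 1) : ℝ) / (((m + 1)! : ℕ) * leg (m + 1) a b) := by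
    rw [div_eq_div_iff (by positivity) (by positivity)]
    linear_combination (2 * ((a : ℝ) - b) * leg (m + 1) a b) * hsR
  rw [e]
  refine ⟨log_lower hbpos hab (m + 1), ?_⟩
  have := log_upper hbpos hab (m + 1)
  have e2 : 2 * (m + 1) + 1 = 2 * m + 3 := by ring
  rwa [e2] at this

end Pool.Agent.DNP18
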