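import Pool.Agent.DNP18.DLeg
import Pool.Agent.DNP18.Uniq

/-!
# [DNP-DAPP] the approximations of logarithms are definable

`v = (s, m, a, b, p, L, A)`. Witnesses: `w = 2^(m+1)`, `w' = 2^m`, `p' = leg m a b`, `u = 2^((m+1)²)`, `u8 = 2^(8(m+1)²)`,
`A'`, `D = d^(2m)` where `d = a - b` is a natural number witness with `a = b + d` (so that `(a-b)^(2m) = D`).
`m` is small because `2^m ≤ 2^(8(m+1)²) ≤ b`. Bounds: `u8 ≤ b`, `p' ≤ (2(a+b))^m`, `D ≤ a^(2m)`, and `A'` is bounded by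
the identity `(m+1)(A p' - A' p) = L d^(2m)`, `p ≥ 1`: `A' ≤ A' p ≤ A p'`. (Choose `A'` by `Classical.choose`/`if`.)
The exponents `(m+1)²`, `8 (m+1)²`, `2m` are polynomials in `m` (`DD.pow` takes `NPoly` arguments). The last
equation is an equation between integer polynomials (`DD.intEq`).
-/

namespace Pool.Agent.DNP18

open Pool.Agent.DPoly

/-- `A / L` is the second solution with index `m+1`, `p = leg (m+1) a b` -/
def App (m a b p L A : ℕ) : Prop :=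
  b < a ∧ Nat.Coprime a b ∧ 2 ^ (8 * (m + 1) ^ 2) ≤ b ∧ p = leg (m + 1) a b ∧
    ∃ A', Good m a b L A A'

private theorem da_leg_mono (m : ℕ) {a b : ℕ} (ha : 0 < a) : leg m a b ≤ leg (m + 1) a b := by
  unfold leg
  rw [Finset.sum_range_succ _ (m + 1)]
  refine le_trans (Finset.sum_le_sum fun i _ => ?_) (Nat.le_add_right _ _)
  exact Nat.mul_le_mul (Nat.mul_le_mul
    (Nat.pow_le_pow_left (Nat.choose_le_choose i (Nat.le_succ m)) 2)
    (Nat.pow_le_pow_right ha (by omega))) le_rfl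

private theorem da_A' {m a b L A A' : ℕ} (hab : b < a) (h : Good m a b L A A') : A' ≤ A := by
  obtain ⟨-, -, -, h⟩ := h
  have hp : 0 < leg (m + 1) a b := leg_pos _ (by omega)
  have hm := da_leg_mono m (a := a) (b := b) (by omega)
  have h0 : (0 : ℤ) ≤ (L : ℤ) * ((a : ℤ) - b) ^ (2 * m) := by
    have : (0 : ℤ) ≤ (a : ℤ) - b := by omega
    positivity
  rw [← h] at h0
  have h1 : (0 : ℤ) ≤ (A : ℤ) * leg m a b - (A' : ℤ) * leg (m + 1) a b := by
    by_contra hcon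
    rw [not_le] at hcon
    have hm1 : (0 : ℤ) < (m : ℤ) + 1 := by omega
    have := mul_neg_of_pos_of_neg hm1 hcon
    omega
  have h2 : A' * leg (m + 1) a b ≤ A * leg m a b := by
    have : ((A' * leg (m + 1) a b : ℕ) : ℤ) ≤ ((A * leg m a b : ℕ) : ℤ) := by
      push_cast
      linarith
    exact_mod_cast this
  exact Nat.le_of_mul_le_mul_right (h2.trans (Nat.mul_le_mul_left _ hm)) hp

open Classical in
/-- the witnesses -/
private noncomputable def daW (v : Fin 7 → ℕ) : Fin 8 → ℕ :=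
  ![2 ^ (v 1 + 1), 2 ^ v 1, leg (v 1) (v 2) (v 3), 2 ^ (v 1 + 1) ^ 2, 2 ^ (8 * (v 1 + 1) ^ 2),
    if h : ∃ A', Good (v 1) (v 2) (v 3) (v 5) (v 6) A' then h.choose else 0,
    (v 2 - v 3) ^ (2 * v 1), v 2 - v 3]

private theorem daW_five {v : Fin 7 → ℕ} (h : ∃ A', Good (v 1) (v 2) (v 3) (v 5) (v 6) A') :
    daW v 5 = h.choose := dif_pos h

/-- the conditions with witnesses -/
private def daQ (v : Fin 7 ⊕ Fin 8 → ℕ) : Prop :=
  (v (.inr 0) = 2 ^ (v (.inl 1) + 1) ∧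
    v (.inl 4) = leg (v (.inl 1) + 1) (v (.inl 2)) (v (.inl 3))) ∧
  (v (.inr 1) = 2 ^ v (.inl 1) ∧ v (.inr 2) = leg (v (.inl 1)) (v (.inl 2)) (v (.inl 3))) ∧
  v (.inr 3) = 2 ^ ((v (.inl 1) + 1) ^ 2) ∧
  v (.inr 4) = 2 ^ (8 * (v (.inl 1) + 1) ^ 2) ∧
  v (.inr 6) = v (.inr 7) ^ (2 * v (.inl 1)) ∧
  v (.inl 2) = v (.inl 3) + v (.inr 7) ∧
  v (.inl 3) < v (.inl 2) ∧
  Nat.Coprime (v (.inl 2)) (v (.inl 3)) ∧
  v (.inr 4) ≤ v (.inl 3) ∧
  1 ≤ v (.inl 5) ∧ v (.inl 5) ≤ v (.inr 3) ∧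
  v (.inl 6) * v (.inl 3) ≤ v (.inl 5) * v (.inl 4) ∧
  ((v (.inl 1) : ℤ) + 1) * ((v (.inl 6) : ℤ) * v (.inr 2) - (v (.inr 5) : ℤ) * v (.inl 4)) =
    (v (.inl 5) : ℤ) * v (.inr 6)

private theorem dd_daQ : DD (Sum.inl 0) daQ := by
  have c : ∀ i : Fin 7 ⊕ Fin 8, NPoly (fun v : Fin 7 ⊕ Fin 8 → ℕ => v i) := fun i => NPoly.coord i
  have k : ∀ n : ℕ, NPoly (fun _ : Fin 7 ⊕ Fin 8 → ℕ => n) := fun n => NPoly.const n
  have m1 : NPoly (fun v : Fin 7 ⊕ Fin 8 → ℕ => v (.inl 1) + 1) := (c _).add (k 1)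
  have p : ∀ i, PolyFun (fun v : Fin 7 ⊕ Fin 8 → ℕ => (v i : ℤ)) := fun i => PolyFun.coord i
  exact (DD.leg m1 (c (.inl 2)) (c (.inl 3)) (c (.inr 0)) (c (.inl 4))).and
    ((DD.leg (c (.inl 1)) (c (.inl 2)) (c (.inl 3)) (c (.inr 1)) (c (.inr 2))).and
    ((DD.pow (k 2) (m1.pow 2) (c (.inr 3))).and
    ((DD.pow (k 2) ((k 8).mul (m1.pow 2)) (c (.inr 4))).and
    ((DD.pow (c (.inr 7)) ((k 2).mul (c (.inl 1))) (c (.inr 6))).and
    ((DD.natEq (c (.inl 2)) ((c (.inl 3)).add (c (.inr 7)))).and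
    ((DD.natLt (c (.inl 3)) (c (.inl 2))).and
    ((DD.coprime (c (.inl 2)) (c (.inl 3))).and
    ((DD.natLe (c (.inr 4)) (c (.inl 3))).and
    ((DD.natLe (k 1) (c (.inl 5))).and
    ((DD.natLe (c (.inl 5)) (c (.inr 3))).and
    ((DD.natLe ((c (.inl 6)).mul (c (.inl 3))) ((c (.inl 5)).mul (c (.inl 4)))).and
    (DD.intEq (((p (.inl 1)).add (PolyFun.const 1)).mul
      (((p (.inl 6)).mul (p (.inr 2))).sub ((p (.inr 5)).mul (p (.inl 4)))))
      ((p (.inl 5)).mul (p (.inr 6)))))))))))))))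

private theorem da_small (K1 : ℕ) : Small (0 : Fin 7)
    (fun v => Bnd 0 K1 v ∧ App (v 1) (v 2) (v 3) (v 4) (v 5) (v 6)) (fun v => v 1) := by
  refine Small.of_two_pow ((Big.coord K1 3).mono fun v hv => ?_)
  refine le_trans (Nat.pow_le_pow_right (by norm_num) ?_) hv.2.2.2.1
  nlinarith [Nat.zero_le (v 1)]

theorem dd_app : DD (0 : Fin 7) (fun v => App (v 1) (v 2) (v 3) (v 4) (v 5) (v 6)) := by
  refine dd_daQ.exs' daW ?_ ?_ ?_
  · intro K1 j
    fin_cases j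
    · refine (Big.coord K1 3).mono fun v hv => ?_
      refine le_trans (Nat.pow_le_pow_right (by norm_num) ?_) hv.2.2.2.1
      nlinarith [Nat.zero_le (v 1)]
    · refine (Big.coord K1 3).mono fun v hv => ?_
      refine le_trans (Nat.pow_le_pow_right (by norm_num) ?_) hv.2.2.2.1
      nlinarith [Nat.zero_le (v 1)]
    · refine (Big.coord K1 4).mono fun v hv => ?_
      change leg (v 1) (v 2) (v 3) ≤ v 4
      have h1 : v 4 = leg (v 1 + 1) (v 2) (v 3) := hv.2.2.2.2.1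
      rw [h1]
      have h2 : v 3 < v 2 := hv.2.1
      exact da_leg_mono _ (by omega)
    · refine (Big.coord K1 3).mono fun v hv => ?_
      refine le_trans (Nat.pow_le_pow_right (by norm_num) ?_) hv.2.2.2.1
      nlinarith [Nat.zero_le (v 1)]
    · exact (Big.coord K1 3).mono fun v hv => hv.2.2.2.1
    · refine (Big.coord K1 6).mono fun v hv => ?_
      have hG : ∃ A', Good (v 1) (v 2) (v 3) (v 5) (v 6) A' := hv.2.2.2.2.2
      change daW v 5 ≤ v 6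
      rw [daW_five hG]
      exact da_A' hv.2.1 hG.choose_spec
    · exact ((Big.coord K1 2).mono fun v _ => Nat.sub_le _ _).pow
        ((Small.const 2).mul (da_small K1))
    · exact (Big.coord K1 2).mono fun v _ => Nat.sub_le _ _
  · rintro v ⟨hab, hco, hb, hp, hG⟩
    obtain ⟨h1, h2, h3, h4⟩ := hG.choose_spec
    have e5 : daW v 5 = hG.choose := daW_five hG
    refine ⟨⟨rfl, hp⟩, ⟨rfl, rfl⟩, rfl, rfl, rfl, ?_, hab, hco, hb, h1, h2, ?_, ?_⟩
    · change v 2 = v 3 + (v 2 - v 3)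
      omega
    · change v 6 * v 3 ≤ v 5 * v 4
      rw [hp]
      exact h3
    · change ((v 1 : ℤ) + 1) * ((v 6 : ℤ) * leg (v 1) (v 2) (v 3) - (daW v 5 : ℤ) * v 4) =
        (v 5 : ℤ) * (((v 2 - v 3) ^ (2 * v 1) : ℕ) : ℤ)
      rw [e5, hp, h4, Nat.cast_pow, Nat.cast_sub hab.le]
  · rintro v w ⟨⟨-, hp⟩, ⟨-, e2⟩, e3, e4, e6, e7, hab, hco, hb, h1, h2, h3, h4⟩
    simp only [Sum.elim_inl, Sum.elim_inr] at hp e2 e3 e4 e6 e7 hab hco hb h1 h2 h3 h4
    refine ⟨hab, hco, by rw [← e4]; exact hb, hp, w 5, h1, by rw [← e3]; exact h2,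
      by rw [← hp]; exact h3, ?_⟩
    rw [← e2, ← hp, h4, e6]
    have h7 : ((v 2 : ℕ) : ℤ) - (v 3 : ℕ) = (w 7 : ℕ) := by omega
    rw [h7, Nat.cast_pow]

/-- the same with polynomials as arguments -/
theorem DD.app {σ : Type} [Fintype σ] {o : σ} {m a b p L A : (σ → ℕ) → ℕ} (hm : NPoly m)
    (ha : NPoly a) (hb : NPoly b) (hp : NPoly p) (hL : NPoly L) (hA : NPoly A) :
    DD o (fun v => App (m v) (a v) (b v) (p v) (L v) (A v)) := by
  have h := dd_app.subst (o' := o) ![fun v => v o, m, a, b, p, L, A] (by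
    intro i
    fin_cases i
    · exact NPoly.coord o
    · exact hm
    · exact ha
    · exact hb
    · exact hp
    · exact hL
    · exact hA) (fun v => rfl)
  exact h.congr fun v => Iff.rfl

end Pool.Agent.DNP18
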