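import Pool.Agent.DNP18.LegDef

/-!
# [DNP-NUMC] truncated binomial sums and factorials

`expY_eq_numY_mod`: `x^n numY T n B = ∑ C(T,j) x^j (xB)^(n-j) ≡ ∑ C(T,j) x^j = expY T x n` modulo `xB - 1`, and
`expY T x n ≤ ((T+1)x)^n < xB - 1`.
`fact_eq_div`: `X^n / C(X,n) = n! X^n / (X(X-1)...(X-n+1))`, so `n! C(X,n) ≤ X^n`, and
`X^n < (n!+1) C(X,n)` because `X(X-1)...(X-n+1) ≥ (X-n)^n ≥ X^n (1 - n²/X)` (Bernoulli), `n! (n²+1)·2 ≤ X`.
`expY_le`: `C(T,j) ≤ T^j`, `∑_{j≤n} C(T,j) x^j ≤ (1 + T x)^n ≤ ((T+1)x)^n`, (`C(T,j) ≤ C(n,j) T^j` for `j ≤ n`).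
-/

namespace Pool.Agent.DNP18

open Finset

theorem expY_le {T x n : ℕ} (hx : 1 ≤ x) : expY T x n ≤ ((T + 1) * x) ^ n := by
  have h1 : expY T x n ≤ (T * x + 1) ^ n := by
    rw [add_pow]
    unfold expY
    refine sum_le_sum fun j hj => ?_
    have hj' : j ≤ n := Nat.lt_succ_iff.1 (mem_range.1 hj)
    have h2 : T.choose j ≤ T ^ j := Nat.choose_le_pow T j
    have h3 : 1 ≤ n.choose j := Nat.choose_pos hj'
    rw [one_pow, mul_one, mul_pow]
    calc T.choose j * x ^ j ≤ T ^ j * x ^ j := Nat.mul_le_mul_right _ h2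
      _ = T ^ j * x ^ j * 1 := (mul_one _).symm
      _ ≤ T ^ j * x ^ j * n.choose j := Nat.mul_le_mul_left _ h3
  refine h1.trans (Nat.pow_le_pow_left ?_ n)
  nlinarith

theorem expY_eq_numY_mod {T x n B : ℕ} (hx : 1 ≤ x)
    (hB : ((4 * T + 4) * (x + 1)) ^ (8 * (n + 2) ^ 2) ≤ B) :
    x ^ n * numY T n B % (x * B - 1) = expY T x n := by
  set M := (4 * T + 4) * (x + 1) with hM
  have hM8 : 8 ≤ M := by rw [hM]; nlinarith
  have hMB : 8 * M ^ n ≤ B := by
    calc 8 * M ^ n ≤ M * M ^ n := Nat.mul_le_mul_right _ hM8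
      _ = M ^ (n + 1) := by ring
      _ ≤ M ^ (8 * (n + 2) ^ 2) := Nat.pow_le_pow_right (by omega) (by nlinarith)
      _ ≤ B := hB
  have hMn : 1 ≤ M ^ n := Nat.one_le_pow _ _ (by omega)
  have hxB : B ≤ x * B := Nat.le_mul_of_pos_left _ hx
  have hlt : expY T x n < x * B - 1 := by
    have h1 : expY T x n ≤ M ^ n := by
      refine (expY_le hx).trans (Nat.pow_le_pow_left ?_ n)
      rw [hM]; nlinarith
    omega
  have hmod : x ^ n * numY T n B ≡ expY T x n [MOD (x * B - 1)] := by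
    have h1 : x ^ n * numY T n B = ∑ j ∈ range (n + 1), T.choose j * x ^ j * (x * B) ^ (n - j) := by
      unfold numY
      rw [mul_sum]
      refine sum_congr rfl fun j hj => ?_
      have hj' : j ≤ n := Nat.lt_succ_iff.1 (mem_range.1 hj)
      have h2 : x ^ n = x ^ j * x ^ (n - j) := by rw [← pow_add]; congr 1; omega
      rw [h2, mul_pow]; ring
    rw [h1]
    unfold expY
    have hy : x * B ≡ 1 [MOD (x * B - 1)] := by
      refine ((Nat.modEq_iff_dvd' (by omega)).2 ?_).symm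
      exact dvd_rfl
    have key : ∀ s : Finset ℕ, (∑ j ∈ s, T.choose j * x ^ j * (x * B) ^ (n - j)) ≡
        (∑ j ∈ s, T.choose j * x ^ j) [MOD (x * B - 1)] := by
      intro s
      induction s using Finset.induction_on with
      | empty => simp [Nat.ModEq]
      | insert a s ha ih =>
        rw [sum_insert ha, sum_insert ha]
        refine Nat.ModEq.add ?_ ih
        have := (hy.pow (n - a)).mul_left (T.choose a * x ^ a)
        rwa [one_pow, mul_one] at this
    exact key _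
  have h3 : x ^ n * numY T n B % (x * B - 1) = expY T x n % (x * B - 1) := hmod
  rw [h3, Nat.mod_eq_of_lt hlt]

theorem fact_eq_div {n X : ℕ} (hX : (2 * n + 2) ^ (2 * n + 2) ≤ X) :
    X ^ n / X.choose n = Nat.factorial n := by
  rcases Nat.eq_zero_or_pos n with rfl | hn
  · simp
  have hfac : Nat.factorial n ≤ n ^ n := Nat.factorial_le_pow n
  have hbig : (Nat.factorial n + 1) * n * n < X := by
    have h1 : (Nat.factorial n + 1) * n * n ≤ (2 * n ^ n) * n * n := by
      have : 1 ≤ n ^ n := Nat.one_le_pow _ _ hn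
      gcongr
      omega
    have h2 : (2 * n ^ n) * n * n = 2 * n ^ (n + 2) := by ring
    have h3 : 2 * n ^ (n + 2) ≤ (2 * n) ^ (n + 2) := by
      rw [mul_pow]
      refine Nat.mul_le_mul_right _ ?_
      calc 2 = 2 ^ 1 := rfl
        _ ≤ 2 ^ (n + 2) := Nat.pow_le_pow_right (by norm_num) (by omega)
    have h4 : (2 * n) ^ (n + 2) < (2 * n + 2) ^ (n + 2) := Nat.pow_lt_pow_left (by omega) (by omega)
    have h5 : (2 * n + 2) ^ (n + 2) ≤ (2 * n + 2) ^ (2 * n + 2) :=
      Nat.pow_le_pow_right (by omega) (by omega)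
    omega
  have hnX : n ≤ X := by
    have : n * 1 ≤ (Nat.factorial n + 1) * n * n := by
      have h1 : 1 ≤ (Nat.factorial n + 1) * n := Nat.mul_pos (by omega) hn
      nlinarith
    omega
  have hXpos : 0 < X := by omega
  have hD : X.descFactorial n = Nat.factorial n * X.choose n := Nat.descFactorial_eq_factorial_mul_choose X n
  have hfp : 0 < Nat.factorial n := Nat.factorial_pos n
  have hcp : 0 < X.choose n := Nat.choose_pos hnX
  have hup : X.descFactorial n ≤ X ^ n := Nat.descFactorial_le_pow X n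
  have hlo : (X + 1 - n) ^ n ≤ X.descFactorial n := Nat.pow_sub_le_descFactorial X n
  have hkey : Nat.factorial n * X ^ n < (Nat.factorial n + 1) * (X + 1 - n) ^ n := by
    obtain ⟨m, rfl⟩ : ∃ m, n = m + 1 := ⟨n - 1, by omega⟩
    have e1 : X + 1 - (m + 1) = X - m := by omega
    rw [e1]
    have hmX : m ≤ X := by omega
    have hXr : (0 : ℝ) < X := by exact_mod_cast hXpos
    have hB := one_add_mul_le_pow (a := -((m : ℝ) / X)) (by
      have : (m : ℝ) / X ≤ 1 := by
        rw [div_le_one hXr]; exact_mod_cast hmX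
      linarith) (m + 1)
    have hB2 : ((X : ℝ) ^ (m + 1)) * (1 + ((m + 1 : ℕ) : ℝ) * -((m : ℝ) / X)) ≤ ((X : ℝ) - m) ^ (m + 1) := by
      have e2 : ((X : ℝ) - m) = X * (1 + -((m : ℝ) / X)) := by
        field_simp
        ring
      rw [e2, mul_pow]
      exact mul_le_mul_of_nonneg_left hB (by positivity)
    have hbr : (((Nat.factorial (m + 1) : ℕ) : ℝ) + 1) * ((m + 1 : ℕ) : ℝ) * ((m + 1 : ℕ) : ℝ) < X := by
      exact_mod_cast hbig
    have hreal : ((Nat.factorial (m + 1) : ℕ) : ℝ) * (X : ℝ) ^ (m + 1) <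
        (((Nat.factorial (m + 1) : ℕ) : ℝ) + 1) * ((X : ℝ) - m) ^ (m + 1) := by
      set F : ℝ := ((Nat.factorial (m + 1) : ℕ) : ℝ) with hF
      have hF0 : 0 ≤ F := by positivity
      have hXm : (0 : ℝ) < (X : ℝ) ^ m := by positivity
      have e3 : ((X : ℝ) ^ (m + 1)) * (1 + ((m + 1 : ℕ) : ℝ) * -((m : ℝ) / X)) =
          (X : ℝ) ^ m * (X - ((m + 1 : ℕ) : ℝ) * m) := by
        rw [pow_succ]
        field_simp
        ring
      rw [e3] at hB2
      have h6 : F * (X : ℝ) ^ (m + 1) < (F + 1) * ((X : ℝ) ^ m * (X - ((m + 1 : ℕ) : ℝ) * m)) := by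
        have e4 : (F + 1) * ((X : ℝ) ^ m * (X - ((m + 1 : ℕ) : ℝ) * m)) - F * (X : ℝ) ^ (m + 1) =
            (X : ℝ) ^ m * (X - (F + 1) * ((m + 1 : ℕ) : ℝ) * m) := by
          rw [pow_succ]; ring
        have h7 : 0 < (X : ℝ) - (F + 1) * ((m + 1 : ℕ) : ℝ) * m := by
          have h8 : (F + 1) * ((m + 1 : ℕ) : ℝ) * m ≤ (F + 1) * ((m + 1 : ℕ) : ℝ) * ((m + 1 : ℕ) : ℝ) := by
            apply mul_le_mul_of_nonneg_left
            · push_cast; linarith
            · positivity
          linarith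
        have h9 := mul_pos hXm h7
        linarith
      exact lt_of_lt_of_le h6 (mul_le_mul_of_nonneg_left hB2 (by linarith))
    have e5 : ((X - m : ℕ) : ℝ) = (X : ℝ) - m := by push_cast [Nat.cast_sub hmX]; ring
    have : ((Nat.factorial (m + 1) * X ^ (m + 1) : ℕ) : ℝ) <
        (((Nat.factorial (m + 1) + 1) * (X - m) ^ (m + 1) : ℕ) : ℝ) := by
      push_cast [Nat.cast_sub hmX] at hreal ⊢
      exact hreal
    exact_mod_cast this
  rw [Nat.div_eq_iff hcp]
  constructor
  · rw [hD] at hup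
    exact hup
  · have h10 : Nat.factorial n * X ^ n < (Nat.factorial n + 1) * X.descFactorial n :=
      lt_of_lt_of_le hkey (Nat.mul_le_mul_left _ hlo)
    rw [hD] at h10
    have h11 : Nat.factorial n * X ^ n < Nat.factorial n * ((Nat.factorial n + 1) * X.choose n) := by
      calc _ < _ := h10
        _ = _ := by ring
    have h12 := Nat.lt_of_mul_lt_mul_left h11
    have h13 : (Nat.factorial n + 1) * X.choose n = Nat.factorial n * X.choose n + X.choose n := by ring
    omega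

end Pool.Agent.DNP18
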