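import Pool.Agent.DNP18.DNum
import Pool.Agent.DNP18.NumC

/-!
# [DNP-DCHOOSE] binomial coefficients, truncated binomial sums and factorials are definable

`w = 2^n` witnesses that `n` is small.
`dd_choose`: `v = (s, T, n, w, z)`: `w = 2^n ∧ ∃ B Y, B = (4T+4)^(8(n+2)²) ∧ Y = numY T n B ∧ Y % B = z`
  (`choose_eq_numY_mod`, `numY_le`).
`dd_fact`: `v = (s, n, w, z)`: `w = 2^n ∧ ∃ X C Z, X = (2n+2)^(2n+2) ∧ C = X.choose n ∧ Z = X^n ∧ Z / C = z` (`fact_eq_div`).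
`dd_expY`: `v = (s, T, x, n, w, z)`: `w = 2^n ∧ 1 ≤ x ∧ ∃ B Y X, B = ((4T+4)(x+1))^(8(n+2)²) ∧ Y = numY T n B ∧ X = x^n ∧
  X Y % (x B - 1) = z` (`expY_eq_numY_mod`; for the modulus use a witness `M` with `M + 1 = x B`).
-/

namespace Pool.Agent.DNP18

open Pool.Agent.DPoly

private theorem four_npoly {σ : Type} (i : σ) : NPoly (fun v : σ → ℕ => 4 * v i + 4) :=
  ((NPoly.const 4).mul (NPoly.coord i)).add (NPoly.const 4)

private theorem exp_npoly {σ : Type} (i : σ) : NPoly (fun v : σ → ℕ => 8 * (v i + 2) ^ 2) :=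
  (NPoly.const 8).mul (((NPoly.coord i).add (NPoly.const 2)).pow 2)

private theorem small_exp {σ : Type} {o : σ} {C : (σ → ℕ) → Prop} {F : (σ → ℕ) → ℕ}
    (h : Small o C F) : Small o C (fun v => 8 * (F v + 2) ^ 2) :=
  (Small.const 8).mul ((h.add (Small.const 2)).pow 2)

theorem dd_choose : DD (0 : Fin 5) (fun v => v 3 = 2 ^ v 2 ∧ v 4 = (v 1).choose (v 2)) := by
  have hQ : DD (Sum.inl (0 : Fin 5)) (fun u : Fin 5 ⊕ Fin 2 → ℕ =>
      (u (.inl 3) = 2 ^ u (.inl 2)) ∧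
      ((u (.inr 0) = (4 * u (.inl 1) + 4) ^ (8 * (u (.inl 2) + 2) ^ 2)) ∧
      (((4 * u (.inl 1) + 4) ^ (8 * (u (.inl 2) + 2) ^ 2) ≤ u (.inr 0) ∧
        u (.inr 1) = numY (u (.inl 1)) (u (.inl 2)) (u (.inr 0))) ∧
      (0 < u (.inr 0) ∧ u (.inr 1) % u (.inr 0) = u (.inl 4))))) :=
    (DD.pow (NPoly.const 2) (NPoly.coord _) (NPoly.coord _)).and
      ((DD.pow (four_npoly _) (exp_npoly _) (NPoly.coord _)).and
        ((DD.numY (NPoly.coord _) (NPoly.coord _) (NPoly.coord _) (NPoly.coord _)).and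
          (DD.natMod (NPoly.coord _) (NPoly.coord _) (NPoly.coord _))))
  refine hQ.exs' (fun v => ![(4 * v 1 + 4) ^ (8 * (v 2 + 2) ^ 2),
    numY (v 1) (v 2) ((4 * v 1 + 4) ^ (8 * (v 2 + 2) ^ 2))]) ?_ ?_ ?_
  · intro K1 j
    set C : (Fin 5 → ℕ) → Prop := fun v => Bnd 0 K1 v ∧ v 3 = 2 ^ v 2 ∧ v 4 = (v 1).choose (v 2)
      with hC
    have hsm : Small (0 : Fin 5) C (fun v => v 2) :=
      Small.of_two_pow ((Big.coord K1 3).mono fun v hv => by rw [← hv.2.1])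
    have hT : Big (0 : Fin 5) C (fun v => v 1) := Big.coord K1 1
    have hB : Big (0 : Fin 5) C (fun v => (4 * v 1 + 4) ^ (8 * (v 2 + 2) ^ 2)) :=
      Big.pow (((Big.const 4).mul hT).add (Big.const 4)) (small_exp hsm)
    fin_cases j
    · exact hB
    · show Big (0 : Fin 5) C (fun v => numY (v 1) (v 2) ((4 * v 1 + 4) ^ (8 * (v 2 + 2) ^ 2)))
      refine Big.mono (Big.pow (Big.mul (Big.add hT (Big.const 1)) hB) hsm) fun v _ => ?_
      exact numY_le (Nat.one_le_pow _ _ (by omega))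
  · intro v hv
    have hB : 0 < (4 * v 1 + 4) ^ (8 * (v 2 + 2) ^ 2) := Nat.pow_pos (by omega)
    refine ⟨hv.1, rfl, ⟨le_rfl, rfl⟩, hB, ?_⟩
    show numY (v 1) (v 2) ((4 * v 1 + 4) ^ (8 * (v 2 + 2) ^ 2)) % ((4 * v 1 + 4) ^ (8 * (v 2 + 2) ^ 2))
      = v 4
    rw [choose_eq_numY_mod le_rfl, hv.2]
  · intro v w hq
    simp only [Sum.elim_inl, Sum.elim_inr] at hq
    obtain ⟨h1, h2, ⟨h3, h4⟩, h5, h6⟩ := hq
    refine ⟨h1, ?_⟩
    rw [← h6, h4, choose_eq_numY_mod h3]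

theorem dd_fact : DD (0 : Fin 4) (fun v => v 2 = 2 ^ v 1 ∧ v 3 = Nat.factorial (v 1)) := by
  have hX : ∀ i : Fin 4 ⊕ Fin 3, NPoly (fun u : Fin 4 ⊕ Fin 3 → ℕ => 2 * u i + 2) := fun i =>
    ((NPoly.const 2).mul (NPoly.coord i)).add (NPoly.const 2)
  have hch : DD (Sum.inl (0 : Fin 4)) (fun u : Fin 4 ⊕ Fin 3 → ℕ =>
      u (.inl 2) = 2 ^ u (.inl 1) ∧ u (.inr 1) = (u (.inr 0)).choose (u (.inl 1))) := by
    have h := dd_choose.subst (o' := (Sum.inl (0 : Fin 4) : Fin 4 ⊕ Fin 3))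
      ![fun u => u (.inl 0), fun u => u (.inr 0), fun u => u (.inl 1), fun u => u (.inl 2),
        fun u => u (.inr 1)] (by
      intro i
      fin_cases i
      · exact NPoly.coord _
      · exact NPoly.coord _
      · exact NPoly.coord _
      · exact NPoly.coord _
      · exact NPoly.coord _) (fun v => rfl)
    exact h.congr fun v => Iff.rfl
  have hQ : DD (Sum.inl (0 : Fin 4)) (fun u : Fin 4 ⊕ Fin 3 → ℕ =>
      (u (.inr 0) = (2 * u (.inl 1) + 2) ^ (2 * u (.inl 1) + 2)) ∧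
      ((u (.inl 2) = 2 ^ u (.inl 1) ∧ u (.inr 1) = (u (.inr 0)).choose (u (.inl 1))) ∧
      ((u (.inr 2) = u (.inr 0) ^ u (.inl 1)) ∧
      (0 < u (.inr 1) ∧ u (.inr 2) / u (.inr 1) = u (.inl 3))))) :=
    (DD.pow (hX _) (hX _) (NPoly.coord _)).and
      (hch.and ((DD.pow (NPoly.coord _) (NPoly.coord _) (NPoly.coord _)).and
        (DD.natDiv (NPoly.coord _) (NPoly.coord _) (NPoly.coord _))))
  refine hQ.exs' (fun v => ![(2 * v 1 + 2) ^ (2 * v 1 + 2),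
    ((2 * v 1 + 2) ^ (2 * v 1 + 2)).choose (v 1), ((2 * v 1 + 2) ^ (2 * v 1 + 2)) ^ v 1]) ?_ ?_ ?_
  · intro K1 j
    set C : (Fin 4 → ℕ) → Prop := fun v => Bnd 0 K1 v ∧ v 2 = 2 ^ v 1 ∧ v 3 = Nat.factorial (v 1)
      with hC
    have hsm : Small (0 : Fin 4) C (fun v => v 1) :=
      Small.of_two_pow ((Big.coord K1 2).mono fun v hv => by rw [← hv.2.1])
    have hb : Big (0 : Fin 4) C (fun v => (2 * v 1 + 2) ^ (2 * v 1 + 2)) :=
      Big.pow (((Big.const 2).mul (Big.coord K1 1)).add (Big.const 2))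
        (((Small.const 2).mul hsm).add (Small.const 2))
    have hb2 : Big (0 : Fin 4) C (fun v => ((2 * v 1 + 2) ^ (2 * v 1 + 2)) ^ v 1) := Big.pow hb hsm
    fin_cases j
    · exact hb
    · exact Big.mono hb2 fun v _ => Nat.choose_le_pow _ _
    · exact hb2
  · intro v hv
    have hle : v 1 ≤ (2 * v 1 + 2) ^ (2 * v 1 + 2) := by
      calc v 1 ≤ (2 * v 1 + 2) ^ 1 := by rw [pow_one]; omega
        _ ≤ (2 * v 1 + 2) ^ (2 * v 1 + 2) := Nat.pow_le_pow_right (by omega) (by omega)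
    refine ⟨rfl, ⟨hv.1, rfl⟩, rfl, Nat.choose_pos hle, ?_⟩
    show ((2 * v 1 + 2) ^ (2 * v 1 + 2)) ^ v 1 / ((2 * v 1 + 2) ^ (2 * v 1 + 2)).choose (v 1) = v 3
    rw [fact_eq_div le_rfl, hv.2]
  · intro v w hq
    simp only [Sum.elim_inl, Sum.elim_inr] at hq
    obtain ⟨h1, ⟨h2, h3⟩, h4, h5, h6⟩ := hq
    refine ⟨h2, ?_⟩
    rw [← h6, h4, h3, fact_eq_div h1.symm.le]

theorem dd_expY : DD (0 : Fin 6) (fun v => v 4 = 2 ^ v 3 ∧ 1 ≤ v 2 ∧
    v 5 = expY (v 1) (v 2) (v 3)) := by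
  have hbase : NPoly (fun u : Fin 6 ⊕ Fin 4 → ℕ => (4 * u (.inl 1) + 4) * (u (.inl 2) + 1)) :=
    (four_npoly _).mul ((NPoly.coord _).add (NPoly.const 1))
  have hQ : DD (Sum.inl (0 : Fin 6)) (fun u : Fin 6 ⊕ Fin 4 → ℕ =>
      (u (.inl 4) = 2 ^ u (.inl 3)) ∧
      ((1 ≤ u (.inl 2)) ∧
      ((u (.inr 0) = ((4 * u (.inl 1) + 4) * (u (.inl 2) + 1)) ^ (8 * (u (.inl 3) + 2) ^ 2)) ∧
      (((4 * u (.inl 1) + 4) ^ (8 * (u (.inl 3) + 2) ^ 2) ≤ u (.inr 0) ∧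
        u (.inr 1) = numY (u (.inl 1)) (u (.inl 3)) (u (.inr 0))) ∧
      ((u (.inr 2) = u (.inl 2) ^ u (.inl 3)) ∧
      ((u (.inr 3) + 1 = u (.inl 2) * u (.inr 0)) ∧
      (0 < u (.inr 3) ∧ (u (.inr 2) * u (.inr 1)) % u (.inr 3) = u (.inl 5)))))))) :=
    (DD.pow (NPoly.const 2) (NPoly.coord _) (NPoly.coord _)).and
      ((DD.natLe (NPoly.const 1) (NPoly.coord _)).and
        ((DD.pow hbase (exp_npoly _) (NPoly.coord _)).and
          ((DD.numY (NPoly.coord _) (NPoly.coord _) (NPoly.coord _) (NPoly.coord _)).and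
            ((DD.pow (NPoly.coord _) (NPoly.coord _) (NPoly.coord _)).and
              ((DD.natEq ((NPoly.coord _).add (NPoly.const 1))
                ((NPoly.coord _).mul (NPoly.coord _))).and
                (DD.natMod ((NPoly.coord _).mul (NPoly.coord _)) (NPoly.coord _)
                  (NPoly.coord _)))))))
  refine hQ.exs' (fun v => ![((4 * v 1 + 4) * (v 2 + 1)) ^ (8 * (v 3 + 2) ^ 2),
    numY (v 1) (v 3) (((4 * v 1 + 4) * (v 2 + 1)) ^ (8 * (v 3 + 2) ^ 2)), v 2 ^ v 3,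
    v 2 * ((4 * v 1 + 4) * (v 2 + 1)) ^ (8 * (v 3 + 2) ^ 2) - 1]) ?_ ?_ ?_
  · intro K1 j
    set C : (Fin 6 → ℕ) → Prop := fun v => Bnd 0 K1 v ∧ v 4 = 2 ^ v 3 ∧ 1 ≤ v 2 ∧
      v 5 = expY (v 1) (v 2) (v 3) with hC
    have hsm : Small (0 : Fin 6) C (fun v => v 3) :=
      Small.of_two_pow ((Big.coord K1 4).mono fun v hv => by rw [← hv.2.1])
    have hT : Big (0 : Fin 6) C (fun v => v 1) := Big.coord K1 1
    have hx : Big (0 : Fin 6) C (fun v => v 2) := Big.coord K1 2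
    have hB : Big (0 : Fin 6) C (fun v => ((4 * v 1 + 4) * (v 2 + 1)) ^ (8 * (v 3 + 2) ^ 2)) :=
      Big.pow (Big.mul (((Big.const 4).mul hT).add (Big.const 4)) (hx.add (Big.const 1)))
        (small_exp hsm)
    fin_cases j
    · exact hB
    · show Big (0 : Fin 6) C (fun v =>
        numY (v 1) (v 3) (((4 * v 1 + 4) * (v 2 + 1)) ^ (8 * (v 3 + 2) ^ 2)))
      refine Big.mono (Big.pow (Big.mul (Big.add hT (Big.const 1)) hB) hsm) fun v _ => ?_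
      exact numY_le (Nat.one_le_pow _ _ (Nat.mul_pos (by omega) (by omega)))
    · exact Big.pow hx hsm
    · show Big (0 : Fin 6) C (fun v =>
        v 2 * ((4 * v 1 + 4) * (v 2 + 1)) ^ (8 * (v 3 + 2) ^ 2) - 1)
      exact Big.mono (Big.mul hx hB) fun v _ => Nat.sub_le _ _
  · intro v hv
    obtain ⟨h1, h2, h3⟩ := hv
    set b := (4 * v 1 + 4) * (v 2 + 1) with hb
    have hb2 : 8 ≤ b := by
      rw [hb]
      nlinarith
    have hexp : 1 ≤ 8 * (v 3 + 2) ^ 2 := Nat.mul_pos (by omega) (Nat.pow_pos (by omega))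
    have hB2 : 8 ≤ b ^ (8 * (v 3 + 2) ^ 2) := by
      calc 8 ≤ b ^ 1 := by rw [pow_one]; exact hb2
        _ ≤ b ^ (8 * (v 3 + 2) ^ 2) := Nat.pow_le_pow_right (by omega) hexp
    have hxB : 8 ≤ v 2 * b ^ (8 * (v 3 + 2) ^ 2) :=
      hB2.trans (Nat.le_mul_of_pos_left _ h2)
    have hle : (4 * v 1 + 4) ^ (8 * (v 3 + 2) ^ 2) ≤ b ^ (8 * (v 3 + 2) ^ 2) := by
      refine Nat.pow_le_pow_left ?_ _
      rw [hb]
      exact Nat.le_mul_of_pos_right _ (by omega)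
    refine ⟨h1, h2, rfl, ⟨hle, rfl⟩, rfl, ?_, ?_, ?_⟩
    · show v 2 * b ^ (8 * (v 3 + 2) ^ 2) - 1 + 1 = v 2 * b ^ (8 * (v 3 + 2) ^ 2)
      omega
    · show 0 < v 2 * b ^ (8 * (v 3 + 2) ^ 2) - 1
      omega
    · show (v 2 ^ v 3 * numY (v 1) (v 3) (b ^ (8 * (v 3 + 2) ^ 2))) %
        (v 2 * b ^ (8 * (v 3 + 2) ^ 2) - 1) = v 5
      rw [expY_eq_numY_mod h2 le_rfl, h3]
  · intro v w hq
    simp only [Sum.elim_inl, Sum.elim_inr] at hq
    obtain ⟨h1, h2, h3, ⟨h4, h5⟩, h6, h7, h8, h9⟩ := hq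
    refine ⟨h1, h2, ?_⟩
    have h10 : w 3 = v 2 * w 0 - 1 := by omega
    rw [← h9, h10, h6, h5, expY_eq_numY_mod h2 h3.symm.le]

section

variable {σ : Type} [Fintype σ] {o : σ} {T x n w z : (σ → ℕ) → ℕ}

theorem DD.choose (hT : NPoly T) (hn : NPoly n) (hw : NPoly w) (hz : NPoly z) :
    DD o (fun v => w v = 2 ^ n v ∧ z v = (T v).choose (n v)) := by
  have h := dd_choose.subst (o' := o) ![fun v => v o, T, n, w, z] (by
    intro i
    fin_cases i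
    · exact NPoly.coord o
    · exact hT
    · exact hn
    · exact hw
    · exact hz) (fun v => rfl)
  exact h.congr fun v => Iff.rfl

theorem DD.fact (hn : NPoly n) (hw : NPoly w) (hz : NPoly z) :
    DD o (fun v => w v = 2 ^ n v ∧ z v = Nat.factorial (n v)) := by
  have h := dd_fact.subst (o' := o) ![fun v => v o, n, w, z] (by
    intro i
    fin_cases i
    · exact NPoly.coord o
    · exact hn
    · exact hw
    · exact hz) (fun v => rfl)
  exact h.congr fun v => Iff.rfl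

theorem DD.expY (hT : NPoly T) (hx : NPoly x) (hn : NPoly n) (hw : NPoly w) (hz : NPoly z) :
    DD o (fun v => w v = 2 ^ n v ∧ 1 ≤ x v ∧ z v = expY (T v) (x v) (n v)) := by
  have h := dd_expY.subst (o' := o) ![fun v => v o, T, x, n, w, z] (by
    intro i
    fin_cases i
    · exact NPoly.coord o
    · exact hT
    · exact hx
    · exact hn
    · exact hw
    · exact hz) (fun v => rfl)
  exact h.congr fun v => Iff.rfl

end

end Pool.Agent.DNP18
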