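import Pool.Agent.DNP18.LegDef

/-!
# [DNP-LEGA] bounds and the central coefficient

`leg_digit`: `((B+a)(B+b))^m = ∑_{i,j} C(m,i) C(m,j) a^(m-i) b^(m-j) B^(i+j)`; the coefficient of `B^m`
is `∑_i C(m,i) C(m,m-i) a^(m-i) b^i = leg m a b`; all coefficients are nonnegative and their sum is
`((1+a)(1+b))^m < B`, so the coefficients are the digits in base `B`.
(Hint: polynomials `((X + C a) * (X + C b))^m` over `ℕ`; a lemma: if `f : ℕ[X]` and `f.eval 1 < B` then
`f.eval B / B^m % B = f.coeff m`, by splitting the sum at `m`.)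
`leg_ge`: `C(m,i) ≤ C(m,i)^2`.  `leg_le`: `C(m,i)^2 ≤ 2^m C(m,i)`.
-/

namespace Pool.Agent.DNP18

open Finset

/-- the digit of the value of a polynomial with small coefficients -/
private theorem leg_dig_aux (c : ℕ → ℕ) (m N B : ℕ) (hm : m < N) (h : ∑ i ∈ range N, c i < B) :
    (∑ i ∈ range N, c i * B ^ i) / B ^ m % B = c m := by
  have hB : 0 < B := by omega
  obtain ⟨K, rfl⟩ : ∃ K, N = m + (K + 1) := ⟨N - m - 1, by omega⟩
  have e1 : ∑ i ∈ range (m + (K + 1)), c i * B ^ i =
      ∑ i ∈ range m, c i * B ^ i + B ^ m * (c m + B * ∑ j ∈ range K, c (m + (j + 1)) * B ^ j) := by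
    rw [sum_range_add, sum_range_succ', mul_add, mul_sum, mul_sum]
    congr 1
    rw [add_comm]
    congr 1
    · rw [add_zero, mul_comm]
    · refine sum_congr rfl fun j _ => ?_
      ring
  have e2 : ∑ i ∈ range (m + (K + 1)), c i =
      ∑ i ∈ range m, c i + (c m + ∑ j ∈ range K, c (m + (j + 1))) := by
    rw [sum_range_add, sum_range_succ', add_zero, add_comm (c m)]
  have h1 : ∑ i ∈ range m, c i * B ^ i < B ^ m := by
    rcases Nat.eq_zero_or_pos m with h0 | h0
    · subst h0; simp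
    · have h2 : ∑ i ∈ range m, c i * B ^ i ≤ (∑ i ∈ range m, c i) * B ^ (m - 1) := by
        rw [sum_mul]
        refine sum_le_sum fun i hi => ?_
        rw [mem_range] at hi
        exact Nat.mul_le_mul_left _ (Nat.pow_le_pow_right hB (by omega))
      refine lt_of_le_of_lt h2 ?_
      have h3 : ∑ i ∈ range m, c i < B := by omega
      calc (∑ i ∈ range m, c i) * B ^ (m - 1) < B * B ^ (m - 1) :=
            Nat.mul_lt_mul_of_pos_right h3 (pow_pos hB _)
        _ = B ^ m := by rw [← pow_succ', Nat.sub_add_cancel h0]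
  have h4 : c m < B := by omega
  rw [e1, Nat.add_mul_div_left _ _ (pow_pos hB m), Nat.div_eq_of_lt h1, zero_add, Nat.add_mul_mod_self_left,
    Nat.mod_eq_of_lt h4]

private theorem leg_coeff (m a b : ℕ) :
    (((Polynomial.X + Polynomial.C a) * (Polynomial.X + Polynomial.C b)) ^ m : Polynomial ℕ).coeff m =
      leg m a b := by
  rw [mul_pow, Polynomial.coeff_mul, Finset.Nat.sum_antidiagonal_eq_sum_range_succ
    (fun i j => ((Polynomial.X + Polynomial.C a) ^ m : Polynomial ℕ).coeff i *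
      ((Polynomial.X + Polynomial.C b) ^ m : Polynomial ℕ).coeff j)]
  unfold leg
  refine sum_congr rfl fun i hi => ?_
  rw [mem_range] at hi
  have hi' : i ≤ m := by omega
  simp only [Polynomial.coeff_X_add_C_pow, Nat.cast_id]
  rw [Nat.choose_symm hi', Nat.sub_sub_self hi']
  ring

theorem leg_digit {m a b B : ℕ} (h : ((a + 1) * (b + 1)) ^ m < B) :
    ((B + a) * (B + b)) ^ m / B ^ m % B = leg m a b := by
  set f : Polynomial ℕ := ((Polynomial.X + Polynomial.C a) * (Polynomial.X + Polynomial.C b)) ^ m with hf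
  have hev : ∀ x, f.eval x = ((x + a) * (x + b)) ^ m := by
    intro x
    simp [hf]
  have hsum : ∀ x, f.eval x = ∑ i ∈ range (f.natDegree + m + 1), f.coeff i * x ^ i := by
    intro x
    exact Polynomial.eval_eq_sum_range' (by omega) x
  have h1 : ∑ i ∈ range (f.natDegree + m + 1), f.coeff i < B := by
    have h2 := hsum 1
    rw [hev] at h2
    simp only [one_pow, mul_one] at h2
    rw [← h2, add_comm 1 a, add_comm 1 b]
    exact h
  rw [← hev B, hsum B, leg_dig_aux _ m _ B (by omega) h1]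
  exact leg_coeff m a b

theorem leg_ge (m a b : ℕ) : (a + b) ^ m ≤ leg m a b := by
  unfold leg
  rw [add_comm a b, add_pow]
  refine sum_le_sum fun i _ => ?_
  have h1 : m.choose i ≤ m.choose i ^ 2 := Nat.le_self_pow (by norm_num) _
  calc b ^ i * a ^ (m - i) * m.choose i = m.choose i * (a ^ (m - i) * b ^ i) := by ring
    _ ≤ m.choose i ^ 2 * (a ^ (m - i) * b ^ i) := Nat.mul_le_mul_right _ h1
    _ = m.choose i ^ 2 * a ^ (m - i) * b ^ i := by ring

theorem leg_le (m a b : ℕ) : leg m a b ≤ (2 * (a + b)) ^ m := by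
  unfold leg
  rw [mul_pow, add_comm a b, add_pow, mul_sum]
  refine sum_le_sum fun i _ => ?_
  calc m.choose i ^ 2 * a ^ (m - i) * b ^ i = m.choose i * (m.choose i * (a ^ (m - i) * b ^ i)) := by ring
    _ ≤ 2 ^ m * (m.choose i * (a ^ (m - i) * b ^ i)) := Nat.mul_le_mul_right _ (Nat.choose_le_two_pow m i)
    _ = 2 ^ m * (b ^ i * a ^ (m - i) * m.choose i) := by ring

theorem leg_pos (m : ℕ) {a b : ℕ} (h : 0 < a + b) : 0 < leg m a b :=
  lt_of_lt_of_le (pow_pos h m) (leg_ge m a b)

end Pool.Agent.DNP18
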