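import Pool.Agent.DNP18.Pow
import Pool.Agent.DNP18.LegA

/-!
# [DNP-DLEG] Legendre numbers of small index are definable

`v = (s, m, a, b, w, p)`. `w = 2^m ∧ ∃ e n d, e = ((a+1)(b+1))^m ∧ d = B^m ∧ n = ((B+a)(B+b))^m ∧ n / d % B = p`
with `B = e + 1` (`leg_digit`). `m` is small because `2^m = w` is big. Quotient `q = n / d` as a further witness.
`DD.exs'`, `τ = Fin 4`, `DD.pow`, `DD.natDiv`, `DD.natMod`.
-/

namespace Pool.Agent.DNP18

open Pool.Agent.DPoly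

/-- the witnesses -/
private def lgE (v : Fin 6 → ℕ) : ℕ := ((v 2 + 1) * (v 3 + 1)) ^ v 1

private def lgN (v : Fin 6 → ℕ) : ℕ := ((lgE v + 1 + v 2) * (lgE v + 1 + v 3)) ^ v 1

private def lgD (v : Fin 6 → ℕ) : ℕ := (lgE v + 1) ^ v 1

private def lgQ (u : Fin 6 ⊕ Fin 4 → ℕ) : Prop :=
  u (.inl 4) = 2 ^ u (.inl 1) ∧ u (.inr 0) = ((u (.inl 2) + 1) * (u (.inl 3) + 1)) ^ u (.inl 1) ∧
    u (.inr 1) = ((u (.inr 0) + 1 + u (.inl 2)) * (u (.inr 0) + 1 + u (.inl 3))) ^ u (.inl 1) ∧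
    u (.inr 2) = (u (.inr 0) + 1) ^ u (.inl 1) ∧
    (0 < u (.inr 2) ∧ u (.inr 1) / u (.inr 2) = u (.inr 3)) ∧
    (0 < u (.inr 0) + 1 ∧ u (.inr 3) % (u (.inr 0) + 1) = u (.inl 5))

private theorem lg_dd : DD (Sum.inl 0 : Fin 6 ⊕ Fin 4) lgQ := by
  have c : ∀ i : Fin 6 ⊕ Fin 4, NPoly (fun u : Fin 6 ⊕ Fin 4 → ℕ => u i) := fun i => NPoly.coord i
  have k : ∀ n : ℕ, NPoly (fun _ : Fin 6 ⊕ Fin 4 → ℕ => n) := fun n => NPoly.const n
  refine (DD.pow (k 2) (c (.inl 1)) (c (.inl 4))).and ?_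
  refine (DD.pow (((c (.inl 2)).add (k 1)).mul ((c (.inl 3)).add (k 1))) (c (.inl 1)) (c (.inr 0))).and ?_
  refine (DD.pow ((((c (.inr 0)).add (k 1)).add (c (.inl 2))).mul
    (((c (.inr 0)).add (k 1)).add (c (.inl 3)))) (c (.inl 1)) (c (.inr 1))).and ?_
  refine (DD.pow ((c (.inr 0)).add (k 1)) (c (.inl 1)) (c (.inr 2))).and ?_
  refine (DD.natDiv (c (.inr 1)) (c (.inr 2)) (c (.inr 3))).and ?_
  exact DD.natMod (c (.inr 3)) ((c (.inr 0)).add (k 1)) (c (.inl 5))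

theorem dd_leg : DD (0 : Fin 6) (fun v => v 4 = 2 ^ v 1 ∧ v 5 = leg (v 1) (v 2) (v 3)) := by
  refine DD.exs' (Q := lgQ) lg_dd (fun v => ![lgE v, lgN v, lgD v, lgN v / lgD v]) ?_ ?_ ?_
  · intro K1
    set C : (Fin 6 → ℕ) → Prop := fun v => Bnd 0 K1 v ∧ (v 4 = 2 ^ v 1 ∧ v 5 = leg (v 1) (v 2) (v 3)) with hC
    have hc : ∀ i, Big (0 : Fin 6) C (fun v => v i) := fun i => Big.coord K1 i
    have hm : Small (0 : Fin 6) C (fun v => v 1) :=
      Small.of_two_pow ((hc 4).mono fun v hv => hv.2.1.symm.le)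
    have hE : Big (0 : Fin 6) C lgE :=
      Big.pow (Big.mul (Big.add (hc 2) (Big.const 1)) (Big.add (hc 3) (Big.const 1))) hm
    have hN : Big (0 : Fin 6) C lgN :=
      Big.pow (Big.mul (Big.add (Big.add hE (Big.const 1)) (hc 2)) (Big.add (Big.add hE (Big.const 1)) (hc 3))) hm
    have hD : Big (0 : Fin 6) C lgD := Big.pow (Big.add hE (Big.const 1)) hm
    intro j
    fin_cases j
    · exact hE
    · exact hN
    · exact hD
    · exact hN.mono fun v _ => Nat.div_le_self _ _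
  · rintro v ⟨h1, h2⟩
    refine ⟨h1, rfl, rfl, rfl, ⟨?_, rfl⟩, ?_, ?_⟩
    · show 0 < lgD v
      unfold lgD
      positivity
    · show 0 < lgE v + 1
      omega
    · show lgN v / lgD v % (lgE v + 1) = v 5
      rw [h2]
      exact leg_digit (Nat.lt_succ_self _)
  · rintro v w ⟨h1, h2, h3, h4, ⟨_, h5⟩, _, h6⟩
    simp only [Sum.elim_inl, Sum.elim_inr] at h1 h2 h3 h4 h5 h6
    refine ⟨h1, ?_⟩
    rw [← h6, ← h5, h3, h4]
    refine leg_digit ?_
    rw [h2]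
    exact Nat.lt_succ_self _

/-- the same with polynomials as arguments -/
theorem DD.leg {σ : Type} [Fintype σ] {o : σ} {m a b w p : (σ → ℕ) → ℕ} (hm : NPoly m)
    (ha : NPoly a) (hb : NPoly b) (hw : NPoly w) (hp : NPoly p) :
    DD o (fun v => w v = 2 ^ m v ∧ p v = leg (m v) (a v) (b v)) := by
  have h := dd_leg.subst (o' := o) ![fun v => v o, m, a, b, w, p] (by
    intro i
    fin_cases i
    · exact NPoly.coord o
    · exact hm
    · exact ha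
    · exact hb
    · exact hw
    · exact hp) (fun v => rfl)
  exact h.congr fun v => Iff.rfl

end Pool.Agent.DNP18
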