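import Pool.Agent.DNP18.NumT

/-!
# [DNP-NUMA] the numeral of `(1 + 1/B)^T`, soundness of the characterisation

`T, n ≥ 1`, `B ≥ (4T+4)^(8(n+2)²)`; `num_tail` bounds the tail.
`exp x ≤ 1 + 2x ≤ 1.1` for the small values here: `T log(1+1/B) ≤ T/B`, and `(BY+1)/B^(n+1) ≤ 1 + 4T/B`.
Errors: `T (1/B)^(2n+5) ≤ 1/(16 B^n)` and `((BY+1-B^(n+1))/B^(n+1))^(2n+5) ≤ (4T/B)^(2n+5) ≤ 1/(16 B^n)`
 because `16 (4T)^(2n+5) ≤ (4T+4)^(2n+6) ≤ B^(n+5)`.
Then `|log((BY+1)/B^(n+1)) - T log(1+1/B)| ≤ (1/4+1/16+1/16)/B^n`, so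
 `|(BY+1)/B^(n+1) - (1+1/B)^T| ≤ 0.45/B^n` (mean value: `|x - y| ≤ max x y * |log x - log y|`),
 so `|Y - numY| ≤ 0.45 + 1/16 + 1/B < 1`.
-/

namespace Pool.Agent.DNP18

open Finset

private theorem numA_nat {T n B : ℕ} (hT : 1 ≤ T) (hB : (4 * T + 4) ^ (8 * (n + 2) ^ 2) ≤ B) :
    16 * T ≤ B ∧ 64 ≤ B ∧ 16 * (4 * T) ^ (2 * n + 5) ≤ B := by
  have hW : (4 * T + 4) ^ (2 * n + 7) ≤ B :=
    (Nat.pow_le_pow_right (by omega) (by nlinarith)).trans hB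
  have h4 : 2 ^ 2 ≤ (n + 2) ^ 2 := Nat.pow_le_pow_left (by omega) 2
  have hW2 : (4 * T + 4) ^ 2 ≤ B := (Nat.pow_le_pow_right (by omega) (by omega)).trans hB
  refine ⟨by nlinarith, by nlinarith, ?_⟩
  calc 16 * (4 * T) ^ (2 * n + 5) ≤ (4 * T + 4) ^ 2 * (4 * T + 4) ^ (2 * n + 5) :=
        Nat.mul_le_mul (by nlinarith) (Nat.pow_le_pow_left (by omega) _)
    _ = (4 * T + 4) ^ (2 * n + 7) := by
        rw [← pow_add]
        congr 1
        omega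
    _ ≤ B := hW

/-- `x - y ≤ x (log x - log y)` -/
private theorem numA_log {x y : ℝ} (hx : 0 < x) (hy : 0 < y) :
    x - y ≤ x * (Real.log x - Real.log y) := by
  have h1 := Real.log_le_sub_one_of_pos (div_pos hy hx)
  rw [Real.log_div hy.ne' hx.ne'] at h1
  have h2 : x * (Real.log y - Real.log x) ≤ x * (y / x - 1) := mul_le_mul_of_nonneg_left h1 hx.le
  have h3 : x * (y / x - 1) = y - x := by
    field_simp
  linarith

theorem num_sound {T n B Y : ℕ} (hT : 1 ≤ T) (hn : 1 ≤ n) (hB : (4 * T + 4) ^ (8 * (n + 2) ^ 2) ≤ B)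
    (hY1 : B ^ n ≤ Y) (hY2 : B * Y + 1 ≤ B ^ (n + 1) + 4 * T * B ^ n) {r1 r2 : ℝ}
    (h1 : r1 ≤ Real.log (((B : ℝ) + 1) / B))
    (h1' : Real.log (((B : ℝ) + 1) / B) - r1 ≤ (1 / (B : ℝ)) ^ (2 * n + 5))
    (h2 : r2 ≤ Real.log (((B : ℝ) * Y + 1) / B ^ (n + 1)))
    (h2' : Real.log (((B : ℝ) * Y + 1) / B ^ (n + 1)) - r2 ≤
      (((B : ℝ) * Y + 1 - B ^ (n + 1)) / B ^ (n + 1)) ^ (2 * n + 5))
    (h3 : |r2 - T * r1| ≤ 1 / (4 * B ^ n)) : Y = numY T n B := by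
  obtain ⟨n1, n2, n3⟩ := numA_nat hT hB
  obtain ⟨t1, t2⟩ := num_tail hB
  have c1 : 16 * (T : ℝ) ≤ B := by exact_mod_cast n1
  have c2 : (64 : ℝ) ≤ B := by exact_mod_cast n2
  have c3 : 16 * (4 * (T : ℝ)) ^ (2 * n + 5) ≤ B := by exact_mod_cast n3
  have c4 : (B : ℝ) ^ n ≤ Y := by exact_mod_cast hY1
  have c5 : (B : ℝ) * Y + 1 ≤ (B : ℝ) ^ (n + 1) + 4 * T * (B : ℝ) ^ n := by exact_mod_cast hY2
  have hb : (0 : ℝ) < B := by linarith
  have hb1 : (1 : ℝ) ≤ B := by linarith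
  have hTr : (1 : ℝ) ≤ T := by exact_mod_cast hT
  obtain ⟨p, hp⟩ : ∃ p : ℝ, p = (B : ℝ) ^ n := ⟨_, rfl⟩
  have hp0 : 0 < p := by
    rw [hp]
    positivity
  have hbp : (B : ℝ) ≤ p := by
    rw [hp]
    calc (B : ℝ) = (B : ℝ) ^ 1 := (pow_one _).symm
      _ ≤ (B : ℝ) ^ n := pow_le_pow_right₀ hb1 hn
  have hb5 : (B : ℝ) ≤ (B : ℝ) ^ (n + 5) := by
    calc (B : ℝ) = (B : ℝ) ^ 1 := (pow_one _).symm
      _ ≤ (B : ℝ) ^ (n + 5) := pow_le_pow_right₀ hb1 (by omega)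
  have hsucc : (B : ℝ) ^ (n + 1) = B * p := by rw [hp, pow_succ, mul_comm]
  have hsplit : (B : ℝ) ^ (2 * n + 5) = (B : ℝ) ^ (n + 5) * p := by
    rw [hp, ← pow_add]
    congr 1
    omega
  rw [← hp] at c4 c5 t1 t2 h3
  rw [hsucc] at c5 h2 h2'
  obtain ⟨x, hx⟩ : ∃ x : ℝ, x = ((B : ℝ) * Y + 1) / (B * p) := ⟨_, rfl⟩
  obtain ⟨y, hy⟩ : ∃ y : ℝ, y = (1 + 1 / (B : ℝ)) ^ T := ⟨_, rfl⟩
  rw [← hx] at h2 h2'
  rw [← hy] at t1 t2
  have hbp0 : 0 < (B : ℝ) * p := by positivity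
  have hx1 : ((B : ℝ) * Y + 1 - B * p) / (B * p) = x - 1 := by
    rw [hx, sub_div, div_self hbp0.ne']
  rw [hx1] at h2'
  have hxpos : 0 < x := by
    rw [hx]
    positivity
  have hypos : 0 < y := by
    rw [hy]
    positivity
  -- size of `x`
  have hxge : 0 ≤ x - 1 := by
    rw [← hx1]
    apply div_nonneg _ hbp0.le
    have : (B : ℝ) * p ≤ B * Y := mul_le_mul_of_nonneg_left c4 hb.le
    linarith
  have hxle : x - 1 ≤ 4 * T / B := by
    rw [← hx1, div_le_div_iff₀ hbp0 hb]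
    have : (B : ℝ) * Y + 1 - B * p ≤ 4 * T * p := by linarith
    calc ((B : ℝ) * Y + 1 - B * p) * B ≤ (4 * T * p) * B := mul_le_mul_of_nonneg_right this hb.le
      _ = 4 * T * (B * p) := by ring
  have hq : 4 * (T : ℝ) / B ≤ 1 / 4 := by
    rw [div_le_div_iff₀ hb (by norm_num)]
    linarith
  -- errors
  have e1 : (T : ℝ) * (1 / (B : ℝ)) ^ (2 * n + 5) ≤ 1 / (16 * p) := by
    rw [one_div, inv_pow, ← div_eq_mul_inv, hsplit, div_le_div_iff₀ (by positivity) (by positivity)]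
    have : 16 * (T : ℝ) ≤ (B : ℝ) ^ (n + 5) := c1.trans hb5
    calc (T : ℝ) * (16 * p) = (16 * T) * p := by ring
      _ ≤ (B : ℝ) ^ (n + 5) * p := mul_le_mul_of_nonneg_right this hp0.le
      _ = 1 * ((B : ℝ) ^ (n + 5) * p) := (one_mul _).symm
  have e2 : (x - 1) ^ (2 * n + 5) ≤ 1 / (16 * p) := by
    refine (pow_le_pow_left₀ hxge hxle _).trans ?_
    rw [div_pow, hsplit, div_le_div_iff₀ (by positivity) (by positivity)]
    have : 16 * (4 * (T : ℝ)) ^ (2 * n + 5) ≤ (B : ℝ) ^ (n + 5) := c3.trans hb5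
    calc (4 * (T : ℝ)) ^ (2 * n + 5) * (16 * p) = (16 * (4 * (T : ℝ)) ^ (2 * n + 5)) * p := by ring
      _ ≤ (B : ℝ) ^ (n + 5) * p := mul_le_mul_of_nonneg_right this hp0.le
      _ = 1 * ((B : ℝ) ^ (n + 5) * p) := (one_mul _).symm
  have hlogy : Real.log y = T * Real.log (((B : ℝ) + 1) / B) := by
    rw [hy, Real.log_pow]
    congr 2
    field_simp
  have e1' : (T : ℝ) * (Real.log (((B : ℝ) + 1) / B) - r1) ≤ 1 / (16 * p) :=
    (mul_le_mul_of_nonneg_left h1' (by linarith)).trans e1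
  have e1'' : 0 ≤ (T : ℝ) * (Real.log (((B : ℝ) + 1) / B) - r1) :=
    mul_nonneg (by linarith) (by linarith)
  rw [abs_le] at h3
  obtain ⟨u, hu⟩ : ∃ u : ℝ, u = 1 / p := ⟨_, rfl⟩
  have hu0 : 0 < u := by
    rw [hu]
    positivity
  have hup : u * p = 1 := by
    rw [hu]
    field_simp
  have hu16 : 1 / (16 * p) = u / 16 := by
    rw [hu]
    field_simp
  have hu4 : 1 / (4 * p) = u / 4 := by
    rw [hu]
    field_simp
  rw [hu16] at e1' e2 t2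
  rw [hu4] at h3
  have hu64 : u ≤ 1 / 64 := by
    rw [hu]
    exact one_div_le_one_div_of_le (by norm_num) (c2.trans hbp)
  -- difference of the logarithms
  have d1 : Real.log x - Real.log y ≤ 3 / 8 * u := by
    rw [hlogy]
    have : Real.log x - T * Real.log (((B : ℝ) + 1) / B) = (Real.log x - r2) + (r2 - T * r1) -
      T * (Real.log (((B : ℝ) + 1) / B) - r1) := by ring
    linarith [h3.2]
  have d2 : Real.log y - Real.log x ≤ 3 / 8 * u := by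
    rw [hlogy]
    have : T * Real.log (((B : ℝ) + 1) / B) - Real.log x = - (Real.log x - r2) - (r2 - T * r1) +
      T * (Real.log (((B : ℝ) + 1) / B) - r1) := by ring
    linarith [h3.1]
  have hx2 : x ≤ 5 / 4 := by linarith
  have f1 : x - y ≤ 15 / 32 * u := by
    have g1 := numA_log hxpos hypos
    have g2 : x * (Real.log x - Real.log y) ≤ x * (3 / 8 * u) := mul_le_mul_of_nonneg_left d1 hxpos.le
    have g3 : x * (3 / 8 * u) ≤ 5 / 4 * (3 / 8 * u) := mul_le_mul_of_nonneg_right hx2 (by positivity)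
    linarith
  have f2 : y - x ≤ y * (3 / 8 * u) :=
    (numA_log hypos hxpos).trans (mul_le_mul_of_nonneg_left d2 hypos.le)
  have hy2 : y ≤ 3 / 2 := by
    have g1 : y * (3 / 8 * u) ≤ y * (3 / 8 * (1 / 64)) :=
      mul_le_mul_of_nonneg_left (by linarith) hypos.le
    linarith
  have f2' : y - x ≤ 9 / 16 * u := by
    have g3 : y * (3 / 8 * u) ≤ 3 / 2 * (3 / 8 * u) := mul_le_mul_of_nonneg_right hy2 (by positivity)
    linarith
  -- `Y / p`
  have hYx : (Y : ℝ) / p = x - u / B := by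
    rw [hx, hu]
    field_simp
    ring
  have huB : u / B ≤ u / 64 := div_le_div_of_nonneg_left hu0.le (by norm_num) c2
  have huB0 : 0 ≤ u / B := by positivity
  have k1 : (Y : ℝ) / p - (numY T n B : ℝ) / p ≤ 17 / 32 * u := by linarith
  have k2 : (numY T n B : ℝ) / p - (Y : ℝ) / p ≤ 37 / 64 * u := by linarith
  have l1 : (Y : ℝ) - numY T n B < 1 := by
    rw [← sub_div, div_le_iff₀ hp0] at k1
    have : 17 / 32 * u * p = 17 / 32 := by rw [mul_assoc, hup, mul_one]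
    linarith
  have l2 : (numY T n B : ℝ) - Y < 1 := by
    rw [← sub_div, div_le_iff₀ hp0] at k2
    have : 37 / 64 * u * p = 37 / 64 := by rw [mul_assoc, hup, mul_one]
    linarith
  have m1 : (Y : ℝ) < ((numY T n B + 1 : ℕ) : ℝ) := by
    push_cast
    linarith
  have m2 : (numY T n B : ℝ) < ((Y + 1 : ℕ) : ℝ) := by
    push_cast
    linarith
  have m1' : Y < numY T n B + 1 := by exact_mod_cast m1
  have m2' : numY T n B < Y + 1 := by exact_mod_cast m2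
  omega

end Pool.Agent.DNP18
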