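import Pool.Agent.DNP18.NumT

/-!
# [DNP-NUMB] the numeral of `(1 + 1/B)^T`, completeness of the characterisation

`T, n ≥ 1`, `B ≥ (4T+4)^(8(n+2)²)`; `num_tail` bounds the tail. `Y = numY T n B`:
`B^n ≤ Y` (term `j = 0`), `B Y + 1 ≤ B^(n+1) + 4 T B^n` since `∑_{1≤j≤n} T^j B^(n+1-j) + 1 ≤ 2 T B^n`.
`|(BY+1)/B^(n+1) - (1+1/B)^T| ≤ 1/(16 B^n)` (both `1/B^(n+1)` and the tail are in `[0, 1/(16 B^n)]`),
`log` is 1-Lipschitz on `[1,∞)`, so the logarithms differ by at most that.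
Errors: `T (1/B)^(2n+5) ≤ 1/(16 B^n)` and `((BY+1-B^(n+1))/B^(n+1))^(2n+5) ≤ (4T/B)^(2n+5) ≤ 1/(16 B^n)`
 because `16 (4T)^(2n+5) ≤ (4T+4)^(2n+6) ≤ B^(n+5)`. So `|r2 - T r1| ≤ (1/16+1/16+1/16)/B^n`.
-/

namespace Pool.Agent.DNP18

open Finset

private lemma nb_pow_bound {T n B : ℕ} (hT : 1 ≤ T)
    (hB : (4 * T + 4) ^ (8 * (n + 2) ^ 2) ≤ B) : 16 * (4 * T) ^ (2 * n + 5) ≤ B := by
  have h1 : 16 * (4 * T) ^ (2 * n + 5) ≤ (4 * T + 4) ^ 2 * (4 * T + 4) ^ (2 * n + 5) := by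
    refine Nat.mul_le_mul ?_ (Nat.pow_le_pow_left (by omega) _)
    nlinarith
  have h2 : (4 * T + 4) ^ 2 * (4 * T + 4) ^ (2 * n + 5) = (4 * T + 4) ^ (2 * n + 7) := by
    rw [← pow_add]; congr 1; omega
  have h3 : (4 * T + 4) ^ (2 * n + 7) ≤ (4 * T + 4) ^ (8 * (n + 2) ^ 2) :=
    Nat.pow_le_pow_right (by omega) (by nlinarith)
  omega

private lemma nb_log_sub {z w : ℝ} (hz : 1 ≤ z) (hw : 1 ≤ w) :
    Real.log z - Real.log w ≤ |z - w| := by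
  have hz0 : 0 < z := by linarith
  have hw0 : 0 < w := by linarith
  rw [← Real.log_div hz0.ne' hw0.ne']
  have h1 := Real.log_le_sub_one_of_pos (div_pos hz0 hw0)
  have h2 : z / w - 1 = (z - w) / w := by field_simp
  have h3 : (z - w) / w ≤ |z - w| := by
    rw [div_le_iff₀ hw0]
    nlinarith [le_abs_self (z - w), abs_nonneg (z - w)]
  linarith

theorem num_complete {T n B Y : ℕ} (hT : 1 ≤ T) (hn : 1 ≤ n)
    (hB : (4 * T + 4) ^ (8 * (n + 2) ^ 2) ≤ B) (hY : Y = numY T n B) {r1 r2 : ℝ}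
    (h1 : r1 ≤ Real.log (((B : ℝ) + 1) / B))
    (h1' : Real.log (((B : ℝ) + 1) / B) - r1 ≤ (1 / (B : ℝ)) ^ (2 * n + 5))
    (h2 : r2 ≤ Real.log (((B : ℝ) * Y + 1) / B ^ (n + 1)))
    (h2' : Real.log (((B : ℝ) * Y + 1) / B ^ (n + 1)) - r2 ≤
      (((B : ℝ) * Y + 1 - B ^ (n + 1)) / B ^ (n + 1)) ^ (2 * n + 5)) :
    B ^ n ≤ Y ∧ B * Y + 1 ≤ B ^ (n + 1) + 4 * T * B ^ n ∧ |r2 - T * r1| ≤ 1 / (4 * B ^ n) := by
  classical
  have hP := nb_pow_bound (n := n) hT hB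
  have h4T : 4 * T ≤ (4 * T) ^ (2 * n + 5) := Nat.le_self_pow (by omega) _
  have hB16 : 64 * T ≤ B := by omega
  have hBpos : 0 < B := by omega
  have hb0 : (0 : ℝ) < B := by exact_mod_cast hBpos
  have hb1 : (1 : ℝ) ≤ B := by exact_mod_cast hBpos
  have hT1 : (1 : ℝ) ≤ T := by exact_mod_cast hT
  have hb64 : 64 * (T : ℝ) ≤ B := by exact_mod_cast hB16
  have hPr : 16 * (4 * (T : ℝ)) ^ (2 * n + 5) ≤ B := by exact_mod_cast hP
  have hbn : (0 : ℝ) < (B : ℝ) ^ n := by positivity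
  have hbn1 : (0 : ℝ) < (B : ℝ) ^ (n + 1) := by positivity
  obtain ⟨ht1, ht2⟩ := num_tail (T := T) (n := n) (B := B) hB
  rw [← hY] at ht1 ht2
  -- (1)
  have c1 : B ^ n ≤ Y := by
    rw [hY, numY]
    have := Finset.single_le_sum (f := fun j => T.choose j * B ^ (n - j)) (s := range (n + 1))
      (fun i _ => Nat.zero_le _) (mem_range.mpr (Nat.succ_pos n) : 0 ∈ range (n + 1))
    simpa using this
  have c1r : (B : ℝ) ^ n ≤ Y := by exact_mod_cast c1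
  -- w
  have hw2 : (1 + 1 / (B : ℝ)) ^ T ≤ 1 + 2 * (T / B) := by
    have hx0 : (0 : ℝ) ≤ T / B := by positivity
    have hx1 : (T : ℝ) / B ≤ 1 := by rw [div_le_one hb0]; linarith
    have e1 : (1 + 1 / (B : ℝ)) ^ T ≤ Real.exp (T / B) := by
      have h := Real.add_one_le_exp (1 / (B : ℝ))
      calc (1 + 1 / (B : ℝ)) ^ T ≤ (Real.exp (1 / B)) ^ T :=
            pow_le_pow_left₀ (by positivity) (by linarith) _
        _ = Real.exp (T / B) := by rw [← Real.exp_nat_mul]; congr 1; ring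
    have e2 := Real.abs_exp_sub_one_sub_id_le (x := (T : ℝ) / B) (by rw [abs_of_nonneg hx0]; exact hx1)
    have e3 := (abs_le.mp e2).2
    nlinarith
  have hw1 : (1 : ℝ) ≤ (1 + 1 / (B : ℝ)) ^ T := one_le_pow₀ (by
    have : (0 : ℝ) ≤ 1 / B := by positivity
    linarith)
  have hYle : (Y : ℝ) ≤ B ^ n * (1 + 2 * (T / B)) := by
    have := ht1.trans hw2
    rw [div_le_iff₀ hbn] at this
    linarith
  have hpow : (B : ℝ) ^ (n + 1) = B ^ n * B := pow_succ _ _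
  have hbnge : (1 : ℝ) ≤ (B : ℝ) ^ n := one_le_pow₀ hb1
  -- (2)
  have c2r : (B : ℝ) * Y + 1 ≤ B ^ (n + 1) + 4 * T * B ^ n := by
    have h1 : (B : ℝ) * Y ≤ B ^ (n + 1) + 2 * T * B ^ n := by
      calc (B : ℝ) * Y ≤ B * (B ^ n * (1 + 2 * (T / B))) :=
            mul_le_mul_of_nonneg_left hYle hb0.le
        _ = B ^ (n + 1) + 2 * T * B ^ n := by rw [hpow]; field_simp
    nlinarith
  have c2 : B * Y + 1 ≤ B ^ (n + 1) + 4 * T * B ^ n := by exact_mod_cast c2r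
  refine ⟨c1, c2, ?_⟩
  -- (3)
  set w : ℝ := (1 + 1 / (B : ℝ)) ^ T with hw
  set z : ℝ := ((B : ℝ) * Y + 1) / B ^ (n + 1) with hz
  have hzeq : z = Y / B ^ n + 1 / B ^ (n + 1) := by
    rw [hz, hpow]; field_simp
  have hz1 : 1 ≤ z := by
    have : 1 ≤ (Y : ℝ) / B ^ n := by rw [le_div_iff₀ hbn]; linarith
    have h2 : (0 : ℝ) ≤ 1 / B ^ (n + 1) := by positivity
    rw [hzeq]; linarith
  have hsmall : 1 / (B : ℝ) ^ (n + 1) ≤ 1 / (16 * B ^ n) := by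
    apply one_div_le_one_div_of_le (by positivity)
    rw [hpow]; nlinarith
  have hsm0 : (0 : ℝ) ≤ 1 / B ^ (n + 1) := by positivity
  have hzw : |z - w| ≤ 1 / (16 * B ^ n) := by
    rw [abs_le, hzeq]
    constructor <;> linarith
  have hlog1 : T * Real.log (((B : ℝ) + 1) / B) = Real.log w := by
    rw [hw, Real.log_pow]
    congr 2
    field_simp
  have hl1 := nb_log_sub hz1 hw1
  have hl2 := nb_log_sub hw1 hz1
  rw [abs_sub_comm] at hl2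
  -- error bounds
  have hkey : ∀ c : ℝ, 0 ≤ c → 16 * c ≤ B → c / (B : ℝ) ^ (2 * n + 5) ≤ 1 / (16 * B ^ n) := by
    intro c hc hc2
    rw [div_le_div_iff₀ (by positivity) (by positivity)]
    have e : (B : ℝ) ^ (2 * n + 5) = B ^ n * (B ^ (n + 4) * B) := by ring
    rw [e, one_mul]
    have : (1 : ℝ) ≤ (B : ℝ) ^ (n + 4) := one_le_pow₀ hb1
    have h5 : (B : ℝ) ≤ B ^ (n + 4) * B := by nlinarith
    calc c * (16 * (B : ℝ) ^ n) = B ^ n * (16 * c) := by ring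
      _ ≤ B ^ n * (B ^ (n + 4) * B) := mul_le_mul_of_nonneg_left (by linarith) hbn.le
  have hE1 : T * (Real.log (((B : ℝ) + 1) / B) - r1) ≤ 1 / (16 * B ^ n) := by
    calc T * (Real.log (((B : ℝ) + 1) / B) - r1) ≤ T * (1 / (B : ℝ)) ^ (2 * n + 5) :=
          mul_le_mul_of_nonneg_left h1' (by positivity)
      _ = T / (B : ℝ) ^ (2 * n + 5) := by rw [one_div, inv_pow]; ring
      _ ≤ 1 / (16 * B ^ n) := hkey _ (by positivity) (by linarith)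
  have hE1' : 0 ≤ T * (Real.log (((B : ℝ) + 1) / B) - r1) :=
    mul_nonneg (by positivity) (by linarith)
  have hz2 : ((B : ℝ) * Y + 1 - B ^ (n + 1)) / B ^ (n + 1) ≤ 4 * T / B := by
    rw [div_le_div_iff₀ hbn1 hb0]
    have : (B : ℝ) * Y + 1 - B ^ (n + 1) ≤ 4 * T * B ^ n := by linarith
    calc ((B : ℝ) * Y + 1 - B ^ (n + 1)) * B ≤ 4 * T * B ^ n * B :=
          mul_le_mul_of_nonneg_right this hb0.le
      _ = 4 * T * B ^ (n + 1) := by rw [hpow]; ring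
  have hz3 : 0 ≤ ((B : ℝ) * Y + 1 - B ^ (n + 1)) / B ^ (n + 1) := by
    apply div_nonneg _ hbn1.le
    rw [hpow]
    nlinarith
  have hE2 : Real.log z - r2 ≤ 1 / (16 * B ^ n) := by
    calc Real.log z - r2 ≤ (((B : ℝ) * Y + 1 - B ^ (n + 1)) / B ^ (n + 1)) ^ (2 * n + 5) := h2'
      _ ≤ (4 * T / B) ^ (2 * n + 5) := pow_le_pow_left₀ hz3 hz2 _
      _ = (4 * (T : ℝ)) ^ (2 * n + 5) / B ^ (2 * n + 5) := div_pow _ _ _
      _ ≤ 1 / (16 * B ^ n) := hkey _ (by positivity) hPr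
  have hE2' : 0 ≤ Real.log z - r2 := by linarith
  have hfin : 1 / (4 * (B : ℝ) ^ n) = 4 * (1 / (16 * B ^ n)) := by field_simp; norm_num
  rw [hfin, abs_le]
  have hTr : T * r1 = Real.log w - T * (Real.log (((B : ℝ) + 1) / B) - r1) := by
    rw [← hlog1]; ring
  rw [hTr]
  have hpos : (0 : ℝ) < 1 / (16 * B ^ n) := by positivity
  constructor <;> linarith

end Pool.Agent.DNP18
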