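import Pool.Agent.DNP18.DApp
import Pool.Agent.DNP18.NumA
import Pool.Agent.DNP18.NumB

/-!
# [DNP-DNUM] the numerals `numY T n B` are definable

`v = (s, T, n, B, Y)`. `P v := (4T+4)^(8(n+2)²) ≤ B ∧ Y = numY T n B`. The exponent is small since `2^n ≤ B`.
Cases: `n = 0`: `Y = 1`. `T = 0`: `Y = B^n`. `T, n ≥ 1`: witnesses `h = (4T+4)^(8(n+2)²)`, `C = B^n`, `p1 L1 A1`, `p2 L2 A2` with
`App (n+1) (B+1) B p1 L1 A1`, `App (n+1) (B Y + 1) (B C) p2 L2 A2`, `C ≤ Y`, `B Y + 1 ≤ B C + 4 T C`, and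
`|r2 - T r1| ≤ 1/(4 C)`, `r1 = 2 A1/(L1 p1)`, `r2 = 2 (B Y + 1 - B C) A2/(L2 p2)`, written as two inequalities between integer
polynomials: `± 4 C (2 (B Y + 1 - B C) A2 L1 p1 - T 2 A1 L2 p2) ≤ L1 p1 L2 p2`.
Soundness: `good_log` (index `m = n+1`, exponent `2m+3 = 2n+5`) and `num_sound`. Completeness: `good_exists` and
`num_complete`. Coprimality: `(B+1, B)`, `(B Y + 1, B^(n+1))`. `2^(8(n+2)²) ≤ (4T+4)^(8(n+2)²) ≤ B ≤ B^(n+1)`.
Bounds of the witnesses: `L = (n+2)! ≤ 2^((n+2)²)`, `A = (alp ..).toNat ≤ L p` (`alp_le`), `p ≤ (2(a+b))^(n+2)`.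
-/

namespace Pool.Agent.DNP18

open Pool.Agent.DPoly

open Nat in
private theorem dn_good_L {m a b L A A' : ℕ} (h : Good m a b L A A') : 1 ≤ L := h.1

/-- the case `T, n ≥ 1` -/
private def DnC (T n B Y C p1 L A1 p2 A2 : ℕ) : Prop :=
  App (n + 1) (B + 1) B p1 L A1 ∧ App (n + 1) (B * Y + 1) (B * C) p2 L A2 ∧ C ≤ Y ∧
    B * Y + 1 ≤ B * C + 4 * T * C ∧
    4 * (C : ℤ) * (2 * ((B : ℤ) * Y + 1 - B * C) * A2 * (L * p1) - T * (2 * A1) * (L * p2)) ≤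
      L * p1 * (L * p2) ∧
    4 * (C : ℤ) * (T * (2 * A1) * (L * p2) - 2 * ((B : ℤ) * Y + 1 - B * C) * A2 * (L * p1)) ≤
      L * p1 * (L * p2)

private theorem dn_abs {x y c P Q : ℝ} (hP : 0 < P) (hQ : 0 < Q) (hc : 0 < c) :
    |x / Q - y / P| ≤ 1 / (4 * c) ↔
      4 * c * (x * P - y * Q) ≤ P * Q ∧ 4 * c * (y * Q - x * P) ≤ P * Q := by
  have e : x / Q - y / P = (x * P - y * Q) / (P * Q) := by field_simp
  rw [e, abs_div, abs_of_pos (mul_pos hP hQ), div_le_div_iff₀ (mul_pos hP hQ) (by positivity)]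
  constructor
  · intro h
    have h1 := le_abs_self (x * P - y * Q)
    have h2 := neg_le_abs (x * P - y * Q)
    constructor <;> nlinarith
  · rintro ⟨h1, h2⟩
    rcases abs_cases (x * P - y * Q) with ⟨h, -⟩ | ⟨h, -⟩ <;> rw [h] <;> nlinarith

private theorem dn_r1 {B p1 L A1 : ℝ} :
    2 * (B + 1 - B) * A1 / (L * p1) = 2 * A1 / (L * p1) := by
  congr 1; ring

private theorem dn_leg_pos {m a b : ℕ} (h : b < a) : (0 : ℝ) < leg m a b := by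
  exact_mod_cast leg_pos m (by omega : 0 < a + b)

private theorem dn_sound {T n B Y C p1 L A1 p2 A2 : ℕ} (hT : 1 ≤ T) (hn : 1 ≤ n)
    (hB : (4 * T + 4) ^ (8 * (n + 2) ^ 2) ≤ B) (hC : C = B ^ n)
    (h : DnC T n B Y C p1 L A1 p2 A2) : Y = numY T n B := by
  obtain ⟨⟨hab1, hco1, hb1, hp1, A1', hg1⟩, ⟨hab2, hco2, hb2, hp2, A2', hg2⟩, hCY, hYC, hi1, hi2⟩ := h
  have hBpos : 0 < B := lt_of_lt_of_le (by positivity) hB
  have hBr : (0 : ℝ) < B := by exact_mod_cast hBpos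
  have hBC : (B : ℝ) * C = B ^ (n + 1) := by rw [hC, pow_succ]; push_cast; ring
  have hBCn : B * C = B ^ (n + 1) := by rw [hC, pow_succ]; ring
  have l1 := good_log hab1 hco1 hb1 hg1
  have l2 := good_log hab2 hco2 hb2 hg2
  have hL : (0 : ℝ) < L := by exact_mod_cast dn_good_L hg1
  have hp1' : (0 : ℝ) < p1 := by rw [hp1]; exact dn_leg_pos hab1
  have hp2' : (0 : ℝ) < p2 := by rw [hp2]; exact dn_leg_pos hab2
  rw [← hp1] at l1
  rw [← hp2] at l2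
  push_cast at l1 l2
  rw [hBC] at l2
  have hCr : (0 : ℝ) < (C : ℝ) := by rw [hC]; push_cast; positivity
  have hi1' : 4 * (C : ℝ) * (2 * ((B : ℝ) * Y + 1 - B * C) * A2 * (L * p1) -
      T * (2 * A1) * (L * p2)) ≤ L * p1 * (L * p2) := by exact_mod_cast hi1
  have hi2' : 4 * (C : ℝ) * (T * (2 * A1) * (L * p2) -
      2 * ((B : ℝ) * Y + 1 - B * C) * A2 * (L * p1)) ≤ L * p1 * (L * p2) := by exact_mod_cast hi2
  have h3 := (dn_abs (x := 2 * ((B : ℝ) * Y + 1 - B * C) * A2) (y := T * (2 * A1)) (c := C)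
    (P := L * p1) (Q := L * p2) (by positivity) (by positivity) hCr).mpr ⟨hi1', hi2'⟩
  refine num_sound (T := T) (n := n) (B := B) (Y := Y) hT hn hB (by rw [← hC]; exact hCY)
    (by rw [← hBCn, ← hC]; exact hYC)
    (r1 := 2 * A1 / (L * p1)) (r2 := 2 * ((B : ℝ) * Y + 1 - B ^ (n + 1)) * A2 / (L * p2))
    ?_ ?_ ?_ ?_ ?_
  · rw [← dn_r1 (B := (B : ℝ))]; exact l1.1
  · have := l1.2
    rw [dn_r1] at this
    refine this.trans (le_of_eq ?_)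
    have e1 : 2 * (n + 1) + 3 = 2 * n + 5 := by ring
    rw [e1]
    congr 2
    ring
  · exact l2.1
  · have := l2.2
    refine this.trans (le_of_eq ?_)
    have e1 : 2 * (n + 1) + 3 = 2 * n + 5 := by ring
    rw [e1]
  · rw [← hBC]
    rw [hC] at h3
    push_cast at h3
    rw [hC]
    push_cast
    rw [mul_div_assoc] at h3 ⊢
    convert h3 using 2
    ring

private theorem dn_numY_ge (T n B : ℕ) : B ^ n ≤ numY T n B := by
  rw [numY]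
  have := Finset.single_le_sum (f := fun j => T.choose j * B ^ (n - j)) (s := Finset.range (n + 1))
    (fun i _ => Nat.zero_le _) (Finset.mem_range.mpr (Nat.succ_pos n) : 0 ∈ Finset.range (n + 1))
  simpa using this

private theorem dn_complete {T n B Y C : ℕ} (hT : 1 ≤ T) (hn : 1 ≤ n)
    (hB : (4 * T + 4) ^ (8 * (n + 2) ^ 2) ≤ B) (hC : C = B ^ n) (hY : Y = numY T n B) :
    DnC T n B Y C (leg (n + 2) (B + 1) B) ((n + 2).factorial) (alp (B + 1) B (n + 2)).toNat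
      (leg (n + 2) (B * Y + 1) (B * C)) (alp (B * Y + 1) (B * C) (n + 2)).toNat := by
  have hBpos : 0 < B := lt_of_lt_of_le (by positivity) hB
  have hCY : C ≤ Y := by rw [hC, hY]; exact dn_numY_ge T n B
  have hCpos : 0 < C := by rw [hC]; positivity
  have hBC0 : 0 < B * C := Nat.mul_pos hBpos hCpos
  have hab2 : B * C < B * Y + 1 := Nat.lt_succ_of_le (Nat.mul_le_mul_left _ hCY)
  have h2B : 2 ^ (8 * (n + 1 + 1) ^ 2) ≤ B :=
    le_trans (Nat.pow_le_pow_left (by omega) _) hB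
  have hco1 : Nat.Coprime (B + 1) B := by simp
  have hco2 : Nat.Coprime (B * Y + 1) (B * C) := by
    have h0 : Nat.Coprime (B * Y + 1) B := by
      have : Nat.Coprime (1 + B * Y) B := by simp
      rwa [add_comm] at this
    rw [hC]
    exact Nat.Coprime.mul_right h0 (Nat.Coprime.pow_right n h0)
  have hg1 := good_exists (m := n + 1) hBpos (Nat.lt_succ_self B)
  have hg2 := good_exists (m := n + 1) hBC0 hab2
  have hBCn : B * C = B ^ (n + 1) := by rw [hC, pow_succ]; ring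
  have hBC : (B : ℝ) * C = B ^ (n + 1) := by exact_mod_cast hBCn
  have hb2 : 2 ^ (8 * (n + 1 + 1) ^ 2) ≤ B * C := h2B.trans (Nat.le_mul_of_pos_right _ hCpos)
  have l1 := good_log (Nat.lt_succ_self B) hco1 h2B hg1
  have l2 := good_log hab2 hco2 hb2 hg2
  set p1 := leg (n + 2) (B + 1) B with hp1
  set p2 := leg (n + 2) (B * Y + 1) (B * C) with hp2
  set L := (n + 2).factorial with hLd
  set A1 := (alp (B + 1) B (n + 2)).toNat with hA1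
  set A2 := (alp (B * Y + 1) (B * C) (n + 2)).toNat with hA2
  have hL : (0 : ℝ) < L := by exact_mod_cast Nat.factorial_pos _
  have hp1' : (0 : ℝ) < p1 := dn_leg_pos (Nat.lt_succ_self B)
  have hp2' : (0 : ℝ) < p2 := dn_leg_pos hab2
  have hCr : (0 : ℝ) < (C : ℝ) := by exact_mod_cast hCpos
  push_cast at l1 l2
  rw [hBC] at l2
  have e1 : 2 * (n + 1) + 3 = 2 * n + 5 := by ring
  rw [e1] at l1 l2
  have key := num_complete (T := T) (n := n) (B := B) (Y := Y) hT hn hB hY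
    (r1 := 2 * A1 / (L * p1)) (r2 := 2 * ((B : ℝ) * Y + 1 - B ^ (n + 1)) * A2 / (L * p2))
    (by rw [← dn_r1 (B := (B : ℝ))]; exact l1.1)
    (by
      have := l1.2
      rw [dn_r1] at this
      refine this.trans (le_of_eq ?_)
      congr 2
      ring)
    l2.1 l2.2
  obtain ⟨-, k2, k3⟩ := key
  have h3 := (dn_abs (x := 2 * ((B : ℝ) * Y + 1 - B * C) * A2) (y := T * (2 * A1)) (c := C)
    (P := L * p1) (Q := L * p2) (by positivity) (by positivity) hCr).mp (by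
      rw [hBC, hC]
      push_cast
      rw [mul_div_assoc (T : ℝ)]
      exact k3)
  refine ⟨⟨Nat.lt_succ_self B, hco1, h2B, rfl, _, hg1⟩, ⟨hab2, hco2, hb2, rfl, _, hg2⟩, hCY, ?_, ?_, ?_⟩
  · rw [hBCn, hC]; exact k2
  · exact_mod_cast h3.1
  · exact_mod_cast h3.2

private def DnQ (u : Fin 5 ⊕ Fin 7 → ℕ) : Prop :=
  (u (.inr 0) = (4 * u (.inl 1) + 4) ^ (8 * (u (.inl 2) + 2) ^ 2) ∧ u (.inr 0) ≤ u (.inl 3)) ∧
  u (.inr 1) = u (.inl 3) ^ u (.inl 2) ∧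
  ((u (.inl 2) = 0 ∧ u (.inl 4) = 1) ∨ (u (.inl 1) = 0 ∧ u (.inl 4) = u (.inr 1)) ∨
    ((1 ≤ u (.inl 1) ∧ 1 ≤ u (.inl 2)) ∧
      DnC (u (.inl 1)) (u (.inl 2)) (u (.inl 3)) (u (.inl 4)) (u (.inr 1)) (u (.inr 2))
        (u (.inr 3)) (u (.inr 4)) (u (.inr 5)) (u (.inr 6))))

private theorem dn_numY_zero_n (T B : ℕ) : numY T 0 B = 1 := by simp [numY]

private theorem dn_numY_zero_T (n B : ℕ) : numY 0 n B = B ^ n := by
  rw [numY, Finset.sum_range_succ']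
  simp

private theorem dn_ddQ : DD (Sum.inl (0 : Fin 5)) DnQ := by
  have c : ∀ i : Fin 5 ⊕ Fin 7, NPoly (fun u : Fin 5 ⊕ Fin 7 → ℕ => u i) := fun i => NPoly.coord i
  have k : ∀ a : ℕ, NPoly (fun _ : Fin 5 ⊕ Fin 7 → ℕ => a) := fun a => NPoly.const a
  have ci : ∀ i : Fin 5 ⊕ Fin 7, PolyFun (fun u : Fin 5 ⊕ Fin 7 → ℕ => (u i : ℤ)) :=
    fun i => PolyFun.coord i
  have ki : ∀ a : ℤ, PolyFun (fun _ : Fin 5 ⊕ Fin 7 → ℕ => a) := fun a => PolyFun.const a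
  have q1 : DD (Sum.inl (0 : Fin 5)) (fun u : Fin 5 ⊕ Fin 7 → ℕ =>
      u (.inr 0) = (4 * u (.inl 1) + 4) ^ (8 * (u (.inl 2) + 2) ^ 2)) :=
    DD.pow (((k 4).mul (c (.inl 1))).add (k 4))
      ((k 8).mul (NPoly.pow ((c (.inl 2)).add (k 2)) 2)) (c (.inr 0))
  have q2 : DD (Sum.inl (0 : Fin 5)) (fun u : Fin 5 ⊕ Fin 7 → ℕ => u (.inr 0) ≤ u (.inl 3)) :=
    DD.natLe (c _) (c _)
  have q3 : DD (Sum.inl (0 : Fin 5)) (fun u : Fin 5 ⊕ Fin 7 → ℕ =>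
      u (.inr 1) = u (.inl 3) ^ u (.inl 2)) := DD.pow (c _) (c _) (c _)
  have q4 : DD (Sum.inl (0 : Fin 5)) (fun u : Fin 5 ⊕ Fin 7 → ℕ => u (.inl 2) = 0) :=
    DD.natEq (c _) (k 0)
  have q5 : DD (Sum.inl (0 : Fin 5)) (fun u : Fin 5 ⊕ Fin 7 → ℕ => u (.inl 4) = 1) :=
    DD.natEq (c _) (k 1)
  have q6 : DD (Sum.inl (0 : Fin 5)) (fun u : Fin 5 ⊕ Fin 7 → ℕ => u (.inl 1) = 0) :=
    DD.natEq (c _) (k 0)
  have q7 : DD (Sum.inl (0 : Fin 5)) (fun u : Fin 5 ⊕ Fin 7 → ℕ => u (.inl 4) = u (.inr 1)) :=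
    DD.natEq (c _) (c _)
  have q8 : DD (Sum.inl (0 : Fin 5)) (fun u : Fin 5 ⊕ Fin 7 → ℕ => 1 ≤ u (.inl 1)) :=
    DD.natLe (k 1) (c _)
  have q9 : DD (Sum.inl (0 : Fin 5)) (fun u : Fin 5 ⊕ Fin 7 → ℕ => 1 ≤ u (.inl 2)) :=
    DD.natLe (k 1) (c _)
  have r1 : DD (Sum.inl (0 : Fin 5)) (fun u : Fin 5 ⊕ Fin 7 → ℕ =>
      App (u (.inl 2) + 1) (u (.inl 3) + 1) (u (.inl 3)) (u (.inr 2)) (u (.inr 3)) (u (.inr 4))) :=
    DD.app ((c _).add (k 1)) ((c _).add (k 1)) (c _) (c _) (c _) (c _)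
  have r2 : DD (Sum.inl (0 : Fin 5)) (fun u : Fin 5 ⊕ Fin 7 → ℕ =>
      App (u (.inl 2) + 1) (u (.inl 3) * u (.inl 4) + 1) (u (.inl 3) * u (.inr 1)) (u (.inr 5))
        (u (.inr 3)) (u (.inr 6))) :=
    DD.app ((c _).add (k 1)) (((c _).mul (c _)).add (k 1)) ((c _).mul (c _)) (c _) (c _) (c _)
  have r3 : DD (Sum.inl (0 : Fin 5)) (fun u : Fin 5 ⊕ Fin 7 → ℕ => u (.inr 1) ≤ u (.inl 4)) :=
    DD.natLe (c _) (c _)
  have r4 : DD (Sum.inl (0 : Fin 5)) (fun u : Fin 5 ⊕ Fin 7 → ℕ =>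
      u (.inl 3) * u (.inl 4) + 1 ≤ u (.inl 3) * u (.inr 1) + 4 * u (.inl 1) * u (.inr 1)) :=
    DD.natLe (((c _).mul (c _)).add (k 1))
      (((c _).mul (c _)).add (((k 4).mul (c _)).mul (c _)))
  have X : PolyFun (fun u : Fin 5 ⊕ Fin 7 → ℕ =>
      2 * ((u (.inl 3) : ℤ) * u (.inl 4) + 1 - u (.inl 3) * u (.inr 1)) * u (.inr 6) *
        (u (.inr 3) * u (.inr 2))) :=
    (((ki 2).mul ((((ci _).mul (ci _)).add (ki 1)).sub ((ci _).mul (ci _)))).mul (ci _)).mul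
      ((ci _).mul (ci _))
  have Y : PolyFun (fun u : Fin 5 ⊕ Fin 7 → ℕ =>
      (u (.inl 1) : ℤ) * (2 * u (.inr 4)) * (u (.inr 3) * u (.inr 5))) :=
    ((ci _).mul ((ki 2).mul (ci _))).mul ((ci _).mul (ci _))
  have Z : PolyFun (fun u : Fin 5 ⊕ Fin 7 → ℕ =>
      (u (.inr 3) : ℤ) * u (.inr 2) * (u (.inr 3) * u (.inr 5))) :=
    ((ci _).mul (ci _)).mul ((ci _).mul (ci _))
  have F : PolyFun (fun u : Fin 5 ⊕ Fin 7 → ℕ => 4 * (u (.inr 1) : ℤ)) := (ki 4).mul (ci _)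
  have r5 := DD.intLe (o := Sum.inl (0 : Fin 5)) (F.mul (X.sub Y)) Z
  have r6 := DD.intLe (o := Sum.inl (0 : Fin 5)) (F.mul (Y.sub X)) Z
  exact ((q1.and q2).and (q3.and ((q4.and q5).or ((q6.and q7).or ((q8.and q9).and
    (r1.and (r2.and (r3.and (r4.and (r5.and r6))))))))))

private def dnW (v : Fin 5 → ℕ) : Fin 7 → ℕ :=
  ![(4 * v 1 + 4) ^ (8 * (v 2 + 2) ^ 2), v 3 ^ v 2, leg (v 2 + 2) (v 3 + 1) (v 3),
    (v 2 + 2).factorial, (alp (v 3 + 1) (v 3) (v 2 + 2)).toNat,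
    leg (v 2 + 2) (v 3 * v 4 + 1) (v 3 * v 3 ^ v 2),
    (alp (v 3 * v 4 + 1) (v 3 * v 3 ^ v 2) (v 2 + 2)).toNat]

private theorem dn_alp_toNat {a b : ℕ} (hb : 0 < b) (hab : b < a) (m : ℕ) :
    (alp a b m).toNat ≤ m.factorial * leg m a b := by
  have h := alp_le hb hab m
  have h1 := alp_nonneg (show 0 < a + b by omega) m
  have hb1 : (1 : ℤ) ≤ b := by exact_mod_cast hb
  have h2 : alp a b m ≤ 2 * alp a b m * b := by nlinarith
  have h3 : alp a b m ≤ ((m.factorial * leg m a b : ℕ) : ℤ) := by push_cast; linarith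
  exact Int.toNat_le.mpr h3

theorem dd_numY : DD (0 : Fin 5) (fun v => (4 * v 1 + 4) ^ (8 * (v 2 + 2) ^ 2) ≤ v 3 ∧
    v 4 = numY (v 1) (v 2) (v 3)) := by
  refine DD.exs' dn_ddQ dnW ?_ ?_ ?_
  · intro K1
    have bc : ∀ i : Fin 5, Big (0 : Fin 5) (fun v => Bnd 0 K1 v ∧
        ((4 * v 1 + 4) ^ (8 * (v 2 + 2) ^ 2) ≤ v 3 ∧ v 4 = numY (v 1) (v 2) (v 3)))
        (fun v => v i) := fun i => Big.coord K1 i
    have sm : Small (0 : Fin 5) (fun v => Bnd 0 K1 v ∧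
        ((4 * v 1 + 4) ^ (8 * (v 2 + 2) ^ 2) ≤ v 3 ∧ v 4 = numY (v 1) (v 2) (v 3)))
        (fun v => v 2) := by
      apply Small.of_two_pow
      refine (bc 3).mono ?_
      rintro v ⟨-, h, -⟩
      refine le_trans (le_trans (Nat.pow_le_pow_right (by norm_num)
        (show v 2 ≤ 8 * (v 2 + 2) ^ 2 by nlinarith)) (Nat.pow_le_pow_left
        (show 2 ≤ 4 * v 1 + 4 by omega) _)) h
    have sm2 := sm.add (Small.const (o := (0 : Fin 5)) 2)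
    have b0 := (bc 3).mono (F := fun v => (4 * v 1 + 4) ^ (8 * (v 2 + 2) ^ 2))
      (fun v hv => hv.2.1)
    have b1 := (bc 3).pow sm
    have bL : Big (0 : Fin 5) (fun v => Bnd 0 K1 v ∧
        ((4 * v 1 + 4) ^ (8 * (v 2 + 2) ^ 2) ≤ v 3 ∧ v 4 = numY (v 1) (v 2) (v 3)))
        (fun v => (v 2 + 2).factorial) :=
      ((Big.const 2).pow (sm2.pow 2)).mono (fun v _ => fact_le (v 2 + 2))
    have bleg : ∀ {a b : (Fin 5 → ℕ) → ℕ}, Big (0 : Fin 5) (fun v => Bnd 0 K1 v ∧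
        ((4 * v 1 + 4) ^ (8 * (v 2 + 2) ^ 2) ≤ v 3 ∧ v 4 = numY (v 1) (v 2) (v 3))) a →
        Big (0 : Fin 5) (fun v => Bnd 0 K1 v ∧
        ((4 * v 1 + 4) ^ (8 * (v 2 + 2) ^ 2) ≤ v 3 ∧ v 4 = numY (v 1) (v 2) (v 3))) b →
        Big (0 : Fin 5) (fun v => Bnd 0 K1 v ∧
        ((4 * v 1 + 4) ^ (8 * (v 2 + 2) ^ 2) ≤ v 3 ∧ v 4 = numY (v 1) (v 2) (v 3)))
        (fun v => leg (v 2 + 2) (a v) (b v)) := by
      intro a b ha hb
      exact ((((Big.const 2).mul (ha.add hb)).pow sm2)).mono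
        (fun v _ => leg_le (v 2 + 2) (a v) (b v))
    have b2 := bleg ((bc 3).add (Big.const 1)) (bc 3)
    have b5 := bleg (((bc 3).mul (bc 4)).add (Big.const 1)) ((bc 3).mul b1)
    have b4 : Big (0 : Fin 5) (fun v => Bnd 0 K1 v ∧
        ((4 * v 1 + 4) ^ (8 * (v 2 + 2) ^ 2) ≤ v 3 ∧ v 4 = numY (v 1) (v 2) (v 3)))
        (fun v => (alp (v 3 + 1) (v 3) (v 2 + 2)).toNat) := by
      refine (bL.mul b2).mono ?_
      rintro v ⟨-, h, -⟩
      have hBpos : 0 < v 3 := lt_of_lt_of_le (by positivity) h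
      exact dn_alp_toNat hBpos (Nat.lt_succ_self _) _
    have b6 : Big (0 : Fin 5) (fun v => Bnd 0 K1 v ∧
        ((4 * v 1 + 4) ^ (8 * (v 2 + 2) ^ 2) ≤ v 3 ∧ v 4 = numY (v 1) (v 2) (v 3)))
        (fun v => (alp (v 3 * v 4 + 1) (v 3 * v 3 ^ v 2) (v 2 + 2)).toNat) := by
      refine (bL.mul b5).mono ?_
      rintro v ⟨-, h, hY⟩
      have hBpos : 0 < v 3 := lt_of_lt_of_le (by positivity) h
      have h2 : v 3 ^ v 2 ≤ v 4 := by rw [hY]; exact dn_numY_ge _ _ _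
      exact dn_alp_toNat (by positivity) (Nat.lt_succ_of_le (Nat.mul_le_mul_left _ h2)) _
    intro j
    fin_cases j
    · exact b0
    · exact b1
    · exact b2
    · exact bL
    · exact b4
    · exact b5
    · exact b6
  · rintro v ⟨h, hY⟩
    refine ⟨⟨rfl, h⟩, rfl, ?_⟩
    show (v 2 = 0 ∧ v 4 = 1) ∨ (v 1 = 0 ∧ v 4 = v 3 ^ v 2) ∨ ((1 ≤ v 1 ∧ 1 ≤ v 2) ∧ _)
    rcases Nat.eq_zero_or_pos (v 2) with h2 | h2
    · left
      refine ⟨h2, ?_⟩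
      rw [hY, h2, dn_numY_zero_n]
    rcases Nat.eq_zero_or_pos (v 1) with h1 | h1
    · right; left
      refine ⟨h1, ?_⟩
      rw [hY, h1, dn_numY_zero_T]
    · right; right
      exact ⟨⟨h1, h2⟩, dn_complete h1 h2 h rfl hY⟩
  · rintro v w ⟨⟨hh, hle⟩, hC, hcase⟩
    simp only [Sum.elim_inl, Sum.elim_inr] at hh hle hC hcase
    have hB : (4 * v 1 + 4) ^ (8 * (v 2 + 2) ^ 2) ≤ v 3 := by rw [← hh]; exact hle
    refine ⟨hB, ?_⟩
    rcases hcase with ⟨h2, hY⟩ | ⟨h1, hY⟩ | ⟨⟨h1, h2⟩, hc⟩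
    · rw [hY, h2, dn_numY_zero_n]
    · rw [hY, h1, dn_numY_zero_T, hC]
    · exact dn_sound h1 h2 hB hC hc

/-- the same with polynomials as arguments -/
theorem DD.numY {σ : Type} [Fintype σ] {o : σ} {T n B Y : (σ → ℕ) → ℕ} (hT : NPoly T)
    (hn : NPoly n) (hB : NPoly B) (hY : NPoly Y) :
    DD o (fun v => (4 * T v + 4) ^ (8 * (n v + 2) ^ 2) ≤ B v ∧ Y v = numY (T v) (n v) (B v)) := by
  have h := dd_numY.subst (o' := o) ![fun v => v o, T, n, B, Y] (by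
    intro i
    fin_cases i
    · exact NPoly.coord o
    · exact hT
    · exact hn
    · exact hB
    · exact hY) (fun v => rfl)
  exact h.congr fun v => Iff.rfl

end Pool.Agent.DNP18
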