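import Pool.Agent.DNP18.LegDef
import Pool.Agent.DPoly.Csp

/-!
# Array systems: definitions
-/

namespace Pool.Agent.DNP18

open Finset

/-- An array system. `M` is a product of primes `r ∈ (N, 2N]`, an array is a number `A` modulo
`M ^ e`, `e = e1 * k`, with the entries `A % r ^ e`. The number `c` has the entries `r`, the number `H` is
the sum functional. -/
structure Sys (N M e1 k c H : ℕ) : Prop where
  hN : 1 ≤ N
  he1 : 1 ≤ e1
  hk : 1 ≤ k
  hM : M ∣ (2 * N).choose N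
  hco : Nat.Coprime M N.factorial
  hc : M ∣ c
  hc' : 2 * N < c
  hC : M ^ (e1 * k + 1) ∣ (c - N - 1).choose N
  hH : H < M ^ (e1 * k)
  hH' : ((M ^ (e1 * k) : ℕ) : ℤ) ∣ (N : ℤ) ^ k * H * ((c / M : ℕ) : ℤ) ^ (e1 * k) -
    ((c : ℤ) ^ e1 - ((c : ℤ) - N) ^ e1) ^ k

/-- `S` is the sum of the entries of the array `A` -/
def SumIs (N M e1 k H A S : ℕ) : Prop :=
  N ^ k * (A * H % M ^ (e1 * k)) ≤ S * M ^ (e1 * k) ∧
    S * M ^ (e1 * k) < N ^ k * (A * H % M ^ (e1 * k)) + M ^ (e1 * k)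

open Classical in
/-- A polynomial that vanishes at a point of `{0, …, κ-1}^q` iff `ρ` holds there, and is positive at the
other points. -/
noncomputable def Phiq {R : Type} [CommRing R] (κ q : ℕ) (ρ : (Fin q → Fin κ) → Prop)
    (x : Fin q → R) : R :=
  ∑ τ ∈ univ.filter (fun τ : Fin q → Fin κ => ¬ ρ τ), ∏ k, ∏ j ∈ univ.erase (τ k),
    (x k - ((j : ℕ) : R)) ^ 2

/-- The numbers `X j` have `n` digits in base `B0`, less than `κ`, and the digits at the same place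
satisfy `ρ`. -/
def Tab (κ q : ℕ) (ρ : (Fin q → Fin κ) → Prop) (B0 n : ℕ) (X : Fin q → ℕ) : Prop :=
  ∃ x : ℕ → Fin q → Fin κ, (∀ j, X j = ∑ i ∈ range n, (x i j : ℕ) * B0 ^ i) ∧ ∀ i < n, ρ (x i)

/-- The Diophantine conditions which define `Tab` (`K0` a bound for the values of `Phiq`,
`w = B0 ^ n`, `G` the number with all digits `1`, `l` the labels, `Z` the arrays of the digits). -/
structure TabWit (κ q : ℕ) (ρ : (Fin q → Fin κ) → Prop) (K0 B0 n w G : ℕ) (X : Fin q → ℕ)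
    (N M e1 k c H l : ℕ) (Z : Fin q → ℕ) : Prop where
  sys : Sys N M e1 k c H
  hw : w = B0 ^ n
  hG : G * (B0 - 1) + 1 = w
  hn : n ≤ N
  hκ : κ ≤ N
  hK : K0 ≤ N
  hB : 2 * N < B0
  hs1 : N * κ * w < N ^ k
  hs2 : k * (N * κ * w) < 2 ^ e1
  lab : M ^ (e1 * k) ∣ l.choose n
  sumP : SumIs N M e1 k H (expY l (B0 - 1) n) G
  sumZ : ∀ j, SumIs N M e1 k H (Z j * expY l (B0 - 1) n) (X j)
  rg : ∀ j, ((M ^ (e1 * k) : ℕ) : ℤ) ∣ Pool.Agent.DPoly.Rg κ (Z j : ℤ)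
  phi : ((M ^ (e1 * k) : ℕ) : ℤ) ∣ Phiq κ q ρ (fun j => (Z j : ℤ))

end Pool.Agent.DNP18
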