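import Pool.Agent.DNP18.DChoose
import Pool.Agent.DNP18.Sys

/-!
# [DNP-DSYS] array systems are definable

`v = (s, N, M, e1, k, c, H, wN, E2, NK, Me)`, `wN = 2^N`, `E2 = 2^e1`, `NK = N^k`, `Me = M^(e1 k)`, `2 ≤ N` (so `N, e1, k` are small:
`Small.of_two_pow`; `2^k ≤ N^k`). Witnesses: `C1 = (2N).choose N`, `w2 = 2^(2N)` (for the next one `DD.choose` needs `2^N = wN`
only), `F = N!`, `u = c / M` (`c = M u`), `b = c - N` (`c = b + N`), `b' = c - N - 1` (`c = b' + N + 1`), `C2 = b'.choose N`,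
`U = u^(e1 k)`, `G1 = c^e1`, `G2 = b^e1`, `D = G1 - G2` (`G1 = D + G2`), `G3 = D^k`. Conditions: `1 ≤ N, e1, k`, `M ∣ C1`, `Coprime M F`,
`2N < c`, `Me M ∣ C2`, `H < Me`, `Me ∣ NK H U - G3` (integers); all are `Dio`, `DD.pow`, `DD.choose`, `DD.fact` predicates.
Bounds: everything is at most (polynomial in the given big numbers)^(small); `C1 ≤ 4^N`, `F ≤ N^N`, `C2 ≤ c^N`.
`M ≥ 1` because `M ∣ C1 ≠ 0`.
`Dio.sumP`: one witness `R = A H % Me` (`Dio.mod`, `Dio.exs` with bound from `NPoly.bound`).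
-/

namespace Pool.Agent.DNP18

open Pool.Agent.DPoly

private theorem dsys_pos {N M : ℕ} (h : M ∣ (2 * N).choose N) : 0 < M := by
  rcases Nat.eq_zero_or_pos M with h0 | h0
  · rw [h0, Nat.zero_dvd] at h
    exact absurd h (Nat.choose_pos (by omega)).ne'
  · exact h0

private theorem dsys_sound {N M e1 k c H u b D : ℕ} (hN : 2 ≤ N) (he1 : 1 ≤ e1) (hk : 1 ≤ k)
    (h1 : M ∣ (2 * N).choose N) (h2 : Nat.Coprime M N.factorial) (hu : c = M * u)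
    (hb : c = b + N + 1) (hc : 2 * N < c) (hC : M ^ (e1 * k) * M ∣ b.choose N)
    (hD : c ^ e1 = D + (b + 1) ^ e1) (hH : H < M ^ (e1 * k))
    (hd : ((M ^ (e1 * k) : ℕ) : ℤ) ∣ ((N ^ k : ℕ) : ℤ) * (H : ℤ) * ((u ^ (e1 * k) : ℕ) : ℤ) -
      ((D ^ k : ℕ) : ℤ)) : Sys N M e1 k c H := by
  have hM := dsys_pos h1
  have e1' : c / M = u := by rw [hu, Nat.mul_div_cancel_left _ hM]
  have e2 : c - N - 1 = b := by omega
  have e3 : ((c : ℤ)) ^ e1 - ((c : ℤ) - N) ^ e1 = (D : ℤ) := by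
    have h3 : ((c : ℤ) - N) = ((b + 1 : ℕ) : ℤ) := by
      rw [hb]
      push_cast
      ring
    rw [h3]
    have h4 : ((c ^ e1 : ℕ) : ℤ) = ((D + (b + 1) ^ e1 : ℕ) : ℤ) := by rw [hD]
    push_cast at h4 ⊢
    rw [h4]
    ring
  refine ⟨by omega, he1, hk, h1, h2, ⟨u, hu⟩, hc, ?_, hH, ?_⟩
  · rw [e2, pow_succ]
    exact hC
  · rw [e1', e3]
    push_cast at hd ⊢
    exact hd

private theorem dsys_compl {N M e1 k c H : ℕ} (h : Sys N M e1 k c H) :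
    c = M * (c / M) ∧ c = c - N - 1 + N + 1 ∧ M ^ (e1 * k) * M ∣ (c - N - 1).choose N ∧
      c ^ e1 = (c ^ e1 - (c - N - 1 + 1) ^ e1) + (c - N - 1 + 1) ^ e1 ∧
      ((M ^ (e1 * k) : ℕ) : ℤ) ∣ ((N ^ k : ℕ) : ℤ) * (H : ℤ) * (((c / M) ^ (e1 * k) : ℕ) : ℤ) -
        (((c ^ e1 - (c - N - 1 + 1) ^ e1) ^ k : ℕ) : ℤ) := by
  have hc := h.hc'
  have hle : (c - N - 1 + 1) ^ e1 ≤ c ^ e1 := Nat.pow_le_pow_left (by omega) _
  refine ⟨(Nat.mul_div_cancel' h.hc).symm, by omega, ?_, (Nat.sub_add_cancel hle).symm, ?_⟩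
  · have := h.hC
    rwa [pow_succ] at this
  · have h3 := h.hH'
    have h4 : ((c : ℤ) - N) = ((c - N - 1 + 1 : ℕ) : ℤ) := by omega
    rw [h4] at h3
    have h5 : (((c ^ e1 - (c - N - 1 + 1) ^ e1) ^ k : ℕ) : ℤ) =
        ((c : ℤ) ^ e1 - ((c - N - 1 + 1 : ℕ) : ℤ) ^ e1) ^ k := by
      rw [Nat.cast_pow, Nat.cast_sub hle, Nat.cast_pow, Nat.cast_pow]
    rw [h5, Nat.cast_pow N k, Nat.cast_pow (c / M) (e1 * k)]
    exact h3

private def dsysW (v : Fin 11 → ℕ) : Fin 10 → ℕ :=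
  ![(2 * v 1).choose (v 1), (v 1).factorial, v 5 / v 2, v 5 - v 1 - 1, (v 5 - v 1 - 1).choose (v 1),
    (v 5 / v 2) ^ (v 3 * v 4), v 5 ^ v 3, (v 5 - v 1 - 1 + 1) ^ v 3,
    v 5 ^ v 3 - (v 5 - v 1 - 1 + 1) ^ v 3, (v 5 ^ v 3 - (v 5 - v 1 - 1 + 1) ^ v 3) ^ v 4]

theorem dd_sys : DD (0 : Fin 11) (fun v => 2 ≤ v 1 ∧ v 7 = 2 ^ v 1 ∧ v 8 = 2 ^ v 3 ∧
    v 9 = v 1 ^ v 4 ∧ v 10 = v 2 ^ (v 3 * v 4) ∧ Sys (v 1) (v 2) (v 3) (v 4) (v 5) (v 6)) := by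
  have hi : ∀ i : Fin 11, NPoly (fun u : Fin 11 ⊕ Fin 10 → ℕ => u (.inl i)) :=
    fun i => NPoly.coord _
  have hw : ∀ i : Fin 10, NPoly (fun u : Fin 11 ⊕ Fin 10 → ℕ => u (.inr i)) :=
    fun i => NPoly.coord _
  have hek : NPoly (fun u : Fin 11 ⊕ Fin 10 → ℕ => u (.inl 3) * u (.inl 4)) := (hi 3).mul (hi 4)
  have h2N : NPoly (fun u : Fin 11 ⊕ Fin 10 → ℕ => 2 * u (.inl 1)) := (NPoly.const 2).mul (hi 1)
  have q1 : DD (Sum.inl (0 : Fin 11)) (fun u : Fin 11 ⊕ Fin 10 → ℕ => 2 ≤ u (.inl 1)) :=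
    DD.natLe (NPoly.const 2) (hi 1)
  have q2 : DD (Sum.inl (0 : Fin 11)) (fun u : Fin 11 ⊕ Fin 10 → ℕ => 1 ≤ u (.inl 3)) :=
    DD.natLe (NPoly.const 1) (hi 3)
  have q3 : DD (Sum.inl (0 : Fin 11)) (fun u : Fin 11 ⊕ Fin 10 → ℕ => 1 ≤ u (.inl 4)) :=
    DD.natLe (NPoly.const 1) (hi 4)
  have q4 : DD (Sum.inl (0 : Fin 11)) (fun u : Fin 11 ⊕ Fin 10 → ℕ =>
      u (.inl 8) = 2 ^ u (.inl 3)) := DD.pow (NPoly.const 2) (hi 3) (hi 8)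
  have q5 : DD (Sum.inl (0 : Fin 11)) (fun u : Fin 11 ⊕ Fin 10 → ℕ =>
      u (.inl 9) = u (.inl 1) ^ u (.inl 4)) := DD.pow (hi 1) (hi 4) (hi 9)
  have q6 : DD (Sum.inl (0 : Fin 11)) (fun u : Fin 11 ⊕ Fin 10 → ℕ =>
      u (.inl 10) = u (.inl 2) ^ (u (.inl 3) * u (.inl 4))) := DD.pow (hi 2) hek (hi 10)
  have q7 : DD (Sum.inl (0 : Fin 11)) (fun u : Fin 11 ⊕ Fin 10 → ℕ =>
      u (.inl 7) = 2 ^ u (.inl 1) ∧ u (.inr 0) = (2 * u (.inl 1)).choose (u (.inl 1))) :=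
    DD.choose h2N (hi 1) (hi 7) (hw 0)
  have q8 : DD (Sum.inl (0 : Fin 11)) (fun u : Fin 11 ⊕ Fin 10 → ℕ =>
      u (.inl 7) = 2 ^ u (.inl 1) ∧ u (.inr 1) = Nat.factorial (u (.inl 1))) :=
    DD.fact (hi 1) (hi 7) (hw 1)
  have q9 : DD (Sum.inl (0 : Fin 11)) (fun u : Fin 11 ⊕ Fin 10 → ℕ =>
      u (.inl 5) = u (.inl 2) * u (.inr 2)) := DD.natEq (hi 5) ((hi 2).mul (hw 2))
  have q10 : DD (Sum.inl (0 : Fin 11)) (fun u : Fin 11 ⊕ Fin 10 → ℕ =>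
      u (.inl 5) = u (.inr 3) + u (.inl 1) + 1) :=
    DD.natEq (hi 5) (((hw 3).add (hi 1)).add (NPoly.const 1))
  have q11 : DD (Sum.inl (0 : Fin 11)) (fun u : Fin 11 ⊕ Fin 10 → ℕ =>
      u (.inl 7) = 2 ^ u (.inl 1) ∧ u (.inr 4) = (u (.inr 3)).choose (u (.inl 1))) :=
    DD.choose (hw 3) (hi 1) (hi 7) (hw 4)
  have q12 : DD (Sum.inl (0 : Fin 11)) (fun u : Fin 11 ⊕ Fin 10 → ℕ =>
      u (.inr 5) = u (.inr 2) ^ (u (.inl 3) * u (.inl 4))) := DD.pow (hw 2) hek (hw 5)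
  have q13 : DD (Sum.inl (0 : Fin 11)) (fun u : Fin 11 ⊕ Fin 10 → ℕ =>
      u (.inr 6) = u (.inl 5) ^ u (.inl 3)) := DD.pow (hi 5) (hi 3) (hw 6)
  have q14 : DD (Sum.inl (0 : Fin 11)) (fun u : Fin 11 ⊕ Fin 10 → ℕ =>
      u (.inr 7) = (u (.inr 3) + 1) ^ u (.inl 3)) :=
    DD.pow ((hw 3).add (NPoly.const 1)) (hi 3) (hw 7)
  have q15 : DD (Sum.inl (0 : Fin 11)) (fun u : Fin 11 ⊕ Fin 10 → ℕ =>
      u (.inr 6) = u (.inr 8) + u (.inr 7)) := DD.natEq (hw 6) ((hw 8).add (hw 7))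
  have q16 : DD (Sum.inl (0 : Fin 11)) (fun u : Fin 11 ⊕ Fin 10 → ℕ =>
      u (.inr 9) = u (.inr 8) ^ u (.inl 4)) := DD.pow (hw 8) (hi 4) (hw 9)
  have q17 : DD (Sum.inl (0 : Fin 11)) (fun u : Fin 11 ⊕ Fin 10 → ℕ =>
      u (.inl 2) ∣ u (.inr 0)) := DD.natDvd (hi 2) (hw 0)
  have q18 : DD (Sum.inl (0 : Fin 11)) (fun u : Fin 11 ⊕ Fin 10 → ℕ =>
      Nat.Coprime (u (.inl 2)) (u (.inr 1))) := DD.coprime (hi 2) (hw 1)
  have q19 : DD (Sum.inl (0 : Fin 11)) (fun u : Fin 11 ⊕ Fin 10 → ℕ =>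
      2 * u (.inl 1) < u (.inl 5)) := DD.natLt h2N (hi 5)
  have q20 : DD (Sum.inl (0 : Fin 11)) (fun u : Fin 11 ⊕ Fin 10 → ℕ =>
      u (.inl 10) * u (.inl 2) ∣ u (.inr 4)) := DD.natDvd ((hi 10).mul (hi 2)) (hw 4)
  have q21 : DD (Sum.inl (0 : Fin 11)) (fun u : Fin 11 ⊕ Fin 10 → ℕ =>
      u (.inl 6) < u (.inl 10)) := DD.natLt (hi 6) (hi 10)
  have q22 : DD (Sum.inl (0 : Fin 11)) (fun u : Fin 11 ⊕ Fin 10 → ℕ =>
      ((u (.inl 10) : ℕ) : ℤ) ∣ ((u (.inl 9) : ℕ) : ℤ) * ((u (.inl 6) : ℕ) : ℤ) *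
        ((u (.inr 5) : ℕ) : ℤ) - ((u (.inr 9) : ℕ) : ℤ)) :=
    DD.intDvd (PolyFun.coord _) ((((PolyFun.coord _).mul (PolyFun.coord _)).mul
      (PolyFun.coord _)).sub (PolyFun.coord _))
  have hQ := q1.and (q2.and (q3.and (q4.and (q5.and (q6.and (q7.and (q8.and (q9.and (q10.and
    (q11.and (q12.and (q13.and (q14.and (q15.and (q16.and (q17.and (q18.and (q19.and (q20.and
    (q21.and q22))))))))))))))))))))
  refine hQ.exs' dsysW ?_ ?_ ?_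
  · intro K1 j
    set C : (Fin 11 → ℕ) → Prop := fun v => Bnd 0 K1 v ∧ 2 ≤ v 1 ∧ v 7 = 2 ^ v 1 ∧
      v 8 = 2 ^ v 3 ∧ v 9 = v 1 ^ v 4 ∧ v 10 = v 2 ^ (v 3 * v 4) ∧
      Sys (v 1) (v 2) (v 3) (v 4) (v 5) (v 6) with hC
    have s1 : Small (0 : Fin 11) C (fun v => v 1) :=
      Small.of_two_pow ((Big.coord K1 7).mono fun v hv => by rw [← hv.2.2.1])
    have s3 : Small (0 : Fin 11) C (fun v => v 3) :=
      Small.of_two_pow ((Big.coord K1 8).mono fun v hv => by rw [← hv.2.2.2.1])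
    have s4 : Small (0 : Fin 11) C (fun v => v 4) :=
      Small.of_two_pow ((Big.coord K1 9).mono fun v hv => by
        rw [hv.2.2.2.2.1]
        exact Nat.pow_le_pow_left hv.2.1 _)
    have b5 : Big (0 : Fin 11) C (fun v => v 5) := Big.coord K1 5
    have b1 : Big (0 : Fin 11) C (fun v => v 1) := Big.coord K1 1
    have bG : Big (0 : Fin 11) C (fun v => v 5 ^ v 3) := Big.pow b5 s3
    fin_cases j
    · refine Big.mono (Big.pow ((Big.const 2).mul b1) s1) fun v _ => ?_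
      exact Nat.choose_le_pow _ _
    · refine Big.mono (Big.pow b1 s1) fun v _ => ?_
      exact Nat.factorial_le_pow _
    · exact Big.mono b5 fun v _ => Nat.div_le_self _ _
    · refine Big.mono b5 fun v _ => ?_
      show v 5 - v 1 - 1 ≤ v 5
      omega
    · refine Big.mono (Big.pow b5 s1) fun v _ => ?_
      show (v 5 - v 1 - 1).choose (v 1) ≤ v 5 ^ v 1
      exact (Nat.choose_le_pow _ _).trans (Nat.pow_le_pow_left (by omega) _)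
    · refine Big.mono (Big.pow b5 (s3.mul s4)) fun v _ => ?_
      show (v 5 / v 2) ^ (v 3 * v 4) ≤ v 5 ^ (v 3 * v 4)
      exact Nat.pow_le_pow_left (Nat.div_le_self _ _) _
    · exact bG
    · refine Big.mono (Big.pow (b5.add (Big.const 1)) s3) fun v _ => ?_
      show (v 5 - v 1 - 1 + 1) ^ v 3 ≤ (v 5 + 1) ^ v 3
      exact Nat.pow_le_pow_left (by omega) _
    · refine Big.mono bG fun v _ => ?_
      show v 5 ^ v 3 - (v 5 - v 1 - 1 + 1) ^ v 3 ≤ v 5 ^ v 3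
      exact Nat.sub_le _ _
    · refine Big.mono (Big.pow bG s4) fun v _ => ?_
      show (v 5 ^ v 3 - (v 5 - v 1 - 1 + 1) ^ v 3) ^ v 4 ≤ (v 5 ^ v 3) ^ v 4
      exact Nat.pow_le_pow_left (Nat.sub_le _ _) _
  · rintro v ⟨h1, h7, h8, h9, h10, hS⟩
    obtain ⟨a1, a2, a3, a4, a5⟩ := dsys_compl hS
    refine ⟨h1, hS.he1, hS.hk, h8, h9, h10, ⟨h7, rfl⟩, ⟨h7, rfl⟩, a1, a2, ⟨h7, rfl⟩, rfl, rfl, rfl,
      a4, rfl, hS.hM, hS.hco, hS.hc', ?_, ?_, ?_⟩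
    · show v 10 * v 2 ∣ (v 5 - v 1 - 1).choose (v 1)
      rw [h10]
      exact a3
    · show v 6 < v 10
      rw [h10]
      exact hS.hH
    · show ((v 10 : ℕ) : ℤ) ∣ ((v 9 : ℕ) : ℤ) * ((v 6 : ℕ) : ℤ) *
        (((v 5 / v 2) ^ (v 3 * v 4) : ℕ) : ℤ) -
        (((v 5 ^ v 3 - (v 5 - v 1 - 1 + 1) ^ v 3) ^ v 4 : ℕ) : ℤ)
      rw [h10, h9]
      exact a5
  · rintro v w ⟨h1, h2, h3, h4, h5, h6, ⟨h7, h8⟩, ⟨-, h9⟩, h10, h11, ⟨-, h12⟩, h13, h14, h15, h16,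
      h17, h18, h19, h20, h21, h22, h23⟩
    simp only [Sum.elim_inl, Sum.elim_inr] at h1 h2 h3 h4 h5 h6 h7 h8 h9 h10 h11 h12
    simp only [Sum.elim_inl, Sum.elim_inr] at h13 h14 h15 h16 h17 h18 h19 h20 h21 h22 h23
    refine ⟨h1, h7, h4, h5, h6, ?_⟩
    refine dsys_sound (u := w 2) (b := w 3) (D := w 8) h1 h2 h3 (h8 ▸ h18) (h9 ▸ h19) h10 h11 h20 ?_
      ?_ ?_ ?_
    · rw [← h6, ← h12]
      exact h21
    · rw [← h14, ← h15]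
      exact h16
    · rw [← h6]
      exact h22
    · rw [← h6, ← h5, ← h13, ← h17]
      exact h23

section

variable {σ : Type} [Fintype σ] {o : σ}

theorem DD.sys {N M e1 k c H wN E2 NK Me : (σ → ℕ) → ℕ} (hN : NPoly N) (hM : NPoly M)
    (he : NPoly e1) (hk : NPoly k) (hc : NPoly c) (hH : NPoly H) (hwN : NPoly wN)
    (hE2 : NPoly E2) (hNK : NPoly NK) (hMe : NPoly Me) :
    DD o (fun v => 2 ≤ N v ∧ wN v = 2 ^ N v ∧ E2 v = 2 ^ e1 v ∧ NK v = N v ^ k v ∧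
      Me v = M v ^ (e1 v * k v) ∧ Sys (N v) (M v) (e1 v) (k v) (c v) (H v)) := by
  have h := dd_sys.subst (o' := o) ![fun v => v o, N, M, e1, k, c, H, wN, E2, NK, Me] (by
    intro i
    fin_cases i
    · exact NPoly.coord o
    · exact hN
    · exact hM
    · exact he
    · exact hk
    · exact hc
    · exact hH
    · exact hwN
    · exact hE2
    · exact hNK
    · exact hMe) (fun v => rfl)
  exact h.congr fun v => Iff.rfl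

theorem Dio.sumP {NK Me H A S : (σ → ℕ) → ℕ} (hNK : NPoly NK) (hMe : NPoly Me) (hH : NPoly H)
    (hA : NPoly A) (hS : NPoly S) :
    Dio (fun v => 0 < Me v ∧ NK v * (A v * H v % Me v) ≤ S v * Me v ∧
      S v * Me v < NK v * (A v * H v % Me v) + Me v) := by
  obtain ⟨e, he⟩ := hMe.bound
  have hc : ∀ {G : (σ → ℕ) → ℕ}, NPoly G →
      NPoly (fun v : σ ⊕ Unit → ℕ => G (fun i => v (.inl i))) := fun hG => PolyFun.comp hG Sum.inl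
  have h := Dio.exs (τ := Unit) (Q := fun v : σ ⊕ Unit → ℕ =>
    (0 < Me (fun i => v (.inl i)) ∧
      (A (fun i => v (.inl i)) * H (fun i => v (.inl i))) % Me (fun i => v (.inl i)) = v (.inr ())) ∧
    (NK (fun i => v (.inl i)) * v (.inr ()) ≤ S (fun i => v (.inl i)) * Me (fun i => v (.inl i)) ∧
      S (fun i => v (.inl i)) * Me (fun i => v (.inl i)) <
        NK (fun i => v (.inl i)) * v (.inr ()) + Me (fun i => v (.inl i))))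
    ((Dio.mod ((hc hA).mul (hc hH)) (hc hMe) (NPoly.coord _)).and
      ((Dio.natLe ((hc hNK).mul (NPoly.coord _)) ((hc hS).mul (hc hMe))).and
        (Dio.natLt ((hc hS).mul (hc hMe)) (((hc hNK).mul (NPoly.coord _)).add (hc hMe))))) e ?_
  · refine h.congr fun v => ?_
    constructor
    · rintro ⟨w, ⟨h1, h2⟩, h3, h4⟩
      simp only [Sum.elim_inl, Sum.elim_inr] at h1 h2 h3 h4
      exact ⟨h1, by rw [h2]; exact h3, by rw [h2]; exact h4⟩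
    · rintro ⟨h1, h2, h3⟩
      exact ⟨fun _ => A v * H v % Me v, ⟨h1, rfl⟩, h2, h3⟩
  · rintro v ⟨w, ⟨h1, h2⟩, h3⟩
    refine ⟨w, fun j => ?_, ⟨h1, h2⟩, h3⟩
    simp only [Sum.elim_inl, Sum.elim_inr] at h1 h2
    cases j
    rw [← h2]
    exact (Nat.mod_lt _ h1).le.trans (he v)

end

end Pool.Agent.DNP18
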