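import Mathlib

/-!
# [DNP-PRIMES] many primes in a dyadic interval

(1) `4^x ≤ 2x C(2x,x)` (`Nat.four_pow_le_two_mul_self_mul_centralBinom`), `C(2x,x) = ∏_{p ≤ 2x} p^{v_p} ≤ (2x)^{π(2x)}`
(`Nat.pow_factorization_choose_le`, `Nat.prod_pow_factorization_centralBinom`), so `4^x ≤ (2x)^(π(2x)+1)`, and for
`2x = 2^J`: `2^J ≤ J (π(2^J) + 1)`.
(2) Suppose `n ≥ 1` and every `(2^j, 2^(j+1)]` with `n ≤ 2^j`, `j < J` has less than `n` primes. With `j0` minimal with
`n ≤ 2^j0` (`2^j0 ≤ 2n`): `π(2^J) ≤ 2^j0 + (J - j0) n ≤ 2n + J n`, so `2^J ≤ J (2n + J n + 1) ≤ 4 J² n`. For `J` with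
`1024 n² ≤ 2^J < 2048 n²` this is false: `J ≤ 11 + 2 log n` and `4 J² < 1024 n`. (Any other way to get a polynomial
bound is fine.)
-/

namespace Pool.Agent.DNP18

open Finset

private theorem helper23_aux (j : ℕ) : (2 * j + 10) * (j + 13) < 1024 * 2 ^ j := by
  induction j with
  | zero => norm_num
  | succ j ih =>
    rw [pow_succ]
    nlinarith

private theorem helper23_cb (x : ℕ) (hx : 1 ≤ x) :
    Nat.centralBinom x ≤ (2 * x) ^ ((range (2 * x + 1)).filter Nat.Prime).card := by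
  conv_lhs => rw [← Nat.prod_pow_factorization_centralBinom x]
  rw [← Finset.prod_const, Finset.prod_filter]
  apply Finset.prod_le_prod'
  intro p _
  split_ifs with hp
  · exact Nat.pow_factorization_choose_le (by omega)
  · rw [Nat.factorization_eq_zero_of_not_prime _ hp, pow_zero]

private theorem helper23_pi (J : ℕ) (hJ : 1 ≤ J) :
    2 ^ J ≤ J * (((range (2 ^ J + 1)).filter Nat.Prime).card + 1) := by
  obtain ⟨K, rfl⟩ : ∃ K, J = K + 1 := ⟨J - 1, by omega⟩
  have hx : 1 ≤ 2 ^ K := Nat.one_le_two_pow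
  have h1 := Nat.four_pow_le_two_mul_self_mul_centralBinom (2 ^ K) (by omega)
  have h2 := helper23_cb (2 ^ K) hx
  have e : 2 * 2 ^ K = 2 ^ (K + 1) := by ring
  rw [e] at h1 h2
  have h3 : 4 ^ 2 ^ K ≤ 2 ^ ((K + 1) * (((range (2 ^ (K + 1) + 1)).filter Nat.Prime).card + 1)) := by
    refine h1.trans ?_
    calc 2 ^ (K + 1) * Nat.centralBinom (2 ^ K)
        ≤ 2 ^ (K + 1) * (2 ^ (K + 1)) ^ ((range (2 ^ (K + 1) + 1)).filter Nat.Prime).card :=
          Nat.mul_le_mul_left _ h2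
      _ = _ := by
          rw [← pow_succ', ← pow_mul]
  have h4 : (4 : ℕ) ^ 2 ^ K = 2 ^ 2 ^ (K + 1) := by
    rw [show (4 : ℕ) = 2 ^ 2 by norm_num, ← pow_mul, e]
  rw [h4] at h3
  exact (Nat.pow_le_pow_iff_right (by norm_num)).1 h3

private theorem helper23_split (m : ℕ) :
    ((range (2 * m + 1)).filter Nat.Prime).card =
      ((range (m + 1)).filter Nat.Prime).card + ((Ioc m (2 * m)).filter Nat.Prime).card := by
  rw [← Finset.card_union_of_disjoint]
  · congr 1
    ext p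
    simp only [Finset.mem_union, Finset.mem_filter, Finset.mem_range, Finset.mem_Ioc]
    constructor
    · rintro ⟨h1, h2⟩
      by_cases h : p < m + 1
      · exact Or.inl ⟨h, h2⟩
      · exact Or.inr ⟨⟨by omega, by omega⟩, h2⟩
    · rintro (⟨h1, h2⟩ | ⟨⟨h1, h3⟩, h2⟩)
      · exact ⟨by omega, h2⟩
      · exact ⟨by omega, h2⟩
  · rw [Finset.disjoint_left]
    intro p hp hq
    simp only [Finset.mem_filter, Finset.mem_range, Finset.mem_Ioc] at hp hq
    omega

theorem exists_many_primes (n : ℕ) : ∃ N, n ≤ N ∧ N ≤ 4096 * (n + 1) ^ 3 ∧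
    n ≤ ((Ioc N (2 * N)).filter Nat.Prime).card := by
  rcases Nat.eq_zero_or_pos n with rfl | hn
  · exact ⟨0, le_refl _, by positivity, Nat.zero_le _⟩
  by_contra hcon
  push Not at hcon
  -- j0
  have hj1 : n ≤ 2 ^ Nat.clog 2 n := Nat.le_pow_clog (by norm_num) n
  have hj2 : 2 ^ Nat.clog 2 n ≤ 2 * n := by
    rcases Nat.lt_or_ge 1 n with h | h
    · have := Nat.pow_pred_clog_lt_self (b := 2) (by norm_num) h
      have hc : 0 < Nat.clog 2 n := Nat.clog_pos (by norm_num) (by omega)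
      obtain ⟨c, hc'⟩ : ∃ c, Nat.clog 2 n = c + 1 := ⟨Nat.clog 2 n - 1, by omega⟩
      rw [hc'] at this ⊢
      rw [Nat.pred_succ] at this
      rw [pow_succ]
      omega
    · have : n = 1 := by omega
      subst this
      simp
  generalize Nat.clog 2 n = j0 at hj1 hj2
  have key : ∀ i, i ≤ j0 + 10 →
      ((range (2 ^ (j0 + i) + 1)).filter Nat.Prime).card ≤ 2 ^ j0 + i * n := by
    intro i
    induction i with
    | zero =>
      intro _
      have h := Finset.card_filter_le (range (2 ^ j0 + 1)) Nat.Prime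
      have h0 : 0 ∉ (range (2 ^ j0 + 1)).filter Nat.Prime := by
        simp [Nat.not_prime_zero]
      have h1 : (range (2 ^ j0 + 1)).filter Nat.Prime ⊆ (range (2 ^ j0 + 1)).erase 0 := by
        intro p hp
        rw [Finset.mem_erase]
        refine ⟨?_, (Finset.mem_filter.1 hp).1⟩
        rintro rfl
        exact h0 hp
      have h2 := Finset.card_le_card h1
      rw [Finset.card_erase_of_mem (by simp), Finset.card_range] at h2
      simpa using h2
    | succ i ih =>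
      intro hi
      have h1 := ih (by omega)
      have h2 := helper23_split (2 ^ (j0 + i))
      have e : 2 * 2 ^ (j0 + i) = 2 ^ (j0 + (i + 1)) := by ring
      have hle : n ≤ 2 ^ (j0 + i) := hj1.trans (Nat.pow_le_pow_right (by norm_num) (by omega))
      have hub : 2 ^ (j0 + i) ≤ 4096 * (n + 1) ^ 3 := by
        have a1 : 2 ^ (j0 + i) ≤ 2 ^ (j0 + (j0 + 9)) :=
          Nat.pow_le_pow_right (by norm_num) (by omega)
        have a2 : 2 ^ (j0 + (j0 + 9)) = 512 * (2 ^ j0 * 2 ^ j0) := by ring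
        have a3 : 2 ^ j0 * 2 ^ j0 ≤ (2 * n) * (2 * n) := Nat.mul_le_mul hj2 hj2
        have a4 : 512 * ((2 * n) * (2 * n)) ≤ 4096 * (n + 1) ^ 3 := by
          nlinarith [sq_nonneg (n + 1), Nat.zero_le n]
        rw [a2] at a1
        omega
      have h3 := hcon (2 ^ (j0 + i)) hle hub
      rw [e] at h2 h3
      rw [h2]
      have e2 : (i + 1) * n = i * n + n := by ring
      rw [e2]
      omega
  have h1 := key (j0 + 10) le_rfl
  have h2 := helper23_pi (j0 + (j0 + 10)) (by omega)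
  have h3 := helper23_aux j0
  have h4 : 2 ^ (j0 + (j0 + 10)) ≤ (j0 + (j0 + 10)) * (2 ^ j0 + (j0 + 10) * n + 1) :=
    h2.trans (Nat.mul_le_mul_left _ (by omega))
  have h5 : (j0 + (j0 + 10)) * (2 ^ j0 + (j0 + 10) * n + 1) ≤
      (2 * j0 + 10) * (j0 + 13) * n := by
    have b1 : 2 ^ j0 + (j0 + 10) * n + 1 ≤ (j0 + 13) * n := by nlinarith
    calc _ ≤ (j0 + (j0 + 10)) * ((j0 + 13) * n) := Nat.mul_le_mul_left _ b1
      _ = _ := by ring
  have h6 : 1024 * 2 ^ j0 * n ≤ 2 ^ (j0 + (j0 + 10)) := by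
    have b2 : 2 ^ (j0 + (j0 + 10)) = 1024 * 2 ^ j0 * 2 ^ j0 := by ring
    rw [b2]
    exact Nat.mul_le_mul_left _ hj1
  have h7 : (2 * j0 + 10) * (j0 + 13) * n < 1024 * 2 ^ j0 * n :=
    Nat.mul_lt_mul_of_pos_right h3 hn
  omega

end Pool.Agent.DNP18
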