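import Pool.Agent.DNP18.Sys
import Pool.Agent.DPoly.Mod

/-!
# [DNP-PHIA] the polynomial `Phiq`

The same as `Phi_nonneg`, `Phi_eq_zero_iff`, `Phi_bound`, `PolyFun.phi` in `DPoly/Csp.lean` and `DPoly/Mod.lean` with
`Fin 5` replaced by `Fin q` (copy the proofs).
`phiq_dvd`: for a prime `r ≥ K0` and `Z j ≡ z j` modulo `r^e` (`e ≥ 1`): `Phiq Z ≡ Phiq z` modulo `r^e` (polynomial with integer
coefficients), and `0 ≤ Phiq z < K0 ≤ r ≤ r^e`, so `r^e ∣ Phiq Z` iff `Phiq z = 0` iff `ρ z`.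
-/

namespace Pool.Agent.DNP18

open Finset Pool.Agent.DPoly

section

variable {κ q : ℕ} {ρ : (Fin q → Fin κ) → Prop}

theorem Phiq_nonneg (x : Fin q → ℤ) : 0 ≤ Phiq κ q ρ x := by
  unfold Phiq
  exact sum_nonneg fun τ _ => prod_nonneg fun k _ => prod_nonneg fun j _ => sq_nonneg _

theorem Phiq_eq_zero_iff (σ : Fin q → Fin κ) :
    Phiq κ q ρ (fun k => ((σ k : ℕ) : ℤ)) = 0 ↔ ρ σ := by
  classical
  unfold Phiq
  rw [sum_eq_zero_iff_of_nonneg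
    (fun τ _ => prod_nonneg fun k _ => prod_nonneg fun j _ => sq_nonneg _)]
  constructor
  · intro h
    by_contra hρ
    have h1 := h σ (by simp [hρ])
    rw [prod_eq_zero_iff] at h1
    obtain ⟨k, _, h2⟩ := h1
    rw [prod_eq_zero_iff] at h2
    obtain ⟨j, hj, h3⟩ := h2
    have h4 : ((σ k : ℕ) : ℤ) - ((j : ℕ) : ℤ) = 0 := pow_eq_zero_iff (by norm_num) |>.1 h3
    have h5 : (σ k : ℕ) = j := by exact_mod_cast sub_eq_zero.1 h4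
    exact (mem_erase.1 hj).1 (Fin.ext h5).symm
  · intro h τ hτ
    have hne : τ ≠ σ := by
      rintro rfl
      exact (mem_filter.1 hτ).2 h
    obtain ⟨k, hk⟩ := Function.ne_iff.1 hne
    refine prod_eq_zero (mem_univ k) (prod_eq_zero (i := σ k) ?_ ?_)
    · exact mem_erase.2 ⟨fun h' => hk h'.symm, mem_univ _⟩
    · simp

private theorem zpa (a : ℤ) (m : ℕ) : ((a : ℤ) : ZMod m) = 0 ↔ (m : ℤ) ∣ a :=
  ZMod.intCast_zmod_eq_zero_iff_dvd a m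

private theorem Phiq_cast (m : ℕ) (x : Fin q → ℤ) :
    ((Phiq κ q ρ x : ℤ) : ZMod m) = Phiq κ q ρ (fun k => ((x k : ℤ) : ZMod m)) := by
  unfold Phiq
  push_cast
  rfl

theorem Phiq_bound (κ q : ℕ) (ρ : (Fin q → Fin κ) → Prop) :
    ∃ K : ℕ, ∀ σ : Fin q → Fin κ, Phiq κ q ρ (fun k => ((σ k : ℕ) : ℤ)) < K := by
  classical
  refine ⟨(∑ σ : Fin q → Fin κ, Phiq κ q ρ (fun k => ((σ k : ℕ) : ℤ))).toNat + 1, fun σ => ?_⟩
  have h1 : Phiq κ q ρ (fun k => ((σ k : ℕ) : ℤ)) ≤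
      ∑ σ : Fin q → Fin κ, Phiq κ q ρ (fun k => ((σ k : ℕ) : ℤ)) :=
    single_le_sum (f := fun σ : Fin q → Fin κ => Phiq κ q ρ (fun k => ((σ k : ℕ) : ℤ)))
      (fun _ _ => Phiq_nonneg _) (mem_univ σ)
  have h2 := Int.self_le_toNat (∑ σ : Fin q → Fin κ, Phiq κ q ρ (fun k => ((σ k : ℕ) : ℤ)))
  push_cast
  linarith

theorem polyFun_phiq {σ : Type} (ρ : (Fin q → Fin κ) → Prop) {f : Fin q → (σ → ℕ) → ℤ}
    (hf : ∀ k, PolyFun (f k)) : PolyFun (fun v => Phiq κ q ρ (fun k => f k v)) := by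
  unfold Phiq
  exact PolyFun.sum _ fun τ _ => PolyFun.prod _ fun k _ => PolyFun.prod _ fun j _ =>
    ((hf k).sub (PolyFun.const _)).pow 2

theorem phiq_dvd {K0 : ℕ} (hK : ∀ σ : Fin q → Fin κ, Phiq κ q ρ (fun k => ((σ k : ℕ) : ℤ)) < K0)
    {r e : ℕ} (hr : r.Prime) (hKr : K0 ≤ r) (he : 1 ≤ e) {Z : Fin q → ℕ} {z : Fin q → Fin κ}
    (hZ : ∀ j, Z j ≡ (z j : ℕ) [MOD r ^ e]) :
    ((r ^ e : ℕ) : ℤ) ∣ Phiq κ q ρ (fun j => (Z j : ℤ)) ↔ ρ z := by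
  have h1 : ((Phiq κ q ρ (fun j => (Z j : ℤ)) : ℤ) : ZMod (r ^ e)) =
      ((Phiq κ q ρ (fun j => ((z j : ℕ) : ℤ)) : ℤ) : ZMod (r ^ e)) := by
    rw [Phiq_cast, Phiq_cast]
    congr 1
    funext j
    have := (ZMod.natCast_eq_natCast_iff _ _ _).2 (hZ j)
    push_cast
    exact this
  have h2 : ((r ^ e : ℕ) : ℤ) ∣ Phiq κ q ρ (fun j => (Z j : ℤ)) ↔
      ((r ^ e : ℕ) : ℤ) ∣ Phiq κ q ρ (fun j => ((z j : ℕ) : ℤ)) := by
    rw [← zpa, ← zpa, h1]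
  rw [h2]
  have h3 : (r : ℤ) ≤ ((r ^ e : ℕ) : ℤ) := by
    have : r ^ 1 ≤ r ^ e := Nat.pow_le_pow_right hr.pos he
    rw [pow_one] at this
    exact_mod_cast this
  have h4 : (K0 : ℤ) ≤ r := by exact_mod_cast hKr
  constructor
  · intro h
    apply (Phiq_eq_zero_iff z).1
    exact Int.eq_zero_of_dvd_of_nonneg_of_lt (Phiq_nonneg _) (by linarith [hK z]) h
  · intro h
    rw [(Phiq_eq_zero_iff z).2 h]
    exact dvd_zero _

end

end Pool.Agent.DNP18
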