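import Pool.Agent.DNP18.ArrC
import Pool.Agent.DNP18.ArrD
import Pool.Agent.DNP18.ArrE
import Pool.Agent.DNP18.ArrF
import Pool.Agent.DNP18.PhiA

/-!
# [DNP-TABC] completeness of the Diophantine definition of `Tab`

Given digits `x i j` and `N` with at least `n` primes in `(N, 2N]`. Take `k` with `N κ w < N^k` (given), `e1` with
`k (N κ w) < 2^e1` (given), a set `s` of exactly `n` primes in `(N, 2N]` with a bijection `p : i ↦ p i` from `{i < n}` to `s`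
with inverse `lab`, `M = ∏ s` (`M_of_primes`; `M ≠ 1` as `n ≥ 1`; `M ≤ C(2N,N) ≤ 4^N`), `c, H` from `exists_sys`, `l` and `Z j`
from `crt_M`: `l % r^e = lab r` (`< n ≤ N < r^e`), `Z j % r^e = x (lab r) j` (`< κ ≤ N < r^e`). Everything follows from
`choose_iff`, `rg_iff`, `expY_mod`, `Sys.sumIs`, `sum_labels`, `phiq_dvd` with `pow_M_dvd_iff`.
`G (B0-1) + 1 = B0^n`: `G = ∑_{i<n} B0^i`.
-/

namespace Pool.Agent.DNP18

open Finset Pool.Agent.DPoly

theorem tab_complete {κ q : ℕ} {ρ : (Fin q → Fin κ) → Prop} {K0 : ℕ} (hκ : 1 ≤ κ)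
    (hK : ∀ σ : Fin q → Fin κ, Phiq κ q ρ (fun k => ((σ k : ℕ) : ℤ)) < K0)
    {B0 n : ℕ} {X : Fin q → ℕ} (hn : 1 ≤ n) (h : Tab κ q ρ B0 n X)
    {N e1 k : ℕ} (hnN : n ≤ N) (hκN : κ ≤ N) (hKN : K0 ≤ N) (hB : 2 * N < B0)
    (hp : n ≤ ((Ioc N (2 * N)).filter Nat.Prime).card)
    (hs1 : N * κ * B0 ^ n < N ^ k) (hs2 : k * (N * κ * B0 ^ n) < 2 ^ e1) :
    ∃ M c H l Z, M ≤ 4 ^ N ∧ c ≤ 2 * M ^ (e1 * k + 1) ∧ l < M ^ (e1 * k) ∧
      (∀ j, Z j < M ^ (e1 * k)) ∧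
      TabWit κ q ρ K0 B0 n (B0 ^ n) (∑ i ∈ range n, B0 ^ i) X N M e1 k c H l Z := by
  obtain ⟨x, hX, hρ⟩ := h
  obtain ⟨s, hsub, hcard⟩ := Finset.exists_subset_card_eq hp
  have hs : ∀ r ∈ s, r.Prime ∧ N < r ∧ r ≤ 2 * N := by
    intro r hr
    have h1 := hsub hr
    rw [mem_filter, mem_Ioc] at h1
    exact ⟨h1.2, h1.1.1, h1.1.2⟩
  obtain ⟨hM, hco, hpf⟩ := M_of_primes s hs
  obtain ⟨M, hMdef⟩ : ∃ M, M = ∏ r ∈ s, r := ⟨_, rfl⟩
  rw [← hMdef] at hM hco hpf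
  have hN1 : 1 ≤ N := hn.trans hnN
  have hM1 : M ≠ 1 := by
    intro h1
    rw [h1, Nat.primeFactors_one] at hpf
    rw [← hpf, card_empty] at hcard
    omega
  have hB0 : 1 ≤ B0 := by omega
  have hW : 1 ≤ B0 ^ n := Nat.one_le_pow _ _ hB0
  have hQ : B0 ^ n ≤ N * κ * B0 ^ n := Nat.le_mul_of_pos_left _ (Nat.mul_pos hN1 hκ)
  have hk1 : 1 ≤ k := by
    rcases Nat.eq_zero_or_pos k with h0 | h0
    · rw [h0, pow_zero] at hs1
      omega
    · exact h0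
  have he11 : 1 ≤ e1 := by
    rcases Nat.eq_zero_or_pos e1 with h0 | h0
    · rw [h0, pow_zero] at hs2
      have := Nat.mul_pos hk1 (hW.trans hQ)
      omega
    · exact h0
  have he : 1 ≤ e1 * k := Nat.mul_pos he11 hk1
  obtain ⟨c, H, hcle, hsys⟩ := exists_sys (k := k) hN1 he11 hk1 hM hco hM1
  -- labels
  obtain ⟨lab, p, hlab, hp1, hp2⟩ : ∃ lab p : ℕ → ℕ, (∀ r ∈ s, lab r < n) ∧
      (∀ i < n, p i ∈ s ∧ lab (p i) = i) ∧ ∀ r ∈ s, p (lab r) = r := by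
    classical
    let e' : s ≃ Fin n := s.equivFin.trans (finCongr hcard)
    refine ⟨fun r => if h : r ∈ s then (e' ⟨r, h⟩ : ℕ) else 0,
      fun i => if h : i < n then (e'.symm ⟨i, h⟩ : ℕ) else 0, ?_, ?_, ?_⟩
    · intro r hr
      simp only [dif_pos hr]
      exact (e' ⟨r, hr⟩).2
    · intro i hi
      simp only [dif_pos hi]
      have h1 : ((e'.symm ⟨i, hi⟩ : s) : ℕ) ∈ s := (e'.symm ⟨i, hi⟩).2
      refine ⟨h1, ?_⟩
      rw [dif_pos h1]
      have h2 : (⟨((e'.symm ⟨i, hi⟩ : s) : ℕ), h1⟩ : s) = e'.symm ⟨i, hi⟩ := rfl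
      rw [h2, Equiv.apply_symm_apply]
    · intro r hr
      simp only [dif_pos hr]
      have h1 : (e' ⟨r, hr⟩ : ℕ) < n := (e' ⟨r, hr⟩).2
      rw [dif_pos h1]
      have h2 : (⟨(e' ⟨r, hr⟩ : ℕ), h1⟩ : Fin n) = e' ⟨r, hr⟩ := rfl
      rw [h2, Equiv.symm_apply_apply]
  have hrpow : ∀ r ∈ M.primeFactors, N < r ^ (e1 * k) := by
    intro r hr
    rw [hpf] at hr
    obtain ⟨h1, h2, -⟩ := hs r hr
    calc N < r := h2
      _ = r ^ 1 := (pow_one r).symm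
      _ ≤ r ^ (e1 * k) := Nat.pow_le_pow_right h1.pos he
  obtain ⟨l, hlM, hl⟩ := crt_M hM hco (e1 * k) lab (fun r hr =>
    ((hlab r (hpf ▸ hr)).le.trans hnN).trans_lt (hrpow r hr))
  have hZex : ∀ j, ∃ A < M ^ (e1 * k), ∀ r ∈ M.primeFactors, A % r ^ (e1 * k) = (x (lab r) j : ℕ) :=
    fun j => crt_M hM hco (e1 * k) (fun r => (x (lab r) j : ℕ)) (fun r hr =>
      ((x (lab r) j).2.le.trans hκN).trans_lt (hrpow r hr))
  choose Z hZM hZ using hZex
  have hmod : ∀ a r : ℕ, a % r ^ (e1 * k) ≡ a [MOD r ^ (e1 * k)] := fun a r => Nat.mod_modEq _ _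
  have hexp : ∀ r ∈ M.primeFactors, expY l (B0 - 1) n ≡ B0 ^ lab r [MOD r ^ (e1 * k)] := by
    intro r hr
    have h1 := expY_mod hM hco he hnN hB0 hr (l := l) (by rw [hl r hr]; exact hlab r (hpf ▸ hr))
    rwa [hl r hr] at h1
  have hG : (∑ i ∈ range n, B0 ^ i) * (B0 - 1) + 1 = B0 ^ n := by
    have h1 := geom_sum_mul_add (B0 - 1) n
    rwa [Nat.sub_add_cancel hB0] at h1
  have hGlt : ∑ i ∈ range n, B0 ^ i < B0 ^ n := by
    have h1 : (∑ i ∈ range n, B0 ^ i) * 1 ≤ (∑ i ∈ range n, B0 ^ i) * (B0 - 1) :=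
      Nat.mul_le_mul_left _ (by omega)
    omega
  have hsum1 : ∑ r ∈ M.primeFactors, B0 ^ lab r = ∑ i ∈ range n, B0 ^ i := by
    rw [hpf]
    have h1 := sum_labels (s := s) (l := lab) (n := n) (B := B0) hlab hp1 hp2 (fun _ => 1)
    simpa only [one_mul] using h1
  have hsumX : ∀ j, ∑ r ∈ M.primeFactors, (x (lab r) j : ℕ) * B0 ^ lab r = X j := by
    intro j
    rw [hpf, hX j]
    have h1 := sum_labels (s := s) (l := lab) (n := n) (B := B0) hlab hp1 hp2 (fun r => (x (lab r) j : ℕ))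
    rw [h1]
    refine sum_congr rfl fun i hi => ?_
    rw [(hp1 i (mem_range.mp hi)).2]
  have hXle : ∀ j, X j ≤ N * κ * B0 ^ n := by
    intro j
    rw [hX j]
    calc ∑ i ∈ range n, (x i j : ℕ) * B0 ^ i ≤ ∑ i ∈ range n, κ * B0 ^ i :=
          sum_le_sum fun i _ => Nat.mul_le_mul_right _ (x i j).2.le
      _ = κ * ∑ i ∈ range n, B0 ^ i := by rw [mul_sum]
      _ ≤ κ * B0 ^ n := Nat.mul_le_mul_left _ hGlt.le
      _ ≤ N * (κ * B0 ^ n) := Nat.le_mul_of_pos_left _ hN1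
      _ = N * κ * B0 ^ n := by rw [mul_assoc]
  have hMle : M ≤ 4 ^ N := by
    calc M ≤ (2 * N).choose N := Nat.le_of_dvd (Nat.choose_pos (by omega)) hM
      _ ≤ 2 ^ (2 * N) := Nat.choose_le_two_pow _ _
      _ = 4 ^ N := by rw [pow_mul]; norm_num
  refine ⟨M, c, H, l, Z, hMle, hcle, hlM, hZM, ?_⟩
  exact {
    sys := hsys
    hw := rfl
    hG := hG
    hn := hnN
    hκ := hκN
    hK := hKN
    hB := hB
    hs1 := hs1
    hs2 := hs2
    lab := (choose_iff hM hco he hnN l).mpr fun r hr => by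
      rw [hl r hr]; exact hlab r (hpf ▸ hr)
    sumP := by
      have h1 := hsys.sumIs (expY l (B0 - 1) n) (fun r => B0 ^ lab r) hexp
        (by
          rw [hsum1]
          exact (hGlt.le.trans hQ).trans_lt hs1)
        (by
          rw [hsum1]
          exact (Nat.mul_le_mul_left k (hGlt.le.trans hQ)).trans_lt hs2)
      rwa [hsum1] at h1
    sumZ := by
      intro j
      have h1 := hsys.sumIs (Z j * expY l (B0 - 1) n) (fun r => (x (lab r) j : ℕ) * B0 ^ lab r)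
        (fun r hr => by
          refine Nat.ModEq.mul ?_ (hexp r hr)
          rw [← hZ j r hr]
          exact (hmod _ _).symm)
        (by
          rw [hsumX j]
          exact (hXle j).trans_lt hs1)
        (by
          rw [hsumX j]
          exact (Nat.mul_le_mul_left k (hXle j)).trans_lt hs2)
      rwa [hsumX j] at h1
    rg := fun j => (rg_iff hM hco he hκN (Z j)).mpr fun r hr => by
      rw [hZ j r hr]; exact (x (lab r) j).2
    phi := by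
      refine (pow_M_dvd_iff hM hco (e1 * k) _).mpr fun r hr => ?_
      have hr' : r ∈ s := hpf ▸ hr
      obtain ⟨h1, h2, -⟩ := hs r hr'
      refine (phiq_dvd hK h1 (hKN.trans h2.le) he (z := x (lab r)) fun j => ?_).mpr
        (hρ (lab r) (hlab r hr'))
      rw [← hZ j r hr]
      exact (hmod _ _).symm }

end Pool.Agent.DNP18
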