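import Pool.Agent.DNP18.ArrC
import Pool.Agent.DNP18.ArrE
import Pool.Agent.DNP18.ArrF
import Pool.Agent.DNP18.PhiA

/-!
# [DNP-TABS] soundness of the Diophantine definition of `Tab`

Let `e = e1 k`, `P = M.primeFactors`, `l_r = l % r^e < n` (`choose_iff`), `z_{j,r} = Z j % r^e < κ` (`rg_iff`).
`expY l (B0-1) n ≡ B0^(l_r)` (`expY_mod`). `∑_r B0^(l_r) ≤ N B0^n ≤ N κ w < N^k` (`card_primeFactors_le`; if `κ = 0` then
`Fin q → Fin κ` is empty for `q ≥ 1`; we assume `1 ≤ κ`), so by `Sys.sumIs` and `SumIs.unique`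
`∑_r B0^(l_r) = G = ∑_{i<n} B0^i`, and `|P| ≤ N < B0`, so `labels_bij` gives `p`. Again by `Sys.sumIs` and `SumIs.unique`
`X j = ∑_r z_{j,r} B0^(l_r) = ∑_{i<n} z_{j,p i} B0^i` (`sum_labels`). `x i j := z_{j, p i}` for `i < n`.
`ρ (x i)` by `phiq_dvd` for `r = p i` (`r > N ≥ K0`; `r^e ∣ M^e ∣ Phiq`).
-/

namespace Pool.Agent.DNP18

open Finset Pool.Agent.DPoly

theorem tab_sound {κ q : ℕ} {ρ : (Fin q → Fin κ) → Prop} {K0 : ℕ} (hκ : 1 ≤ κ)
    (hK : ∀ σ : Fin q → Fin κ, Phiq κ q ρ (fun k => ((σ k : ℕ) : ℤ)) < K0)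
    {B0 n w G : ℕ} {X : Fin q → ℕ} {N M e1 k c H l : ℕ} {Z : Fin q → ℕ}
    (h : TabWit κ q ρ K0 B0 n w G X N M e1 k c H l Z) : Tab κ q ρ B0 n X := by
  classical
  have hM := h.sys.hM
  have hco := h.sys.hco
  have hN := h.sys.hN
  have he : 1 ≤ e1 * k := Nat.mul_pos h.sys.he1 h.sys.hk
  have hMpos : 0 < M := Nat.pos_of_dvd_of_pos hM (Nat.choose_pos (by omega))
  have hB0 : 1 ≤ B0 := by have := h.hB; omega
  have hl : ∀ r ∈ M.primeFactors, l % r ^ (e1 * k) < n := (choose_iff hM hco he h.hn l).1 h.lab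
  have hz : ∀ j, ∀ r ∈ M.primeFactors, Z j % r ^ (e1 * k) < κ := fun j =>
    (rg_iff hM hco he h.hκ (Z j)).1 (h.rg j)
  have hE : ∀ r ∈ M.primeFactors, expY l (B0 - 1) n ≡ B0 ^ (l % r ^ (e1 * k)) [MOD r ^ (e1 * k)] :=
    fun r hr => expY_mod hM hco he h.hn hB0 hr (hl r hr)
  have hcard := card_primeFactors_le hM hco
  have hBl : ∀ r ∈ M.primeFactors, B0 ^ (l % r ^ (e1 * k)) ≤ w := by
    intro r hr
    rw [h.hw]
    exact Nat.pow_le_pow_right hB0 (hl r hr).le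
  have hs0 : ∑ r ∈ M.primeFactors, B0 ^ (l % r ^ (e1 * k)) ≤ N * κ * w := by
    calc ∑ r ∈ M.primeFactors, B0 ^ (l % r ^ (e1 * k)) ≤ ∑ _r ∈ M.primeFactors, w :=
          sum_le_sum hBl
      _ = M.primeFactors.card * w := by rw [sum_const, smul_eq_mul]
      _ ≤ N * w := Nat.mul_le_mul_right _ hcard
      _ ≤ N * κ * w := Nat.mul_le_mul_right _ (Nat.le_mul_of_pos_right _ hκ)
  have hsG : ∑ r ∈ M.primeFactors, B0 ^ (l % r ^ (e1 * k)) = G := by
    refine SumIs.unique hMpos (h.sys.sumIs (expY l (B0 - 1) n)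
      (fun r => B0 ^ (l % r ^ (e1 * k))) hE ?_ ?_) h.sumP
    · exact lt_of_le_of_lt hs0 h.hs1
    · exact lt_of_le_of_lt (Nat.mul_le_mul_left _ hs0) h.hs2
  have hG : G = ∑ i ∈ range n, B0 ^ i := by
    have h1 := geom_sum_mul_add (B0 - 1) n
    rw [Nat.sub_add_cancel hB0, ← h.hw, ← h.hG] at h1
    have hpos : 0 < B0 - 1 := by have := h.hB; omega
    exact (Nat.eq_of_mul_eq_mul_right hpos (Nat.add_right_cancel h1)).symm
  obtain ⟨p, hp, hp'⟩ := labels_bij hl (lt_of_le_of_lt hcard (by have := h.hB; omega))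
    (hsG.trans hG)
  have hX : ∀ j, X j = ∑ i ∈ range n, (Z j % (p i) ^ (e1 * k)) * B0 ^ i := by
    intro j
    rw [← sum_labels (s := M.primeFactors) (l := fun r => l % r ^ (e1 * k)) hl hp hp'
      (fun r => Z j % r ^ (e1 * k))]
    have hs : ∑ r ∈ M.primeFactors, (Z j % r ^ (e1 * k)) * B0 ^ (l % r ^ (e1 * k)) ≤ N * κ * w := by
      calc ∑ r ∈ M.primeFactors, (Z j % r ^ (e1 * k)) * B0 ^ (l % r ^ (e1 * k))
          ≤ ∑ _r ∈ M.primeFactors, κ * w :=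
            sum_le_sum fun r hr => Nat.mul_le_mul (hz j r hr).le (hBl r hr)
        _ = M.primeFactors.card * (κ * w) := by rw [sum_const, smul_eq_mul]
        _ ≤ N * (κ * w) := Nat.mul_le_mul_right _ hcard
        _ = N * κ * w := by ring
    refine SumIs.unique hMpos (h.sumZ j) (h.sys.sumIs (Z j * expY l (B0 - 1) n)
      (fun r => (Z j % r ^ (e1 * k)) * B0 ^ (l % r ^ (e1 * k))) ?_ ?_ ?_)
    · intro r hr
      exact (Nat.mod_modEq _ _).symm.mul (hE r hr)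
    · exact lt_of_le_of_lt hs h.hs1
    · exact lt_of_le_of_lt (Nat.mul_le_mul_left _ hs) h.hs2
  refine ⟨fun i j => if hi : i < n then ⟨Z j % (p i) ^ (e1 * k), hz j _ (hp i hi).1⟩
    else ⟨0, hκ⟩, ?_, ?_⟩
  · intro j
    rw [hX j]
    refine sum_congr rfl fun i hi => ?_
    beta_reduce
    rw [dif_pos (mem_range.1 hi)]
  · intro i hi
    have hr := (hp i hi).1
    obtain ⟨hrp, hrN, -⟩ := prime_range hM hco hr
    refine (phiq_dvd hK hrp (le_trans h.hK hrN.le) he (Z := Z) ?_).1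
      ((pow_M_dvd_iff hM hco (e1 * k) _).1 h.phi (p i) hr)
    intro j
    beta_reduce
    rw [dif_pos hi]
    exact (Nat.mod_modEq _ _).symm

end Pool.Agent.DNP18
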