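import Pool.Agent.DNP18.DSys
import Pool.Agent.DNP18.TabS
import Pool.Agent.DNP18.TabC
import Pool.Agent.DNP18.PrimesA

/-!
# [DNP-DTAB] tables of digits are definable

`P v := s ≤ B0 ∧ 1 ≤ n ∧ w = B0^n ∧ Tab κ q ρ B0 n X`, `s = v o`. Coordinates: `σ = Fin 4 ⊕ Fin q`, `(s, B0, n, w)` and the `X j`.
`K0` from `Phiq_bound`. `DD.exs` with the witnesses `N, e1, k, wN = 2^N, E2 = 2^e1, NK = N^k, M, Me = M^(e1 k), c, H, l, G, wn = 2^n,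
C3 = l.choose n, P0 = expY l (B0-1) n` (`b = B0 - 1` as a witness: `B0 = b + 1`) and `Z j` (type `Fin 16 ⊕ Fin q`, say), and the matrix
`1 ≤ n ∧ s ≤ B0 ∧ DD.pow (w = B0^n) ∧ DD.sys ∧ G b + 1 = w ∧ n ≤ N ∧ κ ≤ N ∧ K0 ≤ N ∧ 2 N < B0 ∧ N κ w < NK ∧ k (N κ w) < E2 ∧
 DD.choose ∧ Me ∣ C3 ∧ DD.expY ∧ Dio.sumP NK Me H P0 G ∧ ∀ j, Dio.sumP NK Me H (Z j * P0) (X j) ∧ ∀ j, Me ∣ Rg κ (Z j) ∧ Me ∣ Phiq Z`
(`PolyFun.rg`, `polyFun_phiq`, `DD.intDvd`, `DD.all`). Soundness: `tab_sound`. Completeness, for large `s` and `v` bounded by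
`bd K1 s`: `2^n ≤ B0^n = w`, so `n` is small; `N` from `exists_many_primes (n + κ + K0 + 2)` is small, so `2N < s ≤ B0` for large `s`
(`Small.lt_size` for `2N`); `k := len (N κ w)` (`N κ w < 2^k ≤ N^k`), `e1 := len (k (N κ w))`, small by `Big.len`; `M ≤ 4^N`, `Me`, `c`, `l`, `Z`,
`H < Me` are big, `P0 ≤ ((l+1) B0)^n` (`expY_le`), `C3 ≤ (l+1)^n`. (Choose all witnesses by `Classical.choose` from `tab_complete`.)
It may be convenient to prove first a lemma with all bounds as a function of `(s, B0, n, w, X)` only.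
-/

namespace Pool.Agent.DNP18

open Pool.Agent.DPoly Finset

/-- the matrix -/
private def TQ' (κ q : ℕ) (ρ : (Fin q → Fin κ) → Prop) (K0 s B0 n w : ℕ) (X : Fin q → ℕ)
    (N e1 k wN E2 NK M Me c H l G wn C3 b P0 : ℕ) (Z : Fin q → ℕ) : Prop :=
  1 ≤ n ∧ s ≤ B0 ∧ w = B0 ^ n ∧ B0 = b + 1 ∧
  (2 ≤ N ∧ wN = 2 ^ N ∧ E2 = 2 ^ e1 ∧ NK = N ^ k ∧ Me = M ^ (e1 * k) ∧ Sys N M e1 k c H) ∧
  G * b + 1 = w ∧ n ≤ N ∧ κ ≤ N ∧ K0 ≤ N ∧ 2 * N < B0 ∧ N * κ * w < NK ∧ k * (N * κ * w) < E2 ∧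
  (wn = 2 ^ n ∧ C3 = l.choose n) ∧ Me ∣ C3 ∧ (wn = 2 ^ n ∧ 1 ≤ b ∧ P0 = expY l b n) ∧
  (0 < Me ∧ NK * (P0 * H % Me) ≤ G * Me ∧ G * Me < NK * (P0 * H % Me) + Me) ∧
  (∀ j : Fin q, (0 < Me ∧ NK * (Z j * P0 * H % Me) ≤ X j * Me ∧
    X j * Me < NK * (Z j * P0 * H % Me) + Me)) ∧
  (∀ j : Fin q, ((Me : ℕ) : ℤ) ∣ Rg κ ((Z j : ℕ) : ℤ)) ∧
  ((Me : ℕ) : ℤ) ∣ Phiq κ q ρ (fun j => ((Z j : ℕ) : ℤ))

private theorem TQ_sound {κ q : ℕ} (hκ : 1 ≤ κ) {ρ : (Fin q → Fin κ) → Prop} {K0 : ℕ}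
    (hK : ∀ σ : Fin q → Fin κ, Phiq κ q ρ (fun k => ((σ k : ℕ) : ℤ)) < K0)
    {s B0 n w : ℕ} {X : Fin q → ℕ}
    {N e1 k wN E2 NK M Me c H l G wn C3 b P0 : ℕ} {Z : Fin q → ℕ}
    (h : TQ' κ q ρ K0 s B0 n w X N e1 k wN E2 NK M Me c H l G wn C3 b P0 Z) :
    s ≤ B0 ∧ 1 ≤ n ∧ w = B0 ^ n ∧ Tab κ q ρ B0 n X := by
  obtain ⟨h1, h2, h3, h4, ⟨h5, h6, h7, h8, h9, h10⟩, h11, h12, h13, h14, h15, h16, h17, ⟨h18, h19⟩,
    h20, ⟨-, h21, h22⟩, ⟨h23, h24, h25⟩, h26, h27, h28⟩ := h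
  have hb : B0 - 1 = b := by omega
  subst hb h6 h7 h8 h9 h18 h19 h22
  exact ⟨h2, h1, h3, tab_sound hκ hK
    { sys := h10
      hw := h3
      hG := h11
      hn := h12
      hκ := h13
      hK := h14
      hB := h15
      hs1 := h16
      hs2 := h17
      lab := h20
      sumP := ⟨h24, h25⟩
      sumZ := fun j => (h26 j).2
      rg := h27
      phi := h28 }⟩

private theorem TQ_complete {κ q : ℕ} {ρ : (Fin q → Fin κ) → Prop} {K0 : ℕ}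
    {s B0 n w : ℕ} {X : Fin q → ℕ} {N e1 k M c H l G : ℕ} {Z : Fin q → ℕ} (hN : 2 ≤ N)
    (h1 : s ≤ B0) (h2 : 1 ≤ n) (h3 : w = B0 ^ n)
    (h : TabWit κ q ρ K0 B0 n (B0 ^ n) G X N M e1 k c H l Z) :
    TQ' κ q ρ K0 s B0 n w X N e1 k (2 ^ N) (2 ^ e1) (N ^ k) M (M ^ (e1 * k)) c H l G (2 ^ n)
      (l.choose n) (B0 - 1) (expY l (B0 - 1) n) Z := by
  have hB : 2 * N < B0 := h.hB
  have hMe : 0 < M ^ (e1 * k) := lt_of_le_of_lt (Nat.zero_le _) h.sys.hH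
  subst h3
  exact ⟨h2, h1, rfl, by omega, ⟨hN, rfl, rfl, rfl, rfl, h.sys⟩, h.hG, h.hn, h.hκ, h.hK, hB, h.hs1,
    h.hs2, ⟨rfl, rfl⟩, h.lab, ⟨rfl, by omega, rfl⟩, ⟨hMe, h.sumP⟩, fun j => ⟨hMe, h.sumZ j⟩, h.rg,
    h.phi⟩

private abbrev TS (q : ℕ) : Type := (Fin 4 ⊕ Fin q) ⊕ (Fin 16 ⊕ Fin q)

/-- the matrix; witnesses `N e1 k wN E2 NK M Me c H l G wn C3 b P0` and `Z j` -/
private def TQ (κ q : ℕ) (ρ : (Fin q → Fin κ) → Prop) (K0 : ℕ) (u : TS q → ℕ) : Prop :=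
  TQ' κ q ρ K0 (u (.inl (.inl 0))) (u (.inl (.inl 1))) (u (.inl (.inl 2))) (u (.inl (.inl 3)))
    (fun j => u (.inl (.inr j)))
    (u (.inr (.inl 0))) (u (.inr (.inl 1))) (u (.inr (.inl 2))) (u (.inr (.inl 3)))
    (u (.inr (.inl 4))) (u (.inr (.inl 5))) (u (.inr (.inl 6))) (u (.inr (.inl 7)))
    (u (.inr (.inl 8))) (u (.inr (.inl 9))) (u (.inr (.inl 10))) (u (.inr (.inl 11)))
    (u (.inr (.inl 12))) (u (.inr (.inl 13))) (u (.inr (.inl 14))) (u (.inr (.inl 15)))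
    (fun j => u (.inr (.inr j)))

private theorem dd_TQ (κ q : ℕ) (ρ : (Fin q → Fin κ) → Prop) (K0 : ℕ) :
    DD (Sum.inl (Sum.inl 0) : TS q) (TQ κ q ρ K0) := by
  have cc : ∀ i : TS q, NPoly (fun u : TS q → ℕ => u i) := fun i => NPoly.coord i
  have kk : ∀ a : ℕ, NPoly (fun _ : TS q → ℕ => a) := fun a => NPoly.const a
  have pp : ∀ i : TS q, PolyFun (fun u : TS q → ℕ => ((u i : ℕ) : ℤ)) := fun i => PolyFun.coord i
  have gen : ∀ (s B0 n w : (TS q → ℕ) → ℕ) (X : Fin q → (TS q → ℕ) → ℕ)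
      (N e1 k wN E2 NK M Me c H l G wn C3 b P0 : (TS q → ℕ) → ℕ) (Z : Fin q → (TS q → ℕ) → ℕ),
      NPoly s → NPoly B0 → NPoly n → NPoly w → (∀ j, NPoly (X j)) → NPoly N → NPoly e1 → NPoly k →
      NPoly wN → NPoly E2 → NPoly NK → NPoly M → NPoly Me → NPoly c → NPoly H → NPoly l →
      NPoly G → NPoly wn → NPoly C3 → NPoly b → NPoly P0 → (∀ j, NPoly (Z j)) →
      DD (Sum.inl (Sum.inl 0) : TS q) (fun u => TQ' κ q ρ K0 (s u) (B0 u) (n u) (w u)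
        (fun j => X j u) (N u) (e1 u) (k u) (wN u) (E2 u) (NK u) (M u) (Me u) (c u) (H u) (l u)
        (G u) (wn u) (C3 u) (b u) (P0 u) (fun j => Z j u)) := by
    intro s B0 n w X N e1 k wN E2 NK M Me c H l G wn C3 b P0 Z hs hB0 hn hw hX hN he1 hk hwN hE2 hNK
      hM hMe hc hH hl hG hwn hC3 hb hP0 hZ
    have q1 := DD.natLe (o := (Sum.inl (Sum.inl 0) : TS q)) (kk 1) hn
    have q2 := DD.natLe (o := (Sum.inl (Sum.inl 0) : TS q)) hs hB0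
    have q3 := DD.pow (o := (Sum.inl (Sum.inl 0) : TS q)) hB0 hn hw
    have q4 := DD.natEq (o := (Sum.inl (Sum.inl 0) : TS q)) hB0 (hb.add (kk 1))
    have q5 := DD.sys (o := (Sum.inl (Sum.inl 0) : TS q)) hN hM he1 hk hc hH hwN hE2 hNK hMe
    have q6 := DD.natEq (o := (Sum.inl (Sum.inl 0) : TS q)) ((hG.mul hb).add (kk 1)) hw
    have q7 := DD.natLe (o := (Sum.inl (Sum.inl 0) : TS q)) hn hN
    have q8 := DD.natLe (o := (Sum.inl (Sum.inl 0) : TS q)) (kk κ) hN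
    have q9 := DD.natLe (o := (Sum.inl (Sum.inl 0) : TS q)) (kk K0) hN
    have q10 := DD.natLt (o := (Sum.inl (Sum.inl 0) : TS q)) ((kk 2).mul hN) hB0
    have q11 := DD.natLt (o := (Sum.inl (Sum.inl 0) : TS q)) ((hN.mul (kk κ)).mul hw) hNK
    have q12 := DD.natLt (o := (Sum.inl (Sum.inl 0) : TS q))
      (hk.mul ((hN.mul (kk κ)).mul hw)) hE2
    have q13 := DD.choose (o := (Sum.inl (Sum.inl 0) : TS q)) hl hn hwn hC3
    have q14 := DD.natDvd (o := (Sum.inl (Sum.inl 0) : TS q)) hMe hC3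
    have q15 := DD.expY (o := (Sum.inl (Sum.inl 0) : TS q)) hl hb hn hwn hP0
    have q16 := DD.of_dio (Sum.inl (Sum.inl 0) : TS q) (Dio.sumP hNK hMe hH hP0 hG)
    have q17 := DD.all (o := (Sum.inl (Sum.inl 0) : TS q)) (fun j : Fin q =>
      DD.of_dio (Sum.inl (Sum.inl 0) : TS q)
        (Dio.sumP hNK hMe hH ((hZ j).mul hP0) (hX j)))
    have q18 := DD.all (o := (Sum.inl (Sum.inl 0) : TS q)) (fun j : Fin q =>
      DD.intDvd (o := (Sum.inl (Sum.inl 0) : TS q)) hMe (PolyFun.rg κ (hZ j)))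
    have q19 := DD.intDvd (o := (Sum.inl (Sum.inl 0) : TS q)) hMe
      (polyFun_phiq ρ (f := fun j u => ((Z j u : ℕ) : ℤ)) fun j => hZ j)
    exact q1.and (q2.and (q3.and (q4.and (q5.and (q6.and (q7.and (q8.and (q9.and (q10.and
      (q11.and (q12.and (q13.and (q14.and (q15.and (q16.and (q17.and (q18.and q19)))))))))))))))))
  exact gen _ _ _ _ (fun j u => u (.inl (.inr j))) _ _ _ _ _ _ _ _ _ _ _ _ _ _ _ _
    (fun j u => u (.inr (.inr j)))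
    (cc (.inl (.inl 0))) (cc (.inl (.inl 1))) (cc (.inl (.inl 2))) (cc (.inl (.inl 3)))
    (fun j => cc (.inl (.inr j)))
    (cc (.inr (.inl 0))) (cc (.inr (.inl 1))) (cc (.inr (.inl 2))) (cc (.inr (.inl 3)))
    (cc (.inr (.inl 4))) (cc (.inr (.inl 5))) (cc (.inr (.inl 6))) (cc (.inr (.inl 7)))
    (cc (.inr (.inl 8))) (cc (.inr (.inl 9))) (cc (.inr (.inl 10))) (cc (.inr (.inl 11)))
    (cc (.inr (.inl 12))) (cc (.inr (.inl 13))) (cc (.inr (.inl 14))) (cc (.inr (.inl 15)))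
    (fun j => cc (.inr (.inr j)))

/-- existence of witnesses with bounds is enough -/
private theorem dd_choice {σ τ : Type} {o : σ} {C : (σ → ℕ) → Prop} {Q : (σ ⊕ τ → ℕ) → Prop}
    (F : (σ → ℕ) → τ → ℕ) (hF : ∀ j, Big o C (fun v => F v j)) (S0 : ℕ)
    (h : ∀ v, S0 ≤ v o → C v → ∃ u : τ → ℕ, Q (Sum.elim v u) ∧ ∀ j, u j ≤ F v j) :
    ∃ W : (σ → ℕ) → τ → ℕ, (∀ j, Big o C (fun v => W v j)) ∧
      ∃ S0, ∀ v, S0 ≤ v o → C v → Q (Sum.elim v (W v)) := by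
  classical
  have key : ∀ v, ∃ u : τ → ℕ, (∀ j, u j ≤ F v j) ∧ (S0 ≤ v o → C v → Q (Sum.elim v u)) := by
    intro v
    by_cases hv : S0 ≤ v o ∧ C v
    · obtain ⟨u, hu1, hu2⟩ := h v hv.1 hv.2
      exact ⟨u, hu2, fun _ _ => hu1⟩
    · exact ⟨fun _ => 0, fun j => Nat.zero_le _, fun h1 h2 => absurd ⟨h1, h2⟩ hv⟩
  choose W hW1 hW2 using key
  exact ⟨W, fun j => (hF j).mono fun v _ => hW1 v j, S0, fun v hs hc => hW2 v hs hc⟩

private noncomputable def tN (a : ℕ) : ℕ := (exists_many_primes a).choose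

private theorem tN_spec (a : ℕ) : a ≤ tN a ∧ tN a ≤ 4096 * (a + 1) ^ 3 ∧
    a ≤ ((Ioc (tN a) (2 * tN a)).filter Nat.Prime).card := (exists_many_primes a).choose_spec

private theorem geom_le (B n : ℕ) (hB : 2 ≤ B) : ∑ i ∈ range n, B ^ i ≤ B ^ n := by
  induction n with
  | zero => simp
  | succ n ih =>
    rw [sum_range_succ, pow_succ]
    nlinarith [Nat.zero_le (B ^ n)]

private def TP (κ q : ℕ) (ρ : (Fin q → Fin κ) → Prop) (v : Fin 4 ⊕ Fin q → ℕ) : Prop :=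
  v (.inl 0) ≤ v (.inl 1) ∧ 1 ≤ v (.inl 2) ∧ v (.inl 3) = v (.inl 1) ^ v (.inl 2) ∧
    Tab κ q ρ (v (.inl 1)) (v (.inl 2)) (fun j => v (.inr j))

/-- pointwise completeness with bounds -/
private theorem TQ_exists {κ q : ℕ} (hκ : 1 ≤ κ) {ρ : (Fin q → Fin κ) → Prop} {K0 : ℕ}
    (hK0 : ∀ σ : Fin q → Fin κ, Phiq κ q ρ (fun k => ((σ k : ℕ) : ℤ)) < K0)
    {v : Fin 4 ⊕ Fin q → ℕ} (hv : TP κ q ρ v) {N k e : ℕ} (hN : N = tN (v (.inl 2) + κ + K0 + 2))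
    (hk : k = len (N * κ * v (.inl 3))) (he : e = len (k * (N * κ * v (.inl 3))))
    (hlt : 2 * N < v (.inl 0)) :
    ∃ u : Fin 16 ⊕ Fin q → ℕ, TQ κ q ρ K0 (Sum.elim v u) ∧
      ∀ j, u j ≤ Sum.elim ![N, e, k, 2 ^ N, 2 ^ e, N ^ k, 4 ^ N,
      (4 ^ N) ^ (e * k), 2 * (4 ^ N) ^ (e * k + 1),
      (4 ^ N) ^ (e * k), (4 ^ N) ^ (e * k), v (.inl 3), 2 ^ v (.inl 2),
      ((4 ^ N) ^ (e * k)) ^ v (.inl 2), v (.inl 1),
      (((4 ^ N) ^ (e * k) + 1) * v (.inl 1)) ^ v (.inl 2)]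
      (fun _ : Fin q => (4 ^ N) ^ (e * k)) j := by
  obtain ⟨h1, h2, h3, htab⟩ := hv
  obtain ⟨hN1, -, hN3⟩ := tN_spec (v (.inl 2) + κ + K0 + 2)
  rw [← hN] at hN1 hN3
  have hN2 : 2 ≤ N := by omega
  have e1 : N * κ * v (.inl 1) ^ v (.inl 2) < N ^ k := by
    rw [← h3, hk]
    exact (lt_two_pow_len _).trans_le (Nat.pow_le_pow_left hN2 _)
  have e2 : k * (N * κ * v (.inl 1) ^ v (.inl 2)) < 2 ^ e := by
    rw [← h3, he]
    exact lt_two_pow_len _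
  obtain ⟨M, c, H, l, Z, hM, hcc, hl, hZ, hwit⟩ := tab_complete hκ hK0 h2 htab (N := N)
    (e1 := e) (k := k) (by omega) (by omega) (by omega) (by omega)
    (le_trans (by omega) hN3) e1 e2
  have hMe : M ^ (e * k) ≤ (4 ^ N) ^ (e * k) := Nat.pow_le_pow_left hM _
  have hH : H < M ^ (e * k) := hwit.sys.hH
  have hB2 : 2 ≤ v (.inl 1) := by omega
  have hQ := TQ_complete (s := v (.inl 0)) (w := v (.inl 3)) hN2 h1 h2 h3 hwit
  refine ⟨Sum.elim ![N, e, k, 2 ^ N, 2 ^ e, N ^ k, M, M ^ (e * k), c, H, l,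
    ∑ i ∈ range (v (.inl 2)), v (.inl 1) ^ i, 2 ^ v (.inl 2), l.choose (v (.inl 2)),
    v (.inl 1) - 1, expY l (v (.inl 1) - 1) (v (.inl 2))] Z, hQ, ?_⟩
  have b11 : ∑ i ∈ range (v (.inl 2)), v (.inl 1) ^ i ≤ v (.inl 3) := by
    rw [h3]
    exact geom_le _ _ hB2
  have b15 : expY l (v (.inl 1) - 1) (v (.inl 2)) ≤
      (((4 ^ N) ^ (e * k) + 1) * v (.inl 1)) ^ v (.inl 2) := by
    refine (expY_le (by omega)).trans (Nat.pow_le_pow_left ?_ _)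
    exact Nat.mul_le_mul (Nat.succ_le_succ (hl.le.trans hMe)) (Nat.sub_le _ _)
  have b13 : l.choose (v (.inl 2)) ≤ ((4 ^ N) ^ (e * k)) ^ v (.inl 2) :=
    (Nat.choose_le_pow _ _).trans (Nat.pow_le_pow_left (hl.le.trans hMe) _)
  rintro (j | j)
  · rw [Sum.elim_inl, Sum.elim_inl]
    fin_cases j
    · exact le_refl N
    · exact le_refl e
    · exact le_refl k
    · exact le_refl (2 ^ N)
    · exact le_refl (2 ^ e)
    · exact le_refl (N ^ k)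
    · exact hM
    · exact hMe
    · exact hcc.trans (Nat.mul_le_mul_left _ (Nat.pow_le_pow_left hM _))
    · exact hH.le.trans hMe
    · exact hl.le.trans hMe
    · exact b11
    · exact le_refl (2 ^ v (.inl 2))
    · exact b13
    · exact Nat.sub_le _ _
    · exact b15
  · exact (hZ j).le.trans hMe

private theorem dd_TP {κ : ℕ} (q : ℕ) (hκ : 1 ≤ κ) (ρ : (Fin q → Fin κ) → Prop) :
    DD (Sum.inl 0 : Fin 4 ⊕ Fin q) (TP κ q ρ) := by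
  obtain ⟨K0, hK0⟩ := Phiq_bound κ q ρ
  refine (dd_TQ κ q ρ K0).exs (fun K1 => ?_)
    (fun _ => ⟨0, fun v w _ _ _ hq => TQ_sound hκ hK0 hq⟩)
  set C : (Fin 4 ⊕ Fin q → ℕ) → Prop := fun v => Bnd (Sum.inl 0) K1 v ∧ TP κ q ρ v with hC
  have bc : ∀ i, Big (Sum.inl 0) C (fun v => v i) := fun i => Big.coord K1 i
  have sn : Small (Sum.inl 0) C (fun v => v (.inl 2)) := by
    refine Small.of_two_pow ((bc (.inl 3)).mono' 2 fun v hs hv => ?_)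
    have h3 : v (.inl 3) = v (.inl 1) ^ v (.inl 2) := hv.2.2.2.1
    have h1 : v (.inl 0) ≤ v (.inl 1) := hv.2.1
    rw [h3]
    exact Nat.pow_le_pow_left (hs.trans h1) _
  -- the functions
  obtain ⟨fN, hfN⟩ : ∃ fN : (Fin 4 ⊕ Fin q → ℕ) → ℕ, ∀ v, fN v = tN (v (.inl 2) + κ + K0 + 2) :=
    ⟨_, fun _ => rfl⟩
  obtain ⟨fk, hfk⟩ : ∃ fk : (Fin 4 ⊕ Fin q → ℕ) → ℕ, ∀ v, fk v = len (fN v * κ * v (.inl 3)) :=
    ⟨_, fun _ => rfl⟩
  obtain ⟨fe, hfe⟩ : ∃ fe : (Fin 4 ⊕ Fin q → ℕ) → ℕ,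
      ∀ v, fe v = len (fk v * (fN v * κ * v (.inl 3))) := ⟨_, fun _ => rfl⟩
  have sN : Small (Sum.inl 0) C fN := by
    refine Small.mono ((Small.const 4096).mul (((((sn.add (Small.const κ)).add
      (Small.const K0)).add (Small.const 2)).add (Small.const 1)).pow 3)) fun v _ => ?_
    rw [hfN]
    exact (tN_spec _).2.1
  have bNκw : Big (Sum.inl 0) C (fun v => fN v * κ * v (.inl 3)) :=
    ((sN.big).mul (Big.const κ)).mul (bc (.inl 3))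
  have sk : Small (Sum.inl 0) C fk := bNκw.len.mono fun v _ => (hfk v).le
  have se : Small (Sum.inl 0) C fe := (sk.big.mul bNκw).len.mono fun v _ => (hfe v).le
  have bM : Big (Sum.inl 0) C (fun v => 4 ^ fN v) := (Big.const 4).pow sN
  have bMe : Big (Sum.inl 0) C (fun v => (4 ^ fN v) ^ (fe v * fk v)) := bM.pow (se.mul sk)
  have bcc : Big (Sum.inl 0) C (fun v => 2 * (4 ^ fN v) ^ (fe v * fk v + 1)) :=
    (Big.const 2).mul (bM.pow ((se.mul sk).add (Small.const 1)))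
  obtain ⟨S1, hS1⟩ := ((Small.const (o := (Sum.inl 0 : Fin 4 ⊕ Fin q)) (C := C) 2).mul sN).lt_size
  obtain ⟨W, hW1, S2, hW2⟩ := dd_choice (Q := TQ κ q ρ K0) (C := C) (o := Sum.inl 0)
    (fun v => Sum.elim ![fN v, fe v, fk v, 2 ^ fN v, 2 ^ fe v, fN v ^ fk v, 4 ^ fN v,
      (4 ^ fN v) ^ (fe v * fk v), 2 * (4 ^ fN v) ^ (fe v * fk v + 1),
      (4 ^ fN v) ^ (fe v * fk v), (4 ^ fN v) ^ (fe v * fk v), v (.inl 3), 2 ^ v (.inl 2),
      ((4 ^ fN v) ^ (fe v * fk v)) ^ v (.inl 2), v (.inl 1),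
      (((4 ^ fN v) ^ (fe v * fk v) + 1) * v (.inl 1)) ^ v (.inl 2)]
      (fun _ => (4 ^ fN v) ^ (fe v * fk v)))
    (by
      rintro (j | j)
      · fin_cases j
        · exact sN.big
        · exact se.big
        · exact sk.big
        · exact (Big.const 2).pow sN
        · exact (Big.const 2).pow se
        · exact sN.big.pow sk
        · exact bM
        · exact bMe
        · exact bcc
        · exact bMe
        · exact bMe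
        · exact bc (.inl 3)
        · exact (Big.const 2).pow sn
        · exact bMe.pow sn
        · exact bc (.inl 1)
        · exact ((bMe.add (Big.const 1)).mul (bc (.inl 1))).pow sn
      · exact bMe)
    S1 (fun v hs hc => TQ_exists hκ hK0 hc.2 (hfN v) (hfk v) (hfe v) (hS1 v hs hc))
  exact ⟨W, hW1, S2, fun v hs hb hp => hW2 v hs ⟨hb, hp⟩⟩

theorem dd_tab {κ : ℕ} (q : ℕ) (hκ : 1 ≤ κ) (ρ : (Fin q → Fin κ) → Prop) :
    DD (Sum.inl 0 : Fin 4 ⊕ Fin q) (fun v => v (.inl 0) ≤ v (.inl 1) ∧ 1 ≤ v (.inl 2) ∧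
      v (.inl 3) = v (.inl 1) ^ v (.inl 2) ∧
      Tab κ q ρ (v (.inl 1)) (v (.inl 2)) (fun j => v (.inr j))) :=
  dd_TP q hκ ρ

theorem DD.tab {σ : Type} [Fintype σ] {o : σ} {κ q : ℕ} (hκ : 1 ≤ κ)
    (ρ : (Fin q → Fin κ) → Prop) {B0 n w : (σ → ℕ) → ℕ} {X : Fin q → (σ → ℕ) → ℕ}
    (hB0 : NPoly B0) (hn : NPoly n) (hw : NPoly w) (hX : ∀ j, NPoly (X j)) :
    DD o (fun v => v o ≤ B0 v ∧ 1 ≤ n v ∧ w v = B0 v ^ n v ∧
      Tab κ q ρ (B0 v) (n v) (fun j => X j v)) := by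
  have h := (dd_tab q hκ ρ).subst (o' := o)
    (Sum.elim ![fun v => v o, B0, n, w] X) (by
    rintro (i | j)
    · fin_cases i
      · exact NPoly.coord o
      · exact hB0
      · exact hn
      · exact hw
    · exact hX j) (fun v => rfl)
  exact h.congr fun v => Iff.rfl

end Pool.Agent.DNP18
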