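import Pool.Agent.DNP18.LegDef

/-!
# [DNP-LEGB] the recurrence of the Legendre numbers

Compare the coefficients of `a^(m+2-i) b^i`:
`(m+2) C(m+2,i)^2 + (m+1) (C(m,i)^2 - 2 C(m,i-1)^2 + C(m,i-2)^2) = (2m+3) (C(m+1,i)^2 + C(m+1,i-1)^2)`,
an identity of rational functions after division by `C(m+2,i)^2`, since `C(m+1,i) = C(m+2,i) (m+2-i)/(m+2)`,
`C(m+1,i-1) = C(m+2,i) i/(m+2)`, `C(m,i) = C(m+2,i) (m+2-i)(m+1-i)/((m+2)(m+1))`,
`C(m,i-1) = C(m+2,i) i (m+2-i)/((m+2)(m+1))`, `C(m,i-2) = C(m+2,i) i (i-1)/((m+2)(m+1))`.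
(One may also work with polynomials, or find another proof.)
-/

namespace Pool.Agent.DNP18

open Finset

/-- homogeneous sum -/
private def lS (f : ℕ → ℤ) (M : ℕ) (a b : ℤ) : ℤ := ∑ i ∈ range (M + 1), f i * a ^ (M - i) * b ^ i

/-- shifted coefficients -/
private def lsh (f : ℕ → ℤ) : ℕ → ℤ
  | 0 => 0
  | i + 1 => f i

private theorem lS_a (f : ℕ → ℤ) (M : ℕ) (a b : ℤ) (h : f (M + 1) = 0) : a * lS f M a b = lS f (M + 1) a b := by
  unfold lS
  rw [sum_range_succ _ (M + 1), h, zero_mul, zero_mul, add_zero, mul_sum]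
  refine sum_congr rfl fun i hi => ?_
  have hi' : i ≤ M := Nat.lt_succ_iff.1 (mem_range.1 hi)
  have h1 : M + 1 - i = (M - i) + 1 := by omega
  rw [h1, pow_succ]
  ring

private theorem lS_b (f : ℕ → ℤ) (M : ℕ) (a b : ℤ) : b * lS f M a b = lS (lsh f) (M + 1) a b := by
  unfold lS
  rw [sum_range_succ' _ (M + 1), mul_sum]
  simp only [lsh, zero_mul, add_zero]
  refine sum_congr rfl fun i hi => ?_
  have h1 : M + 1 - (i + 1) = M - i := by omega
  rw [h1, pow_succ]
  ring

/-- squares of binomial coefficients -/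
private def lc (m i : ℕ) : ℤ := (m.choose i : ℤ) ^ 2

private theorem lc_zero {m i : ℕ} (h : m < i) : lc m i = 0 := by
  unfold lc
  rw [Nat.choose_eq_zero_of_lt h]
  simp

private theorem leg_lS (m a b : ℕ) : (leg m a b : ℤ) = lS (lc m) m a b := by
  unfold leg lS lc
  push_cast
  rfl

private theorem lchoose (m i : ℕ) : (m.choose (i + 1) : ℤ) * (i + 1) = m.choose i * ((m : ℤ) - i) := by
  have h := Nat.choose_succ_right_eq m i
  rcases le_or_gt i m with hi | hi
  · have h2 : ((m - i : ℕ) : ℤ) = (m : ℤ) - i := by omega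
    rw [← h2]
    exact_mod_cast h
  · rw [Nat.choose_eq_zero_of_lt hi, Nat.choose_eq_zero_of_lt (by omega)]
    simp

private theorem lterm (m i : ℕ) :
    ((m : ℤ) + 2) * lc (m + 2) i + (m + 1) * (lc m i - 2 * lsh (lc m) i + lsh (lsh (lc m)) i) =
      (2 * m + 3) * (lc (m + 1) i + lsh (lc (m + 1)) i) := by
  match i with
  | 0 =>
    simp only [lc, lsh, Nat.choose_zero_right]
    push_cast
    ring
  | 1 =>
    simp only [lc, lsh, Nat.choose_zero_right, Nat.choose_one_right]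
    push_cast
    ring
  | i + 2 =>
    have h1 := lchoose m i
    have h2 := lchoose m (i + 1)
    have e1 : (m + 1).choose (i + 2) = m.choose (i + 1) + m.choose (i + 2) := Nat.choose_succ_succ m (i + 1)
    have e2 : (m + 1).choose (i + 1) = m.choose i + m.choose (i + 1) := Nat.choose_succ_succ m i
    have e3 : (m + 2).choose (i + 2) = (m + 1).choose (i + 1) + (m + 1).choose (i + 2) :=
      Nat.choose_succ_succ (m + 1) (i + 1)
    simp only [lc, lsh]
    rw [e3, e1, e2]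
    push_cast at h1 h2 ⊢
    have e4 : i + 1 + 1 = i + 2 := rfl
    rw [e4] at h2
    generalize (m.choose (i + 2) : ℤ) = x at *
    generalize (m.choose (i + 1) : ℤ) = y at *
    generalize (m.choose i : ℤ) = z at *
    have h3 : ((i : ℤ) + 2) ≠ 0 := by positivity
    apply mul_left_cancel₀ h3
    linear_combination (2 * (y + (m + 2) * z)) * h2 - (2 * y * (m + 1)) * h1

theorem leg_rec (m a b : ℕ) :
    ((m : ℤ) + 2) * leg (m + 2) a b + (m + 1) * ((a : ℤ) - b) ^ 2 * leg m a b =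
      (2 * m + 3) * (a + b) * leg (m + 1) a b := by
  rw [leg_lS, leg_lS, leg_lS]
  have h0 : lc m (m + 1) = 0 := lc_zero (by omega)
  have h1 : lc m (m + 2) = 0 := lc_zero (by omega)
  have h2 : lc (m + 1) (m + 2) = 0 := lc_zero (by omega)
  have a1 := lS_a (lc m) m a b h0
  have a2 := lS_a (lc m) (m + 1) a b h1
  have b1 := lS_b (lc m) m a b
  have ab := lS_b (lc m) (m + 1) a b
  have b2 := lS_b (lsh (lc m)) (m + 1) a b
  have c1 := lS_a (lc (m + 1)) (m + 1) a b h2
  have c2 := lS_b (lc (m + 1)) (m + 1) a b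
  have key : ((m : ℤ) + 2) * lS (lc (m + 2)) (m + 2) a b + (m + 1) * (lS (lc m) (m + 2) a b
      - 2 * lS (lsh (lc m)) (m + 2) a b + lS (lsh (lsh (lc m))) (m + 2) a b) =
      (2 * m + 3) * (lS (lc (m + 1)) (m + 2) a b + lS (lsh (lc (m + 1))) (m + 2) a b) := by
    unfold lS
    simp only [mul_sum, ← sum_add_distrib, ← sum_sub_distrib]
    refine sum_congr rfl fun i _ => ?_
    linear_combination ((a : ℤ) ^ (m + 2 - i) * b ^ i) * lterm m i
  have e : m + 1 + 1 = m + 2 := rfl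
  rw [e] at a2 ab b2 c1 c2
  rw [← a2, ← a1, ← ab, ← a1, ← b2, ← b1, ← c1, ← c2] at key
  linear_combination key

end Pool.Agent.DNP18
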