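import Pool.Agent.DNP18.LegA
import Pool.Agent.DNP18.LegB

/-!
# [DNP-LEGD] the Casorati identity

`D_m := alp (m+1) * leg m - (m+1) * alp m * leg (m+1)` satisfies `D_0 = 1` and `D_{m+1} = (m+1) d^2 D_m`
by the two recurrences (`d = a - b`). Nonnegativity by induction from the identity, as
`alp (m+1) * leg m = (m+1) * alp m * leg (m+1) + m! d^(2m)` and `leg m > 0` (for `a + b = 0` directly).
-/

namespace Pool.Agent.DNP18

open Finset Nat

theorem casorati (a b m : ℕ) :
    alp a b (m + 1) * leg m a b - (m + 1) * alp a b m * leg (m + 1) a b =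
      (m ! : ℤ) * ((a : ℤ) - b) ^ (2 * m) := by
  induction m with
  | zero => simp
  | succ m ih =>
    have hr := leg_rec m a b
    have ha := alp_succ_succ a b m
    have hf : (((m + 1)! : ℕ) : ℤ) = ((m : ℤ) + 1) * (m ! : ℤ) := by
      rw [Nat.factorial_succ]
      push_cast
      ring
    rw [hf]
    have h2 : ((a : ℤ) - b) ^ (2 * (m + 1)) = ((a : ℤ) - b) ^ 2 * ((a : ℤ) - b) ^ (2 * m) := by
      rw [← pow_add]
      congr 1
      ring
    rw [h2]
    have e1 : m + 1 + 1 = m + 2 := rfl
    rw [e1]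
    push_cast
    rw [ha]
    linear_combination (-(alp a b (m + 1))) * hr + ((m : ℤ) + 1) * ((a : ℤ) - b) ^ 2 * ih

theorem alp_nonneg {a b : ℕ} (h : 0 < a + b) (m : ℕ) : 0 ≤ alp a b m := by
  induction m with
  | zero => simp
  | succ m ih =>
    have hc := casorati a b m
    have hl : (0 : ℤ) < (leg m a b : ℤ) := by
      exact_mod_cast leg_pos m h
    have h1 : (0 : ℤ) ≤ (m ! : ℤ) * ((a : ℤ) - b) ^ (2 * m) := by
      apply mul_nonneg (by positivity)
      rw [pow_mul]
      positivity
    have h2 : (0 : ℤ) ≤ (m + 1) * alp a b m * leg (m + 1) a b := by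
      apply mul_nonneg (mul_nonneg (by positivity) ih) (by positivity)
    have h3 : 0 ≤ alp a b (m + 1) * leg m a b := by linarith
    exact nonneg_of_mul_nonneg_left h3 hl

end Pool.Agent.DNP18
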