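import Pool.Agent.DNP18.LegC
import Pool.Agent.DNP18.LegD

/-!
# [DNP-GCD] consecutive Legendre numbers have a small common divisor

Let `g = gcd (leg (m+1)) (leg m)`, `d = a - b`, `C = C(2m+2,m+1)`, `gcd(a,b) = 1`.
`g ∣ m! d^(2m)` by `casorati`. By `leg_mod_left`, `C a^(m+1) = leg (m+1) + d z`, so
`m! (C a^(m+1))^(2m) ≡ m! (d z)^(2m)` modulo `leg (m+1)`, hence modulo `g`, and so `g ∣ m! C^(2m) a^((m+1) 2m)`;
the same with `b` by `leg_mod_right`. As `gcd(a^.., b^..) = 1`: `g ∣ m! C^(2m)`.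
Bound: `m! ≤ m^m ≤ 2^(m²)`, `C ≤ 4^(m+1)`, so `m! C^(2m) ≤ 2^(m² + 4m(m+1)) ≤ 2^(5 (m+1)²)`.
-/

namespace Pool.Agent.DNP18

open Nat

/-- the common step of both congruences, over the integers -/
private theorem gcd_aux {L K d x y g F : ℤ} (m : ℕ) (hL : g ∣ L) (hF : g ∣ F * d ^ (2 * m))
    (hd : d ∣ L - K * x ^ y.toNat) : g ∣ F * (K * x ^ y.toNat) ^ (2 * m) := by
  obtain ⟨z, hz⟩ := hd
  have h1 : L ∣ (K * x ^ y.toNat) ^ (2 * m) - (-(d * z)) ^ (2 * m) := by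
    have h2 := sub_dvd_pow_sub_pow (K * x ^ y.toNat) (-(d * z)) (2 * m)
    have h3 : K * x ^ y.toNat - -(d * z) = L := by linarith
    rwa [h3] at h2
  have h4 : (-(d * z)) ^ (2 * m) = d ^ (2 * m) * z ^ (2 * m) := by
    rw [Even.neg_pow (even_two_mul m), mul_pow]
  rw [h4] at h1
  have h5 : F * (K * x ^ y.toNat) ^ (2 * m) =
      F * ((K * x ^ y.toNat) ^ (2 * m) - d ^ (2 * m) * z ^ (2 * m)) +
        (F * d ^ (2 * m)) * z ^ (2 * m) := by ring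
  rw [h5]
  exact dvd_add (Dvd.dvd.mul_left (hL.trans h1) _) (Dvd.dvd.mul_right hF _)

theorem gcd_leg_dvd {a b : ℕ} (hco : Nat.Coprime a b) (m : ℕ) :
    Nat.gcd (leg (m + 1) a b) (leg m a b) ∣ m ! * ((2 * (m + 1)).choose (m + 1)) ^ (2 * m) := by
  set g : ℕ := Nat.gcd (leg (m + 1) a b) (leg m a b) with hg
  set C : ℕ := (2 * (m + 1)).choose (m + 1) with hC
  have h1 : (g : ℤ) ∣ (leg (m + 1) a b : ℤ) := Int.natCast_dvd_natCast.mpr (Nat.gcd_dvd_left _ _)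
  have h0 : (g : ℤ) ∣ (leg m a b : ℤ) := Int.natCast_dvd_natCast.mpr (Nat.gcd_dvd_right _ _)
  have hF : (g : ℤ) ∣ (m ! : ℤ) * ((a : ℤ) - b) ^ (2 * m) := by
    rw [← casorati a b m]
    exact dvd_sub (Dvd.dvd.mul_left h0 _) (Dvd.dvd.mul_left h1 _)
  have hA : (g : ℤ) ∣ (m ! : ℤ) * ((C : ℤ) * (a : ℤ) ^ (m + 1)) ^ (2 * m) := by
    have := gcd_aux (L := (leg (m + 1) a b : ℤ)) (K := (C : ℤ)) (d := (a : ℤ) - b) (x := (a : ℤ))
      (y := ((m + 1 : ℕ) : ℤ)) (g := (g : ℤ)) (F := (m ! : ℤ)) m h1 hF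
      (by rw [Int.toNat_natCast]; exact leg_mod_left (m + 1) a b)
    rwa [Int.toNat_natCast] at this
  have hB : (g : ℤ) ∣ (m ! : ℤ) * ((C : ℤ) * (b : ℤ) ^ (m + 1)) ^ (2 * m) := by
    have := gcd_aux (L := (leg (m + 1) a b : ℤ)) (K := (C : ℤ)) (d := (a : ℤ) - b) (x := (b : ℤ))
      (y := ((m + 1 : ℕ) : ℤ)) (g := (g : ℤ)) (F := (m ! : ℤ)) m h1 hF
      (by rw [Int.toNat_natCast]; exact leg_mod_right (m + 1) a b)
    rwa [Int.toNat_natCast] at this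
  have hA' : g ∣ m ! * C ^ (2 * m) * (a ^ (m + 1)) ^ (2 * m) := by
    have h2 : (m ! : ℤ) * ((C : ℤ) * (a : ℤ) ^ (m + 1)) ^ (2 * m) =
        ((m ! * C ^ (2 * m) * (a ^ (m + 1)) ^ (2 * m) : ℕ) : ℤ) := by
      push_cast
      rw [mul_pow]
      ring
    rw [h2] at hA
    exact Int.natCast_dvd_natCast.mp hA
  have hB' : g ∣ m ! * C ^ (2 * m) * (b ^ (m + 1)) ^ (2 * m) := by
    have h2 : (m ! : ℤ) * ((C : ℤ) * (b : ℤ) ^ (m + 1)) ^ (2 * m) =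
        ((m ! * C ^ (2 * m) * (b ^ (m + 1)) ^ (2 * m) : ℕ) : ℤ) := by
      push_cast
      rw [mul_pow]
      ring
    rw [h2] at hB
    exact Int.natCast_dvd_natCast.mp hB
  have hcop : Nat.Coprime ((a ^ (m + 1)) ^ (2 * m)) ((b ^ (m + 1)) ^ (2 * m)) :=
    Nat.Coprime.pow _ _ (Nat.Coprime.pow _ _ hco)
  have h3 := Nat.dvd_gcd hA' hB'
  rw [Nat.gcd_mul_left, hcop.gcd_eq_one, mul_one] at h3
  exact h3

theorem fact_le (m : ℕ) : m ! ≤ 2 ^ m ^ 2 := by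
  calc m ! ≤ m ^ m := Nat.factorial_le_pow m
    _ ≤ (2 ^ m) ^ m := Nat.pow_le_pow_left (Nat.lt_two_pow_self).le m
    _ = 2 ^ m ^ 2 := by rw [← pow_mul, sq]

theorem gcd_leg_le {a b : ℕ} (hco : Nat.Coprime a b) (m : ℕ) :
    Nat.gcd (leg (m + 1) a b) (leg m a b) ≤ 2 ^ (5 * (m + 1) ^ 2) := by
  have hpos : 0 < m ! * ((2 * (m + 1)).choose (m + 1)) ^ (2 * m) :=
    Nat.mul_pos (Nat.factorial_pos m) (pow_pos (Nat.choose_pos (by omega)) _)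
  refine (Nat.le_of_dvd hpos (gcd_leg_dvd hco m)).trans ?_
  have h1 : ((2 * (m + 1)).choose (m + 1)) ^ (2 * m) ≤ (2 ^ (2 * (m + 1))) ^ (2 * m) :=
    Nat.pow_le_pow_left (Nat.choose_le_two_pow _ _) _
  calc m ! * ((2 * (m + 1)).choose (m + 1)) ^ (2 * m)
      ≤ 2 ^ m ^ 2 * (2 ^ (2 * (m + 1))) ^ (2 * m) := Nat.mul_le_mul (fact_le m) h1
    _ = 2 ^ (m ^ 2 + 2 * (m + 1) * (2 * m)) := by rw [← pow_mul, ← pow_add]
    _ ≤ 2 ^ (5 * (m + 1) ^ 2) := Nat.pow_le_pow_right (by norm_num) (by nlinarith)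

end Pool.Agent.DNP18
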