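import Pool.Agent.DNP18.PellB

/-!
# [DNP-POW] powers are definable (the exponent is automatically small)

`v = (s, b, k, z)`. Use `DD.congr_ev` to assume `2 ≤ s`. `z = b^k` iff one of
(i) `k = 0 ∧ z = 1`; (ii) `1 ≤ k ∧ b = 0 ∧ z = 0`; (iii) `1 ≤ k ∧ b = 1 ∧ z = 1`;
(iv) `2 ≤ b ∧ 1 ≤ k ∧ ∃ u w x y, u = xx (b+s) (k+1) ∧ w = yy (b+s) (k+1) ∧ x = xx A k ∧ y = yy A k ∧
   t ∣ y (A - b) + z - x ∧ z < t` with `A = w + s + z + 2`, `t = 2 A b - b² - 1` (as integers).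
Proof of (iv): by `xx_yy_pow`, `t ∣ z - b^k`; `b^k ≤ (b+s)^k ≤ w < A ≤ t` (`pow_le_yy`; `t ≥ A` since
`2Ab - b² - 1 ≥ A + (A b - b² - 1)` and `A ≥ w ≥ b + s ≥ b + 1` ...) and `z < A ≤ t`, so `z = b^k`.
Witness bounds for (iv): `2^k ≤ z`, so `k` is small (`Small.of_two_pow`), `w, u ≤ (2(b+s))^(k+1)` are big, so `A` is big,
`x, y ≤ (2A)^k` are big (`Big.pow`). `DD.exs'` with `τ = Fin 4`, `DD.pell`, `DD.intDvd`.
-/

namespace Pool.Agent.DNP18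

open Pool.Agent.DPoly

/-- the main case -/
private def pw4 (v : Fin 4 → ℕ) : Prop := 2 ≤ v 0 ∧ 2 ≤ v 1 ∧ 1 ≤ v 2 ∧ v 3 = v 1 ^ v 2

private def pwA (v : Fin 4 → ℕ) : ℕ := yy (v 1 + v 0) (v 2 + 1) + v 0 + v 3 + 2

private def pwW (v : Fin 4 → ℕ) : Fin 4 → ℕ :=
  ![xx (v 1 + v 0) (v 2 + 1), yy (v 1 + v 0) (v 2 + 1), xx (pwA v) (v 2), yy (pwA v) (v 2)]

private theorem pw_t {s b k z w : ℕ} (hb : 2 ≤ b) (hk : 1 ≤ k)
    (hw : w = yy (b + s) (k + 1)) :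
    ((w + s + z + 2 : ℕ) : ℤ) ≤ 2 * ((w + s + z + 2 : ℕ) : ℤ) * b - b * b - 1 ∧ b ^ k ≤ w := by
  have h0 : 2 ≤ b + s := by omega
  have h1 : (b + s) ^ k ≤ w := hw ▸ pow_le_yy h0 k
  have h2 : b ^ k ≤ (b + s) ^ k := Nat.pow_le_pow_left (by omega) k
  have h3 : b + s ≤ (b + s) ^ k := Nat.le_self_pow (by omega) _
  refine ⟨?_, h2.trans h1⟩
  have h4 : (b : ℤ) + 2 ≤ ((w + s + z + 2 : ℕ) : ℤ) := by
    have : b + 2 ≤ w + s + z + 2 := by omega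
    exact_mod_cast this
  have h5 : (2 : ℤ) ≤ b := by exact_mod_cast hb
  generalize ((w + s + z + 2 : ℕ) : ℤ) = A at h4 ⊢
  nlinarith

private theorem pw_sound {s b k z w : ℕ} (hb : 2 ≤ b) (hk : 1 ≤ k)
    (hw : w = yy (b + s) (k + 1))
    (hd : (2 * ((w + s + z + 2 : ℕ) : ℤ) * b - b * b - 1) ∣
      ((yy (w + s + z + 2) k : ℕ) : ℤ) * (((w + s + z + 2 : ℕ) : ℤ) - b) + z -
        ((xx (w + s + z + 2) k : ℕ) : ℤ))
    (hz : (z : ℤ) < 2 * ((w + s + z + 2 : ℕ) : ℤ) * b - b * b - 1) : z = b ^ k := by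
  obtain ⟨ht, hbw⟩ := pw_t (z := z) hb hk hw
  have h1 := xx_yy_pow (a := w + s + z + 2) (by omega) b k
  have h2 := dvd_sub hd h1
  have e : ((yy (w + s + z + 2) k : ℕ) : ℤ) * (((w + s + z + 2 : ℕ) : ℤ) - b) + z -
        ((xx (w + s + z + 2) k : ℕ) : ℤ) -
        (((yy (w + s + z + 2) k : ℕ) : ℤ) * (((w + s + z + 2 : ℕ) : ℤ) - b) + (b : ℤ) ^ k -
        ((xx (w + s + z + 2) k : ℕ) : ℤ)) = (z : ℤ) - (b : ℤ) ^ k := by ring
  rw [e] at h2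
  have h3 : ((b : ℤ) ^ k) < ((w + s + z + 2 : ℕ) : ℤ) := by
    have : b ^ k < w + s + z + 2 := by omega
    exact_mod_cast this
  have h4 : (0 : ℤ) ≤ (b : ℤ) ^ k := by positivity
  have h5 : (z : ℤ) - (b : ℤ) ^ k = 0 := by
    apply Int.eq_zero_of_abs_lt_dvd h2
    rw [abs_lt]
    constructor <;> omega
  have h6 : (z : ℤ) = ((b ^ k : ℕ) : ℤ) := by
    push_cast
    linarith
  exact_mod_cast h6

private theorem pw_small (K1 : ℕ) :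
    Small (0 : Fin 4) (fun v => Bnd 0 K1 v ∧ pw4 v) (fun v => v 2) := by
  apply Small.of_two_pow
  refine Big.mono (Big.coord K1 3) ?_
  rintro v ⟨-, -, h2, -, h4⟩
  rw [h4]
  exact Nat.pow_le_pow_left h2 _

private theorem pw_y1 (K1 : ℕ) : Big (0 : Fin 4) (fun v => Bnd 0 K1 v ∧ pw4 v)
    (fun v => (2 * (v 1 + v 0)) ^ (v 2 + 1)) :=
  Big.pow ((Big.const 2).mul ((Big.coord K1 1).add (Big.coord K1 0)))
    ((pw_small K1).add (Small.const 1))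

private theorem pw_A (K1 : ℕ) : Big (0 : Fin 4) (fun v => Bnd 0 K1 v ∧ pw4 v) pwA := by
  refine Big.add (Big.add (Big.add ?_ (Big.coord K1 0)) (Big.coord K1 3)) (Big.const 2)
  refine Big.mono (pw_y1 K1) ?_
  rintro v ⟨-, -, h2, -, -⟩
  exact yy_le (by omega) _

private theorem pw_xA (K1 : ℕ) : Big (0 : Fin 4) (fun v => Bnd 0 K1 v ∧ pw4 v)
    (fun v => (2 * pwA v) ^ v 2) :=
  Big.pow ((Big.const 2).mul (pw_A K1)) (pw_small K1)

private theorem dd_pw4 : DD (0 : Fin 4) pw4 := by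
  have hc : ∀ i : Fin 4, NPoly (fun v : Fin 4 ⊕ Fin 4 → ℕ => v (.inl i)) := fun i => NPoly.coord _
  have hd : ∀ i : Fin 4, NPoly (fun v : Fin 4 ⊕ Fin 4 → ℕ => v (.inr i)) := fun i => NPoly.coord _
  have hA : NPoly (fun v : Fin 4 ⊕ Fin 4 → ℕ => v (.inr 1) + v (.inl 0) + v (.inl 3) + 2) :=
    (((hd 1).add (hc 0)).add (hc 3)).add (NPoly.const 2)
  have hB : NPoly (fun v : Fin 4 ⊕ Fin 4 → ℕ => v (.inl 1) + v (.inl 0)) := (hc 1).add (hc 0)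
  have hK : NPoly (fun v : Fin 4 ⊕ Fin 4 → ℕ => v (.inl 2) + 1) := (hc 2).add (NPoly.const 1)
  have pt : PolyFun (fun v : Fin 4 ⊕ Fin 4 → ℕ =>
      2 * ((v (.inr 1) + v (.inl 0) + v (.inl 3) + 2 : ℕ) : ℤ) * (v (.inl 1) : ℤ) -
        (v (.inl 1) : ℤ) * (v (.inl 1) : ℤ) - 1) :=
    ((((PolyFun.const 2).mul hA).mul (PolyFun.coord _)).sub
      ((PolyFun.coord _).mul (PolyFun.coord _))).sub (PolyFun.const 1)
  have q1 : DD (Sum.inl 0 : Fin 4 ⊕ Fin 4) (fun v => 2 ≤ v (.inl 1)) :=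
    DD.natLe (NPoly.const 2) (hc 1)
  have q2 : DD (Sum.inl 0 : Fin 4 ⊕ Fin 4) (fun v => 1 ≤ v (.inl 2)) :=
    DD.natLe (NPoly.const 1) (hc 2)
  have q3 := DD.pell (o := (Sum.inl 0 : Fin 4 ⊕ Fin 4)) hB hK (hd 0) (hd 1)
  have q4 := DD.pell (o := (Sum.inl 0 : Fin 4 ⊕ Fin 4)) hA (hc 2) (hd 2) (hd 3)
  have q5 : DD (Sum.inl 0 : Fin 4 ⊕ Fin 4) (fun v =>
      (2 * ((v (.inr 1) + v (.inl 0) + v (.inl 3) + 2 : ℕ) : ℤ) * (v (.inl 1) : ℤ) -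
        (v (.inl 1) : ℤ) * (v (.inl 1) : ℤ) - 1) ∣
      (v (.inr 3) : ℤ) * (((v (.inr 1) + v (.inl 0) + v (.inl 3) + 2 : ℕ) : ℤ) -
        (v (.inl 1) : ℤ)) + (v (.inl 3) : ℤ) - (v (.inr 2) : ℤ)) :=
    DD.intDvd pt ((((PolyFun.coord _).mul (PolyFun.sub hA (PolyFun.coord _))).add
      (PolyFun.coord _)).sub (PolyFun.coord _))
  have q6 : DD (Sum.inl 0 : Fin 4 ⊕ Fin 4) (fun v => (v (.inl 3) : ℤ) + 1 ≤
      2 * ((v (.inr 1) + v (.inl 0) + v (.inl 3) + 2 : ℕ) : ℤ) * (v (.inl 1) : ℤ) -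
        (v (.inl 1) : ℤ) * (v (.inl 1) : ℤ) - 1) :=
    DD.intLe ((PolyFun.coord _).add (PolyFun.const 1)) pt
  have hQ := q1.and (q2.and (q3.and (q4.and (q5.and q6))))
  refine DD.exs' hQ pwW ?_ ?_ ?_
  · intro K1 j
    fin_cases j
    · refine Big.mono (pw_y1 K1) ?_
      rintro v ⟨-, -, h2, -, -⟩
      exact xx_le (by omega) _
    · refine Big.mono (pw_y1 K1) ?_
      rintro v ⟨-, -, h2, -, -⟩
      exact yy_le (by omega) _
    · refine Big.mono (pw_xA K1) ?_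
      intro v _
      exact xx_le (a := pwA v) (by unfold pwA; omega) _
    · refine Big.mono (pw_xA K1) ?_
      intro v _
      exact yy_le (a := pwA v) (by unfold pwA; omega) _
  · rintro v ⟨h1, h2, h3, h4⟩
    refine ⟨h2, h3, ⟨h1, Nat.le_add_left _ _, rfl, rfl⟩, ⟨h1, ?_, rfl, rfl⟩, ?_, ?_⟩
    · change v 0 ≤ yy (v 1 + v 0) (v 2 + 1) + v 0 + v 3 + 2
      omega
    · have h5 := xx_yy_pow (a := pwA v) (by unfold pwA; omega) (v 1) (v 2)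
      have e : ((v 1 : ℤ)) ^ v 2 = (v 3 : ℤ) := by
        rw [h4]
        push_cast
        rfl
      rw [e] at h5
      exact h5
    · have h5 := (pw_t (s := v 0) (z := v 3) h2 h3 rfl).1
      have h6 : (v 3 : ℤ) + 1 ≤
          ((yy (v 1 + v 0) (v 2 + 1) + v 0 + v 3 + 2 : ℕ) : ℤ) := by
        push_cast
        have : (0 : ℤ) ≤ (yy (v 1 + v 0) (v 2 + 1) : ℤ) := Int.natCast_nonneg _
        have : (0 : ℤ) ≤ (v 0 : ℤ) := Int.natCast_nonneg _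
        linarith
      exact h6.trans h5
  · rintro v w ⟨h1, h2, ⟨h3, -, h4, h5⟩, ⟨-, -, h6, h7⟩, h8, h9⟩
    simp only [Sum.elim_inl, Sum.elim_inr] at h1 h2 h3 h4 h5 h6 h7 h8 h9
    refine ⟨h3, h1, h2, ?_⟩
    rw [h6, h7] at h8
    exact pw_sound h1 h2 h5 h8 (by omega)

theorem dd_pow : DD (0 : Fin 4) (fun v => v 3 = v 1 ^ v 2) := by
  have hc : ∀ i : Fin 4, NPoly (fun v : Fin 4 → ℕ => v i) := fun i => NPoly.coord i
  have q1 : DD (0 : Fin 4) (fun v => v 2 = 0 ∧ v 3 = 1) :=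
    (DD.natEq (hc 2) (NPoly.const 0)).and (DD.natEq (hc 3) (NPoly.const 1))
  have q2 : DD (0 : Fin 4) (fun v => 1 ≤ v 2 ∧ v 1 = 0 ∧ v 3 = 0) :=
    (DD.natLe (NPoly.const 1) (hc 2)).and
      ((DD.natEq (hc 1) (NPoly.const 0)).and (DD.natEq (hc 3) (NPoly.const 0)))
  have q3 : DD (0 : Fin 4) (fun v => 1 ≤ v 2 ∧ v 1 = 1 ∧ v 3 = 1) :=
    (DD.natLe (NPoly.const 1) (hc 2)).and
      ((DD.natEq (hc 1) (NPoly.const 1)).and (DD.natEq (hc 3) (NPoly.const 1)))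
  refine (q1.or (q2.or (q3.or dd_pw4))).congr_ev fun K => ⟨2, fun v hv _ => ?_⟩
  constructor
  · rintro (⟨h1, h2⟩ | ⟨h1, h2, h3⟩ | ⟨h1, h2, h3⟩ | ⟨-, -, -, h4⟩)
    · rw [h1, h2, pow_zero]
    · rw [h2, h3, zero_pow (by omega)]
    · rw [h2, h3, one_pow]
    · exact h4
  · intro h
    rcases Nat.eq_zero_or_pos (v 2) with h2 | h2
    · left
      exact ⟨h2, by rw [h, h2, pow_zero]⟩
    · right
      rcases Nat.lt_or_ge (v 1) 2 with h1 | h1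
      · have h3 : v 1 = 0 ∨ v 1 = 1 := by omega
        rcases h3 with h3 | h3
        · left
          exact ⟨h2, h3, by rw [h, h3, zero_pow (by omega)]⟩
        · right
          left
          exact ⟨h2, h3, by rw [h, h3, one_pow]⟩
      · right
        right
        exact ⟨hv, h1, h2, h⟩

/-- the same with polynomials as arguments -/
theorem DD.pow {σ : Type} [Fintype σ] {o : σ} {b k z : (σ → ℕ) → ℕ} (hb : NPoly b)
    (hk : NPoly k) (hz : NPoly z) : DD o (fun v => z v = b v ^ k v) := by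
  have h := dd_pow.subst (o' := o) ![fun v => v o, b, k, z] (by
    intro i
    fin_cases i
    · exact NPoly.coord o
    · exact hb
    · exact hk
    · exact hz) (fun v => rfl)
  exact h.congr fun v => Iff.rfl

end Pool.Agent.DNP18
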