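import Mathlib

/-!
# Numerals

`num b n x` is the number with the base `b` digits `x 0, …, x (n-1)`.
-/

namespace Pool.Agent.DNP18

open Finset

/-- the number with the digits `x 0, …, x (n-1)` in base `b` -/
def num (b n : ℕ) (x : ℕ → ℕ) : ℕ := ∑ i ∈ range n, x i * b ^ i

theorem num_succ (b n : ℕ) (x : ℕ → ℕ) : num b (n + 1) x = num b n x + x n * b ^ n :=
  sum_range_succ _ _

theorem num_succ' (b n : ℕ) (x : ℕ → ℕ) :
    num b (n + 1) x = x 0 + b * num b n (fun i => x (i + 1)) := by
  unfold num
  rw [sum_range_succ', mul_sum, add_comm]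
  congr 1
  · simp
  · exact sum_congr rfl fun i _ => by rw [pow_succ]; ring

theorem num_congr {b n : ℕ} {x y : ℕ → ℕ} (h : ∀ i < n, x i = y i) : num b n x = num b n y :=
  sum_congr rfl fun i hi => by rw [h i (mem_range.1 hi)]

theorem num_zero' {b n : ℕ} {x : ℕ → ℕ} (h : ∀ i < n, x i = 0) : num b n x = 0 :=
  sum_eq_zero fun i hi => by rw [h i (mem_range.1 hi), zero_mul]

theorem num_add (b m n : ℕ) (x : ℕ → ℕ) :
    num b (m + n) x = num b m x + b ^ m * num b n (fun i => x (m + i)) := by
  unfold num
  rw [sum_range_add, mul_sum]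
  congr 1
  exact sum_congr rfl fun i _ => by rw [pow_add]; ring

theorem num_add_fun (b n : ℕ) (x y : ℕ → ℕ) :
    num b n (fun i => x i + y i) = num b n x + num b n y := by
  unfold num
  rw [← sum_add_distrib]
  exact sum_congr rfl fun i _ => by ring

theorem num_lt {b n : ℕ} (hb : 0 < b) {x : ℕ → ℕ} (h : ∀ i < n, x i < b) : num b n x < b ^ n := by
  induction n with
  | zero => simp [num]
  | succ n ih =>
    rw [num_succ]
    have h1 := ih fun i hi => h i (by omega)
    have h2 := h n (Nat.lt_succ_self n)
    have h3 : x n * b ^ n ≤ (b - 1) * b ^ n := Nat.mul_le_mul_right _ (by omega)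
    have h4 : b ^ (n + 1) = (b - 1) * b ^ n + b ^ n := by
      have : b = (b - 1) + 1 := by omega
      calc b ^ (n + 1) = b ^ n * b := pow_succ _ _
        _ = b ^ n * ((b - 1) + 1) := by rw [← this]
        _ = _ := by ring
    omega

theorem num_inj {b n : ℕ} {x y : ℕ → ℕ} (hx : ∀ i < n, x i < b) (hy : ∀ i < n, y i < b)
    (h : num b n x = num b n y) : ∀ i < n, x i = y i := by
  induction n generalizing x y with
  | zero => intro i hi; omega
  | succ n ih =>
    have hb : 0 < b := lt_of_le_of_lt (Nat.zero_le _) (hx 0 (by omega))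
    rw [num_succ', num_succ'] at h
    have h0 : x 0 = y 0 := by
      have h1 : (x 0 + b * num b n (fun i => x (i + 1))) % b =
          (y 0 + b * num b n (fun i => y (i + 1))) % b := by rw [h]
      rwa [Nat.add_mul_mod_self_left, Nat.add_mul_mod_self_left,
        Nat.mod_eq_of_lt (hx 0 (by omega)), Nat.mod_eq_of_lt (hy 0 (by omega))] at h1
    have h2 : num b n (fun i => x (i + 1)) = num b n (fun i => y (i + 1)) := by
      rw [h0] at h
      exact Nat.eq_of_mul_eq_mul_left hb (Nat.add_left_cancel h)
    intro i hi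
    rcases i with _ | i
    · exact h0
    · exact ih (x := fun i => x (i + 1)) (y := fun i => y (i + 1)) (fun i hi => hx _ (by omega))
        (fun i hi => hy _ (by omega)) h2 i (by omega)

/-- multiplication with a power of the base, modulo `b ^ n` -/
theorem num_shift {b n s : ℕ} (hb : 0 < b) {x : ℕ → ℕ} (hx : ∀ i < n, x i < b) :
    num b n x * b ^ s % b ^ n = num b n (fun i => if s ≤ i then x (i - s) else 0) := by
  rcases le_total s n with hs | hs
  · obtain ⟨m, rfl⟩ := Nat.exists_eq_add_of_le hs
    have h1 : num b (s + m) (fun i => if s ≤ i then x (i - s) else 0) = b ^ s * num b m x := by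
      rw [num_add, num_zero', zero_add]
      · congr 1
        refine num_congr fun i _ => ?_
        rw [if_pos (Nat.le_add_right _ _), Nat.add_sub_cancel_left]
      · intro i hi
        rw [if_neg (by omega)]
    have h2 : num b (s + m) x = num b m x + b ^ m * num b s (fun i => x (m + i)) := by
      rw [add_comm s m, num_add]
    rw [h1, h2]
    have h3 : (num b m x + b ^ m * num b s (fun i => x (m + i))) * b ^ s =
        b ^ s * num b m x + b ^ (s + m) * num b s (fun i => x (m + i)) := by
      rw [pow_add]; ring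
    rw [h3, Nat.add_mul_mod_self_left, Nat.mod_eq_of_lt]
    have h4 := num_lt hb (n := m) (x := x) fun i hi => hx i (by omega)
    calc b ^ s * num b m x < b ^ s * b ^ m := Nat.mul_lt_mul_of_pos_left h4 (pow_pos hb _)
      _ = b ^ (s + m) := (pow_add _ _ _).symm
  · obtain ⟨m, rfl⟩ := Nat.exists_eq_add_of_le hs
    rw [num_zero' (x := fun i => if n + m ≤ i then x (i - (n + m)) else 0)]
    · have : num b n x * b ^ (n + m) = b ^ n * (num b n x * b ^ m) := by rw [pow_add]; ring
      rw [this, Nat.mul_mod_right]
    · intro i hi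
      rw [if_neg (by omega)]

/-- the high digits of a small numeral vanish -/
theorem num_high {b n m : ℕ} (hb : 0 < b) {x : ℕ → ℕ} (h : num b n x < b ^ m) :
    ∀ i, m ≤ i → i < n → x i = 0 := by
  intro i hm hi
  by_contra h0
  have h1 : x i * b ^ i ≤ num b n x :=
    single_le_sum (f := fun i => x i * b ^ i) (fun _ _ => Nat.zero_le _) (mem_range.2 hi)
  have h2 : b ^ m ≤ b ^ i := Nat.pow_le_pow_right hb hm
  have h3 : 1 * b ^ i ≤ x i * b ^ i := Nat.mul_le_mul_right _ (Nat.pos_of_ne_zero h0)
  omega

/-- the low digits of a numeral which is divisible by a power of the base vanish -/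
theorem num_low {b n m : ℕ} (hb : 0 < b) {x : ℕ → ℕ} (hx : ∀ i < n, x i < b)
    (h : b ^ m ∣ num b n x) : ∀ i, i < m → i < n → x i = 0 := by
  rcases le_total m n with hm | hm
  · obtain ⟨k, rfl⟩ := Nat.exists_eq_add_of_le hm
    rw [num_add] at h
    have h1 : b ^ m ∣ num b m x := (Nat.dvd_add_left (Dvd.intro _ rfl)).1 h
    have h2 := num_lt hb (n := m) (x := x) fun i hi => hx i (by omega)
    have h3 : num b m x = 0 := Nat.eq_zero_of_dvd_of_lt h1 h2
    intro i hi _
    unfold num at h3
    rw [sum_eq_zero_iff] at h3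
    have h4 := h3 i (mem_range.2 hi)
    rcases Nat.mul_eq_zero.1 h4 with h5 | h5
    · exact h5
    · exact absurd h5 (pow_pos hb _).ne'
  · have h1 : b ^ n ∣ num b n x := (pow_dvd_pow b hm).trans h
    have h3 : num b n x = 0 := Nat.eq_zero_of_dvd_of_lt h1 (num_lt hb hx)
    intro i _ hi
    unfold num at h3
    rw [sum_eq_zero_iff] at h3
    rcases Nat.mul_eq_zero.1 (h3 i (mem_range.2 hi)) with h5 | h5
    · exact h5
    · exact absurd h5 (pow_pos hb _).ne'

theorem num_dvd_of_low {b n m : ℕ} {x : ℕ → ℕ} (h : ∀ i, i < m → i < n → x i = 0) :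
    b ^ m ∣ num b n x := by
  refine dvd_sum fun i hi => ?_
  by_cases him : i < m
  · rw [h i him (mem_range.1 hi), zero_mul]
    exact dvd_zero _
  · exact (pow_dvd_pow b (not_lt.1 him)).mul_left _

/-- change of the base from `b` to `c` by reduction modulo `b - c` -/
theorem num_mod {b c n : ℕ} (hc : c < b) {x : ℕ → ℕ} (h : num c n x < b - c) :
    num b n x % (b - c) = num c n x := by
  have h1 : num b n x ≡ num c n x [MOD b - c] := by
    have hbc : b ≡ c [MOD b - c] := by
      have h2 : b = c + (b - c) := by omega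
      calc b = c + (b - c) := h2
        _ ≡ c + 0 [MOD b - c] := Nat.ModEq.add_left _ (by simp [Nat.ModEq])
        _ = c := add_zero _
    unfold num
    induction n with
    | zero => rfl
    | succ n ih =>
      rw [sum_range_succ, sum_range_succ]
      refine Nat.ModEq.add (ih ?_) ((hbc.pow n).mul_left _)
      have h3 := h
      rw [num_succ] at h3
      omega
  rw [h1, Nat.mod_eq_of_lt h]

/-- the repunit -/
theorem num_one {b n : ℕ} (hb : 0 < b) : (b - 1) * num b n (fun _ => 1) + 1 = b ^ n := by
  induction n with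
  | zero => simp [num]
  | succ n ih =>
    rw [num_succ, mul_add, one_mul, pow_succ]
    have : b = (b - 1) + 1 := by omega
    calc (b - 1) * num b n (fun _ => 1) + (b - 1) * b ^ n + 1
        = ((b - 1) * num b n (fun _ => 1) + 1) + (b - 1) * b ^ n := by ring
      _ = b ^ n + (b - 1) * b ^ n := by rw [ih]
      _ = b ^ n * ((b - 1) + 1) := by ring
      _ = b ^ n * b := by rw [← this]

/-- decomposition into rows of length `W` -/
theorem num_rows (b m W : ℕ) (x : ℕ → ℕ) :
    num b (m * W) x = ∑ t ∈ range m, b ^ (t * W) * num b W (fun i => x (t * W + i)) := by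
  induction m with
  | zero => simp [num]
  | succ m ih =>
    rw [Nat.succ_mul, num_add, ih, sum_range_succ]

theorem num_single {b n i : ℕ} (hi : i < n) {x : ℕ → ℕ} (hx : ∀ j < n, j ≠ i → x j = 0) :
    num b n x = x i * b ^ i := by
  unfold num
  rw [sum_eq_single i]
  · intro j hj hji
    rw [hx j (mem_range.1 hj) hji, zero_mul]
  · intro h
    exact absurd (mem_range.2 hi) h

end Pool.Agent.DNP18
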