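import Pool.Agent.DPoly.TabB
import Pool.Agent.DNP18.Numer

/-!
# The tableau of a nondeterministic machine, written with numerals
-/

namespace Pool.Agent.DNP18

open Finset Turing DPoly

/-- The type of the constraint at position `p = t * W + ξ`, `W = B + T + 2`, which is the place of the
cell `(t, W - 1 - ξ)` of the tableau. -/
def codeN (T B p : ℕ) : ℕ :=
  if p < B + T + 2 then (if p < T + 2 ∨ p = B + T + 1 then 1 else 2)
  else if p % (B + T + 2) = 0 ∨ p % (B + T + 2) = B + T + 1 then 1 else 0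

theorem codeN_lt (T B p : ℕ) : codeN T B p < 3 := by
  unfold codeN
  split_ifs <;> omega

theorem idx_div {W t ξ : ℕ} (h : ξ < W) : (t * W + ξ) / W = t ∧ (t * W + ξ) % W = ξ := by
  have hW : 0 < W := by omega
  constructor
  · rw [add_comm, Nat.add_mul_div_right _ _ hW, Nat.div_eq_of_lt h, zero_add]
  · rw [add_comm, Nat.add_mul_mod_self_right, Nat.mod_eq_of_lt h]

theorem codeN_eq {T B t ξ : ℕ} (h : ξ < B + T + 2) :
    codeN T B (t * (B + T + 2) + ξ) = if t = 0 then (if ξ < T + 2 ∨ ξ = B + T + 1 then 1 else 2)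
      else if ξ = 0 ∨ ξ = B + T + 1 then 1 else 0 := by
  unfold codeN
  rw [(idx_div h).2]
  rcases t with _ | t
  · rw [zero_mul, zero_add, if_pos h, if_pos rfl]
  · rw [if_neg (Nat.succ_ne_zero t), if_neg]
    have : (t + 1) * (B + T + 2) = t * (B + T + 2) + (B + T + 2) := Nat.succ_mul _ _
    omega

/-- the numeral of the types -/
theorem num_codeN (b T B : ℕ) (hB : 1 ≤ B) :
    num b ((T + 1) * (B + T + 2)) (codeN T B) =
      num b (B + T + 2) (fun _ => 1) + b ^ (T + 2) * num b (B - 1) (fun _ => 1) +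
        (1 + b ^ (B + T + 1)) * ∑ t ∈ range T, b ^ ((t + 1) * (B + T + 2)) := by
  rw [num_rows, sum_range_succ']
  have h0 : b ^ (0 * (B + T + 2)) * num b (B + T + 2) (fun i => codeN T B (0 * (B + T + 2) + i)) =
      num b (B + T + 2) (fun _ => 1) + b ^ (T + 2) * num b (B - 1) (fun _ => 1) := by
    rw [zero_mul, pow_zero, one_mul]
    have e1 : num b (B + T + 2) (fun i => codeN T B (0 + i)) =
        num b (B + T + 2) (fun i => 1 + if T + 2 ≤ i ∧ i ≠ B + T + 1 then 1 else 0) := by
      refine num_congr fun i hi => ?_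
      have := codeN_eq (T := T) (B := B) (t := 0) hi
      rw [zero_mul, if_pos rfl] at this
      rw [this]
      split_ifs <;> omega
    rw [e1, num_add_fun]
    congr 1
    obtain ⟨m, rfl⟩ := Nat.exists_eq_add_of_le hB
    rw [show 1 + m + T + 2 = (T + 2) + (m + 1) by ring, num_add, num_zero', zero_add, num_succ,
      if_neg (by omega), zero_mul, add_zero, Nat.add_sub_cancel_left]
    · congr 1
      refine num_congr fun i hi => ?_
      rw [if_pos (by omega)]
    · intro i hi
      rw [if_neg (by omega)]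
  have h1 : ∀ t ∈ range T, b ^ ((t + 1) * (B + T + 2)) *
      num b (B + T + 2) (fun i => codeN T B ((t + 1) * (B + T + 2) + i)) =
        (1 + b ^ (B + T + 1)) * b ^ ((t + 1) * (B + T + 2)) := by
    intro t _
    rw [mul_comm]
    congr 1
    have e1 : num b (B + T + 2) (fun i => codeN T B ((t + 1) * (B + T + 2) + i)) =
        num b (B + T + 2) (fun i => if i = 0 ∨ i = B + T + 1 then 1 else 0) := by
      refine num_congr fun i hi => ?_
      rw [codeN_eq hi, if_neg (Nat.succ_ne_zero t)]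
    rw [e1, show B + T + 2 = (B + T + 1) + 1 by ring, num_succ, if_pos (Or.inr rfl), one_mul]
    congr 1
    rw [num_single (i := 0) (by omega)]
    · simp
    · intro j hj hj0
      rw [if_neg (by omega)]
  rw [sum_congr rfl h1, ← mul_sum, h0, add_comm]

section

variable {Γ Λ : Type} [Inhabited Γ] [Inhabited Λ] {κ : ℕ}

/-- The local constraint of the tableau: types; contents of the cell and of three cells of the
previous row; input symbols; indicators; accepting mark. -/
def rhoT (D : Fin κ → Cell Γ Λ) (M : Bool → TM0.Machine Γ Λ) (enc : Option Bool → Γ)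
    (acc : Λ → Prop) (σ : Fin 12 → Fin κ) : Prop :=
  (if (σ 0 : ℕ) = 0 then (D (σ 1)).1 = caN M (D (σ 2)) (D (σ 3)) (D (σ 4))
    else if (σ 0 : ℕ) = 1 then (D (σ 1)).1 = (default, none)
    else (D (σ 1)).1 = lab enc (σ 6) (σ 7)) ∧
  (σ 8 : ℕ) = (if (σ 5 : ℕ) = 2 then 1 else 0) ∧ (σ 9 : ℕ) = (if (σ 5 : ℕ) = 3 then 1 else 0) ∧
  (σ 10 : ℕ) = (if (σ 5 : ℕ) = 0 then 0 else 1) ∧
  ((σ 11 : ℕ) = 0 ∨ ((σ 11 : ℕ) = 1 ∧ accC M acc (D (σ 1)).1))

/-- The arithmetical relations between the numerals. -/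
structure RelT (b T B r0 r1 r2 : ℕ) (X : Fin 12 → ℕ) : Prop where
  code : X 0 = num b (B + T + 2) (fun _ => 1) + b ^ (T + 2) * num b (B - 1) (fun _ => 1) +
        (1 + b ^ (B + T + 1)) * ∑ t ∈ range T, b ^ ((t + 1) * (B + T + 2))
  s2 : X 2 = X 1 * b ^ (B + T + 1) % b ^ ((T + 1) * (B + T + 2))
  s3 : X 3 = X 1 * b ^ (B + T + 2) % b ^ ((T + 1) * (B + T + 2))
  s4 : X 4 = X 1 * b ^ (B + T + 3) % b ^ ((T + 1) * (B + T + 2))
  lt5 : X 5 < b ^ B
  s6 : X 6 = X 5 * b ^ (T + 2) % b ^ ((T + 1) * (B + T + 2))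
  s7 : X 7 = X 5 * b ^ (T + 1) % b ^ ((T + 1) * (B + T + 2))
  r8 : X 8 % (b - 2) = r0
  r9 : X 9 % (b - 2) = r1
  r10 : X 10 % (b - 2) = r2
  d11 : b ^ (T * (B + T + 2)) ∣ X 11
  r11 : X 11 % (b - 1) = 1

theorem num_cut {b n m : ℕ} (hmn : m ≤ n) {x : ℕ → ℕ} (h : ∀ i, m ≤ i → i < n → x i = 0) :
    num b n x = num b m x := by
  obtain ⟨k, rfl⟩ := Nat.exists_eq_add_of_le hmn
  rw [num_add, num_zero' (n := k), mul_zero, add_zero]
  intro i hi
  exact h _ (by omega) (by omega)

theorem num_two_le {n : ℕ} {x : ℕ → ℕ} (h : ∀ i < n, x i ≤ 1) : num 2 n x < 2 ^ n :=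
  num_lt (by norm_num) fun i hi => by have := h i hi; omega

private theorem len_n (T B : ℕ) : (T + 1) * (B + T + 2) = T * (B + T + 2) + (B + T + 2) :=
  Nat.succ_mul _ _

theorem tableau_sound (D : Fin κ → Cell Γ Λ) (M : Bool → TM0.Machine Γ Λ) (enc : Option Bool → Γ)
    (acc : Λ → Prop) {b T B : ℕ} {w : List (Option Bool)} (hw : w ≠ [])
    (hB : w.length + T + 1 ≤ B) (hb1 : 2 ^ B + 2 ≤ b) (hb2 : κ ≤ b)
    (hb3 : (T + 1) * (B + T + 2) + 2 ≤ b) (x : ℕ → Fin 12 → Fin κ)
    (hx : ∀ i < (T + 1) * (B + T + 2), rhoT D M enc acc (x i))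
    (hr : RelT b T B (ro w 0) (ro w 1) (ro w 2)
      (fun j => num b ((T + 1) * (B + T + 2)) (fun i => (x i j : ℕ)))) :
    ∃ β, AccConf M acc (run M (w.map enc) β T).1 := by
  classical
  have hlw : 1 ≤ w.length := List.length_pos_iff.2 hw
  have hB1 : 1 ≤ B := by omega
  have hb : 0 < b := by have := Nat.one_le_two_pow (n := B); omega
  have h2B : 2 ≤ 2 ^ B := by
    calc 2 = 2 ^ 1 := rfl
      _ ≤ 2 ^ B := Nat.pow_le_pow_right (by norm_num) hB1
  set n := (T + 1) * (B + T + 2) with hn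
  have hnW : n = T * (B + T + 2) + (B + T + 2) := len_n T B
  have hdig : ∀ j, ∀ i < n, (x i j : ℕ) < b := fun j i _ => lt_of_lt_of_le (x i j).2 hb2
  -- the digits
  have hsh : ∀ (j j' : Fin 12) (s : ℕ), num b n (fun i => (x i j : ℕ)) =
      num b n (fun i => (x i j' : ℕ)) * b ^ s % b ^ n →
      ∀ i < n, s ≤ i → x i j = x (i - s) j' := by
    intro j j' s h i hi hs
    rw [num_shift hb (hdig j')] at h
    have h1 := num_inj (hdig j) (fun i hi => by
      split_ifs
      · exact hdig j' _ (by omega)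
      · exact hb) h i hi
    rw [if_pos hs] at h1
    exact Fin.ext h1
  have h0 : ∀ i < n, (x i 0 : ℕ) = codeN T B i := by
    refine num_inj (hdig 0) (fun i _ => ?_) ?_
    · have := codeN_lt T B i
      omega
    · rw [num_codeN b T B hB1]
      exact hr.code
  have h2 := hsh 2 1 _ hr.s2
  have h3 := hsh 3 1 _ hr.s3
  have h4 := hsh 4 1 _ hr.s4
  have h6 := hsh 6 5 _ hr.s6
  have h7 := hsh 7 5 _ hr.s7
  have h5 : ∀ i, B ≤ i → i < n → (x i 5 : ℕ) = 0 := num_high hb hr.lt5
  have h11 : ∀ i, i < T * (B + T + 2) → i < n → (x i 11 : ℕ) = 0 := num_low hb (hdig 11) hr.d11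
  have hBn : B ≤ n := by omega
  have hf : ∀ (j : Fin 12) (q : ℕ), num b n (fun i => (x i j : ℕ)) % (b - 2) = q →
      (∀ i < n, (x i j : ℕ) ≤ 1 ∧ ((x i 5 : ℕ) = 0 → (x i j : ℕ) = 0)) →
      num 2 B (fun i => (x i j : ℕ)) = q := by
    intro j q hq hle
    have e1 : num 2 n (fun i => (x i j : ℕ)) = num 2 B (fun i => (x i j : ℕ)) :=
      num_cut hBn fun i h1 h2 => (hle i h2).2 (h5 i h1 h2)
    have e2 : num 2 B (fun i => (x i j : ℕ)) < 2 ^ B :=
      num_two_le fun i hi => (hle i (by omega)).1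
    rw [← e1]
    rw [← e1] at e2
    rw [num_mod (by omega) (by omega)] at hq
    exact hq
  have h8 : num 2 B (fun i => (x i 8 : ℕ)) = ro w 0 := by
    refine hf 8 _ hr.r8 fun i hi => ?_
    have := (hx i hi).2.1
    rw [this]
    constructor
    · split_ifs <;> omega
    · intro h
      rw [if_neg (by omega)]
  have h9 : num 2 B (fun i => (x i 9 : ℕ)) = ro w 1 := by
    refine hf 9 _ hr.r9 fun i hi => ?_
    have := (hx i hi).2.2.1
    rw [this]
    constructor
    · split_ifs <;> omega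
    · intro h
      rw [if_neg (by omega)]
  have h10 : num 2 B (fun i => (x i 10 : ℕ)) = ro w 2 := by
    refine hf 10 _ hr.r10 fun i hi => ?_
    have := (hx i hi).2.2.2.1
    rw [this]
    constructor
    · split_ifs <;> omega
    · intro h
      rw [if_pos h]
  have hs11 : ∑ i ∈ range n, (x i 11 : ℕ) = 1 := by
    have hle : ∀ i < n, (x i 11 : ℕ) ≤ 1 := by
      intro i hi
      rcases (hx i hi).2.2.2.2 with h | h <;> omega
    have e1 : num 1 n (fun i => (x i 11 : ℕ)) = ∑ i ∈ range n, (x i 11 : ℕ) := by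
      unfold num
      simp
    have e2 : ∑ i ∈ range n, (x i 11 : ℕ) ≤ n := by
      calc ∑ i ∈ range n, (x i 11 : ℕ) ≤ ∑ _i ∈ range n, 1 :=
            sum_le_sum fun i hi => hle i (mem_range.1 hi)
        _ = n := by simp
    have e3 := hr.r11
    rw [num_mod (by omega) (by rw [e1]; omega), e1] at e3
    exact e3
  -- the assignment
  let jj : Fin 4 → Fin 12 := ![5, 8, 9, 10]
  let z : TI T B → Fin κ := fun i => match i with
    | .inl (t, y) => x (t.val * (B + T + 2) + (B + T + 1 - y.val)) 1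
    | .inr (.inl y) => x (T * (B + T + 2) + (B + T + 1 - y.val)) 11
    | .inr (.inr (s, k)) => x k.val (jj s)
  have hzc : ∀ t ≤ T, ∀ y ≤ B + T + 1, z (cellI T B t y) =
      x (t * (B + T + 2) + (B + T + 1 - y)) 1 := by
    intro t ht y hy
    have e1 : cellI T B t y = .inl (⟨t, by omega⟩, ⟨y, by omega⟩) :=
      cellI_eq T B ⟨t, by omega⟩ ⟨y, by omega⟩
    rw [e1]
  have hzl : ∀ k, k < B → z (lblI T B k) = x k 5 := by
    intro k hk
    rw [lblI_eq T B ⟨k, hk⟩]
    rfl
  have hpn : ∀ t ≤ T, ∀ ξ < B + T + 2, t * (B + T + 2) + ξ < n := by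
    intro t ht ξ hξ
    have : t * (B + T + 2) ≤ T * (B + T + 2) := Nat.mul_le_mul_right _ ht
    omega
  have hcons : Cons D M enc acc T B z := by
    refine ⟨?_, ?_, ?_, ?_, ?_, ?_, ?_⟩
    · intro t ht y hy hcond
      rw [hzc t ht y hy]
      have hp := hpn t ht (B + T + 1 - y) (by omega)
      have e1 := (hx _ hp).1
      have e2 : (x (t * (B + T + 2) + (B + T + 1 - y)) 0 : ℕ) = 1 := by
        rw [h0 _ hp, codeN_eq (by omega)]
        split_ifs <;> omega
      rw [e2] at e1
      simpa using e1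
    · intro y hy0 hyB
      rw [hzc 0 (Nat.zero_le _) y (by omega), hzl _ (by omega), hzl _ (by omega)]
      have hp := hpn 0 (Nat.zero_le _) (B + T + 1 - y) (by omega)
      have e1 := (hx _ hp).1
      have e2 : (x (0 * (B + T + 2) + (B + T + 1 - y)) 0 : ℕ) = 2 := by
        rw [h0 _ hp, codeN_eq (by omega)]
        split_ifs <;> omega
      rw [e2, h6 _ hp (by omega), h7 _ hp (by omega)] at e1
      rw [show 0 * (B + T + 2) + (B + T + 1 - y) - (T + 2) = B - 1 - y by omega,
        show 0 * (B + T + 2) + (B + T + 1 - y) - (T + 1) = B - 1 - y + 1 by omega] at e1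
      simpa using e1
    · intro t ht y hy0 hy
      rw [hzc (t + 1) (by omega) y (by omega), hzc t (by omega) (y - 1) (by omega),
        hzc t (by omega) y (by omega), hzc t (by omega) (y + 1) (by omega)]
      have hp := hpn (t + 1) (by omega) (B + T + 1 - y) (by omega)
      have e1 := (hx _ hp).1
      have e2 : (x ((t + 1) * (B + T + 2) + (B + T + 1 - y)) 0 : ℕ) = 0 := by
        rw [h0 _ hp, codeN_eq (by omega)]
        split_ifs <;> omega
      have e3 : (t + 1) * (B + T + 2) = t * (B + T + 2) + (B + T + 2) := Nat.succ_mul _ _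
      rw [e2, h2 _ hp (by omega), h3 _ hp (by omega), h4 _ hp (by omega)] at e1
      rw [show (t + 1) * (B + T + 2) + (B + T + 1 - y) - (B + T + 1) =
          t * (B + T + 2) + (B + T + 1 - (y - 1)) by omega,
        show (t + 1) * (B + T + 2) + (B + T + 1 - y) - (B + T + 2) =
          t * (B + T + 2) + (B + T + 1 - y) by omega,
        show (t + 1) * (B + T + 2) + (B + T + 1 - y) - (B + T + 3) =
          t * (B + T + 2) + (B + T + 1 - (y + 1)) by omega] at e1
      simpa using e1
    · intro y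
      rw [hzc T le_rfl y (by omega)]
      have hp := hpn T le_rfl (B + T + 1 - y.val) (by omega)
      exact (hx _ hp).2.2.2.2
    · intro k
      exact (hx k.val (by omega)).2.1
    · intro k
      exact (hx k.val (by omega)).2.2.1
    · intro k
      exact (hx k.val (by omega)).2.2.2.1
  refine sound_aux D M enc acc hw hB hcons ?_
  intro r
  rw [tm_sum T B (fun i => (z i : ℕ))]
  have hfin : ∀ f : ℕ → ℕ, ∑ k : Fin B, f k * 2 ^ (k : ℕ) = num 2 B f := by
    intro f
    unfold num
    rw [Finset.sum_range]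
  by_cases hr3 : r = 3
  · rw [dif_pos hr3]
    subst hr3
    have e1 : ∑ y : Fin (B + T + 2), (z (.inr (.inl y)) : ℕ) =
        ∑ ξ ∈ range (B + T + 2), (x (T * (B + T + 2) + (B + T + 1 - ξ)) 11 : ℕ) := by
      rw [Finset.sum_range]
    rw [e1]
    have e2 := Finset.sum_range_reflect (fun ξ => (x (T * (B + T + 2) + ξ) 11 : ℕ)) (B + T + 2)
    have e3 : ∑ ξ ∈ range (B + T + 2), (x (T * (B + T + 2) + (B + T + 1 - ξ)) 11 : ℕ) =
        ∑ ξ ∈ range (B + T + 2), (x (T * (B + T + 2) + ξ) 11 : ℕ) := by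
      rw [← e2]
      rfl
    rw [e3]
    rw [hnW, sum_range_add] at hs11
    have e4 : ∑ i ∈ range (T * (B + T + 2)), (x i 11 : ℕ) = 0 :=
      sum_eq_zero fun i hi => h11 i (mem_range.1 hi) (by have := mem_range.1 hi; omega)
    rw [e4, zero_add] at hs11
    rw [hs11]
    rfl
  · rw [dif_neg hr3]
    have hcase : r = 0 ∨ r = 1 ∨ r = 2 := by
      revert hr3
      fin_cases r <;> simp
    rcases hcase with rfl | rfl | rfl
    · rw [← h8]
      exact hfin (fun k => (x k 8 : ℕ))
    · rw [← h9]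
      exact hfin (fun k => (x k 9 : ℕ))
    · rw [← h10]
      exact hfin (fun k => (x k 10 : ℕ))

theorem tableau_complete (hκ : 8 ≤ κ) (D : Fin κ → Cell Γ Λ) (M : Bool → TM0.Machine Γ Λ)
    (enc : Option Bool → Γ) (acc : Λ → Prop) {b T B : ℕ} {w : List (Option Bool)} (hw : w ≠ [])
    (hB : w.length + T + 1 ≤ B) (E : Cell Γ Λ → Fin κ) (hDE : ∀ a, D (E a) = a)
    (hb1 : 2 ^ B + 2 ≤ b) (hb2 : κ ≤ b) (hb3 : (T + 1) * (B + T + 2) + 2 ≤ b)
    (h : ∃ β, AccConf M acc (run M (w.map enc) β T).1) :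
    ∃ x : ℕ → Fin 12 → Fin κ,
      (∀ i < (T + 1) * (B + T + 2), rhoT D M enc acc (x i)) ∧
      RelT b T B (ro w 0) (ro w 1) (ro w 2)
        (fun j => num b ((T + 1) * (B + T + 2)) (fun i => (x i j : ℕ))) := by
  classical
  obtain ⟨β, hβ⟩ := h
  obtain ⟨z, hz, hsum⟩ := complete_aux D M enc acc hw hB E hDE hκ hβ
  have hlw : 1 ≤ w.length := List.length_pos_iff.2 hw
  have hB1 : 1 ≤ B := by omega
  have hb : 0 < b := by have := Nat.one_le_two_pow (n := B); omega
  set n := (T + 1) * (B + T + 2) with hn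
  have hnW : n = T * (B + T + 2) + (B + T + 2) := len_n T B
  have hBn : B ≤ n := by omega
  let toK : ∀ m : ℕ, m < 8 → Fin κ := fun m hm => ⟨m, by omega⟩
  let c : ℕ → Fin κ := fun i => z (cellI T B (i / (B + T + 2)) (B + T + 1 - i % (B + T + 2)))
  let y : ℕ → Fin κ := fun k => if k < B then z (lblI T B k) else toK 0 (by omega)
  let e : ℕ → Fin κ := fun i => if T * (B + T + 2) ≤ i then
    z (.inr (.inl ⟨B + T + 1 - (i - T * (B + T + 2)), by omega⟩)) else toK 0 (by omega)
  let sh : ℕ → (ℕ → Fin κ) → ℕ → Fin κ := fun s f i => if s ≤ i then f (i - s) else toK 0 (by omega)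
  let x : ℕ → Fin 12 → Fin κ := fun i =>
    ![toK (codeN T B i) (by have := codeN_lt T B i; omega), c i, sh (B + T + 1) c i,
      sh (B + T + 2) c i, sh (B + T + 3) c i, y i, sh (T + 2) y i, sh (T + 1) y i,
      toK (if (y i : ℕ) = 2 then 1 else 0) (by split_ifs <;> omega),
      toK (if (y i : ℕ) = 3 then 1 else 0) (by split_ifs <;> omega),
      toK (if (y i : ℕ) = 0 then 0 else 1) (by split_ifs <;> omega), e i]
  have hc : ∀ t ξ, ξ < B + T + 2 → c (t * (B + T + 2) + ξ) = z (cellI T B t (B + T + 1 - ξ)) := by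
    intro t ξ hξ
    simp only [c]
    rw [(idx_div hξ).1, (idx_div hξ).2]
  have hy : ∀ k, k < B → y k = z (lblI T B k) := fun k hk => if_pos hk
  have hy0 : ∀ k, B ≤ k → (y k : ℕ) = 0 := by
    intro k hk
    have : y k = toK 0 (by omega) := if_neg (by omega)
    rw [this]
  have hsh0 : ∀ s f i, ((sh s f i : Fin κ) : ℕ) = if s ≤ i then (f (i - s) : ℕ) else 0 := by
    intro s f i
    simp only [sh]
    split_ifs <;> rfl
  have hshp : ∀ s f i, s ≤ i → sh s f i = f (i - s) := fun s f i hs => if_pos hs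
  refine ⟨x, ?_, ?_⟩
  · intro i hi
    -- coordinates
    obtain ⟨t, ξ, ht, hξ, rfl⟩ : ∃ t ξ, t ≤ T ∧ ξ < B + T + 2 ∧ i = t * (B + T + 2) + ξ := by
      refine ⟨i / (B + T + 2), i % (B + T + 2), ?_, Nat.mod_lt _ (by omega), ?_⟩
      · rw [hn] at hi
        exact Nat.lt_succ_iff.1 (Nat.div_lt_of_lt_mul (by rw [mul_comm]; exact hi))
      · rw [mul_comm]
        exact (Nat.div_add_mod i (B + T + 2)).symm
    refine ⟨?_, rfl, rfl, rfl, ?_⟩
    · have e0 : ((x (t * (B + T + 2) + ξ) 0 : Fin κ) : ℕ) = codeN T B (t * (B + T + 2) + ξ) := rfl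
      rw [e0, codeN_eq hξ]
      by_cases ht0 : t = 0
      · rw [if_pos ht0]
        subst ht0
        by_cases h1 : ξ < T + 2 ∨ ξ = B + T + 1
        · rw [if_pos h1, if_neg one_ne_zero, if_pos rfl]
          change (D (c (0 * (B + T + 2) + ξ))).1 = _
          rw [hc 0 ξ hξ]
          exact hz.a 0 (Nat.zero_le _) _ (by omega) (by omega)
        · rw [if_neg h1, if_neg (by norm_num), if_neg (by norm_num)]
          change (D (c (0 * (B + T + 2) + ξ))).1 =
            lab enc (sh (T + 2) y (0 * (B + T + 2) + ξ)) (sh (T + 1) y (0 * (B + T + 2) + ξ))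
          rw [hc 0 ξ hξ, hshp _ _ _ (by omega), hshp _ _ _ (by omega), hy _ (by omega),
            hy _ (by omega)]
          have h2 := hz.b (B + T + 1 - ξ) (by omega) (by omega)
          rw [h2]
          rw [show 0 * (B + T + 2) + ξ - (T + 2) = B - 1 - (B + T + 1 - ξ) by omega,
            show 0 * (B + T + 2) + ξ - (T + 1) = B - 1 - (B + T + 1 - ξ) + 1 by omega]
      · rw [if_neg ht0]
        by_cases h1 : ξ = 0 ∨ ξ = B + T + 1
        · rw [if_pos h1, if_neg one_ne_zero, if_pos rfl]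
          change (D (c (t * (B + T + 2) + ξ))).1 = _
          rw [hc t ξ hξ]
          exact hz.a t ht _ (by omega) (by omega)
        · rw [if_neg h1, if_pos rfl]
          obtain ⟨u, rfl⟩ := Nat.exists_eq_succ_of_ne_zero ht0
          have e3 : (u + 1) * (B + T + 2) = u * (B + T + 2) + (B + T + 2) := Nat.succ_mul _ _
          change (D (c ((u + 1) * (B + T + 2) + ξ))).1 = caN M
            (D (sh (B + T + 1) c ((u + 1) * (B + T + 2) + ξ)))
            (D (sh (B + T + 2) c ((u + 1) * (B + T + 2) + ξ)))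
            (D (sh (B + T + 3) c ((u + 1) * (B + T + 2) + ξ)))
          rw [hc (u + 1) ξ hξ, hshp _ _ _ (by omega), hshp _ _ _ (by omega), hshp _ _ _ (by omega)]
          rw [show (u + 1) * (B + T + 2) + ξ - (B + T + 1) = u * (B + T + 2) + (ξ + 1) by omega,
            show (u + 1) * (B + T + 2) + ξ - (B + T + 2) = u * (B + T + 2) + ξ by omega,
            show (u + 1) * (B + T + 2) + ξ - (B + T + 3) = u * (B + T + 2) + (ξ - 1) by omega]
          rw [hc u (ξ + 1) (by omega), hc u ξ hξ, hc u (ξ - 1) (by omega)]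
          have h2 := hz.c u (by omega) (B + T + 1 - ξ) (by omega) (by omega)
          rw [h2]
          rw [show B + T + 1 - (ξ + 1) = B + T + 1 - ξ - 1 by omega,
            show B + T + 1 - (ξ - 1) = B + T + 1 - ξ + 1 by omega]
    · change ((e (t * (B + T + 2) + ξ) : Fin κ) : ℕ) = 0 ∨
        (((e (t * (B + T + 2) + ξ) : Fin κ) : ℕ) = 1 ∧ accC M acc (D (c (t * (B + T + 2) + ξ))).1)
      by_cases htT : t = T
      · subst htT
        have e1 : e (t * (B + t + 2) + ξ) = z (.inr (.inl ⟨B + t + 1 - ξ, by omega⟩)) := by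
          simp only [e]
          rw [if_pos (by omega)]
          congr 3
          apply Fin.ext
          simp only
          omega
        rw [e1, hc t ξ hξ]
        exact hz.e ⟨B + t + 1 - ξ, by omega⟩
      · left
        have h1 : (t + 1) * (B + T + 2) ≤ T * (B + T + 2) := Nat.mul_le_mul_right _ (by omega)
        have e3 : (t + 1) * (B + T + 2) = t * (B + T + 2) + (B + T + 2) := Nat.succ_mul _ _
        have e1 : e (t * (B + T + 2) + ξ) = toK 0 (by omega) := if_neg (by omega)
        rw [e1]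
  · have hdig : ∀ f : ℕ → Fin κ, ∀ i < n, (f i : ℕ) < b := fun f i _ => lt_of_lt_of_le (f i).2 hb2
    have hshift : ∀ s f, num b n (fun i => (sh s f i : ℕ)) =
        num b n (fun i => (f i : ℕ)) * b ^ s % b ^ n := by
      intro s f
      rw [num_shift hb (hdig f)]
      exact num_congr fun i _ => hsh0 s f i
    have hval : ∀ (r : Fin 4) (j : Fin 4) (f : ℕ → ℕ), r.val + 1 = j.val →
        (∀ k : Fin B, (z (.inr (.inr (j, k))) : ℕ) = f k) → (∀ i, B ≤ i → f i = 0) →
        (∀ i, f i ≤ 1) → num b n f % (b - 2) = ro w r := by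
      intro r j f hrj hf hf0 hf1
      have hr3 : ¬ r = 3 := by
        rintro rfl
        have := j.2
        have : (3 : Fin 4).val = 3 := rfl
        omega
      have h1 := hsum r
      rw [tm_sum T B (fun i => (z i : ℕ)), dif_neg hr3] at h1
      have e1 : (⟨r.val + 1, by omega⟩ : Fin 4) = j := Fin.ext hrj
      rw [e1] at h1
      have e2 : num 2 n f = num 2 B f := num_cut hBn fun i h1 _ => hf0 i h1
      have e3 : num 2 B f < 2 ^ B := num_two_le fun i _ => hf1 i
      rw [num_mod (by omega) (by omega), e2]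
      rw [← h1]
      unfold num
      rw [Finset.sum_range]
      exact sum_congr rfl fun k _ => by rw [hf k]
    have hyl : ∀ k : Fin B, (y k.val : ℕ) = (z (.inr (.inr (0, k))) : ℕ) := by
      intro k
      rw [hy _ k.2, lblI_eq T B k]
    have hsume : ∑ i ∈ range n, (e i : ℕ) = 1 := by
      have h1 := hsum 3
      rw [tm_sum T B (fun i => (z i : ℕ)), dif_pos rfl] at h1
      rw [hnW, sum_range_add]
      have e4 : ∑ i ∈ range (T * (B + T + 2)), (e i : ℕ) = 0 := by
        refine sum_eq_zero fun i hi => ?_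
        have : e i = toK 0 (by omega) := if_neg (by have := mem_range.1 hi; omega)
        rw [this]
      rw [e4, zero_add]
      have e5 := Finset.sum_range_reflect
        (fun ξ => (e (T * (B + T + 2) + ξ) : ℕ)) (B + T + 2)
      rw [← e5, Finset.sum_range]
      have e6 : ro w 3 = 1 := rfl
      refine Eq.trans ?_ (h1.trans e6)
      refine sum_congr rfl fun v _ => ?_
      have e7 : e (T * (B + T + 2) + (B + T + 2 - 1 - v.val)) = z (.inr (.inl v)) := by
        simp only [e]
        rw [if_pos (by omega)]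
        congr 3
        apply Fin.ext
        simp only
        omega
      rw [e7]
    constructor
    · change num b n (fun i => codeN T B i) = _
      exact num_codeN b T B hB1
    · exact hshift _ c
    · exact hshift _ c
    · exact hshift _ c
    · change num b n (fun i => (y i : ℕ)) < b ^ B
      rw [num_cut hBn fun i h1 _ => hy0 i h1]
      exact num_lt hb fun i hi => hdig y i (by omega)
    · exact hshift _ y
    · exact hshift _ y
    · refine hval 0 1 (fun i => if (y i : ℕ) = 2 then 1 else 0) rfl ?_ ?_ ?_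
      · intro k
        rw [hz.f1, hyl]
      · intro i hi
        rw [hy0 i hi]
        rfl
      · intro i
        split_ifs <;> omega
    · refine hval 1 2 (fun i => if (y i : ℕ) = 3 then 1 else 0) rfl ?_ ?_ ?_
      · intro k
        rw [hz.f2, hyl]
      · intro i hi
        rw [hy0 i hi]
        rfl
      · intro i
        split_ifs <;> omega
    · refine hval 2 3 (fun i => if (y i : ℕ) = 0 then 0 else 1) rfl ?_ ?_ ?_
      · intro k
        rw [hz.f3, hyl]
      · intro i hi
        rw [hy0 i hi]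
        rfl
      · intro i
        split_ifs <;> omega
    · refine num_dvd_of_low fun i hi _ => ?_
      change ((e i : Fin κ) : ℕ) = 0
      have : e i = toK 0 (by omega) := if_neg (by omega)
      rw [this]
    · change num b n (fun i => (e i : ℕ)) % (b - 1) = 1
      have e1 : num 1 n (fun i => (e i : ℕ)) = 1 := by
        refine Eq.trans ?_ hsume
        unfold num
        exact sum_congr rfl fun i _ => by rw [one_pow, mul_one]
      rw [num_mod (by omega) (by rw [e1]; omega), e1]

/-- Acceptance in terms of numerals. -/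
theorem tableau_iff (hκ : 8 ≤ κ) (D : Fin κ → Cell Γ Λ) (M : Bool → TM0.Machine Γ Λ)
    (enc : Option Bool → Γ) (acc : Λ → Prop) {b T B : ℕ} {w : List (Option Bool)} (hw : w ≠ [])
    (hB : w.length + T + 1 ≤ B) (E : Cell Γ Λ → Fin κ) (hDE : ∀ a, D (E a) = a)
    (hb1 : 2 ^ B + 2 ≤ b) (hb2 : κ ≤ b) (hb3 : (T + 1) * (B + T + 2) + 2 ≤ b) :
    (∃ β, AccConf M acc (run M (w.map enc) β T).1) ↔
    ∃ x : ℕ → Fin 12 → Fin κ,
      (∀ i < (T + 1) * (B + T + 2), rhoT D M enc acc (x i)) ∧
      RelT b T B (ro w 0) (ro w 1) (ro w 2)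
        (fun j => num b ((T + 1) * (B + T + 2)) (fun i => (x i j : ℕ))) :=
  ⟨tableau_complete hκ D M enc acc hw hB E hDE hb1 hb2 hb3,
    fun ⟨x, h1, h2⟩ => tableau_sound D M enc acc hw hB hb1 hb2 hb3 x h1 h2⟩

end

end Pool.Agent.DNP18
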