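import Pool.Agent.DNP18.BaseD
import Pool.Agent.DNP18.BaseE
import Pool.Agent.DNP18.Pow
import Pool.Agent.DNP18.DTab
import Pool.Agent.DNP18.TabNum
import Pool.Agent.DPoly.Main

/-!
# Relations in `NP` are definable
-/

namespace Pool.Agent.DNP18

open Finset Turing DPoly

section poly

variable {σ : Type} {o : σ} {C : (σ → ℕ) → Prop} {F : (σ → ℕ) → ℕ}

theorem NPoly.pow' (hF : NPoly F) (k : ℕ) : NPoly (fun v => F v ^ k) := by
  have h := PolyFun.pow hF k
  unfold NPoly
  push_cast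
  exact h

theorem NPoly.eval (p : Polynomial ℕ) (hF : NPoly F) : NPoly (fun v => p.eval (F v)) := by
  induction p using Polynomial.induction_on' with
  | add p q hp hq =>
    have : (fun v => (p + q).eval (F v)) = fun v => p.eval (F v) + q.eval (F v) := by
      funext v
      exact Polynomial.eval_add
    rw [this]
    exact hp.add hq
  | monomial k c =>
    have : (fun v => (Polynomial.monomial k c).eval (F v)) = fun v => c * F v ^ k := by
      funext v
      exact Polynomial.eval_monomial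
    rw [this]
    exact (NPoly.const c).mul (NPoly.pow' hF k)

theorem Small.eval (p : Polynomial ℕ) (hF : Small o C F) : Small o C (fun v => p.eval (F v)) := by
  induction p using Polynomial.induction_on' with
  | add p q hp hq =>
    have : (fun v => (p + q).eval (F v)) = fun v => p.eval (F v) + q.eval (F v) := by
      funext v
      exact Polynomial.eval_add
    rw [this]
    exact hp.add hq
  | monomial k c =>
    have : (fun v => (Polynomial.monomial k c).eval (F v)) = fun v => c * F v ^ k := by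
      funext v
      exact Polynomial.eval_monomial
    rw [this]
    exact (Small.const c).mul (hF.pow k)

end poly

/-! ### the parameters -/

section par

variable (n : ℕ) (p : Polynomial ℕ) (κ : ℕ)

/-- bound for the length of the input word -/
def pL (N : ℕ) : ℕ := n * (N + 1)

/-- the running time -/
def pT (N : ℕ) : ℕ := p.eval (pL n N)

/-- the width, up to `T + 2` -/
def pB (N : ℕ) : ℕ := pL n N + pT n p N + 1

/-- the number of cells -/
def pn (N : ℕ) : ℕ := (pT n p N + 1) * (pB n p N + pT n p N + 2)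

/-- the base -/
def pb (s N : ℕ) : ℕ := s + 2 ^ (pB n p N + κ + 4) + pn n p N + 2

/-- the exponents -/
def pex (N : ℕ) : Fin 9 → ℕ :=
  ![pB n p N, pT n p N + 1, pT n p N + 2, pB n p N + pT n p N + 1, pB n p N + pT n p N + 2,
    pB n p N + pT n p N + 3, pL n N + pT n p N, pT n p N * (pB n p N + pT n p N + 2), pn n p N]

/-- a bound for the exponents -/
def pe (N : ℕ) : ℕ := pn n p N + pB n p N + pT n p N + 3

theorem pex_le (N : ℕ) (k : Fin 9) : pex n p N k ≤ pe n p N := by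
  have h1 : pT n p N * (pB n p N + pT n p N + 2) ≤ pn n p N := by
    unfold pn
    exact Nat.mul_le_mul_right _ (Nat.le_succ _)
  have h2 : pL n N + pT n p N ≤ pB n p N := by
    unfold pB
    omega
  unfold pe
  fin_cases k
  · show pB n p N ≤ _
    omega
  · show pT n p N + 1 ≤ _
    omega
  · show pT n p N + 2 ≤ _
    omega
  · show pB n p N + pT n p N + 1 ≤ _
    omega
  · show pB n p N + pT n p N + 2 ≤ _
    omega
  · show pB n p N + pT n p N + 3 ≤ _
    omega
  · show pL n N + pT n p N ≤ _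
    omega
  · show pT n p N * (pB n p N + pT n p N + 2) ≤ _
    omega
  · show pn n p N ≤ _
    omega

end par

/-! ### the witnesses -/

/-- indices of the witnesses: `N`, `2^N`, `2^(B+κ+4)`; powers of the base; geometric sums;
numerals; read-outs -/
abbrev WI : Type := Fin 3 ⊕ (Fin 9 ⊕ (Fin 3 ⊕ (Fin 12 ⊕ Fin 4)))

section pred

variable {Γ Λ : Type} [Inhabited Γ] [Inhabited Λ]
variable (n : ℕ) (p : Polynomial ℕ) (κ : ℕ) (ρ : (Fin 12 → Fin κ) → Prop)

/-- the arithmetical predicate, `a` the arguments, `s` their sum -/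
structure GP (s : ℕ) (a : Fin n → ℕ) (w : WI → ℕ) : Prop where
  sum : s = ∑ i, a i
  ltE : s < w (.inl 1)
  leE : w (.inl 1) = 2 ∨ w (.inl 1) ≤ 2 * s
  one : 1 ≤ w (.inl 0)
  powN : w (.inl 1) = 2 ^ w (.inl 0)
  powP : w (.inl 2) = 2 ^ (pB n p (w (.inl 0)) + κ + 4)
  pows : ∀ k : Fin 9, w (.inr (.inl k)) =
    (s + w (.inl 2) + pn n p (w (.inl 0)) + 2) ^ pex n p (w (.inl 0)) k
  g1 : w (.inr (.inr (.inl 0))) * (s + w (.inl 2) + pn n p (w (.inl 0)) + 2) + 1 =
    w (.inr (.inl 4)) + w (.inr (.inr (.inl 0)))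
  g2 : w (.inr (.inr (.inl 1))) * (s + w (.inl 2) + pn n p (w (.inl 0)) + 2) + 1 =
    w (.inr (.inl 6)) + w (.inr (.inr (.inl 1)))
  g3 : w (.inr (.inr (.inl 2))) * w (.inr (.inl 4)) + w (.inr (.inl 4)) =
    w (.inr (.inl 8)) + w (.inr (.inr (.inl 2)))
  x0 : w (.inr (.inr (.inr (.inl 0)))) = w (.inr (.inr (.inl 0))) +
    w (.inr (.inl 2)) * w (.inr (.inr (.inl 1))) + (1 + w (.inr (.inl 3))) * w (.inr (.inr (.inl 2)))
  x2 : 0 < w (.inr (.inl 8)) ∧ w (.inr (.inr (.inr (.inl 1)))) * w (.inr (.inl 3)) %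
    w (.inr (.inl 8)) = w (.inr (.inr (.inr (.inl 2))))
  x3 : 0 < w (.inr (.inl 8)) ∧ w (.inr (.inr (.inr (.inl 1)))) * w (.inr (.inl 4)) %
    w (.inr (.inl 8)) = w (.inr (.inr (.inr (.inl 3))))
  x4 : 0 < w (.inr (.inl 8)) ∧ w (.inr (.inr (.inr (.inl 1)))) * w (.inr (.inl 5)) %
    w (.inr (.inl 8)) = w (.inr (.inr (.inr (.inl 4))))
  x5 : w (.inr (.inr (.inr (.inl 5)))) < w (.inr (.inl 0))
  x6 : 0 < w (.inr (.inl 8)) ∧ w (.inr (.inr (.inr (.inl 5)))) * w (.inr (.inl 2)) %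
    w (.inr (.inl 8)) = w (.inr (.inr (.inr (.inl 6))))
  x7 : 0 < w (.inr (.inl 8)) ∧ w (.inr (.inr (.inr (.inl 5)))) * w (.inr (.inl 1)) %
    w (.inr (.inl 8)) = w (.inr (.inr (.inr (.inl 7))))
  x8 : 0 < s + w (.inl 2) + pn n p (w (.inl 0)) ∧ w (.inr (.inr (.inr (.inl 8)))) %
    (s + w (.inl 2) + pn n p (w (.inl 0))) = w (.inr (.inr (.inr (.inr 0))))
  x9 : 0 < s + w (.inl 2) + pn n p (w (.inl 0)) ∧ w (.inr (.inr (.inr (.inl 9)))) %
    (s + w (.inl 2) + pn n p (w (.inl 0))) = w (.inr (.inr (.inr (.inr 1))))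
  x10 : 0 < s + w (.inl 2) + pn n p (w (.inl 0)) ∧ w (.inr (.inr (.inr (.inl 10)))) %
    (s + w (.inl 2) + pn n p (w (.inl 0))) = w (.inr (.inr (.inr (.inr 2))))
  d11 : w (.inr (.inl 7)) ∣ w (.inr (.inr (.inr (.inl 11))))
  x11 : 0 < s + w (.inl 2) + pn n p (w (.inl 0)) + 1 ∧ w (.inr (.inr (.inr (.inl 11)))) %
    (s + w (.inl 2) + pn n p (w (.inl 0)) + 1) = 1
  inp : InpP a (w (.inl 1)) (fun r => w (.inr (.inr (.inr (.inr r)))))
  tab : s ≤ s + w (.inl 2) + pn n p (w (.inl 0)) + 2 ∧ 1 ≤ pn n p (w (.inl 0)) ∧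
    w (.inr (.inl 8)) = (s + w (.inl 2) + pn n p (w (.inl 0)) + 2) ^ pn n p (w (.inl 0)) ∧
    Tab κ 12 ρ (s + w (.inl 2) + pn n p (w (.inl 0)) + 2) (pn n p (w (.inl 0)))
      (fun j => w (.inr (.inr (.inr (.inl j)))))

/-- the sum of the arguments and the arguments -/
abbrev VI (n : ℕ) : Type := Option (Fin n)

theorem dd_gp (hκ : 1 ≤ κ) : DD (Sum.inl none : VI n ⊕ WI)
    (fun v => GP n p κ ρ (v (.inl none)) (fun i => v (.inl (some i))) (fun j => v (.inr j))) := by
  let N : (VI n ⊕ WI → ℕ) → ℕ := fun v => v (.inr (.inl 0))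
  let s : (VI n ⊕ WI → ℕ) → ℕ := fun v => v (.inl none)
  have hN : NPoly N := NPoly.coord _
  have hs : NPoly s := NPoly.coord _
  have hc : ∀ i, NPoly (fun v : VI n ⊕ WI → ℕ => v i) := fun i => NPoly.coord i
  have hL : NPoly (fun v => pL n (N v)) := (NPoly.const n).mul (hN.add (NPoly.const 1))
  have hT : NPoly (fun v => pT n p (N v)) := NPoly.eval p hL
  have hB : NPoly (fun v => pB n p (N v)) := (hL.add hT).add (NPoly.const 1)
  have hW : NPoly (fun v => pB n p (N v) + pT n p (N v) + 2) := (hB.add hT).add (NPoly.const 2)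
  have hn : NPoly (fun v => pn n p (N v)) := (hT.add (NPoly.const 1)).mul hW
  have hm : NPoly (fun v => s v + v (.inr (.inl 2)) + pn n p (N v)) := (hs.add (hc _)).add hn
  have hb : NPoly (fun v => s v + v (.inr (.inl 2)) + pn n p (N v) + 2) := hm.add (NPoly.const 2)
  have hex : ∀ k, NPoly (fun v => pex n p (N v) k) := by
    intro k
    fin_cases k
    · exact hB
    · exact hT.add (NPoly.const 1)
    · exact hT.add (NPoly.const 2)
    · exact (hB.add hT).add (NPoly.const 1)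
    · exact hW
    · exact (hB.add hT).add (NPoly.const 3)
    · exact hL.add hT
    · exact hT.mul hW
    · exact hn
  have hmod : ∀ {F m t : (VI n ⊕ WI → ℕ) → ℕ}, NPoly F → NPoly m → NPoly t →
      DD (Sum.inl none : VI n ⊕ WI) (fun v => 0 < m v ∧ F v % m v = t v) :=
    fun hF hm ht => DD.of_dio _ (Dio.mod hF hm ht)
  have q1 : DD (Sum.inl none : VI n ⊕ WI) (fun v => s v = ∑ i, v (.inl (some i))) :=
    DD.natEq hs (NPoly.sum _ fun i _ => hc _)
  have q2 : DD (Sum.inl none : VI n ⊕ WI) (fun v => s v < v (.inr (.inl 1))) :=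
    DD.natLt hs (hc _)
  have q3 : DD (Sum.inl none : VI n ⊕ WI) (fun v => v (.inr (.inl 1)) = 2 ∨
      v (.inr (.inl 1)) ≤ 2 * s v) :=
    (DD.natEq (hc _) (NPoly.const 2)).or (DD.natLe (hc _) ((NPoly.const 2).mul hs))
  have q4 : DD (Sum.inl none : VI n ⊕ WI) (fun v => 1 ≤ N v) := DD.natLe (NPoly.const 1) hN
  have q5 : DD (Sum.inl none : VI n ⊕ WI) (fun v => v (.inr (.inl 1)) = 2 ^ N v) :=
    DD.pow (NPoly.const 2) hN (hc _)
  have q6 : DD (Sum.inl none : VI n ⊕ WI) (fun v => v (.inr (.inl 2)) =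
      2 ^ (pB n p (N v) + κ + 4)) :=
    DD.pow (NPoly.const 2) ((hB.add (NPoly.const κ)).add (NPoly.const 4)) (hc _)
  have q7 : DD (Sum.inl none : VI n ⊕ WI) (fun v => ∀ k : Fin 9, v (.inr (.inr (.inl k))) =
      (s v + v (.inr (.inl 2)) + pn n p (N v) + 2) ^ pex n p (N v) k) :=
    DD.all fun k => DD.pow hb (hex k) (hc _)
  have g1 : DD (Sum.inl none : VI n ⊕ WI) (fun v => v (.inr (.inr (.inr (.inl 0)))) *
      (s v + v (.inr (.inl 2)) + pn n p (N v) + 2) + 1 =
      v (.inr (.inr (.inl 4))) + v (.inr (.inr (.inr (.inl 0))))) :=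
    DD.natEq (((hc _).mul hb).add (NPoly.const 1)) ((hc _).add (hc _))
  have g2 : DD (Sum.inl none : VI n ⊕ WI) (fun v => v (.inr (.inr (.inr (.inl 1)))) *
      (s v + v (.inr (.inl 2)) + pn n p (N v) + 2) + 1 =
      v (.inr (.inr (.inl 6))) + v (.inr (.inr (.inr (.inl 1))))) :=
    DD.natEq (((hc _).mul hb).add (NPoly.const 1)) ((hc _).add (hc _))
  have g3 : DD (Sum.inl none : VI n ⊕ WI) (fun v => v (.inr (.inr (.inr (.inl 2)))) *
      v (.inr (.inr (.inl 4))) + v (.inr (.inr (.inl 4))) =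
      v (.inr (.inr (.inl 8))) + v (.inr (.inr (.inr (.inl 2))))) :=
    DD.natEq (((hc _).mul (hc _)).add (hc _)) ((hc _).add (hc _))
  have x0 : DD (Sum.inl none : VI n ⊕ WI) (fun v => v (.inr (.inr (.inr (.inr (.inl 0))))) =
      v (.inr (.inr (.inr (.inl 0)))) + v (.inr (.inr (.inl 2))) * v (.inr (.inr (.inr (.inl 1)))) +
      (1 + v (.inr (.inr (.inl 3)))) * v (.inr (.inr (.inr (.inl 2))))) :=
    DD.natEq (hc _) (((hc _).add ((hc _).mul (hc _))).add (((NPoly.const 1).add (hc _)).mul (hc _)))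
  have x2 := hmod (F := fun v => v (.inr (.inr (.inr (.inr (.inl 1))))) * v (.inr (.inr (.inl 3))))
    (m := fun v => v (.inr (.inr (.inl 8)))) (t := fun v => v (.inr (.inr (.inr (.inr (.inl 2))))))
    ((hc _).mul (hc _)) (hc _) (hc _)
  have x3 := hmod (F := fun v => v (.inr (.inr (.inr (.inr (.inl 1))))) * v (.inr (.inr (.inl 4))))
    (m := fun v => v (.inr (.inr (.inl 8)))) (t := fun v => v (.inr (.inr (.inr (.inr (.inl 3))))))
    ((hc _).mul (hc _)) (hc _) (hc _)
  have x4 := hmod (F := fun v => v (.inr (.inr (.inr (.inr (.inl 1))))) * v (.inr (.inr (.inl 5))))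
    (m := fun v => v (.inr (.inr (.inl 8)))) (t := fun v => v (.inr (.inr (.inr (.inr (.inl 4))))))
    ((hc _).mul (hc _)) (hc _) (hc _)
  have x5 : DD (Sum.inl none : VI n ⊕ WI) (fun v => v (.inr (.inr (.inr (.inr (.inl 5))))) <
      v (.inr (.inr (.inl 0)))) := DD.natLt (hc _) (hc _)
  have x6 := hmod (F := fun v => v (.inr (.inr (.inr (.inr (.inl 5))))) * v (.inr (.inr (.inl 2))))
    (m := fun v => v (.inr (.inr (.inl 8)))) (t := fun v => v (.inr (.inr (.inr (.inr (.inl 6))))))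
    ((hc _).mul (hc _)) (hc _) (hc _)
  have x7 := hmod (F := fun v => v (.inr (.inr (.inr (.inr (.inl 5))))) * v (.inr (.inr (.inl 1))))
    (m := fun v => v (.inr (.inr (.inl 8)))) (t := fun v => v (.inr (.inr (.inr (.inr (.inl 7))))))
    ((hc _).mul (hc _)) (hc _) (hc _)
  have x8 := hmod (F := fun v => v (.inr (.inr (.inr (.inr (.inl 8))))))
    (m := fun v => s v + v (.inr (.inl 2)) + pn n p (N v))
    (t := fun v => v (.inr (.inr (.inr (.inr (.inr 0)))))) (hc _) hm (hc _)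
  have x9 := hmod (F := fun v => v (.inr (.inr (.inr (.inr (.inl 9))))))
    (m := fun v => s v + v (.inr (.inl 2)) + pn n p (N v))
    (t := fun v => v (.inr (.inr (.inr (.inr (.inr 1)))))) (hc _) hm (hc _)
  have x10 := hmod (F := fun v => v (.inr (.inr (.inr (.inr (.inl 10))))))
    (m := fun v => s v + v (.inr (.inl 2)) + pn n p (N v))
    (t := fun v => v (.inr (.inr (.inr (.inr (.inr 2)))))) (hc _) hm (hc _)
  have d11 : DD (Sum.inl none : VI n ⊕ WI) (fun v => v (.inr (.inr (.inl 7))) ∣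
      v (.inr (.inr (.inr (.inr (.inl 11)))))) := DD.natDvd (hc _) (hc _)
  have x11 := hmod (F := fun v => v (.inr (.inr (.inr (.inr (.inl 11))))))
    (m := fun v => s v + v (.inr (.inl 2)) + pn n p (N v) + 1)
    (t := fun _ => 1) (hc _) (hm.add (NPoly.const 1)) (NPoly.const 1)
  let e1 : (Fin n ⊕ Unit) ⊕ Fin 4 → VI n ⊕ WI := Sum.elim (Sum.elim (fun i => .inl (some i))
    (fun _ => .inr (.inl 1))) (fun r => .inr (.inr (.inr (.inr (.inr r)))))
  have inp : DD (Sum.inl none : VI n ⊕ WI) (fun v => InpP (fun i => v (.inl (some i)))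
      (v (.inr (.inl 1))) (fun r => v (.inr (.inr (.inr (.inr (.inr r))))))) :=
    DD.of_dio _ ((dio_inpP n).comp e1)
  have tab := DD.tab (o := (Sum.inl none : VI n ⊕ WI)) hκ ρ
    (B0 := fun v => s v + v (.inr (.inl 2)) + pn n p (N v) + 2) (n := fun v => pn n p (N v))
    (w := fun v => v (.inr (.inr (.inl 8))))
    (X := fun j v => v (.inr (.inr (.inr (.inr (.inl j)))))) hb hn (hc _) (fun _ => hc _)
  have hall := q1.and (q2.and (q3.and (q4.and (q5.and (q6.and (q7.and (g1.and (g2.and (g3.and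
    (x0.and (x2.and (x3.and (x4.and (x5.and (x6.and (x7.and (x8.and (x9.and (x10.and (d11.and
    (x11.and (inp.and tab))))))))))))))))))))))
  refine hall.congr fun v => ⟨?_, ?_⟩
  · rintro ⟨h1, h2, h3, h4, h5, h6, h7, h8, h9, h10, h11, h12, h13, h14, h15, h16, h17, h18, h19,
      h20, h21, h22, h23, h24⟩
    exact ⟨h1, h2, h3, h4, h5, h6, h7, h8, h9, h10, h11, h12, h13, h14, h15, h16, h17, h18, h19,
      h20, h21, h22, h23, h24⟩
  · rintro ⟨h1, h2, h3, h4, h5, h6, h7, h8, h9, h10, h11, h12, h13, h14, h15, h16, h17, h18, h19,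
      h20, h21, h22, h23, h24⟩
    exact ⟨h1, h2, h3, h4, h5, h6, h7, h8, h9, h10, h11, h12, h13, h14, h15, h16, h17, h18, h19,
      h20, h21, h22, h23, h24⟩

end pred

end Pool.Agent.DNP18
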