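import Pool.Agent.DNP18.Glue

/-!
# Soundness and completeness of the arithmetical predicate
-/

namespace Pool.Agent.DNP18

open Finset Turing DPoly

theorem num_one_unique {b m G : ℕ} (hb : 2 ≤ b) (h : G * b + 1 = b ^ m + G) :
    G = num b m (fun _ => 1) := by
  have h1 := num_one (b := b) (n := m) (by omega)
  obtain ⟨c, rfl⟩ : ∃ c, b = c + 2 := ⟨b - 2, by omega⟩
  have h3 : c + 2 - 1 = c + 1 := rfl
  rw [h3] at h1
  have h2 : (c + 1) * G = (c + 1) * num (c + 2) m (fun _ => 1) := by nlinarith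
  exact Nat.eq_of_mul_eq_mul_left (Nat.succ_pos c) h2

theorem num_one_eq {b m : ℕ} (hb : 1 ≤ b) :
    num b m (fun _ => 1) * b + 1 = b ^ m + num b m (fun _ => 1) := by
  have h1 := num_one (b := b) (n := m) hb
  obtain ⟨c, rfl⟩ : ∃ c, b = c + 1 := ⟨b - 1, by omega⟩
  have h3 : c + 1 - 1 = c := rfl
  rw [h3] at h1
  nlinarith

theorem geo_eq (c T : ℕ) :
    (∑ t ∈ range T, c ^ (t + 1)) * c + c = c ^ (T + 1) + ∑ t ∈ range T, c ^ (t + 1) := by
  induction T with
  | zero => simp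
  | succ T ih =>
    rw [sum_range_succ, add_mul]
    have : c ^ (T + 1) * c = c ^ (T + 1 + 1) := (pow_succ _ _).symm
    omega

theorem geo_unique {c T R : ℕ} (hc : 2 ≤ c) (h : R * c + c = c ^ (T + 1) + R) :
    R = ∑ t ∈ range T, c ^ (t + 1) := by
  have h1 := geo_eq c T
  obtain ⟨d, rfl⟩ : ∃ d, c = d + 2 := ⟨c - 2, by omega⟩
  set S := ∑ t ∈ range T, (d + 2) ^ (t + 1)
  have h2 : (d + 1) * R = (d + 1) * S := by nlinarith
  exact Nat.eq_of_mul_eq_mul_left (Nat.succ_pos d) h2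

theorem geo_rows {b T W R : ℕ} (hb : 2 ≤ b) (hW : 1 ≤ W)
    (h : R * b ^ W + b ^ W = b ^ ((T + 1) * W) + R) :
    R = ∑ t ∈ range T, b ^ ((t + 1) * W) := by
  have hc : 2 ≤ b ^ W := by
    calc 2 ≤ b := hb
      _ = b ^ 1 := (pow_one b).symm
      _ ≤ b ^ W := Nat.pow_le_pow_right (by omega) hW
  have h1 : b ^ ((T + 1) * W) = (b ^ W) ^ (T + 1) := by rw [← pow_mul, mul_comm]
  rw [h1] at h
  rw [geo_unique hc h]
  exact sum_congr rfl fun t _ => by rw [← pow_mul, mul_comm]

theorem geo_rows_eq (b T W : ℕ) :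
    (∑ t ∈ range T, b ^ ((t + 1) * W)) * b ^ W + b ^ W =
      b ^ ((T + 1) * W) + ∑ t ∈ range T, b ^ ((t + 1) * W) := by
  have h1 : ∀ t, b ^ ((t + 1) * W) = (b ^ W) ^ (t + 1) := fun t => by rw [← pow_mul, mul_comm]
  simp only [h1]
  exact geo_eq _ _

section

variable {n : ℕ} {p : Polynomial ℕ} {κ : ℕ}

theorem word_ne_nil (hn : 1 ≤ n) (a : Fin n → ℕ) : word a ≠ [] := by
  intro h0
  have h1 := word_length a
  rw [h0, List.length_nil] at h1
  have h2 : ∑ _i : Fin n, 1 ≤ ∑ i, (len (a i) + 1) :=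
    Finset.sum_le_sum fun i _ => Nat.le_add_left _ _
  simp at h2
  omega

theorem word_length_le {N : ℕ} (a : Fin n → ℕ) (h : ∀ i, len (a i) ≤ N) :
    (word a).length ≤ pL n N := by
  rw [word_length]
  calc ∑ i, (len (a i) + 1) ≤ ∑ _i : Fin n, (N + 1) :=
        Finset.sum_le_sum fun i _ => Nat.succ_le_succ (h i)
    _ = pL n N := by simp [pL]

theorem pb_le1 (s N : ℕ) : 2 ^ pB n p N + 2 ≤ s + 2 ^ (pB n p N + κ + 4) + pn n p N + 2 := by
  have : 2 ^ pB n p N ≤ 2 ^ (pB n p N + κ + 4) := Nat.pow_le_pow_right (by norm_num) (by omega)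
  omega

theorem pb_le2 (s N : ℕ) : κ ≤ s + 2 ^ (pB n p N + κ + 4) + pn n p N + 2 := by
  have h1 : 2 ^ κ ≤ 2 ^ (pB n p N + κ + 4) := Nat.pow_le_pow_right (by norm_num) (by omega)
  have h2 : κ < 2 ^ κ := Nat.lt_two_pow_self
  omega

theorem pb_le3 (s N : ℕ) : (pT n p N + 1) * (pB n p N + pT n p N + 2) + 2 ≤
    s + 2 ^ (pB n p N + κ + 4) + pn n p N + 2 :=
  Nat.add_le_add_right (Nat.le_add_left _ _) 2

variable {Γ Λ : Type} [Inhabited Γ] [Inhabited Λ]

theorem gp_sound (hn : 1 ≤ n) (D : Fin κ → Cell Γ Λ) (M : Bool → TM0.Machine Γ Λ)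
    (enc : Option Bool → Γ) (acc : Λ → Prop) {s : ℕ} {a : Fin n → ℕ} {w : WI → ℕ}
    (h : GP n p κ (rhoT D M enc acc) s a w) :
    s = ∑ i, a i ∧ (∀ i, len (a i) ≤ w (.inl 0)) ∧
      ∃ β, AccConf M acc (run M ((word a).map enc) β (pT n p (w (.inl 0)))).1 := by
  obtain ⟨hs, ltE, -, one, powN, powP, pows, g1, g2, g3, x0, x2, x3, x4, x5, x6, x7, x8, x9, x10,
    d11, x11, inp, -, -, -, tab⟩ := h
  set N := w (.inl 0) with hN
  have ha : ∀ i, len (a i) ≤ N := by
    intro i
    have h1 : a i ≤ ∑ i, a i := Finset.single_le_sum (fun _ _ => Nat.zero_le _) (Finset.mem_univ i)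
    exact len_le_of_lt (by omega) one
  refine ⟨hs, ha, ?_⟩
  rw [powP] at pows g1 g2 x8 x9 x10 x11 tab
  have hb1 : 2 ^ pB n p N + 2 ≤ s + 2 ^ (pB n p N + κ + 4) + pn n p N + 2 := pb_le1 s N
  have hb2 : κ ≤ s + 2 ^ (pB n p N + κ + 4) + pn n p N + 2 := pb_le2 s N
  have hb3 := pb_le3 (n := n) (p := p) (κ := κ) s N
  have e1 : s + 2 ^ (pB n p N + κ + 4) + pn n p N + 2 - 2 =
    s + 2 ^ (pB n p N + κ + 4) + pn n p N := Nat.add_sub_cancel _ _
  have e2 : s + 2 ^ (pB n p N + κ + 4) + pn n p N + 2 - 1 =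
    s + 2 ^ (pB n p N + κ + 4) + pn n p N + 1 := by omega
  rw [← e1] at x8 x9 x10
  rw [← e2] at x11
  have hb : 2 ≤ s + 2 ^ (pB n p N + κ + 4) + pn n p N + 2 := Nat.le_add_left _ _
  generalize s + 2 ^ (pB n p N + κ + 4) + pn n p N + 2 = b at *
  -- the read-outs
  rw [powN] at inp
  have hro := (inpP_iff a ha _).1 inp
  obtain ⟨x, hx1, hx2⟩ := tab
  have p0 : w (.inr (.inl 0)) = b ^ pB n p N := pows 0
  have p1 : w (.inr (.inl 1)) = b ^ (pT n p N + 1) := pows 1
  have p2 : w (.inr (.inl 2)) = b ^ (pT n p N + 2) := pows 2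
  have p3 : w (.inr (.inl 3)) = b ^ (pB n p N + pT n p N + 1) := pows 3
  have p4 : w (.inr (.inl 4)) = b ^ (pB n p N + pT n p N + 2) := pows 4
  have p5 : w (.inr (.inl 5)) = b ^ (pB n p N + pT n p N + 3) := pows 5
  have p6 : w (.inr (.inl 6)) = b ^ (pL n N + pT n p N) := pows 6
  have p7 : w (.inr (.inl 7)) = b ^ (pT n p N * (pB n p N + pT n p N + 2)) := pows 7
  have p8 : w (.inr (.inl 8)) = b ^ ((pT n p N + 1) * (pB n p N + pT n p N + 2)) := pows 8
  rw [p4] at g1
  rw [p6] at g2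
  rw [p4, p8] at g3
  have q1 := num_one_unique hb g1
  have q2 := num_one_unique hb g2
  have q3 := geo_rows hb (by omega) g3
  have hB1 : pB n p N - 1 = pL n N + pT n p N := by
    unfold pB
    omega
  refine tableau_sound D M enc acc (word_ne_nil hn a) (B := pB n p N) ?_ hb1 hb2 hb3 x hx2 ?_
  · have := word_length_le a ha
    unfold pB
    omega
  have hX : (fun j => num b ((pT n p N + 1) * (pB n p N + pT n p N + 2)) (fun i => (x i j : ℕ))) =
      fun j => w (.inr (.inr (.inr (.inl j)))) := by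
    funext j
    exact (hx1 j).symm
  rw [hX, ← hro]
  constructor
  · show w (.inr (.inr (.inr (.inl 0)))) = _
    rw [x0, q1, q2, q3, p2, p3, hB1]
  · show w (.inr (.inr (.inr (.inl 2)))) = _
    rw [← x2.2, p3, p8]
  · show w (.inr (.inr (.inr (.inl 3)))) = _
    rw [← x3.2, p4, p8]
  · show w (.inr (.inr (.inr (.inl 4)))) = _
    rw [← x4.2, p5, p8]
  · show w (.inr (.inr (.inr (.inl 5)))) < _
    rw [← p0]
    exact x5
  · show w (.inr (.inr (.inr (.inl 6)))) = _
    rw [← x6.2, p2, p8]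
  · show w (.inr (.inr (.inr (.inl 7)))) = _
    rw [← x7.2, p1, p8]
  · exact x8.2
  · exact x9.2
  · exact x10.2
  · show _ ∣ w (.inr (.inr (.inr (.inl 11))))
    rw [← p7]
    exact d11
  · exact x11.2

theorem gp_complete (hn : 1 ≤ n) (hκ : 8 ≤ κ) (D : Fin κ → Cell Γ Λ) (M : Bool → TM0.Machine Γ Λ)
    (enc : Option Bool → Γ) (acc : Λ → Prop) (E : Cell Γ Λ → Fin κ) (hDE : ∀ a, D (E a) = a)
    (a : Fin n → ℕ)
    (h : ∃ β, AccConf M acc (run M ((word a).map enc) β (pT n p (len (∑ i, a i)))).1) :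
    ∃ w : WI → ℕ, GP n p κ (rhoT D M enc acc) (∑ i, a i) a w ∧
      ∀ j, w j ≤ pb n p κ (∑ i, a i) (len (∑ i, a i)) ^ pe n p (len (∑ i, a i)) := by
  set s := ∑ i, a i with hs
  set N := len s with hN
  have hN1 : 1 ≤ N := len_pos s
  have ha : ∀ i, len (a i) ≤ N := fun i =>
    len_mono (Finset.single_le_sum (fun _ _ => Nat.zero_le _) (Finset.mem_univ i))
  have hb1 : 2 ^ pB n p N + 2 ≤ s + 2 ^ (pB n p N + κ + 4) + pn n p N + 2 := pb_le1 s N
  have hb2 : κ ≤ s + 2 ^ (pB n p N + κ + 4) + pn n p N + 2 := pb_le2 s N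
  have hb3 := pb_le3 (n := n) (p := p) (κ := κ) s N
  have hlen : (word a).length + pT n p N + 1 ≤ pB n p N := by
    have := word_length_le a ha
    unfold pB
    omega
  obtain ⟨x, hx, hr⟩ := tableau_complete hκ D M enc acc (word_ne_nil hn a) hlen E hDE hb1 hb2 hb3 h
  set P := 2 ^ (pB n p N + κ + 4) with hP
  set b := s + P + pn n p N + 2 with hb
  have hb' : pb n p κ s N = b := rfl
  rw [hb']
  have hb0 : 2 ≤ b := Nat.le_add_left _ _
  have hbpos : 0 < b := by omega
  have hnn : pn n p N = (pT n p N + 1) * (pB n p N + pT n p N + 2) := rfl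
  have hN2 : b - 2 = s + P + pn n p N := Nat.add_sub_cancel _ _
  have hN3 : b - 1 = s + P + pn n p N + 1 := by omega
  have hP1 : 1 ≤ P := Nat.one_le_two_pow
  have hpn1 : 1 ≤ pn n p N := by
    rw [hnn]
    exact Nat.mul_pos (Nat.succ_pos _) (Nat.succ_pos _)
  let X : Fin 12 → ℕ := fun j => num b (pn n p N) (fun i => (x i j : ℕ))
  let w : WI → ℕ := Sum.elim ![N, 2 ^ N, P] (Sum.elim (fun k => b ^ pex n p N k)
    (Sum.elim ![num b (pB n p N + pT n p N + 2) (fun _ => 1), num b (pL n N + pT n p N) (fun _ => 1),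
      ∑ t ∈ range (pT n p N), b ^ ((t + 1) * (pB n p N + pT n p N + 2))]
      (Sum.elim X (ro (word a)))))
  have hlt := pow_len_iff (le_refl (len s)) (2 ^ len s)
  have hlt := hlt.2 rfl
  have hbp : ∀ k, 0 < b ^ k := fun k => Nat.pow_pos hbpos
  have hB1 : pB n p N - 1 = pL n N + pT n p N := by
    unfold pB
    omega
  have hGP : GP n p κ (rhoT D M enc acc) s a w := by
    constructor
    · exact hs
    · exact hlt.2.1
    · exact hlt.2.2
    · exact hN1
    · rfl
    · rfl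
    · intro k
      rfl
    · exact num_one_eq (by omega)
    · exact num_one_eq (by omega)
    · exact geo_rows_eq _ _ _
    · have := hr.code
      rw [hB1] at this
      exact this
    · exact ⟨hbp _, hr.s2.symm⟩
    · exact ⟨hbp _, hr.s3.symm⟩
    · exact ⟨hbp _, hr.s4.symm⟩
    · exact hr.lt5
    · exact ⟨hbp _, hr.s6.symm⟩
    · exact ⟨hbp _, hr.s7.symm⟩
    · refine ⟨?_, ?_⟩
      · show 0 < s + P + pn n p N
        omega
      · have := hr.r8
        rw [hN2] at this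
        exact this
    · refine ⟨?_, ?_⟩
      · show 0 < s + P + pn n p N
        omega
      · have := hr.r9
        rw [hN2] at this
        exact this
    · refine ⟨?_, ?_⟩
      · show 0 < s + P + pn n p N
        omega
      · have := hr.r10
        rw [hN2] at this
        exact this
    · exact hr.d11
    · refine ⟨?_, ?_⟩
      · show 0 < s + P + pn n p N + 1
        omega
      · have := hr.r11
        rw [hN3] at this
        exact this
    · exact (inpP_iff a ha _).2 rfl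
    · refine ⟨?_, hpn1, rfl, x, fun j => rfl, hx⟩
      show s ≤ s + P + pn n p N + 2
      omega
  refine ⟨w, hGP, ?_⟩
  -- the bounds
  have hpe1 : 1 ≤ pe n p N := by
    unfold pe
    omega
  have hbe : b ≤ b ^ pe n p N := by
    calc b = b ^ 1 := (pow_one b).symm
      _ ≤ b ^ pe n p N := Nat.pow_le_pow_right hbpos hpe1
  have hPb : P ≤ b := by omega
  have hNP : 2 ^ N ≤ P := by
    refine Nat.pow_le_pow_right (by norm_num) ?_
    have h1 : 1 * (N + 1) ≤ n * (N + 1) := Nat.mul_le_mul_right _ hn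
    unfold pB pL
    omega
  have hNN : N < 2 ^ N := Nat.lt_two_pow_self
  have hexp : ∀ k, b ^ pex n p N k ≤ b ^ pe n p N := fun k =>
    Nat.pow_le_pow_right hbpos (pex_le n p N k)
  have hX : ∀ j, X j ≤ b ^ pe n p N := by
    intro j
    have h1 : X j < b ^ pn n p N := num_lt hbpos fun i _ => lt_of_lt_of_le (x i j).2 hb2
    exact h1.le.trans (hexp 8)
  rintro (k | k | k | k | k)
  · fin_cases k
    · show N ≤ _
      omega
    · show 2 ^ N ≤ _
      omega
    · show P ≤ _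
      omega
  · exact hexp k
  · fin_cases k
    · show num b (pB n p N + pT n p N + 2) (fun _ => 1) ≤ _
      have h1 : num b (pB n p N + pT n p N + 2) (fun _ => 1) < b ^ (pB n p N + pT n p N + 2) :=
        num_lt hbpos fun i _ => by omega
      exact h1.le.trans (hexp 4)
    · show num b (pL n N + pT n p N) (fun _ => 1) ≤ _
      have h1 : num b (pL n N + pT n p N) (fun _ => 1) < b ^ (pL n N + pT n p N) :=
        num_lt hbpos fun i _ => by omega
      exact h1.le.trans (hexp 6)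
    · show ∑ t ∈ range (pT n p N), b ^ ((t + 1) * (pB n p N + pT n p N + 2)) ≤ _
      have h1 := geo_rows_eq b (pT n p N) (pB n p N + pT n p N + 2)
      set S := ∑ t ∈ range (pT n p N), b ^ ((t + 1) * (pB n p N + pT n p N + 2))
      have h2 : 2 ≤ b ^ (pB n p N + pT n p N + 2) := by
        calc 2 ≤ b := hb0
          _ = b ^ 1 := (pow_one b).symm
          _ ≤ b ^ (pB n p N + pT n p N + 2) := Nat.pow_le_pow_right hbpos (by omega)
      have h3 : S * 2 ≤ S * b ^ (pB n p N + pT n p N + 2) := Nat.mul_le_mul_left _ h2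
      have h4 : b ^ ((pT n p N + 1) * (pB n p N + pT n p N + 2)) ≤ b ^ pe n p N := hexp 8
      omega
  · exact hX k
  · show ro (word a) k ≤ _
    fin_cases k
    · have := hr.r8
      show ro (word a) 0 ≤ _
      rw [← this]
      exact (Nat.mod_le _ _).trans (hX 8)
    · have := hr.r9
      show ro (word a) 1 ≤ _
      rw [← this]
      exact (Nat.mod_le _ _).trans (hX 9)
    · have := hr.r10
      show ro (word a) 2 ≤ _
      rw [← this]
      exact (Nat.mod_le _ _).trans (hX 10)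
    · show 1 ≤ _
      omega

end

end Pool.Agent.DNP18
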