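import Pool.Agent.DNP18.LegDef

/-!
# [DNP-LEGC] the Legendre numbers modulo `a - b`

Modulo `d = a - b` we have `a ≡ b`, so `leg m a b ≡ ∑ C(m,i)^2 a^m = C(2m,m) a^m`
(`Nat.sum_range_choose_mul_..`/Vandermonde: `∑ C(m,i)^2 = C(2m,m)`).
-/

namespace Pool.Agent.DNP18

open Finset

theorem leg_mod_left (m a b : ℕ) :
    ((a : ℤ) - b) ∣ (leg m a b : ℤ) - (2 * m).choose m * (a : ℤ) ^ m := by
  have h : ((2 * m).choose m : ℤ) * (a : ℤ) ^ m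
      = ∑ i ∈ range (m + 1), (m.choose i : ℤ) ^ 2 * (a : ℤ) ^ m := by
    rw [← Finset.sum_mul, ← Nat.sum_range_choose_sq]
    push_cast
    rfl
  rw [h, leg]
  push_cast
  rw [← Finset.sum_sub_distrib]
  refine Finset.dvd_sum fun i hi => ?_
  have hi' : i ≤ m := Nat.lt_succ_iff.mp (Finset.mem_range.mp hi)
  have e : (m.choose i : ℤ) ^ 2 * (a : ℤ) ^ (m - i) * (b : ℤ) ^ i
      - (m.choose i : ℤ) ^ 2 * (a : ℤ) ^ m
      = (m.choose i : ℤ) ^ 2 * (a : ℤ) ^ (m - i) * ((b : ℤ) ^ i - (a : ℤ) ^ i) := by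
    have h2 : (a : ℤ) ^ m = (a : ℤ) ^ (m - i) * (a : ℤ) ^ i := by
      rw [← pow_add, Nat.sub_add_cancel hi']
    rw [h2]
    ring
  rw [e]
  refine Dvd.dvd.mul_left ?_ _
  have h3 : (b : ℤ) ^ i - (a : ℤ) ^ i = -((a : ℤ) ^ i - (b : ℤ) ^ i) := by ring
  rw [h3, dvd_neg]
  exact sub_dvd_pow_sub_pow _ _ _

theorem leg_mod_right (m a b : ℕ) :
    ((a : ℤ) - b) ∣ (leg m a b : ℤ) - (2 * m).choose m * (b : ℤ) ^ m := by
  have h1 := leg_mod_left m a b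
  have h2 : ((a : ℤ) - b) ∣ ((2 * m).choose m : ℤ) * ((a : ℤ) ^ m - (b : ℤ) ^ m) :=
    Dvd.dvd.mul_left (sub_dvd_pow_sub_pow _ _ _) _
  have h3 := dvd_add h1 h2
  have e : (leg m a b : ℤ) - (2 * m).choose m * (a : ℤ) ^ m
      + ((2 * m).choose m : ℤ) * ((a : ℤ) ^ m - (b : ℤ) ^ m)
      = (leg m a b : ℤ) - (2 * m).choose m * (b : ℤ) ^ m := by ring
  rw [e] at h3
  exact h3

end Pool.Agent.DNP18
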