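import Mathlib

/-!
# Legendre numbers

`leg m a b = (a-b)^m P_m((a+b)/(a-b))` where `P_m` is the Legendre polynomial, and `alp a b m`,
`m!` times the second solution of the same recurrence.
-/

namespace Pool.Agent.DNP18

open Finset

/-- `∑ C(m,i)^2 a^(m-i) b^i`, the central coefficient of `((h+a)(h+b))^m` -/
def leg (m a b : ℕ) : ℕ := ∑ i ∈ range (m + 1), m.choose i ^ 2 * a ^ (m - i) * b ^ i

/-- `m!` times the second solution of the recurrence of `leg` -/
def alp (a b : ℕ) : ℕ → ℤ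
  | 0 => 0
  | 1 => 1
  | (m + 2) => (2 * m + 3) * (a + b) * alp a b (m + 1) - (m + 1) ^ 2 * ((a : ℤ) - b) ^ 2 * alp a b m

/-- The numeral `∑_{j ≤ n} C(T,j) B^(n-j)` -/
def numY (T n B : ℕ) : ℕ := ∑ j ∈ range (n + 1), T.choose j * B ^ (n - j)

/-- The truncated binomial sum `∑_{j ≤ n} C(T,j) x^j` -/
def expY (T x n : ℕ) : ℕ := ∑ j ∈ range (n + 1), T.choose j * x ^ j

@[simp] theorem leg_zero (a b : ℕ) : leg 0 a b = 1 := by simp [leg]

theorem leg_one (a b : ℕ) : leg 1 a b = a + b := by simp [leg, sum_range_succ]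

@[simp] theorem alp_zero (a b : ℕ) : alp a b 0 = 0 := rfl

@[simp] theorem alp_one (a b : ℕ) : alp a b 1 = 1 := rfl

theorem alp_succ_succ (a b m : ℕ) : alp a b (m + 2) =
    (2 * m + 3) * (a + b) * alp a b (m + 1) - (m + 1) ^ 2 * ((a : ℤ) - b) ^ 2 * alp a b m := rfl

end Pool.Agent.DNP18
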