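import Pool.Agent.DNP18.GlueB

/-!
# Relations in `NP` have exponentially bounded Diophantine representations
-/

namespace Pool.Agent.DNP18

open Finset Turing DPoly

section

variable {n : ℕ} {p : Polynomial ℕ} {κ : ℕ} {Γ Λ : Type} [Inhabited Γ] [Inhabited Λ]

theorem mem_iff_run (M : Bool → TM0.Machine Γ Λ)
    (enc : Option Bool → Γ) (acc : Λ → Prop) (p : Polynomial ℕ) (R : Set (Fin n → ℕ))
    (h : ∀ a : Fin n → ℕ, (∀ t c, Reaches M t (TM0.init ((word a).map enc)) c →
        t ≤ p.eval (word a).length) ∧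
      (a ∈ R ↔ ∃ t c, Reaches M t (TM0.init ((word a).map enc)) c ∧ Halted M c ∧ acc c.q))
    {N : ℕ} (a : Fin n → ℕ) (ha : ∀ i, len (a i) ≤ N) :
    a ∈ R ↔ ∃ β, AccConf M acc (run M ((word a).map enc) β (pT n p N)).1 := by
  rw [(h a).2]
  unfold AccConf
  rw [run_iff M ((word a).map enc) (pT n p N) (fun c => acc c.q)]
  constructor
  · rintro ⟨t, c, h1, h2, h3⟩
    refine ⟨t, ((h a).1 t c h1).trans (eval_mono' p (word_length_le a ha)), c, h1, h2, h3⟩
  · rintro ⟨t, -, c, h1, h2, h3⟩
    exact ⟨t, c, h1, h2, h3⟩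

theorem np_dd [Finite Γ] [Finite Λ] (hn : 1 ≤ n) (M : Bool → TM0.Machine Γ Λ)
    (enc : Option Bool → Γ) (acc : Λ → Prop) (p : Polynomial ℕ) (R : Set (Fin n → ℕ))
    (h : ∀ a : Fin n → ℕ, (∀ t c, Reaches M t (TM0.init ((word a).map enc)) c →
        t ≤ p.eval (word a).length) ∧
      (a ∈ R ↔ ∃ t c, Reaches M t (TM0.init ((word a).map enc)) c ∧ Halted M c ∧ acc c.q)) :
    DD (none : Option (Fin n))
      (fun v => v none = ∑ i, v (some i) ∧ (fun i => v (some i)) ∈ R) := by
  classical
  have := Fintype.ofFinite (Cell Γ Λ)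
  set c0 := Fintype.card (Cell Γ Λ) with hc0
  let eC : Cell Γ Λ ≃ Fin c0 := Fintype.equivFin _
  let κ := c0 + 8
  have hκ8 : 8 ≤ κ := Nat.le_add_left _ _
  let EE : Cell Γ Λ → Fin κ := fun a => Fin.castLE (Nat.le_add_right c0 8) (eC a)
  let D : Fin κ → Cell Γ Λ := fun j => if hj : j.val < c0 then eC.symm ⟨j.val, hj⟩ else default
  have hDE : ∀ a, D (EE a) = a := by
    intro a
    simp only [D, EE, Fin.val_castLE]
    rw [dif_pos (eC a).2]
    simp
  let P : (Option (Fin n) → ℕ) → Prop :=
    fun v => v none = ∑ i, v (some i) ∧ (fun i => v (some i)) ∈ R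
  have hex : ∀ v, P v → ∃ w : WI → ℕ,
      GP n p κ (rhoT D M enc acc) (v none) (fun i => v (some i)) w ∧
      ∀ j, w j ≤ pb n p κ (v none) (len (v none)) ^ pe n p (len (v none)) := by
    rintro v ⟨h1, h2⟩
    have ha : ∀ i, len (v (some i)) ≤ len (∑ i, v (some i)) := fun i =>
      len_mono (Finset.single_le_sum (f := fun i => v (some i)) (fun _ _ => Nat.zero_le _)
        (Finset.mem_univ i))
    have h3 := (mem_iff_run M enc acc p R h (fun i => v (some i)) ha).1 h2
    rw [h1]
    exact gp_complete hn hκ8 D M enc acc EE hDE _ h3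
  let W : (Option (Fin n) → ℕ) → WI → ℕ := fun v => if hv : P v then (hex v hv).choose else 0
  have hW : ∀ v (hv : P v), W v = (hex v hv).choose := fun v hv => dif_pos hv
  refine DD.exs' (dd_gp n p κ (rhoT D M enc acc) (le_trans (by norm_num) hκ8)) W ?_ ?_ ?_
  · intro K1 j
    have hl : Small (none : Option (Fin n)) (fun v => Bnd none K1 v ∧ P v)
        (fun v => len (v none)) := (Big.coord K1 none).len
    have hL : Small (none : Option (Fin n)) (fun v => Bnd none K1 v ∧ P v)
        (fun v => pL n (len (v none))) := (Small.const n).mul (hl.add (Small.const 1))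
    have hT : Small (none : Option (Fin n)) (fun v => Bnd none K1 v ∧ P v)
        (fun v => pT n p (len (v none))) := Small.eval p hL
    have hB : Small (none : Option (Fin n)) (fun v => Bnd none K1 v ∧ P v)
        (fun v => pB n p (len (v none))) := (hL.add hT).add (Small.const 1)
    have hN : Small (none : Option (Fin n)) (fun v => Bnd none K1 v ∧ P v)
        (fun v => pn n p (len (v none))) :=
      (hT.add (Small.const 1)).mul ((hB.add hT).add (Small.const 2))
    have he : Small (none : Option (Fin n)) (fun v => Bnd none K1 v ∧ P v)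
        (fun v => pe n p (len (v none))) := ((hN.add hB).add hT).add (Small.const 3)
    have hb : Big (none : Option (Fin n)) (fun v => Bnd none K1 v ∧ P v)
        (fun v => pb n p κ (v none) (len (v none))) :=
      (((Big.coord K1 none).add ((Big.const 2).pow ((hB.add (Small.const κ)).add
        (Small.const 4)))).add hN.big).add (Big.const 2)
    refine (hb.pow he).mono ?_
    rintro v ⟨-, hv⟩
    rw [hW v hv]
    exact (hex v hv).choose_spec.2 j
  · intro v hv
    have := (hex v hv).choose_spec.1
    rw [← hW v hv] at this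
    exact this
  · intro v w hQ
    obtain ⟨h1, h2, h3⟩ := gp_sound hn D M enc acc hQ
    exact ⟨h1, (mem_iff_run M enc acc p R h (fun i => v (some i)) h2).2 h3⟩

end

end Pool.Agent.DNP18
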