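import Pool.Agent.DNP18.LegDef

/-!
# [DNP-NUMT] the tail of `(1 + 1/B)^T`

`(1+1/B)^T - numY T n B / B^n = ∑_{j=n+1}^T C(T,j)/B^j ≤ ∑_{j>n} (T/B)^j ≤ 2 (T/B)^(n+1) = (2T^(n+1)/B) / B^n`
and `32 T^(n+1) ≤ B`. (One way: induction on `T`, or `Finset` sums: `C(T,j) ≤ T^j`.)
-/

namespace Pool.Agent.DNP18

open Finset

private theorem big_bound {T n B : ℕ} (hB : (4 * T + 4) ^ (8 * (n + 2) ^ 2) ≤ B) : 32 * T ^ (n + 1) + 32 ≤ B ∧
    T ^ n < B ∧ 2 * T ≤ B := by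
  have h1 : (4 * T + 4) ^ (n + 4) ≤ (4 * T + 4) ^ (8 * (n + 2) ^ 2) :=
    Nat.pow_le_pow_right (by omega) (by nlinarith [Nat.zero_le n])
  have h2 : (4 * T + 4) ^ (n + 4) = (4 * T + 4) ^ (n + 1) * (4 * T + 4) ^ 3 := by rw [← pow_add]
  have h3 : 4 ^ 3 ≤ (4 * T + 4) ^ 3 := Nat.pow_le_pow_left (by omega) 3
  have h4 : T ^ (n + 1) ≤ (4 * T + 4) ^ (n + 1) := Nat.pow_le_pow_left (by omega) _
  have h5 : 1 ≤ (4 * T + 4) ^ (n + 1) := Nat.one_le_pow _ _ (by omega)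
  have h6 : (4 * T + 4) ^ (n + 1) * 4 ^ 3 ≤ B :=
    ((Nat.mul_le_mul_left _ h3).trans (h2.symm.le.trans h1)).trans hB
  have h7 : T ^ n ≤ (4 * T + 4) ^ (n + 1) :=
    (Nat.pow_le_pow_left (by omega : T ≤ 4 * T + 4) n).trans (Nat.pow_le_pow_right (by omega) (by omega))
  have h8 : 4 * T + 4 ≤ (4 * T + 4) ^ (n + 1) := by
    calc 4 * T + 4 = (4 * T + 4) ^ 1 := (pow_one _).symm
      _ ≤ (4 * T + 4) ^ (n + 1) := Nat.pow_le_pow_right (by omega) (by omega)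
  refine ⟨?_, ?_, ?_⟩ <;> omega

private theorem numY_div (T n B : ℕ) (hB : 0 < B) : (numY T n B : ℝ) / B ^ n =
    ∑ j ∈ range (n + 1), (T.choose j : ℝ) * (1 / (B : ℝ)) ^ j := by
  have hB' : (B : ℝ) ≠ 0 := by exact_mod_cast hB.ne'
  unfold numY
  push_cast
  rw [sum_div]
  refine sum_congr rfl fun j hj => ?_
  have hj' : j ≤ n := by
    have := mem_range.mp hj
    omega
  obtain ⟨k, rfl⟩ := Nat.exists_eq_add_of_le hj'
  rw [Nat.add_sub_cancel_left, pow_add, one_div, inv_pow]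
  field_simp

theorem num_tail {T n B : ℕ} (hB : (4 * T + 4) ^ (8 * (n + 2) ^ 2) ≤ B) :
    (numY T n B : ℝ) / B ^ n ≤ (1 + 1 / (B : ℝ)) ^ T ∧
      (1 + 1 / (B : ℝ)) ^ T - (numY T n B : ℝ) / B ^ n ≤ 1 / (16 * B ^ n) := by
  obtain ⟨h1, -, h2⟩ := big_bound hB
  have hB0 : 0 < B := by omega
  have hBr : (0 : ℝ) < B := by exact_mod_cast hB0
  obtain ⟨x, hx⟩ : ∃ x, x = 1 / (B : ℝ) := ⟨_, rfl⟩
  have hx0 : 0 < x := by rw [hx]; positivity
  have hfull : (1 + x) ^ T = ∑ j ∈ range (n + 1 + (T + 1)), (T.choose j : ℝ) * x ^ j := by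
    rw [add_comm 1 x, add_pow]
    rw [← sum_subset (range_subset_range.mpr (by omega : T + 1 ≤ n + 1 + (T + 1)))]
    · refine sum_congr rfl fun j _ => ?_
      rw [one_pow, mul_one, mul_comm]
    · intro j _ hj
      have : T < j := by
        by_contra hc
        exact hj (mem_range.mpr (by omega))
      rw [Nat.choose_eq_zero_of_lt this, Nat.cast_zero, zero_mul]
  rw [numY_div T n B hB0, ← hx, hfull,
    sum_range_add (fun j => (T.choose j : ℝ) * x ^ j) (n + 1) (T + 1), add_sub_cancel_left]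
  have hTx : (T : ℝ) * x ≤ 1 / 2 := by
    rw [hx, mul_one_div, div_le_div_iff₀ hBr (by norm_num)]
    have : ((2 * T : ℕ) : ℝ) ≤ B := by exact_mod_cast h2
    push_cast at this
    linarith
  have hTx0 : 0 ≤ (T : ℝ) * x := by positivity
  constructor
  · have : 0 ≤ ∑ i ∈ range (T + 1), (T.choose (n + 1 + i) : ℝ) * x ^ (n + 1 + i) :=
      sum_nonneg fun i _ => by positivity
    linarith
  · have h3 : ∑ i ∈ range (T + 1), (T.choose (n + 1 + i) : ℝ) * x ^ (n + 1 + i) ≤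
        ∑ i ∈ range (T + 1), ((T : ℝ) * x) ^ (n + 1) * (1 / 2) ^ i := by
      refine sum_le_sum fun i _ => ?_
      calc (T.choose (n + 1 + i) : ℝ) * x ^ (n + 1 + i) ≤ (T : ℝ) ^ (n + 1 + i) * x ^ (n + 1 + i) := by
            refine mul_le_mul_of_nonneg_right ?_ (by positivity)
            exact_mod_cast Nat.choose_le_pow T (n + 1 + i)
        _ = ((T : ℝ) * x) ^ (n + 1) * ((T : ℝ) * x) ^ i := by rw [← mul_pow, pow_add]
        _ ≤ ((T : ℝ) * x) ^ (n + 1) * (1 / 2) ^ i :=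
            mul_le_mul_of_nonneg_left (pow_le_pow_left₀ hTx0 hTx i) (by positivity)
    have h4 : ∑ i ∈ range (T + 1), ((T : ℝ) * x) ^ (n + 1) * (1 / 2) ^ i ≤ ((T : ℝ) * x) ^ (n + 1) * 2 := by
      rw [← mul_sum]
      exact mul_le_mul_of_nonneg_left (sum_geometric_two_le _) (by positivity)
    refine (h3.trans h4).trans ?_
    rw [hx, mul_one_div, div_pow, div_mul_eq_mul_div, div_le_div_iff₀ (by positivity) (by positivity)]
    have h5 : (32 : ℝ) * (T : ℝ) ^ (n + 1) ≤ B := by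
      have : ((32 * T ^ (n + 1) : ℕ) : ℝ) ≤ B := by
        exact_mod_cast (by omega : 32 * T ^ (n + 1) ≤ B)
      push_cast at this
      exact this
    calc (T : ℝ) ^ (n + 1) * 2 * (16 * B ^ n) = (32 * (T : ℝ) ^ (n + 1)) * B ^ n := by ring
      _ ≤ B * B ^ n := mul_le_mul_of_nonneg_right h5 (by positivity)
      _ = 1 * (B : ℝ) ^ (n + 1) := by ring

theorem choose_eq_numY_mod {T n B : ℕ} (hB : (4 * T + 4) ^ (8 * (n + 2) ^ 2) ≤ B) :
    numY T n B % B = T.choose n := by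
  obtain ⟨-, h1, -⟩ := big_bound hB
  have h2 : T.choose n < B := (Nat.choose_le_pow T n).trans_lt h1
  unfold numY
  rw [sum_range_succ, Nat.sub_self, pow_zero, mul_one]
  have h3 : B ∣ ∑ j ∈ range n, T.choose j * B ^ (n - j) := by
    refine dvd_sum fun j hj => ?_
    have hj' := mem_range.mp hj
    exact Dvd.dvd.mul_left (dvd_pow_self B (by omega)) _
  rw [Nat.add_mod, Nat.mod_eq_zero_of_dvd h3, zero_add, Nat.mod_mod, Nat.mod_eq_of_lt h2]

/-- upper bound -/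
theorem numY_le {T n B : ℕ} (hB : 1 ≤ B) : numY T n B ≤ ((T + 1) * B) ^ n := by
  rw [mul_pow, add_pow, sum_mul]
  unfold numY
  refine sum_le_sum fun j hj => ?_
  have hj' : j ≤ n := by
    have := mem_range.mp hj
    omega
  refine Nat.mul_le_mul ?_ (Nat.pow_le_pow_right hB (Nat.sub_le n j))
  rw [one_pow, mul_one]
  calc T.choose j ≤ T ^ j := Nat.choose_le_pow T j
    _ = T ^ j * 1 := (mul_one _).symm
    _ ≤ T ^ j * n.choose j := Nat.mul_le_mul_left _ (Nat.choose_pos hj')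

end Pool.Agent.DNP18
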