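import Mathlib

/-!
# [DNP-PELLA] Pell numbers as total functions

Everything from `Mathlib.NumberTheory.PellMatiyasevic` (`Pell.xn`, `Pell.yn`, `Pell.pell_eq`, `Pell.eq_pell`,
`Pell.yn_modEq_a_sub_one`, `Pell.x_sub_y_dvd_pow`, `Pell.xn_ge_a_pow`, `Pell.yn_succ`, `Pell.xn_succ`).
`yy_ge`: `yn (k+1) = xn k + yn k * a ≥ xn k ≥ a^k`. Upper bounds: `xn (k+1) = xn k * a + (a²-1) yn k`,
`xn k ≤ (2a)^k` and `a * yn k ≤ (2a)^k` by induction (`(a²-1) yn k ≤ a (2a)^k`, `a yn (k+1) = a xn k + a (a yn k)`).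
-/

namespace Pool.Agent.DNP18

/-- the solutions `x` of the Pell equation `x² - (a²-1) y² = 1` -/
def xx (a k : ℕ) : ℕ := if h : 1 < a then Pell.xn h k else 1

/-- the solutions `y` of the Pell equation `x² - (a²-1) y² = 1` -/
def yy (a k : ℕ) : ℕ := if h : 1 < a then Pell.yn h k else 0

private theorem helper23_xx {a : ℕ} (h : 1 < a) (k : ℕ) : xx a k = Pell.xn h k := dif_pos h

private theorem helper23_yy {a : ℕ} (h : 1 < a) (k : ℕ) : yy a k = Pell.yn h k := dif_pos h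

private theorem helper23_xs {a : ℕ} (h : 1 < a) (k : ℕ) :
    xx a (k + 1) = xx a k * a + (a * a - 1) * yy a k := by
  rw [helper23_xx h, helper23_xx h, helper23_yy h]
  exact Pell.xn_succ h k

private theorem helper23_ys {a : ℕ} (h : 1 < a) (k : ℕ) :
    yy a (k + 1) = xx a k + yy a k * a := by
  rw [helper23_xx h, helper23_yy h, helper23_yy h]
  exact Pell.yn_succ h k

private theorem helper23_bd {a : ℕ} (ha : 2 ≤ a) (k : ℕ) :
    xx a k ≤ (2 * a) ^ k ∧ a * yy a k ≤ (2 * a) ^ k := by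
  have h : 1 < a := ha
  induction k with
  | zero =>
    rw [helper23_xx h, helper23_yy h, Pell.xn_zero, Pell.yn_zero]
    simp
  | succ k ih =>
    obtain ⟨h1, h2⟩ := ih
    rw [helper23_xs h, helper23_ys h, pow_succ]
    constructor
    · have h3 : (a * a - 1) * yy a k ≤ a * (a * yy a k) := by
        rw [← Nat.mul_assoc]
        exact Nat.mul_le_mul_right _ (Nat.sub_le _ _)
      have h4 : a * (a * yy a k) ≤ a * (2 * a) ^ k := Nat.mul_le_mul_left a h2
      have h5 : xx a k * a ≤ (2 * a) ^ k * a := Nat.mul_le_mul_right a h1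
      calc _ ≤ (2 * a) ^ k * a + a * (2 * a) ^ k := Nat.add_le_add h5 (h3.trans h4)
        _ = (2 * a) ^ k * (2 * a) := by ring
    · have h4 : a * (a * yy a k) ≤ a * (2 * a) ^ k := Nat.mul_le_mul_left a h2
      have h5 : a * xx a k ≤ a * (2 * a) ^ k := Nat.mul_le_mul_left a h1
      calc a * (xx a k + yy a k * a) = a * xx a k + a * (a * yy a k) := by ring
        _ ≤ a * (2 * a) ^ k + a * (2 * a) ^ k := Nat.add_le_add h5 h4
        _ = (2 * a) ^ k * (2 * a) := by ring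

theorem pell_eq {a : ℕ} (ha : 2 ≤ a) (k : ℕ) :
    xx a k * xx a k + yy a k * yy a k = a * a * (yy a k * yy a k) + 1 := by
  have h : 1 < a := ha
  have h1 := Pell.pell_eqz h k
  rw [Pell.dz_val] at h1
  unfold Pell.xz Pell.yz Pell.az at h1
  rw [helper23_xx h, helper23_yy h]
  zify
  linear_combination h1

theorem pell_exists {a x y : ℕ} (ha : 2 ≤ a) (h : x * x + y * y = a * a * (y * y) + 1) :
    ∃ j, x = xx a j ∧ y = yy a j := by
  have h1 : 1 < a := ha
  have h2 : x * x - (a * a - 1) * y * y = 1 := by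
    have h3 : 1 ≤ a * a := by nlinarith
    have h4 : (a * a - 1) * y * y + y * y = a * a * (y * y) := by
      zify [h3]
      ring
    omega
  obtain ⟨j, hx, hy⟩ := Pell.eq_pell h1 (x := x) (y := y) h2
  exact ⟨j, by rw [helper23_xx h1]; exact hx, by rw [helper23_yy h1]; exact hy⟩

theorem yy_mod {a : ℕ} (ha : 2 ≤ a) (k : ℕ) : ((a : ℤ) - 1) ∣ (yy a k : ℤ) - k := by
  have h : 1 < a := ha
  have h1 := Pell.yn_modEq_a_sub_one h k
  rw [helper23_yy h]
  have h2 := (Nat.modEq_iff_dvd.1 h1.symm)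
  have h3 : ((a - 1 : ℕ) : ℤ) = (a : ℤ) - 1 := by
    rw [Nat.cast_sub (by omega)]
    norm_num
  rw [h3] at h2
  exact h2

theorem pow_le_yy {a : ℕ} (ha : 2 ≤ a) (k : ℕ) : a ^ k ≤ yy a (k + 1) := by
  have h : 1 < a := ha
  rw [helper23_ys h, helper23_xx h]
  exact (Pell.xn_ge_a_pow h k).trans (Nat.le_add_right _ _)

theorem yy_le {a : ℕ} (ha : 2 ≤ a) (k : ℕ) : yy a k ≤ (2 * a) ^ k := by
  have h1 := (helper23_bd ha k).2
  have h2 : 1 * yy a k ≤ a * yy a k := Nat.mul_le_mul_right _ (by omega)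
  rw [Nat.one_mul] at h2
  exact h2.trans h1

theorem xx_le {a : ℕ} (ha : 2 ≤ a) (k : ℕ) : xx a k ≤ (2 * a) ^ k := by
  exact (helper23_bd ha k).1

/-- `2ab - b² - 1` divides `(a-b) y_k + b^k - x_k` -/
theorem xx_yy_pow {a : ℕ} (ha : 2 ≤ a) (b k : ℕ) :
    (2 * a * b - b * b - 1 : ℤ) ∣ yy a k * (a - b) + (b : ℤ) ^ k - xx a k := by
  have h : 1 < a := ha
  have h1 := Pell.x_sub_y_dvd_pow h b k
  unfold Pell.xz Pell.yz at h1
  rw [helper23_xx h, helper23_yy h]
  rw [Nat.cast_pow] at h1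
  exact h1

end Pool.Agent.DNP18
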