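import Pool.Agent.DNP18.BaseE
import Pool.Agent.DNP18.PellA

/-!
# [DNP-PELLB] Pell numbers of small index are definable

`v = (s, a, k, x, y)`. `DD.congr_ev` with
`Q v := 2 ≤ s ∧ s ≤ a ∧ x² + y² = a² y² + 1 ∧ (a-1) ∣ (y-k) ∧ k + 2 ≤ a` (all by `DD.natLe`, `DD.natEq`, `DD.intDvd`).
Let all coordinates be `≤ bd K s` and `s` large, so that `len s ^ K + 4 ≤ s` (`eventually_len`). If `y = yy a j ≤ bd K s`
then `2^(j-1) ≤ a^(j-1) ≤ y ≤ 2^(len s ^ K)`, so `j ≤ len s ^ K + 1 < s - 2 ≤ a - 2`.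
`Q → P`: `x = xx a j`, `y = yy a j` by `pell_exists`, `j ≡ y ≡ k` modulo `a - 1` by `yy_mod`, `j, k < a - 1`, so `j = k`.
`P → Q`: `pell_eq`, `yy_mod`, and `k + 2 ≤ a` as above.
-/

namespace Pool.Agent.DNP18

open Pool.Agent.DPoly

private theorem pellB_small {a k K s : ℕ} (ha : 2 ≤ a) (hsa : s ≤ a) (hs : len s ^ K + 4 ≤ s)
    (hy : yy a k ≤ bd K s) : k + 2 ≤ a := by
  rcases k with _ | i
  · omega
  · have h1 : a ^ i ≤ yy a (i + 1) := pow_le_yy ha i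
    have h2 : 2 ^ i ≤ 2 ^ (len s ^ K) := by
      calc 2 ^ i ≤ a ^ i := Nat.pow_le_pow_left ha i
        _ ≤ yy a (i + 1) := h1
        _ ≤ bd K s := hy
    have h3 : i ≤ len s ^ K := (Nat.pow_le_pow_iff_right one_lt_two).1 h2
    omega

theorem dd_pell : DD (0 : Fin 5) (fun v => 2 ≤ v 0 ∧ v 0 ≤ v 1 ∧
    v 3 = xx (v 1) (v 2) ∧ v 4 = yy (v 1) (v 2)) := by
  have hc : ∀ i : Fin 5, NPoly (fun v : Fin 5 → ℕ => v i) := fun i => NPoly.coord i
  have hpc : ∀ i : Fin 5, PolyFun (fun v : Fin 5 → ℕ => (v i : ℤ)) := fun i => PolyFun.coord i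
  have q1 : DD (0 : Fin 5) (fun v => 2 ≤ v 0) := DD.natLe (NPoly.const 2) (hc 0)
  have q2 : DD (0 : Fin 5) (fun v => v 0 ≤ v 1) := DD.natLe (hc 0) (hc 1)
  have q3 : DD (0 : Fin 5) (fun v => v 3 * v 3 + v 4 * v 4 = v 1 * v 1 * (v 4 * v 4) + 1) :=
    DD.natEq (((hc 3).mul (hc 3)).add ((hc 4).mul (hc 4)))
      ((((hc 1).mul (hc 1)).mul ((hc 4).mul (hc 4))).add (NPoly.const 1))
  have q4 : DD (0 : Fin 5) (fun v => ((v 1 : ℤ) - 1) ∣ ((v 4 : ℤ) - v 2)) :=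
    DD.intDvd ((hpc 1).sub (PolyFun.const 1)) ((hpc 4).sub (hpc 2))
  have q5 : DD (0 : Fin 5) (fun v => v 2 + 2 ≤ v 1) := DD.natLe ((hc 2).add (NPoly.const 2)) (hc 1)
  have hQ := q1.and (q2.and (q3.and (q4.and q5)))
  refine hQ.congr_ev fun K => ?_
  obtain ⟨S0, hS0⟩ := eventually_len K 4
  refine ⟨S0, fun v hv hb => ?_⟩
  have hlen := hS0 (v 0) hv
  constructor
  · rintro ⟨h1, h2, h3, h4, h5⟩
    have ha : 2 ≤ v 1 := h1.trans h2
    obtain ⟨j, hx, hy⟩ := pell_exists ha h3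
    have hj : j + 2 ≤ v 1 := pellB_small ha h2 hlen (hy ▸ hb 4)
    have hd : ((v 1 : ℤ) - 1) ∣ ((j : ℤ) - v 2) := by
      have e := yy_mod ha j
      rw [← hy] at e
      have h := dvd_sub h4 e
      have e2 : ((v 4 : ℤ) - v 2) - ((v 4 : ℤ) - j) = (j : ℤ) - v 2 := by ring
      rwa [e2] at h
    have h0 : (j : ℤ) - v 2 = 0 := by
      apply Int.eq_zero_of_abs_lt_dvd hd
      rw [abs_lt]
      constructor <;> omega
    have hjk : j = v 2 := by omega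
    rw [hjk] at hx hy
    exact ⟨h1, h2, hx, hy⟩
  · rintro ⟨h1, h2, h3, h4⟩
    have ha : 2 ≤ v 1 := h1.trans h2
    refine ⟨h1, h2, ?_, ?_, ?_⟩
    · rw [h3, h4]
      exact pell_eq ha (v 2)
    · rw [h4]
      exact yy_mod ha (v 2)
    · exact pellB_small ha h2 hlen (h4 ▸ hb 4)

/-- the same with polynomials as arguments -/
theorem DD.pell {σ : Type} [Fintype σ] {o : σ} {a k x y : (σ → ℕ) → ℕ} (ha : NPoly a)
    (hk : NPoly k) (hx : NPoly x) (hy : NPoly y) :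
    DD o (fun v => 2 ≤ v o ∧ v o ≤ a v ∧ x v = xx (a v) (k v) ∧ y v = yy (a v) (k v)) := by
  have h := dd_pell.subst (o' := o) ![fun v => v o, a, k, x, y] (by
    intro i
    fin_cases i
    · exact NPoly.coord o
    · exact ha
    · exact hk
    · exact hx
    · exact hy) (fun v => rfl)
  exact h.congr fun v => Iff.rfl

end Pool.Agent.DNP18
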